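import Pool.Agent.Work.MP_d32e04_co.Problem

/-!
MP_d32e04_co: additive-constant thresholds for perfect H-subdivision tilings.
Working definitions, and the statements of the items of the blueprint (as Props).
-/

set_option autoImplicit false

namespace Pool.Agent.MP_d32e04

open Finset

/-- the bound of Q1 for `n` -/
def Bound {h : ℕ} (H : SimpleGraph (Fin h)) (C : ℝ) (n : ℕ) : Prop :=
  (hcf H ≠ 2 → (deltaSub n H : ℝ) ≤ (1 - 1 / xiStar H) * n + C) ∧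
  (hcf H = 2 → Odd n → (deltaSub n H : ℝ) ≤ 1 / 2 * n + C) ∧
  (hcf H = 2 → Even n → (deltaSub n H : ℝ) ≤ (1 - 1 / xiStar H) * n + C)

/-- Q1 -/
def MainStmt : Prop :=
  ∀ (h : ℕ) (H : SimpleGraph (Fin h)), (∃ u v, H.Adj u v) →
    ∃ C : ℝ, ∀ n : ℕ, 0 < n → Bound H C n

/-! ## Working definitions -/

section defs

variable {V : Type}

/-- all pairs between `P` and `Q` are edges -/
def Cpl (G : SimpleGraph V) (P Q : Finset V) : Prop := ∀ p ∈ P, ∀ q ∈ Q, G.Adj p q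

open Classical in
/-- number of neighbours of `v` in `S` -/
noncomputable def degIn (G : SimpleGraph V) (v : V) (S : Finset V) : ℕ :=
  (S.filter (fun w => G.Adj v w)).card

open Classical in
/-- number of nonneighbours of `v` in `S` -/
noncomputable def misIn (G : SimpleGraph V) (v : V) (S : Finset V) : ℕ :=
  (S.filter (fun w => ¬ G.Adj v w)).card

open Classical in
/-- number of ordered adjacent pairs in `S × T` -/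
noncomputable def e2 (G : SimpleGraph V) (S T : Finset V) : ℕ :=
  ((S ×ˢ T).filter (fun p => G.Adj p.1 p.2)).card

open Classical in
/-- the neighbourhood as a finset -/
noncomputable def nb [Fintype V] (G : SimpleGraph V) (v : V) : Finset V :=
  Finset.univ.filter (fun w => G.Adj v w)

/-- `S` is a disjoint union of tiles -/
inductive Tiled {h : ℕ} [DecidableEq V] (H : SimpleGraph (Fin h)) (G : SimpleGraph V) :
    Finset V → Prop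
  | empty : Tiled H G ∅
  | add (T S : Finset V) : IsSubdivOn H G T → Disjoint T S → Tiled H G S → Tiled H G (T ∪ S)

/-- there is a nearly independent set of size `(1 - ls - γ) n` -/
def Extr [Fintype V] (G : SimpleGraph V) (ls γ : ℝ) : Prop :=
  ∃ B0 : Finset V, (1 - ls - γ) * (Fintype.card V : ℝ) ≤ B0.card ∧
    (e2 G B0 B0 : ℝ) ≤ γ * (Fintype.card V : ℝ) ^ 2

/-- many edges in the neighbourhood -/
def Free [Fintype V] (G : SimpleGraph V) (η : ℝ) (v : V) : Prop :=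
  η * (Fintype.card V : ℝ) ^ 2 ≤ e2 G (nb G v) (nb G v)

/-- many common neighbours or many edges between the neighbourhoods -/
def Good [Fintype V] [DecidableEq V] (G : SimpleGraph V) (η : ℝ) (u w : V) : Prop :=
  η * (Fintype.card V : ℝ) ≤ (nb G u ∩ nb G w).card ∨
    η * (Fintype.card V : ℝ) ^ 2 ≤ e2 G (nb G u) (nb G w)

open Classical in
/-- number of vertices of `S` which are not free -/
noncomputable def nf [Fintype V] (G : SimpleGraph V) (η : ℝ) (S : Finset V) : ℕ :=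
  (S.filter (fun v => ¬ Free G η v)).card

end defs

/-- the data extracted from `H` -/
structure Par {h : ℕ} (H : SimpleGraph (Fin h)) (a b g : ℕ) : Prop where
  ha : 1 ≤ a
  hab : a < b
  edge : ∃ u v, H.Adj u v
  ex : ∃ X, aN H X = a ∧ bN H X = b
  gpos : 0 < g
  gdvd : (g : ℤ) ∣ (b : ℤ) - a
  gen : ∀ z : ℤ, (g : ℤ) ∣ z → ∃ L : List (Finset (Fin h)), L ≠ [] ∧
    (L.map (fun X => (bN H X : ℤ) - aN H X)).sum = z

/-- sizes of complete bipartite graphs tiled in the simplest way -/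
def Tb {h : ℕ} (H : SimpleGraph (Fin h)) (p q : ℕ) : Prop :=
  ∃ L : List (Finset (Fin h) × ℕ), (L.map (fun t => aN H t.1 + t.2)).sum = p ∧
    (L.map (fun t => bN H t.1 + t.2)).sum = q

/-! ## Items -/

/-- 1: the basic tile.  A complete bipartite graph with parts of sizes `aN H X + j` and
`bN H X + j`, in which an edge `x y` is replaced by a path `x R y` through new vertices,
contains a spanning subdivision of `H`. -/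
def TileStmt : Prop :=
  ∀ (h : ℕ) (H : SimpleGraph (Fin h)) (V : Type) [DecidableEq V] (G : SimpleGraph V)
    (X : Finset (Fin h)) (j : ℕ) (P Q : Finset V) (x y : V) (R : List V),
    (∃ u v, H.Adj u v) → Cpl G P Q → P.card = aN H X + j → Q.card = bN H X + j →
    x ∈ P → y ∈ Q → R.Nodup → (∀ r ∈ R, r ∉ P ∧ r ∉ Q) →
    List.IsChain G.Adj (x :: (R ++ [y])) → IsSubdivOn H G (P ∪ Q ∪ R.toFinset)

/-- 2: complete bipartite graphs with sizes in `Tb` -/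
def TbTiledStmt : Prop :=
  ∀ (h : ℕ) (H : SimpleGraph (Fin h)) (V : Type) [DecidableEq V] (G : SimpleGraph V)
    (P Q : Finset V), (∃ u v, H.Adj u v) → Cpl G P Q → Tb H P.card Q.card →
    Tiled H G (P ∪ Q)

/-- 3: nearly balanced sizes -/
def TbBalStmt : Prop :=
  ∀ (h : ℕ) (H : SimpleGraph (Fin h)) (a b g : ℕ), Par H a b g → ∀ z : ℤ, (g : ℤ) ∣ z →
    ∃ s0 : ℕ, ∀ p q : ℕ, s0 ≤ p → (q : ℤ) - p = z → Tb H p q

/-- 4: nearly complete bipartite graphs -/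
def NCBStmt : Prop :=
  ∀ (h : ℕ) (H : SimpleGraph (Fin h)) (a b g : ℕ), Par H a b g → ∀ κ : ℝ, 0 < κ →
  ∃ (τ : ℝ) (c n0 : ℕ), 0 < τ ∧
  ∀ (V : Type) [DecidableEq V] (G : SimpleGraph V) (A B : Finset V),
    Disjoint A B → n0 ≤ A.card + B.card →
    (∀ x ∈ A, (misIn G x B : ℝ) ≤ τ * ((A.card : ℝ) + B.card)) →
    (∀ x ∈ B, (misIn G x A : ℝ) ≤ τ * ((A.card : ℝ) + B.card)) →
    (g : ℤ) ∣ (B.card : ℤ) - A.card →
    a * B.card + c ≤ b * A.card →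
    κ * ((A.card : ℝ) + B.card) ≤ (B.card : ℝ) - A.card →
    Tiled H G (A ∪ B)

/-- 5: the extremal case -/
def ExtrStmt : Prop :=
  ∀ (h : ℕ) (H : SimpleGraph (Fin h)) (a b g : ℕ), Par H a b g →
  ∀ ls : ℝ, 0 < ls → ls < 1 / 2 → a * (1 - ls) ≤ b * ls →
  ∃ (γ : ℝ) (C n0 : ℕ), 0 < γ ∧ γ ≤ 1 / 100 ∧
  ∀ (V : Type) [Fintype V] [DecidableEq V] (G : SimpleGraph V), n0 ≤ Fintype.card V →
    (∀ v, ls * (Fintype.card V : ℝ) + C ≤ degIn G v Finset.univ) →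
    (g = 1 ∨ g = 2 ∧ Even (Fintype.card V)) → Extr G ls γ → Tiled H G Finset.univ

/-- 6: many complete bipartite graphs -/
def KSTCountStmt : Prop :=
  ∀ (s : ℕ) (c : ℝ), 0 < s → 0 < c → ∃ (c1 : ℝ) (n0 : ℕ), 0 < c1 ∧ c1 ≤ 1 ∧
  ∀ (V : Type) [Fintype V] [DecidableEq V] (G : SimpleGraph V) (U1 U2 : Finset V),
    n0 ≤ Fintype.card V → c * (Fintype.card V : ℝ) ^ 2 ≤ e2 G U1 U2 →
    ∃ 𝒮 : Finset (Finset V), c1 * (Fintype.card V : ℝ) ^ (2 * s) ≤ 𝒮.card ∧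
      ∀ S ∈ 𝒮, ∃ P Q, P ⊆ U1 ∧ Q ⊆ U2 ∧ P.card = s ∧ Q.card = s ∧ Cpl G P Q ∧ S = P ∪ Q

/-- 7: Kovari-Sos-Turan -/
def KSTExStmt : Prop :=
  ∀ (s : ℕ) (c : ℝ), 0 < c → ∃ m0 : ℕ,
  ∀ (V : Type) [DecidableEq V] (G : SimpleGraph V) (U1 U2 : Finset V),
    m0 ≤ U1.card → m0 ≤ U2.card → c * U1.card * U2.card ≤ e2 G U1 U2 →
    ∃ P Q, P ⊆ U1 ∧ Q ⊆ U2 ∧ P.card = s ∧ Q.card = s ∧ Cpl G P Q

/-- 8: the absorbing family -/
def AbsStmt : Prop :=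
  ∀ (r : ℕ) (c : ℝ), 0 < r → 0 < c → c ≤ 1 → ∃ κ0 c' : ℝ, 0 < κ0 ∧ 0 < c' ∧
  ∀ κ : ℝ, 0 < κ → κ ≤ κ0 → ∃ n0 : ℕ,
  ∀ (V : Type) [Fintype V] [DecidableEq V], n0 ≤ Fintype.card V →
  ∀ (ι : Type) [Fintype ι] (𝒜 : ι → Finset (Finset V)),
    (Fintype.card ι : ℝ) ≤ 2 * (Fintype.card V : ℝ) ^ 2 →
    (∀ i, ∀ S ∈ 𝒜 i, S.card = r) → (∀ i, c * (Fintype.card V : ℝ) ^ r ≤ (𝒜 i).card) →
    ∀ Z : Finset V, (Z.card : ℝ) ≤ κ * Fintype.card V →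
    ∃ F : Finset (Finset V), (∀ S ∈ F, ∀ S' ∈ F, S ≠ S' → Disjoint S S') ∧
      (∀ S ∈ F, ∃ i, S ∈ 𝒜 i) ∧ (∀ S ∈ F, Disjoint S Z) ∧
      (F.card : ℝ) ≤ κ * Fintype.card V ∧
      ∀ i, c' * κ * Fintype.card V ≤ (F ∩ 𝒜 i).card

/-- 9: absorption -/
def AbsorbStmt : Prop :=
  ∀ (h : ℕ) (H : SimpleGraph (Fin h)) (r : ℕ) (c θ : ℝ), 0 < r → 0 < c → c ≤ 1 → 0 < θ →
  ∃ (μ : ℝ) (n0 : ℕ), 0 < μ ∧
  ∀ (V : Type) [Fintype V] [DecidableEq V] (G : SimpleGraph V), n0 ≤ Fintype.card V →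
  ∀ (𝒳 : Finset (Finset V)) (Z : Finset V), (∀ X ∈ 𝒳, X.Nonempty ∧ X.card ≤ 2) →
    (∀ X ∈ 𝒳, ∃ 𝒮 : Finset (Finset V), c * (Fintype.card V : ℝ) ^ r ≤ 𝒮.card ∧
      ∀ S ∈ 𝒮, S.card = r ∧ Tiled H G S ∧ Disjoint S X ∧ Tiled H G (S ∪ X)) →
    (Z.card : ℝ) ≤ μ * Fintype.card V →
    ∃ F : Finset (Finset V), (∀ S ∈ F, ∀ S' ∈ F, S ≠ S' → Disjoint S S') ∧
      (∀ S ∈ F, S.card = r ∧ Tiled H G S ∧ Disjoint S Z) ∧
      ((F.biUnion id).card : ℝ) ≤ θ * Fintype.card V ∧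
      ∀ 𝒴 ⊆ 𝒳, (∀ Y ∈ 𝒴, ∀ Y' ∈ 𝒴, Y ≠ Y' → Disjoint Y Y') →
        (∀ Y ∈ 𝒴, Disjoint Y (F.biUnion id)) → (𝒴.card : ℝ) ≤ μ * Fintype.card V →
        Tiled H G (F.biUnion id ∪ 𝒴.biUnion id)

/-- 10: reduced graph from the regularity lemma -/
def RegStmt : Prop :=
  ∀ ε d : ℝ, 0 < ε → ε ≤ 1 / 2 → 0 < d → d ≤ 1 / 2 → ∃ K n0 : ℕ,
  ∀ (V : Type) [Fintype V] [DecidableEq V] (G : SimpleGraph V), n0 ≤ Fintype.card V →
    ∃ (k m : ℕ) (Vc : Fin k → Finset V) (R : SimpleGraph (Fin k)), 0 < k ∧ k ≤ K ∧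
      (∀ i, (Vc i).card = m) ∧ (∀ i j, i ≠ j → Disjoint (Vc i) (Vc j)) ∧
      (1 - ε) * (Fintype.card V : ℝ) ≤ (k : ℝ) * m ∧
      (∀ i j, R.Adj i j → ∀ X ⊆ Vc i, ∀ Y ⊆ Vc j, ε * m ≤ X.card → ε * m ≤ Y.card →
        d * X.card * Y.card ≤ e2 G X Y) ∧
      (∀ i, (e2 G (Vc i) Finset.univ : ℝ) ≤ (∑ j ∈ nb R i, (e2 G (Vc i) (Vc j) : ℝ)) +
        (4 * d + 4 * ε) * m * Fintype.card V)

/-- 11: fractional tiling of the reduced graph with small support -/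
def LPStmt : Prop :=
  ∀ (a b k : ℕ) (R : SimpleGraph (Fin k)) (ρ ι : ℝ), 1 ≤ a → a < b → 0 < k → 0 < ρ →
    (∀ i, ρ * k ≤ (nb R i).card) →
    (∀ I : Finset (Fin k), (∀ i ∈ I, ∀ j ∈ I, ¬ R.Adj i j) → (I.card : ℝ) ≤ ι * k) →
    a * ι ≤ b * ρ →
    ∃ x : Fin k → Fin k → ℝ, (∀ i j, 0 ≤ x i j) ∧ (∀ i j, ¬ R.Adj i j → x i j = 0) ∧
      (∀ i, ∑ j, (a * x i j + b * x j i) = 1) ∧
      ((Finset.univ : Finset (Fin k × Fin k)).filter (fun p => x p.1 p.2 ≠ 0)).card ≤ k + 1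

/-- 12: greedy tiling of a regular pair -/
def PairStmt : Prop :=
  ∀ (a b : ℕ) (d ε : ℝ), 1 ≤ a → 1 ≤ b → 0 < d → 0 < ε → ∃ m0 : ℕ,
  ∀ (V : Type) [DecidableEq V] (G : SimpleGraph V) (P Q : Finset V) (t m : ℕ),
    m0 ≤ m → P.card = a * t → Q.card = b * t → Disjoint P Q →
    (∀ X ⊆ P, ∀ Y ⊆ Q, ε * m ≤ X.card → ε * m ≤ Y.card → d * X.card * Y.card ≤ e2 G X Y) →
    ∃ 𝒯 : Finset (Finset V × Finset V),
      (∀ p ∈ 𝒯, p.1 ⊆ P ∧ p.2 ⊆ Q ∧ p.1.card = a ∧ p.2.card = b ∧ Cpl G p.1 p.2) ∧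
      (∀ p ∈ 𝒯, ∀ p' ∈ 𝒯, p ≠ p' → Disjoint (p.1 ∪ p.2) (p'.1 ∪ p'.2)) ∧
      ((((P ∪ Q) \ 𝒯.biUnion (fun p => p.1 ∪ p.2)).card : ℕ) : ℝ) ≤
        ((a : ℝ) + b) * (ε * m + 1)

/-- 13: almost perfect tiling, whole graph -/
def Almost0Stmt : Prop :=
  ∀ (a b : ℕ) (ls γ : ℝ), 1 ≤ a → a < b → 0 < ls → ls < 1 / 2 → a * (1 - ls) ≤ b * ls →
  0 < γ → ∃ θ : ℝ, 0 < θ ∧ ∀ μ : ℝ, 0 < μ → ∃ n0 : ℕ,
  ∀ (V : Type) [Fintype V] [DecidableEq V] (G : SimpleGraph V), n0 ≤ Fintype.card V →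
    (∀ v, (ls - θ) * (Fintype.card V : ℝ) ≤ degIn G v Finset.univ) → ¬ Extr G ls γ →
    ∃ 𝒯 : Finset (Finset V × Finset V),
      (∀ p ∈ 𝒯, p.1.card = a ∧ p.2.card = b ∧ Cpl G p.1 p.2) ∧
      (∀ p ∈ 𝒯, ∀ p' ∈ 𝒯, p ≠ p' → Disjoint (p.1 ∪ p.2) (p'.1 ∪ p'.2)) ∧
      (((Finset.univ \ 𝒯.biUnion (fun p => p.1 ∪ p.2)).card : ℕ) : ℝ) ≤
        μ * Fintype.card V

/-- 14: almost perfect tiling of a subset -/
def AlmostStmt : Prop :=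
  ∀ (a b : ℕ) (ls γ : ℝ), 1 ≤ a → a < b → 0 < ls → ls < 1 / 2 → a * (1 - ls) ≤ b * ls →
  0 < γ → ∃ θ : ℝ, 0 < θ ∧ ∀ μ : ℝ, 0 < μ → ∃ n0 : ℕ,
  ∀ (V : Type) [Fintype V] [DecidableEq V] (G : SimpleGraph V) (Z : Finset V),
    n0 ≤ Fintype.card V → (Z.card : ℝ) ≤ θ * Fintype.card V →
    (∀ v, ls * (Fintype.card V : ℝ) ≤ degIn G v Finset.univ) → ¬ Extr G ls γ →
    ∃ 𝒯 : Finset (Finset V × Finset V),
      (∀ p ∈ 𝒯, p.1.card = a ∧ p.2.card = b ∧ Cpl G p.1 p.2 ∧ Disjoint (p.1 ∪ p.2) Z) ∧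
      (∀ p ∈ 𝒯, ∀ p' ∈ 𝒯, p ≠ p' → Disjoint (p.1 ∪ p.2) (p'.1 ∪ p'.2)) ∧
      ((((Finset.univ \ Z) \ 𝒯.biUnion (fun p => p.1 ∪ p.2)).card : ℕ) : ℝ) ≤
        μ * Fintype.card V

/-- 15: the nonextremal case, `g = 1` -/
def Non1Stmt : Prop :=
  ∀ (h : ℕ) (H : SimpleGraph (Fin h)) (a b : ℕ), Par H a b 1 →
  ∀ ls γ : ℝ, 0 < ls → ls < 1 / 2 → a * (1 - ls) ≤ b * ls → 0 < γ → ∃ n0 : ℕ,
  ∀ (V : Type) [Fintype V] [DecidableEq V] (G : SimpleGraph V), n0 ≤ Fintype.card V →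
    (∀ v, ls * (Fintype.card V : ℝ) ≤ degIn G v Finset.univ) → ¬ Extr G ls γ →
    Tiled H G Finset.univ

/-- 16: two non-free vertices are a good pair -/
def GoodPairStmt : Prop :=
  ∀ (ls γ : ℝ), 1 / 3 ≤ ls → ls < 1 / 2 → 0 < γ → ∀ η : ℝ, 0 < η → η ≤ γ / 4 →
  ∀ (V : Type) [Fintype V] [DecidableEq V] (G : SimpleGraph V),
    (∀ v, ls * (Fintype.card V : ℝ) ≤ degIn G v Finset.univ) → ¬ Extr G ls γ →
    ∀ u w, ¬ Free G η u → ¬ Free G η w → Good G η u w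

/-- 17: parity -/
def ParityStmt : Prop :=
  ∀ (h : ℕ) (H : SimpleGraph (Fin h)) (a b : ℕ), Par H a b 2 → ∃ η0 : ℝ, 0 < η0 ∧
  ∀ η : ℝ, 0 < η → η ≤ η0 → ∃ C t0 n0 : ℕ,
  ∀ (V : Type) [Fintype V] [DecidableEq V] (G : SimpleGraph V), n0 ≤ Fintype.card V →
    Even (Fintype.card V) →
    (∀ v, 1 / 3 * (Fintype.card V : ℝ) + C ≤ degIn G v Finset.univ) →
    Odd (nf G η Finset.univ) → ∃ T, Tiled H G T ∧ T.card ≤ t0 ∧ Odd (nf G η T)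

/-- 18: the nonextremal case, `g = 2` -/
def Non2Stmt : Prop :=
  ∀ (h : ℕ) (H : SimpleGraph (Fin h)) (a b : ℕ), Par H a b 2 →
  ∀ ls γ : ℝ, 1 / 3 ≤ ls → ls < 1 / 2 → a * (1 - ls) ≤ b * ls → 0 < γ → ∃ C n0 : ℕ,
  ∀ (V : Type) [Fintype V] [DecidableEq V] (G : SimpleGraph V), n0 ≤ Fintype.card V →
    Even (Fintype.card V) →
    (∀ v, ls * (Fintype.card V : ℝ) + C ≤ degIn G v Finset.univ) → ¬ Extr G ls γ →
    Tiled H G Finset.univ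

/-- 19: Hamilton paths with given ends -/
def HamStmt : Prop :=
  ∀ (V : Type) [Fintype V] [DecidableEq V] (G : SimpleGraph V) (x y : V), x ≠ y →
    (∀ v, 1 / 2 * (Fintype.card V : ℝ) + 1 ≤ degIn G v Finset.univ) →
    ∃ R : List V, R.Nodup ∧ x ∉ R ∧ y ∉ R ∧ List.IsChain G.Adj (x :: (R ++ [y])) ∧
      ∀ v, v = x ∨ v = y ∨ v ∈ R

/-- 20: spanning subdivisions above `n / 2` -/
def HalfStmt : Prop :=
  ∀ (h : ℕ) (H : SimpleGraph (Fin h)), (∃ u v, H.Adj u v) → ∃ C : ℕ,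
  ∀ (V : Type) [Fintype V] [DecidableEq V] [Nonempty V] (G : SimpleGraph V),
    (∀ v, 1 / 2 * (Fintype.card V : ℝ) + C ≤ degIn G v Finset.univ) →
    IsSubdivOn H G Finset.univ

/-- 21: the parameters of `H` -/
def ParStmt : Prop :=
  ∀ (h : ℕ) (H : SimpleGraph (Fin h)), (∃ u v, H.Adj u v) → hcf H ≠ 0 →
    ∃ a b : ℕ, Par H a b (hcf H) ∧ 1 - 1 / xi H = (a : ℝ) / ((a : ℝ) + b)

/-- 5a: structure of the extremal case -/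
def SplitStmt : Prop :=
  ∀ ls τ ζ : ℝ, 0 < ls → ls < 1 / 2 → 0 < τ → τ ≤ 1 / 8 → 0 < ζ →
  ∃ γ : ℝ, 0 < γ ∧ γ ≤ 1 / 100 ∧
  ∀ (V : Type) [Fintype V] [DecidableEq V] (G : SimpleGraph V),
    (∀ v, ls * (Fintype.card V : ℝ) ≤ degIn G v Finset.univ) → Extr G ls γ →
    ∃ A B : Finset V, Disjoint A B ∧ A ∪ B = Finset.univ ∧
      (∀ v ∈ B, (degIn G v B : ℝ) ≤ 2 * τ * Fintype.card V) ∧
      (∀ v ∈ B, (misIn G v A : ℝ) ≤ 3 * τ * Fintype.card V) ∧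
      (∀ v ∈ A, τ / 2 * (Fintype.card V : ℝ) ≤ degIn G v B) ∧
      (∃ D ⊆ A, (D.card : ℝ) ≤ ζ * Fintype.card V ∧
        ∀ v ∈ A, v ∉ D → (misIn G v B : ℝ) ≤ τ * Fintype.card V) ∧
      |(B.card : ℝ) - (1 - ls) * Fintype.card V| ≤ ζ * Fintype.card V

/-- 5b: disjoint edges -/
def MatchStmt : Prop :=
  ∀ (V : Type) [DecidableEq V] (G : SimpleGraph V) (B : Finset V) (D m : ℕ),
    (∀ v ∈ B, degIn G v B ≤ D) → 4 * m * D < e2 G B B →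
    ∃ M : Finset (V × V), M.card = m ∧ (∀ p ∈ M, p.1 ∈ B ∧ p.2 ∈ B ∧ G.Adj p.1 p.2) ∧
      ∀ p ∈ M, ∀ q ∈ M, p ≠ q → p.1 ≠ q.1 ∧ p.1 ≠ q.2 ∧ p.2 ≠ q.1 ∧ p.2 ≠ q.2

end Pool.Agent.MP_d32e04
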