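import Mathlib
import Pool.Agent.Work.MP_d32e04_co.Defs

/-!
MP_d32e04_co, item 8: the absorbing family (pure finite combinatorics, potential function).
-/

set_option autoImplicit false

namespace Pool.Agent.MP_d32e04

open Finset

/-- number of `r`-sets meeting `U` -/
lemma card_meet_le {V : Type} [Fintype V] [DecidableEq V] (r : ℕ) (U : Finset V) :
    ((powersetCard r (univ : Finset V)).filter (fun S => ¬ Disjoint S U)).card ≤
      U.card * Fintype.card V ^ (r - 1) := by
  have hsub : (powersetCard r (univ : Finset V)).filter (fun S => ¬ Disjoint S U) ⊆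
      U.biUnion (fun u => (powersetCard (r - 1) (univ : Finset V)).image (insert u)) := by
    intro S hS
    rw [mem_filter, mem_powersetCard] at hS
    obtain ⟨⟨-, hc⟩, hd⟩ := hS
    rw [Finset.not_disjoint_iff] at hd
    obtain ⟨u, hu1, hu2⟩ := hd
    rw [mem_biUnion]
    refine ⟨u, hu2, ?_⟩
    rw [mem_image]
    refine ⟨S.erase u, ?_, insert_erase hu1⟩
    rw [mem_powersetCard]
    exact ⟨subset_univ _, by rw [card_erase_of_mem hu1, hc]⟩
  refine (card_le_card hsub).trans (card_biUnion_le.trans ?_)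
  calc ∑ u ∈ U, ((powersetCard (r - 1) (univ : Finset V)).image (insert u)).card
      ≤ ∑ u ∈ U, Fintype.card V ^ (r - 1) := by
        apply sum_le_sum
        intro u _
        refine card_image_le.trans ?_
        rw [card_powersetCard, card_univ]
        exact Nat.choose_le_pow _ _
    _ = U.card * Fintype.card V ^ (r - 1) := by rw [sum_const, smul_eq_mul]

/-- one step of the potential argument -/
lemma abs_step {V : Type} [Fintype V] [DecidableEq V] (r : ℕ) (c : ℝ) (hr : 0 < r) (hc : 0 < c)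
    {ι : Type} [Fintype ι] [Nonempty ι] (𝒜 : ι → Finset (Finset V))
    (hcard : ∀ i, ∀ S ∈ 𝒜 i, S.card = r)
    (hbig : ∀ i, c * (Fintype.card V : ℝ) ^ r ≤ (𝒜 i).card)
    (hn : 0 < Fintype.card V) (w : ι → ℝ) (hw : ∀ i, 0 < w i) (U : Finset V)
    (hU : (U.card : ℝ) ≤ c / 2 * Fintype.card V) :
    ∃ S : Finset V, S.card = r ∧ Disjoint S U ∧ (∃ i, S ∈ 𝒜 i) ∧
      c / 2 * ∑ i, w i ≤ ∑ i, (if S ∈ 𝒜 i then w i else 0) := by
  classical
  set n : ℝ := (Fintype.card V : ℝ) with hndef
  have hnpos : 0 < n := by rw [hndef]; exact_mod_cast hn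
  set 𝒢 : Finset (Finset V) :=
    (powersetCard r (univ : Finset V)).filter (fun S => Disjoint S U) with h𝒢
  have hΦ : 0 < ∑ i, w i := sum_pos (fun i _ => hw i) univ_nonempty
  -- for every i many members of 𝒜 i avoid U
  have havoid : ∀ i, c / 2 * n ^ r ≤ ((𝒢.filter (fun S => S ∈ 𝒜 i)).card : ℝ) := by
    intro i
    have h1 : (𝒜 i).card ≤ (𝒢.filter (fun S => S ∈ 𝒜 i)).card +
        ((powersetCard r (univ : Finset V)).filter (fun S => ¬ Disjoint S U)).card := by
      rw [← card_filter_add_card_filter_not (s := 𝒜 i) (fun S => Disjoint S U)]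
      apply Nat.add_le_add
      · apply card_le_card
        intro S hS
        rw [mem_filter] at hS
        rw [mem_filter, h𝒢, mem_filter, mem_powersetCard]
        exact ⟨⟨⟨subset_univ _, hcard i S hS.1⟩, hS.2⟩, hS.1⟩
      · apply card_le_card
        intro S hS
        rw [mem_filter] at hS
        rw [mem_filter, mem_powersetCard]
        exact ⟨⟨subset_univ _, hcard i S hS.1⟩, hS.2⟩
    have h2 := card_meet_le r U
    have h3 : (((powersetCard r (univ : Finset V)).filter (fun S => ¬ Disjoint S U)).card : ℝ) ≤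
        c / 2 * n ^ r := by
      calc (((powersetCard r (univ : Finset V)).filter (fun S => ¬ Disjoint S U)).card : ℝ)
          ≤ (U.card : ℝ) * n ^ (r - 1) := by rw [hndef]; exact_mod_cast h2
        _ ≤ c / 2 * n * n ^ (r - 1) := by
            apply mul_le_mul_of_nonneg_right hU (pow_nonneg hnpos.le _)
        _ = c / 2 * n ^ r := by
            rw [mul_assoc, ← pow_succ', Nat.sub_add_cancel hr]
    have h4 : ((𝒜 i).card : ℝ) ≤ ((𝒢.filter (fun S => S ∈ 𝒜 i)).card : ℝ) +
        (((powersetCard r (univ : Finset V)).filter (fun S => ¬ Disjoint S U)).card : ℝ) := by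
      exact_mod_cast h1
    have h5 := hbig i
    linarith
  -- double counting
  have hdc : ∑ S ∈ 𝒢, ∑ i, (if S ∈ 𝒜 i then w i else 0) =
      ∑ i, w i * ((𝒢.filter (fun S => S ∈ 𝒜 i)).card : ℝ) := by
    rw [sum_comm]
    apply sum_congr rfl
    intro i _
    rw [← sum_filter, sum_const, nsmul_eq_mul, mul_comm]
  have hlow : c / 2 * n ^ r * ∑ i, w i ≤ ∑ S ∈ 𝒢, ∑ i, (if S ∈ 𝒜 i then w i else 0) := by
    rw [hdc, mul_sum]
    apply sum_le_sum
    intro i _
    rw [mul_comm]
    exact mul_le_mul_of_nonneg_left (havoid i) (hw i).le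
  have hcard𝒢 : (𝒢.card : ℝ) ≤ n ^ r := by
    have : 𝒢.card ≤ Fintype.card V ^ r := by
      refine (card_filter_le _ _).trans ?_
      rw [card_powersetCard, card_univ]
      exact Nat.choose_le_pow _ _
    rw [hndef]; exact_mod_cast this
  -- a good S
  have hex : ∃ S ∈ 𝒢, c / 2 * ∑ i, w i ≤ ∑ i, (if S ∈ 𝒜 i then w i else 0) := by
    by_contra hcon
    push Not at hcon
    have hne : 𝒢.Nonempty := by
      rw [nonempty_iff_ne_empty]
      intro he
      rw [he, sum_empty] at hlow
      have : 0 < c / 2 * n ^ r * ∑ i, w i := by positivity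
      linarith
    have h1 : ∑ S ∈ 𝒢, ∑ i, (if S ∈ 𝒜 i then w i else 0) < ∑ S ∈ 𝒢, (c / 2 * ∑ i, w i) :=
      sum_lt_sum_of_nonempty hne hcon
    rw [sum_const, nsmul_eq_mul] at h1
    have h2 : (𝒢.card : ℝ) * (c / 2 * ∑ i, w i) ≤ n ^ r * (c / 2 * ∑ i, w i) :=
      mul_le_mul_of_nonneg_right hcard𝒢 (by positivity)
    have h3 : n ^ r * (c / 2 * ∑ i, w i) = c / 2 * n ^ r * ∑ i, w i := by ring
    linarith
  obtain ⟨S, hS, hSw⟩ := hex
  rw [h𝒢, mem_filter, mem_powersetCard] at hS
  refine ⟨S, hS.1.2, hS.2, ?_, hSw⟩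
  by_contra hno
  push Not at hno
  have h0 : ∑ i, (if S ∈ 𝒜 i then w i else 0) = 0 := by
    apply sum_eq_zero
    intro i _
    rw [if_neg (hno i)]
  rw [h0] at hSw
  have : 0 < c / 2 * ∑ i, w i := by positivity
  linarith

/-- numerical bound -/
lemma abs_num (δ : ℝ) (hδ : 0 < δ) : ∃ n0 : ℕ, 1 ≤ n0 ∧ ∀ n : ℕ, n0 ≤ n →
    2 * (n : ℝ) ^ 2 * Real.exp 1 ≤ Real.exp (δ * n) := by
  obtain ⟨n0, hn0⟩ := exists_nat_ge (36 / δ ^ 3)
  refine ⟨n0 + 1, by omega, ?_⟩
  intro n hn
  have hn' : (36 / δ ^ 3) ≤ (n : ℝ) := by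
    refine hn0.trans ?_
    exact_mod_cast (by omega : n0 ≤ n)
  have hnn : (0 : ℝ) ≤ n := Nat.cast_nonneg n
  have h1 := Real.pow_div_factorial_le_exp (δ * n) (by positivity) 3
  refine le_trans ?_ h1
  have h2 : Real.exp 1 ≤ 3 := by
    have := Real.exp_one_lt_d9
    linarith
  have h3 : (Nat.factorial 3 : ℝ) = 6 := by norm_num [Nat.factorial]
  rw [h3]
  rw [div_le_iff₀ (by positivity)] at hn'
  calc 2 * (n : ℝ) ^ 2 * Real.exp 1 ≤ 2 * (n : ℝ) ^ 2 * 3 := by
        apply mul_le_mul_of_nonneg_left h2 (by positivity)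
    _ = (n : ℝ) ^ 2 * 36 / 6 := by ring
    _ ≤ (n : ℝ) ^ 2 * ((n : ℝ) * δ ^ 3) / 6 := by
        apply div_le_div_of_nonneg_right _ (by norm_num)
        apply mul_le_mul_of_nonneg_left hn' (by positivity)
    _ = (δ * n) ^ 3 / 6 := by ring

theorem abs_family : AbsStmt := by
  classical
  intro r c hr hc hc1
  refine ⟨c / (2 * (r + 1)), c / 16, by positivity, by positivity, ?_⟩
  intro κ hκ hκ0
  obtain ⟨n0, hn0, hnum⟩ := abs_num (3 * c * κ / 16) (by positivity)
  refine ⟨n0, ?_⟩
  intro V _ _ hn ι _ 𝒜 hι hcard hbig Z hZ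
  have hnpos : 0 < Fintype.card V := by omega
  rcases isEmpty_or_nonempty ι with hemp | hne
  · refine ⟨∅, by simp, by simp, by simp, ?_, fun i => (hemp.false i).elim⟩
    simp only [card_empty, Nat.cast_zero]
    positivity
  set n : ℝ := (Fintype.card V : ℝ) with hndef
  have hnp : 0 < n := by rw [hndef]; exact_mod_cast hnpos
  have key : ∀ t : ℕ, (t : ℝ) ≤ κ * n → ∃ F : Finset (Finset V),
      (∀ S ∈ F, ∀ S' ∈ F, S ≠ S' → Disjoint S S') ∧
      (∀ S ∈ F, ∃ i, S ∈ 𝒜 i) ∧ (∀ S ∈ F, Disjoint S Z) ∧ F.card ≤ t ∧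
      ∑ i, (1 / 2 : ℝ) ^ (F ∩ 𝒜 i).card ≤ (Fintype.card ι : ℝ) * (1 - c / 4) ^ t := by
    intro t
    induction t with
    | zero =>
      intro _
      refine ⟨∅, by simp, by simp, by simp, by simp, ?_⟩
      simp
    | succ t ih =>
      intro ht
      have ht' : (t : ℝ) ≤ κ * n := by push_cast at ht; linarith
      obtain ⟨F, hF1, hF2, hF3, hF4, hF5⟩ := ih ht'
      have hUc : ((Z ∪ F.biUnion id).card : ℝ) ≤ c / 2 * Fintype.card V := by
        have h1 : (Z ∪ F.biUnion id).card ≤ Z.card + F.card * r := by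
          refine (card_union_le _ _).trans (Nat.add_le_add_left ?_ _)
          refine card_biUnion_le.trans ?_
          rw [← smul_eq_mul, ← sum_const]
          apply sum_le_sum
          intro S hS
          obtain ⟨i, hi⟩ := hF2 S hS
          exact (hcard i S hi).le
        have h2 : ((Z ∪ F.biUnion id).card : ℝ) ≤ (Z.card : ℝ) + (F.card : ℝ) * r := by
          exact_mod_cast h1
        have h3 : (F.card : ℝ) ≤ κ * n := by
          refine le_trans ?_ ht'
          exact_mod_cast hF4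
        have h4 : (F.card : ℝ) * r ≤ κ * n * r :=
          mul_le_mul_of_nonneg_right h3 (Nat.cast_nonneg r)
        have h5 : κ * n + κ * n * r ≤ c / 2 * n := by
          have h6 : κ * (r + 1) ≤ c / 2 := by
            have h7 : κ * (2 * ((r : ℝ) + 1)) ≤ c := by
              rwa [le_div_iff₀ (by positivity)] at hκ0
            linarith
          have h8 : κ * (r + 1) * n ≤ c / 2 * n := mul_le_mul_of_nonneg_right h6 hnp.le
          linarith
        rw [← hndef]
        linarith
      obtain ⟨S, hS1, hS2, hS3, hS4⟩ := abs_step r c hr hc 𝒜 hcard hbig hnpos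
        (fun i => (1 / 2 : ℝ) ^ (F ∩ 𝒜 i).card) (fun i => by positivity) (Z ∪ F.biUnion id) hUc
      rw [disjoint_union_right] at hS2
      have hSne : S.Nonempty := by rw [← card_pos, hS1]; exact hr
      have hSd : ∀ S' ∈ F, Disjoint S S' := by
        intro S' hS'
        exact hS2.2.mono_right (subset_biUnion_of_mem id hS')
      have hSF : S ∉ F := by
        intro h
        have := hSd S h
        rw [disjoint_self_iff_empty] at this
        exact hSne.ne_empty this
      refine ⟨insert S F, ?_, ?_, ?_, ?_, ?_⟩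
      · intro A hA B hB hAB
        rw [mem_insert] at hA hB
        rcases hA with rfl | hA
        · rcases hB with rfl | hB
          · exact (hAB rfl).elim
          · exact hSd B hB
        · rcases hB with rfl | hB
          · exact (hSd A hA).symm
          · exact hF1 A hA B hB hAB
      · intro A hA
        rw [mem_insert] at hA
        rcases hA with rfl | hA
        · exact hS3
        · exact hF2 A hA
      · intro A hA
        rw [mem_insert] at hA
        rcases hA with rfl | hA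
        · exact hS2.1
        · exact hF3 A hA
      · rw [card_insert_of_notMem hSF]; omega
      · have h1 : ∀ i, (1 / 2 : ℝ) ^ (insert S F ∩ 𝒜 i).card =
            (1 / 2 : ℝ) ^ (F ∩ 𝒜 i).card -
              1 / 2 * (if S ∈ 𝒜 i then (1 / 2 : ℝ) ^ (F ∩ 𝒜 i).card else 0) := by
          intro i
          by_cases hi : S ∈ 𝒜 i
          · rw [insert_inter_of_mem hi, card_insert_of_notMem (by simp [hSF]), if_pos hi, pow_succ]
            ring
          · rw [insert_inter_of_notMem hi, if_neg hi]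
            ring
        rw [sum_congr rfl (fun i _ => h1 i), sum_sub_distrib, ← mul_sum]
        have h2 : 0 ≤ 1 - c / 4 := by linarith
        calc (∑ i, (1 / 2 : ℝ) ^ (F ∩ 𝒜 i).card) -
              1 / 2 * ∑ i, (if S ∈ 𝒜 i then (1 / 2 : ℝ) ^ (F ∩ 𝒜 i).card else 0)
            ≤ (∑ i, (1 / 2 : ℝ) ^ (F ∩ 𝒜 i).card) -
              1 / 2 * (c / 2 * ∑ i, (1 / 2 : ℝ) ^ (F ∩ 𝒜 i).card) := by linarith
          _ = (1 - c / 4) * ∑ i, (1 / 2 : ℝ) ^ (F ∩ 𝒜 i).card := by ring
          _ ≤ (1 - c / 4) * ((Fintype.card ι : ℝ) * (1 - c / 4) ^ t) :=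
              mul_le_mul_of_nonneg_left hF5 h2
          _ = (Fintype.card ι : ℝ) * (1 - c / 4) ^ (t + 1) := by ring
  have hm : ((⌊κ * n⌋₊ : ℕ) : ℝ) ≤ κ * n := Nat.floor_le (by positivity)
  obtain ⟨F, hF1, hF2, hF3, hF4, hF5⟩ := key _ hm
  refine ⟨F, hF1, hF2, hF3, ?_, ?_⟩
  · refine le_trans ?_ hm
    exact_mod_cast hF4
  · intro i
    by_contra hcon
    push Not at hcon
    set k := (F ∩ 𝒜 i).card with hk
    have h1 : (1 / 2 : ℝ) ^ k ≤ (Fintype.card ι : ℝ) * (1 - c / 4) ^ ⌊κ * n⌋₊ := by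
      refine le_trans ?_ hF5
      exact single_le_sum (f := fun i => (1 / 2 : ℝ) ^ (F ∩ 𝒜 i).card)
        (fun i _ => by positivity) (mem_univ i)
    have h2 : Real.exp (-(k : ℝ)) ≤ (1 / 2 : ℝ) ^ k := by
      have h21 : Real.exp (-(k : ℝ)) = Real.exp (-1) ^ k := by
        rw [← Real.exp_nat_mul]; congr 1; ring
      rw [h21]
      apply pow_le_pow_left₀ (Real.exp_pos _).le
      rw [Real.exp_neg]
      rw [one_div]
      apply inv_anti₀ (by norm_num)
      have := Real.exp_one_gt_d9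
      linarith
    have h3 : (1 - c / 4) ^ ⌊κ * n⌋₊ ≤ Real.exp (-(c / 4) * (κ * n - 1)) := by
      have h31 : (1 - c / 4) ≤ Real.exp (-(c / 4)) := Real.one_sub_le_exp_neg _
      calc (1 - c / 4) ^ ⌊κ * n⌋₊ ≤ Real.exp (-(c / 4)) ^ ⌊κ * n⌋₊ :=
            pow_le_pow_left₀ (by linarith) h31 _
        _ = Real.exp (-(c / 4) * (⌊κ * n⌋₊ : ℝ)) := by
            rw [← Real.exp_nat_mul]; congr 1; ring
        _ ≤ Real.exp (-(c / 4) * (κ * n - 1)) := by
            apply Real.exp_le_exp.mpr
            have h32 : κ * n - 1 ≤ (⌊κ * n⌋₊ : ℝ) := by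
              have := Nat.lt_floor_add_one (κ * n)
              linarith
            have h33 : (c / 4) * (κ * n - 1) ≤ (c / 4) * (⌊κ * n⌋₊ : ℝ) :=
              mul_le_mul_of_nonneg_left h32 (by positivity)
            linarith
    have h4 : Real.exp (-(k : ℝ)) ≤ 2 * n ^ 2 * Real.exp (-(c / 4) * (κ * n - 1)) := by
      refine h2.trans (h1.trans ?_)
      apply mul_le_mul hι h3 (by
        apply pow_nonneg; linarith) (by positivity)
    have h5 : Real.exp (-(c / 16 * κ * n)) < Real.exp (-(k : ℝ)) := by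
      apply Real.exp_lt_exp.mpr
      linarith
    have h6 := hnum (Fintype.card V) hn
    rw [show ((Fintype.card V : ℕ) : ℝ) = n from rfl] at h6
    have h7 : 2 * n ^ 2 * Real.exp (-(c / 4) * (κ * n - 1)) ≤ Real.exp (-(c / 16 * κ * n)) := by
      have h71 : Real.exp (-(c / 4) * (κ * n - 1)) ≤
          Real.exp 1 * Real.exp (-(c / 4) * (κ * n)) := by
        rw [← Real.exp_add]
        apply Real.exp_le_exp.mpr
        linarith
      calc 2 * n ^ 2 * Real.exp (-(c / 4) * (κ * n - 1))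
          ≤ 2 * n ^ 2 * (Real.exp 1 * Real.exp (-(c / 4) * (κ * n))) :=
            mul_le_mul_of_nonneg_left h71 (by positivity)
        _ = (2 * n ^ 2 * Real.exp 1) * Real.exp (-(c / 4) * (κ * n)) := by ring
        _ ≤ Real.exp (3 * c * κ / 16 * n) * Real.exp (-(c / 4) * (κ * n)) :=
            mul_le_mul_of_nonneg_right h6 (Real.exp_pos _).le
        _ = Real.exp (-(c / 16 * κ * n)) := by
            rw [← Real.exp_add]; congr 1; ring
    linarith

end Pool.Agent.MP_d32e04
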