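import Pool.Agent.Work.MP_d32e04_co.Basic

/-!
MP_d32e04_co: absorption.
-/

set_option autoImplicit false

namespace Pool.Agent.MP_d32e04

open Finset

lemma card_family_le {V : Type} [Fintype V] [DecidableEq V] (𝒳 : Finset (Finset V))
    (hX : ∀ X ∈ 𝒳, X.Nonempty ∧ X.card ≤ 2) :
    (𝒳.card : ℝ) ≤ 2 * (Fintype.card V : ℝ) ^ 2 := by
  have h1 : 𝒳 ⊆ (Finset.univ : Finset (V × V)).image (fun p => ({p.1, p.2} : Finset V)) := by
    intro X hXm
    obtain ⟨hne, hcard⟩ := hX X hXm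
    rw [Finset.mem_image]
    have hpos : 0 < X.card := Finset.card_pos.mpr hne
    have : X.card = 1 ∨ X.card = 2 := by omega
    rcases this with h | h
    · obtain ⟨a, ha⟩ := Finset.card_eq_one.mp h
      exact ⟨(a, a), Finset.mem_univ _, by rw [ha]; simp⟩
    · obtain ⟨a, b, _, hab⟩ := Finset.card_eq_two.mp h
      exact ⟨(a, b), Finset.mem_univ _, hab.symm⟩
  have h2 : 𝒳.card ≤ Fintype.card V * Fintype.card V := by
    refine (Finset.card_le_card h1).trans (Finset.card_image_le.trans ?_)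
    rw [Finset.card_univ, Fintype.card_prod]
  have h3 : (𝒳.card : ℝ) ≤ (Fintype.card V : ℝ) * Fintype.card V := by exact_mod_cast h2
  nlinarith [sq_nonneg (Fintype.card V : ℝ)]

theorem absorb (hA : AbsStmt) : AbsorbStmt := by
  classical
  intro h H r c θ hr hc hc1 hθ
  obtain ⟨κ0, c', hκ0, hc', hAbs⟩ := hA r c hr hc hc1
  have hr' : (0 : ℝ) < r := by exact_mod_cast hr
  have hκ : 0 < min κ0 (θ / r) := lt_min hκ0 (div_pos hθ hr')
  obtain ⟨n0, hn0⟩ := hAbs (min κ0 (θ / r)) hκ (min_le_left _ _)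
  set κ := min κ0 (θ / r) with hκdef
  refine ⟨min κ (c' * κ), n0, lt_min hκ (mul_pos hc' hκ), ?_⟩
  intro V _ _ G hn 𝒳 Z hX hS hZ
  choose 𝒮 h𝒮c h𝒮 using hS
  have hnn : (0 : ℝ) ≤ Fintype.card V := Nat.cast_nonneg _
  obtain ⟨F, hF1, hF2, hF3, hF4, hF5⟩ := hn0 V hn {X // X ∈ 𝒳} (fun X => 𝒮 X.1 X.2)
    (by rw [Fintype.card_coe]; exact card_family_le 𝒳 hX)
    (fun i S hSi => (h𝒮 i.1 i.2 S hSi).1) (fun i => h𝒮c i.1 i.2) Z
    (hZ.trans (mul_le_mul_of_nonneg_right (min_le_left _ _) hnn))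
  refine ⟨F, hF1, ?_, ?_, ?_⟩
  · intro S hSF
    obtain ⟨i, hi⟩ := hF2 S hSF
    obtain ⟨k1, k2, _, _⟩ := h𝒮 i.1 i.2 S hi
    exact ⟨k1, k2, hF3 S hSF⟩
  · have h1 : (F.biUnion id).card ≤ F.card * r := by
      refine Finset.card_biUnion_le_card_mul F id r ?_
      intro S hSF
      obtain ⟨i, hi⟩ := hF2 S hSF
      exact (h𝒮 i.1 i.2 S hi).1.le
    have h2 : ((F.biUnion id).card : ℝ) ≤ F.card * r := by exact_mod_cast h1
    calc ((F.biUnion id).card : ℝ) ≤ F.card * r := h2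
      _ ≤ (κ * Fintype.card V) * r := mul_le_mul_of_nonneg_right hF4 hr'.le
      _ = (κ * r) * Fintype.card V := by ring
      _ ≤ θ * Fintype.card V := by
        refine mul_le_mul_of_nonneg_right ?_ hnn
        calc κ * r ≤ θ / r * r := mul_le_mul_of_nonneg_right (min_le_right _ _) hr'.le
          _ = θ := div_mul_cancel₀ θ hr'.ne'
  · intro 𝒴 h𝒴 hd hdF hcard
    have hcard' : (𝒴.card : ℝ) ≤ c' * κ * Fintype.card V :=
      hcard.trans (mul_le_mul_of_nonneg_right (min_le_right _ _) hnn)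
    obtain ⟨f, hfinj, hf⟩ := (Finset.all_card_le_biUnion_card_iff_exists_injective
      (fun Y : {Y // Y ∈ 𝒴} => F ∩ 𝒮 Y.1 (h𝒴 Y.2))).mp (by
        intro s
        rcases s.eq_empty_or_nonempty with rfl | ⟨Y, hY⟩
        · simp
        · have h1 : s.card ≤ 𝒴.card := by
            refine (Finset.card_le_univ s).trans ?_
            rw [Fintype.card_coe]
          have h2 : ((𝒴.card : ℕ) : ℝ) ≤ (F ∩ 𝒮 Y.1 (h𝒴 Y.2)).card :=
            hcard'.trans (hF5 ⟨Y.1, h𝒴 Y.2⟩)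
          have h3 : 𝒴.card ≤ (F ∩ 𝒮 Y.1 (h𝒴 Y.2)).card := by exact_mod_cast h2
          exact h1.trans (h3.trans (Finset.card_le_card
            (Finset.subset_biUnion_of_mem (fun Y : {Y // Y ∈ 𝒴} => F ∩ 𝒮 Y.1 (h𝒴 Y.2)) hY))))
    have hfF : ∀ Y, f Y ∈ F := fun Y => (Finset.mem_inter.mp (hf Y)).1
    have hfS : ∀ Y : {Y // Y ∈ 𝒴}, f Y ∈ 𝒮 Y.1 (h𝒴 Y.2) := fun Y =>
      (Finset.mem_inter.mp (hf Y)).2
    set g : Finset V → Finset V := fun S =>
      if hS : ∃ Y, f Y = S then S ∪ hS.choose.1 else S with hg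
    have hgf : ∀ Y, g (f Y) = f Y ∪ Y.1 := by
      intro Y
      have hex : ∃ Y', f Y' = f Y := ⟨Y, rfl⟩
      have hch : hex.choose = Y := hfinj hex.choose_spec
      rw [hg]
      simp only
      rw [dif_pos hex, hch]
    have hgn : ∀ S, (¬ ∃ Y, f Y = S) → g S = S := by
      intro S hS
      rw [hg]
      simp only
      rw [dif_neg hS]
    have hgU : F.biUnion g = F.biUnion id ∪ 𝒴.biUnion id := by
      ext v
      simp only [Finset.mem_union, Finset.mem_biUnion, id]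
      constructor
      · rintro ⟨S, hSF, hv⟩
        by_cases hS : ∃ Y, f Y = S
        · obtain ⟨Y, rfl⟩ := hS
          rw [hgf, Finset.mem_union] at hv
          rcases hv with hv | hv
          · exact Or.inl ⟨f Y, hSF, hv⟩
          · exact Or.inr ⟨Y.1, Y.2, hv⟩
        · rw [hgn S hS] at hv
          exact Or.inl ⟨S, hSF, hv⟩
      · rintro (⟨S, hSF, hv⟩ | ⟨Y, hY, hv⟩)
        · refine ⟨S, hSF, ?_⟩
          by_cases hS : ∃ Y, f Y = S
          · obtain ⟨Y, rfl⟩ := hS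
            rw [hgf]
            exact Finset.mem_union_left _ hv
          · rw [hgn S hS]
            exact hv
        · refine ⟨f ⟨Y, hY⟩, hfF _, ?_⟩
          rw [hgf]
          exact Finset.mem_union_right _ hv
    rw [← hgU]
    have hYF : ∀ (Y : {Y // Y ∈ 𝒴}) (S : Finset V), S ∈ F → Disjoint Y.1 S := by
      intro Y S hSF
      exact Disjoint.mono_right (Finset.subset_biUnion_of_mem id hSF) (hdF Y.1 Y.2)
    refine Tiled.biUnion' F g ?_ ?_
    · intro S hSF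
      by_cases hS : ∃ Y, f Y = S
      · obtain ⟨Y, rfl⟩ := hS
        rw [hgf]
        exact (h𝒮 Y.1 (h𝒴 Y.2) (f Y) (hfS Y)).2.2.2
      · rw [hgn S hS]
        obtain ⟨i, hi⟩ := hF2 S hSF
        exact (h𝒮 i.1 i.2 S hi).2.1
    · intro S hSF S' hSF' hne
      have hSS := hF1 S hSF S' hSF' hne
      by_cases hS : ∃ Y, f Y = S
      · obtain ⟨Y, rfl⟩ := hS
        by_cases hS' : ∃ Y', f Y' = S'
        · obtain ⟨Y', rfl⟩ := hS'
          rw [hgf, hgf, Finset.disjoint_union_left, Finset.disjoint_union_right,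
            Finset.disjoint_union_right]
          have hYY : Y.1 ≠ Y'.1 := fun e => hne (congrArg f (Subtype.ext e))
          exact ⟨⟨hSS, (hYF Y' _ hSF).symm⟩, hYF Y _ hSF', hd _ Y.2 _ Y'.2 hYY⟩
        · rw [hgf, hgn S' hS', Finset.disjoint_union_left]
          exact ⟨hSS, hYF Y _ hSF'⟩
      · by_cases hS' : ∃ Y', f Y' = S'
        · obtain ⟨Y', rfl⟩ := hS'
          rw [hgf, hgn S hS, Finset.disjoint_union_right]
          exact ⟨hSS, (hYF Y' _ hSF).symm⟩
        · rw [hgn S hS, hgn S' hS']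
          exact hSS

end Pool.Agent.MP_d32e04
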