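import Pool.Agent.Work.MP_d32e04_co.Defs

/-!
MP_d32e04_co: elementary facts about `Tiled`, `Cpl`, `degIn`, `misIn`, `e2`.
-/

set_option autoImplicit false

namespace Pool.Agent.MP_d32e04

open Finset

variable {V : Type}

/-! ### Tiled -/

section tiled

variable {h : ℕ} [DecidableEq V] {H : SimpleGraph (Fin h)} {G : SimpleGraph V}

lemma Tiled.of_tile {T : Finset V} (hT : IsSubdivOn H G T) : Tiled H G T := by
  have := Tiled.add (H := H) (G := G) T ∅ hT (Finset.disjoint_empty_right _) Tiled.empty
  simpa using this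

lemma Tiled.union {S T : Finset V} (hS : Tiled H G S) (hT : Tiled H G T) (hd : Disjoint S T) :
    Tiled H G (S ∪ T) := by
  induction hS with
  | empty => simpa using hT
  | add A B hA hAB hB ih =>
    rw [Finset.union_assoc]
    have hd2 : Disjoint B T := Disjoint.mono_left Finset.subset_union_right hd
    have hd1 : Disjoint A T := Disjoint.mono_left Finset.subset_union_left hd
    exact Tiled.add A (B ∪ T) hA (Finset.disjoint_union_right.mpr ⟨hAB, hd1⟩) (ih hd2)

lemma Tiled.congr {S T : Finset V} (hS : Tiled H G S) (h : S = T) : Tiled H G T := h ▸ hS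

lemma Tiled.biUnion (F : Finset (Finset V)) (hF : ∀ S ∈ F, Tiled H G S)
    (hd : ∀ S ∈ F, ∀ S' ∈ F, S ≠ S' → Disjoint S S') : Tiled H G (F.biUnion id) := by
  induction F using Finset.induction_on with
  | empty => simpa using (Tiled.empty (H := H) (G := G))
  | insert A F hA ih =>
    rw [Finset.biUnion_insert]
    apply Tiled.union (hF A (Finset.mem_insert_self _ _))
    · exact ih (fun S hS => hF S (Finset.mem_insert_of_mem hS))
        (fun S hS S' hS' => hd S (Finset.mem_insert_of_mem hS) S' (Finset.mem_insert_of_mem hS'))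
    · rw [Finset.disjoint_biUnion_right]
      intro S hS
      exact hd A (Finset.mem_insert_self _ _) S (Finset.mem_insert_of_mem hS)
        (fun h => hA (h ▸ hS))

/-- indexed version -/
lemma Tiled.biUnion' {ι : Type} [DecidableEq ι] (s : Finset ι) (f : ι → Finset V)
    (hF : ∀ i ∈ s, Tiled H G (f i)) (hd : ∀ i ∈ s, ∀ j ∈ s, i ≠ j → Disjoint (f i) (f j)) :
    Tiled H G (s.biUnion f) := by
  induction s using Finset.induction_on with
  | empty => simpa using (Tiled.empty (H := H) (G := G))
  | insert i s hi ih =>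
    rw [Finset.biUnion_insert]
    apply Tiled.union (hF i (Finset.mem_insert_self _ _))
    · exact ih (fun S hS => hF S (Finset.mem_insert_of_mem hS))
        (fun S hS S' hS' => hd S (Finset.mem_insert_of_mem hS) S' (Finset.mem_insert_of_mem hS'))
    · rw [Finset.disjoint_biUnion_right]
      intro j hj
      exact hd i (Finset.mem_insert_self _ _) j (Finset.mem_insert_of_mem hj)
        (fun h => hi (h ▸ hj))

/-- a tiled set is a union of pairwise disjoint tiles -/
lemma Tiled.exists_parts {S : Finset V} (hS : Tiled H G S) (h0 : 0 < h) :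
    ∃ 𝒯 : Finset (Finset V), (∀ T ∈ 𝒯, IsSubdivOn H G T) ∧
      (∀ T ∈ 𝒯, ∀ T' ∈ 𝒯, T ≠ T' → Disjoint T T') ∧ 𝒯.biUnion id = S := by
  induction hS with
  | empty => exact ⟨∅, by simp, by simp, by simp⟩
  | add A B hA hAB hB ih =>
    obtain ⟨𝒯, h1, h2, h3⟩ := ih
    refine ⟨insert A 𝒯, ?_, ?_, ?_⟩
    · intro T hT
      rcases Finset.mem_insert.mp hT with rfl | hT
      · exact hA
      · exact h1 T hT
    · have key : ∀ T ∈ 𝒯, Disjoint A T := by
        intro T hT
        refine Disjoint.mono_right ?_ hAB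
        rw [← h3]
        exact Finset.subset_biUnion_of_mem id hT
      intro T hT T' hT' hne
      rcases Finset.mem_insert.mp hT with h5 | h5 <;>
        rcases Finset.mem_insert.mp hT' with h6 | h6
      · exact absurd (h5.trans h6.symm) hne
      · rw [h5]; exact key T' h6
      · rw [h6]; exact (key T h5).symm
      · exact h2 T h5 T' h6 hne
    · rw [Finset.biUnion_insert, h3]
      rfl

lemma Tiled.perfectTiling [Fintype V] (h0 : 0 < h) (hS : Tiled H G (Finset.univ : Finset V)) :
    PerfectTiling H G := by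
  obtain ⟨𝒯, h1, h2, h3⟩ := hS.exists_parts h0
  refine ⟨𝒯, h1, h2, fun v => ?_⟩
  have : v ∈ 𝒯.biUnion id := by rw [h3]; exact Finset.mem_univ v
  rw [Finset.mem_biUnion] at this
  exact this

/-- transfer of a tile along an injective homomorphism -/
lemma IsSubdivOn.map {V' : Type} [DecidableEq V'] {G' : SimpleGraph V'} (f : V' → V)
    (hf : Function.Injective f) (hadj : ∀ u v, G'.Adj u v → G.Adj (f u) (f v)) {S : Finset V'}
    (hS : IsSubdivOn H G' S) : IsSubdivOn H G (S.image f) := by
  obtain ⟨φ, L, h1, h2, h3, h4⟩ := hS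
  refine ⟨f ∘ φ, fun u v => (L u v).map f, hf.comp h1, ?_, ?_, ?_⟩
  · intro u v huv ha
    obtain ⟨k1, k2, k3⟩ := h2 u v huv ha
    refine ⟨?_, k2.map hf, ?_⟩
    · have : (f ∘ φ) u :: ((L u v).map f ++ [(f ∘ φ) v]) = (φ u :: (L u v ++ [φ v])).map f := by
        simp
      rw [this, List.isChain_map]
      exact k1.imp (fun a b hab => hadj a b hab)
    · intro w hw
      rw [List.mem_map] at hw
      obtain ⟨x, hx, hxe⟩ := hw
      exact k3 w (hf hxe ▸ hx)
  · intro u v u' v' a1 a2 a3 a4 hne x hx hx'
    rw [List.mem_map] at hx hx'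
    obtain ⟨y, hy, rfl⟩ := hx
    obtain ⟨y', hy', he⟩ := hx'
    exact h3 u v u' v' a1 a2 a3 a4 hne y hy (hf he ▸ hy')
  · intro x
    rw [Finset.mem_image]
    constructor
    · rintro ⟨y, hy, rfl⟩
      rcases (h4 y).mp hy with ⟨w, rfl⟩ | ⟨u, v, a1, a2, a3⟩
      · exact Or.inl ⟨w, rfl⟩
      · exact Or.inr ⟨u, v, a1, a2, List.mem_map_of_mem a3⟩
    · rintro (⟨w, rfl⟩ | ⟨u, v, a1, a2, a3⟩)
      · exact ⟨φ w, (h4 _).mpr (Or.inl ⟨w, rfl⟩), rfl⟩
      · rw [List.mem_map] at a3
        obtain ⟨y, hy, rfl⟩ := a3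
        exact ⟨y, (h4 _).mpr (Or.inr ⟨u, v, a1, a2, hy⟩), rfl⟩

lemma Tiled.map {V' : Type} [DecidableEq V'] {G' : SimpleGraph V'} (f : V' → V)
    (hf : Function.Injective f) (hadj : ∀ u v, G'.Adj u v → G.Adj (f u) (f v)) {S : Finset V'}
    (hS : Tiled H G' S) : Tiled H G (S.image f) := by
  induction hS with
  | empty => simpa using (Tiled.empty (H := H) (G := G))
  | add A B hA hAB hB ih =>
    rw [Finset.image_union]
    exact Tiled.add _ _ (hA.map f hf hadj) ((Finset.disjoint_image hf).mpr hAB) ih

end tiled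

/-! ### Complete pairs -/

lemma Cpl.disjoint {G : SimpleGraph V} {P Q : Finset V} (h : Cpl G P Q) : Disjoint P Q := by
  rw [Finset.disjoint_left]
  intro x hx hx'
  exact G.loopless.irrefl x (h x hx x hx')

lemma Cpl.mono {G : SimpleGraph V} {P Q P' Q' : Finset V} (h : Cpl G P Q) (hP : P' ⊆ P)
    (hQ : Q' ⊆ Q) : Cpl G P' Q' := fun p hp q hq => h p (hP hp) q (hQ hq)

lemma Cpl.symm {G : SimpleGraph V} {P Q : Finset V} (h : Cpl G P Q) : Cpl G Q P :=
  fun q hq p hp => (h p hp q hq).symm

/-! ### Degrees and edge counts -/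

lemma degIn_add_misIn (G : SimpleGraph V) (v : V) (S : Finset V) :
    degIn G v S + misIn G v S = S.card := by
  classical
  unfold degIn misIn
  rw [Finset.card_filter_add_card_filter_not]

lemma degIn_le (G : SimpleGraph V) (v : V) (S : Finset V) : degIn G v S ≤ S.card := by
  have := degIn_add_misIn G v S; omega

lemma misIn_le (G : SimpleGraph V) (v : V) (S : Finset V) : misIn G v S ≤ S.card := by
  have := degIn_add_misIn G v S; omega

lemma degIn_mono (G : SimpleGraph V) (v : V) {S T : Finset V} (h : S ⊆ T) :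
    degIn G v S ≤ degIn G v T := by
  classical
  exact Finset.card_le_card (Finset.filter_subset_filter _ h)

lemma misIn_mono (G : SimpleGraph V) (v : V) {S T : Finset V} (h : S ⊆ T) :
    misIn G v S ≤ misIn G v T := by
  classical
  exact Finset.card_le_card (Finset.filter_subset_filter _ h)

lemma degIn_union_le [DecidableEq V] (G : SimpleGraph V) (v : V) (S T : Finset V) :
    degIn G v (S ∪ T) ≤ degIn G v S + degIn G v T := by
  classical
  unfold degIn
  rw [Finset.filter_union]
  exact Finset.card_union_le _ _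

lemma misIn_union_le [DecidableEq V] (G : SimpleGraph V) (v : V) (S T : Finset V) :
    misIn G v (S ∪ T) ≤ misIn G v S + misIn G v T := by
  classical
  unfold misIn
  rw [Finset.filter_union]
  exact Finset.card_union_le _ _

lemma degIn_univ [Fintype V] (G : SimpleGraph V) (v : V) :
    degIn G v Finset.univ = (nb G v).card := rfl

lemma mem_nb [Fintype V] (G : SimpleGraph V) (v w : V) : w ∈ nb G v ↔ G.Adj v w := by
  classical
  simp [nb]

lemma e2_eq_sum (G : SimpleGraph V) (S T : Finset V) :
    e2 G S T = ∑ v ∈ S, degIn G v T := by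
  classical
  unfold e2 degIn
  rw [Finset.card_filter, Finset.sum_product]
  apply Finset.sum_congr rfl
  intro v _
  rw [Finset.card_filter]

lemma e2_comm (G : SimpleGraph V) (S T : Finset V) : e2 G S T = e2 G T S := by
  classical
  unfold e2
  apply Finset.card_bij (fun p _ => (p.2, p.1))
  · intro p hp
    simp only [Finset.mem_filter, Finset.mem_product] at hp ⊢
    exact ⟨⟨hp.1.2, hp.1.1⟩, hp.2.symm⟩
  · intro p _ q _ h
    simp only [Prod.mk.injEq] at h
    exact Prod.ext h.2 h.1
  · intro q hq
    simp only [Finset.mem_filter, Finset.mem_product] at hq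
    refine ⟨(q.2, q.1), ?_, rfl⟩
    simp only [Finset.mem_filter, Finset.mem_product]
    exact ⟨⟨hq.1.2, hq.1.1⟩, hq.2.symm⟩

lemma e2_mono (G : SimpleGraph V) {S T S' T' : Finset V} (hS : S ⊆ S') (hT : T ⊆ T') :
    e2 G S T ≤ e2 G S' T' := by
  classical
  exact Finset.card_le_card (Finset.filter_subset_filter _ (Finset.product_subset_product hS hT))

lemma e2_le (G : SimpleGraph V) (S T : Finset V) : e2 G S T ≤ S.card * T.card := by
  classical
  unfold e2
  rw [← Finset.card_product]
  exact Finset.card_filter_le _ _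

lemma e2_union_left_le [DecidableEq V] (G : SimpleGraph V) (S S' T : Finset V) :
    e2 G (S ∪ S') T ≤ e2 G S T + e2 G S' T := by
  classical
  unfold e2
  rw [Finset.union_product, Finset.filter_union]
  exact Finset.card_union_le _ _

lemma e2_union_right_le [DecidableEq V] (G : SimpleGraph V) (S T T' : Finset V) :
    e2 G S (T ∪ T') ≤ e2 G S T + e2 G S T' := by
  rw [e2_comm G S (T ∪ T'), e2_comm G S T, e2_comm G S T']
  exact e2_union_left_le G T T' S

/-- if every vertex of `S` misses at most `t` vertices of `T`, then `S` has many common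
neighbours in `T` -/
lemma exists_common [DecidableEq V] (G : SimpleGraph V) (S T : Finset V) (t q : ℕ)
    (hS : ∀ v ∈ S, misIn G v T ≤ t) (hq : S.card * t + q ≤ T.card) :
    ∃ Q ⊆ T, Q.card = q ∧ Cpl G S Q := by
  classical
  set U := S.biUnion (fun v => T.filter (fun w => ¬ G.Adj v w)) with hU
  have h1 : U.card ≤ S.card * t := by
    refine le_trans Finset.card_biUnion_le ?_
    calc ∑ v ∈ S, (T.filter (fun w => ¬ G.Adj v w)).card ≤ ∑ _v ∈ S, t :=
          Finset.sum_le_sum (fun v hv => by
            have := hS v hv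
            unfold misIn at this
            convert this)
      _ = S.card * t := by rw [Finset.sum_const, smul_eq_mul]
  have h2 : q ≤ (T \ U).card := by
    have := Finset.le_card_sdiff U T
    omega
  obtain ⟨Q, hQ, hQc⟩ := Finset.exists_subset_card_eq h2
  refine ⟨Q, hQ.trans Finset.sdiff_subset, hQc, ?_⟩
  intro v hv w hw
  by_contra hadj
  have hw' := hQ hw
  rw [Finset.mem_sdiff] at hw'
  apply hw'.2
  rw [hU, Finset.mem_biUnion]
  exact ⟨v, hv, Finset.mem_filter.mpr ⟨hw'.1, hadj⟩⟩

end Pool.Agent.MP_d32e04
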