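import Mathlib
import Pool.Agent.Work.MP_d32e04_co.Basic

/-!
MP_d32e04_co, item 14: almost perfect tiling of a subset, from the almost perfect tiling of a
whole graph.
-/

set_option autoImplicit false

namespace Pool.Agent.MP_d32e04

open Finset

lemma degIn_comap_map {V V' : Type} (G : SimpleGraph V) (f : V' ↪ V) (v : V')
    (S : Finset V') : degIn G (f v) (S.map f) = degIn (G.comap f) v S := by
  classical
  unfold degIn
  rw [filter_map, card_map]
  congr 1

lemma e2_comap_map {V V' : Type} (G : SimpleGraph V) (f : V' ↪ V)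
    (S T : Finset V') : e2 G (S.map f) (T.map f) = e2 (G.comap f) S T := by
  classical
  rw [e2_eq_sum, e2_eq_sum, sum_map]
  exact sum_congr rfl (fun v _ => degIn_comap_map G f v T)

theorem almost (h : Almost0Stmt) : AlmostStmt := by
  classical
  intro a b ls γ ha hab hls hls2 hpar hγ
  obtain ⟨θ1, hθ1, h1⟩ := h a b ls (γ / 2) ha hab hls hls2 hpar (by positivity)
  have hθpos : 0 < min (min θ1 (γ / 2)) (1 / 2) := by positivity
  refine ⟨min (min θ1 (γ / 2)) (1 / 2), hθpos, ?_⟩
  intro μ hμ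
  obtain ⟨n0, hn0⟩ := h1 μ hμ
  refine ⟨2 * n0, ?_⟩
  intro V _ _ G Z hn hZ hdeg hext
  set θ : ℝ := min (min θ1 (γ / 2)) (1 / 2) with hθ
  have hθ1' : θ ≤ θ1 := (min_le_left _ _).trans (min_le_left _ _)
  have hθ2' : θ ≤ γ / 2 := (min_le_left _ _).trans (min_le_right _ _)
  have hθ3' : θ ≤ 1 / 2 := min_le_right _ _
  set f : {v : V // v ∉ Z} ↪ V := Function.Embedding.subtype _ with hf
  have huniv : (univ : Finset {v : V // v ∉ Z}).map f = univ \ Z := by
    ext x
    simp [hf]
  have hcard : Fintype.card {v : V // v ∉ Z} + Z.card = Fintype.card V := by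
    have h2 : ((univ : Finset {v : V // v ∉ Z}).map f).card = Fintype.card {v : V // v ∉ Z} := by
      rw [card_map, card_univ]
    rw [← h2, huniv, card_sdiff_of_subset (subset_univ _), card_univ]
    have := card_le_univ Z
    omega
  set n : ℝ := (Fintype.card V : ℝ) with hndef
  set n' : ℝ := (Fintype.card {v : V // v ∉ Z} : ℝ) with hn'def
  have hcard' : n' + (Z.card : ℝ) = n := by
    rw [hndef, hn'def]
    exact_mod_cast hcard
  have hnn : 0 ≤ n := Nat.cast_nonneg _
  have hn'n : n' ≤ n := by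
    have : (0 : ℝ) ≤ Z.card := Nat.cast_nonneg _
    linarith
  have hn'0 : 0 ≤ n' := Nat.cast_nonneg _
  have hn'l : (1 - θ) * n ≤ n' := by linarith
  obtain ⟨𝒯, hT1, hT2, hT3⟩ := hn0 {v : V // v ∉ Z} (G.comap f) (by
      have h2 : (2 * n0 : ℝ) ≤ n := by rw [hndef]; exact_mod_cast hn
      have h3 : (n0 : ℝ) ≤ n' := by nlinarith
      rw [hn'def] at h3
      exact_mod_cast h3) (by
      intro v
      have h2 := hdeg (f v)
      have h3 : degIn G (f v) univ ≤ degIn G (f v) (univ \ Z) + degIn G (f v) Z := by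
        have h4 := degIn_union_le G (f v) (univ \ Z) Z
        rwa [sdiff_union_of_subset (subset_univ Z)] at h4
      have h5 := degIn_le G (f v) Z
      rw [← huniv, degIn_comap_map] at h3
      have h6 : (degIn G (f v) univ : ℝ) ≤ (degIn (G.comap f) v univ : ℝ) + Z.card := by
        exact_mod_cast h3.trans (Nat.add_le_add_left h5 _)
      rcases le_or_gt 0 (ls - θ1) with h7 | h7
      · have h8 : (ls - θ1) * n' ≤ (ls - θ1) * n := mul_le_mul_of_nonneg_left hn'n h7
        have h9 : θ * n ≤ θ1 * n := mul_le_mul_of_nonneg_right hθ1' hnn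
        linarith
      · have h8 : (ls - θ1) * n' ≤ 0 := mul_nonpos_of_nonpos_of_nonneg h7.le hn'0
        exact h8.trans (Nat.cast_nonneg _)) (by
      rintro ⟨B0, hB1, hB2⟩
      apply hext
      refine ⟨B0.map f, ?_, ?_⟩
      · rw [card_map]
        refine le_trans ?_ hB1
        rcases le_or_gt 0 (1 - ls - γ / 2) with h7 | h7
        · have h8 : (1 - ls - γ / 2) * ((1 - θ) * n) ≤ (1 - ls - γ / 2) * n' :=
            mul_le_mul_of_nonneg_left hn'l h7
          have h9 : (1 - ls - γ / 2) * θ ≤ γ / 2 := by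
            have : (1 - ls - γ / 2) ≤ 1 := by linarith
            calc (1 - ls - γ / 2) * θ ≤ 1 * θ := mul_le_mul_of_nonneg_right this hθpos.le
              _ ≤ γ / 2 := by linarith
          have h10 : (1 - ls - γ / 2) * θ * n ≤ γ / 2 * n := mul_le_mul_of_nonneg_right h9 hnn
          show (1 - ls - γ) * n ≤ (1 - ls - γ / 2) * n'
          nlinarith
        · have h8 : (1 - ls - γ) * n ≤ (1 - ls - γ / 2) * n := by
            apply mul_le_mul_of_nonneg_right _ hnn
            linarith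
          have h9 : (1 - ls - γ / 2) * n ≤ (1 - ls - γ / 2) * n' :=
            mul_le_mul_of_nonpos_left hn'n h7.le
          exact h8.trans h9
      · rw [e2_comap_map]
        refine hB2.trans ?_
        show γ / 2 * n' ^ 2 ≤ γ * n ^ 2
        have h8 : n' ^ 2 ≤ n ^ 2 := pow_le_pow_left₀ hn'0 hn'n 2
        have h9 : γ / 2 * n' ^ 2 ≤ γ / 2 * n ^ 2 := mul_le_mul_of_nonneg_left h8 (by positivity)
        have h10 : 0 ≤ γ / 2 * n ^ 2 := by positivity
        linarith)
  have hmem : ∀ S : Finset {v : V // v ∉ Z}, ∀ x ∈ S.map f, x ∉ Z := by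
    intro S x hx
    rw [mem_map] at hx
    obtain ⟨y, -, rfl⟩ := hx
    exact y.2
  refine ⟨𝒯.image (fun p => (p.1.map f, p.2.map f)), ?_, ?_, ?_⟩
  · intro p hp
    rw [mem_image] at hp
    obtain ⟨q, hq, rfl⟩ := hp
    obtain ⟨h2, h3, h4⟩ := hT1 q hq
    refine ⟨by rw [card_map, h2], by rw [card_map, h3], ?_, ?_⟩
    · intro x hx y hy
      rw [mem_map] at hx hy
      obtain ⟨x', hx', rfl⟩ := hx
      obtain ⟨y', hy', rfl⟩ := hy
      exact h4 x' hx' y' hy'
    · rw [disjoint_left]
      intro x hx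
      rw [mem_union] at hx
      rcases hx with hx | hx
      · exact hmem _ x hx
      · exact hmem _ x hx
  · intro p hp p' hp' hne
    rw [mem_image] at hp hp'
    obtain ⟨q, hq, rfl⟩ := hp
    obtain ⟨q', hq', rfl⟩ := hp'
    have hqq : q ≠ q' := fun he => hne (by rw [he])
    have h2 := hT2 q hq q' hq' hqq
    show Disjoint (q.1.map f ∪ q.2.map f) (q'.1.map f ∪ q'.2.map f)
    rw [← map_union, ← map_union, disjoint_map]
    exact h2
  · have h2 : (univ \ Z) \ (𝒯.image (fun p => (p.1.map f, p.2.map f))).biUnion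
        (fun p => p.1 ∪ p.2) = (univ \ 𝒯.biUnion (fun p => p.1 ∪ p.2)).map f := by
      rw [← huniv, Finset.map_sdiff, image_biUnion]
      congr 1
      ext x
      simp only [mem_biUnion, mem_map, mem_union]
      constructor
      · rintro ⟨q, hq, (⟨y, hy, rfl⟩ | ⟨y, hy, rfl⟩)⟩
        · exact ⟨y, ⟨q, hq, Or.inl hy⟩, rfl⟩
        · exact ⟨y, ⟨q, hq, Or.inr hy⟩, rfl⟩
      · rintro ⟨y, ⟨q, hq, (hy | hy)⟩, rfl⟩
        · exact ⟨q, hq, Or.inl ⟨y, hy, rfl⟩⟩
        · exact ⟨q, hq, Or.inr ⟨y, hy, rfl⟩⟩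
    rw [h2, card_map]
    refine hT3.trans ?_
    exact mul_le_mul_of_nonneg_left hn'n hμ.le

end Pool.Agent.MP_d32e04
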