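import Pool.Agent.Work.MP_d32e04_co.ExtrStep

/-!
MP_d32e04_co, item 5c: the extremal case.
-/

set_option autoImplicit false

namespace Pool.Agent.MP_d32e04

open Finset

lemma num1 (τ S σ c C : ℝ) (hS : 1 ≤ S) (hτ : 0 < τ) (hτ1 : τ ≤ 1 / 64)
    (hτ2 : τ * (64 * S) ≤ 1) (hc0 : 0 ≤ c) (hCR : 2 * c + 10 ≤ C) (hwpos : 0 < S * σ + c) :
    32 * τ * (S * σ + c + 2) < C + σ := by
  have e1 : 32 * τ * (c + 2) ≤ (c + 2) / 2 := by nlinarith
  have e2 : 32 * τ * (S * σ + c + 2) = (32 * τ * S) * σ + 32 * τ * (c + 2) := by ring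
  rcases le_total 0 σ with hs | hs
  · have e3 : (32 * τ * S) * σ ≤ 1 * σ := by
      apply mul_le_mul_of_nonneg_right _ hs
      linarith
    rw [e2]; linarith
  · have e3 : (32 * τ * S) * σ ≤ 0 :=
      mul_nonpos_of_nonneg_of_nonpos (by positivity) hs
    have e4 : -c ≤ σ := by
      have : S * σ ≤ 1 * σ := mul_le_mul_of_nonpos_right hS hs
      linarith
    rw [e2]; linarith

lemma num2 (a b ls n A B σ : ℝ) (hn : 0 ≤ n) (hls2 : a * (1 - ls) ≤ b * ls)
    (hB : B = (1 - ls) * n + σ) (hA : A = ls * n - σ) :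
    -((a + b) * σ) ≤ b * A - a * B := by
  have h : b * A - a * B = (b * ls - a * (1 - ls)) * n - (a + b) * σ := by
    rw [hB, hA]; ring
  rw [h]
  have : 0 ≤ (b * ls - a * (1 - ls)) * n := mul_nonneg (by linarith) hn
  linarith

lemma num3 (k w D' τ n C σ E B : ℝ) (hfl : D' ≤ 2 * τ * n) (hD0 : 0 ≤ D') (hτ : 0 < τ)
    (hn : 0 < n) (hk : 2 * k ≤ w + 2) (hw : 0 < w)
    (hmain : 32 * τ * (w + 2) < C + σ) (hB : n / 4 ≤ B) (hE : B * (C + σ) ≤ E) :
    4 * (2 * k) * D' < E := by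
  have hCσ : 0 < C + σ := by
    have : 0 ≤ 32 * τ * (w + 2) := by positivity
    linarith
  calc (4 : ℝ) * (2 * k) * D' ≤ 4 * (w + 2) * (2 * τ * n) := by
        apply mul_le_mul _ hfl hD0 (by positivity)
        linarith
    _ = (n / 4) * (32 * τ * (w + 2)) := by ring
    _ < (n / 4) * (C + σ) := mul_lt_mul_of_pos_left hmain (by positivity)
    _ ≤ B * (C + σ) := mul_le_mul_of_nonneg_right hB hCσ.le
    _ ≤ _ := hE

/-- the number of edges inside `B` needed, and such edges -/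
lemma exists_edges (h5 : MatchStmt) {V : Type} [Fintype V] [DecidableEq V] (G : SimpleGraph V)
    (A B : Finset V) (a b c C : ℕ) (ls τ ζ : ℝ) (hAB : Disjoint A B) (hu : A ∪ B = Finset.univ)
    (ha : 1 ≤ a) (hab : a < b) (hls1 : ls < 1 / 2)
    (hls2 : a * (1 - ls) ≤ b * ls)
    (hτ : 0 < τ) (hτ1 : τ ≤ 1 / 64) (hτ2 : τ * (64 * ((a : ℝ) + b)) ≤ 1)
    (hζ0 : 0 < ζ) (hζ : ζ ≤ 1 / 64) (hC : 2 * c + 10 ≤ C) (hn : 0 < Fintype.card V)
    (hdeg : ∀ v, ls * (Fintype.card V : ℝ) + C ≤ degIn G v Finset.univ)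
    (hBdeg : ∀ v ∈ B, (degIn G v B : ℝ) ≤ 2 * τ * Fintype.card V)
    (hBc : |(B.card : ℝ) - (1 - ls) * Fintype.card V| ≤ ζ * Fintype.card V) :
    ∃ m : ℕ, Even m ∧ a * B.card + c ≤ b * A.card + a * m ∧
      (m : ℝ) ≤ ((a : ℝ) + b) * ζ * Fintype.card V + c + 2 ∧
      ∃ M : Finset (V × V), M.card = m ∧ (∀ p ∈ M, p.1 ∈ B ∧ p.2 ∈ B ∧ G.Adj p.1 p.2) ∧
        ∀ p ∈ M, ∀ q ∈ M, p ≠ q → p.1 ≠ q.1 ∧ p.1 ≠ q.2 ∧ p.2 ≠ q.1 ∧ p.2 ≠ q.2 := by
  obtain ⟨n, hnR⟩ : ∃ n : ℝ, n = (Fintype.card V : ℝ) := ⟨_, rfl⟩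
  rw [← hnR] at hBdeg hBc hdeg ⊢
  have hnpos : 0 < n := by rw [hnR]; exact_mod_cast hn
  have haR : (1 : ℝ) ≤ a := by exact_mod_cast ha
  have habR : (a : ℝ) < b := by exact_mod_cast hab
  have hcard : (A.card : ℝ) + B.card = n := by
    have h1 := Finset.card_union_of_disjoint hAB
    rw [hu, Finset.card_univ] at h1
    rw [hnR, h1]; push_cast; ring
  by_cases hcase : a * B.card + c ≤ b * A.card
  · refine ⟨0, Even.zero, by simpa using hcase, ?_, ∅, rfl, by simp, by simp⟩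
    have : (0 : ℝ) ≤ c := by positivity
    have h2 : 0 ≤ ((a : ℝ) + b) * ζ * n := by positivity
    push_cast
    linarith
  · push Not at hcase
    have hcaseR : (b : ℝ) * A.card < a * B.card + c := by exact_mod_cast hcase
    obtain ⟨σ, hσ⟩ : ∃ σ : ℝ, σ = (B.card : ℝ) - (1 - ls) * n := ⟨_, rfl⟩
    rw [← hσ] at hBc
    have hBσ : (B.card : ℝ) = (1 - ls) * n + σ := by rw [hσ]; ring
    have hAσ : (A.card : ℝ) = ls * n - σ := by linarith
    have hσabs := abs_le.mp hBc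
    have hkey := num2 a b ls n A.card B.card σ hnpos.le hls2 hBσ hAσ
    obtain ⟨w, hw⟩ : ∃ w : ℝ, w = ((a : ℝ) + b) * σ + c := ⟨_, rfl⟩
    have hwpos : 0 < w := by rw [hw]; linarith
    obtain ⟨k, hk⟩ : ∃ k : ℕ, k = ⌈w / (2 * a)⌉₊ := ⟨_, rfl⟩
    have hk1 : w / (2 * a) ≤ k := by rw [hk]; exact Nat.le_ceil _
    have hk2 : (k : ℝ) < w / (2 * a) + 1 := by
      rw [hk]; exact Nat.ceil_lt_add_one (by positivity)
    have hm1 : w ≤ a * (2 * (k : ℝ)) := by
      rw [div_le_iff₀ (by positivity)] at hk1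
      linarith
    have hm2 : 2 * (k : ℝ) ≤ w + 2 := by
      have : w / (2 * a) ≤ w / 2 := by
        apply div_le_div_of_nonneg_left hwpos.le (by norm_num)
        linarith
      linarith
    refine ⟨2 * k, even_two_mul k, ?_, ?_, ?_⟩
    · have : (a : ℝ) * B.card + c ≤ b * A.card + a * (2 * (k : ℝ)) := by
        rw [hw] at hm1; linarith
      exact_mod_cast this
    · push_cast
      have : ((a : ℝ) + b) * σ ≤ ((a : ℝ) + b) * (ζ * n) :=
        mul_le_mul_of_nonneg_left hσabs.2 (by positivity)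
      rw [hw] at hm2
      linarith
    · apply h5 V G B ⌊2 * τ * n⌋₊ (2 * k)
      · intro v hv
        exact Nat.le_floor (hBdeg v hv)
      · have hfl : (⌊2 * τ * n⌋₊ : ℝ) ≤ 2 * τ * n := Nat.floor_le (by positivity)
        have hdegB : ∀ v ∈ B, (C : ℝ) + σ ≤ degIn G v B := by
          intro v _
          have e1 := hdeg v
          have e2 : degIn G v Finset.univ ≤ A.card + degIn G v B := by
            rw [← hu]
            have := degIn_union_le G v A B
            have := degIn_le G v A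
            omega
          have e3 : (degIn G v Finset.univ : ℝ) ≤ A.card + degIn G v B := by exact_mod_cast e2
          linarith
        have he2 : (B.card : ℝ) * (C + σ) ≤ e2 G B B := by
          rw [e2_eq_sum]
          push_cast
          calc (B.card : ℝ) * (C + σ) = ∑ _v ∈ B, ((C : ℝ) + σ) := by
                rw [Finset.sum_const, nsmul_eq_mul]
            _ ≤ ∑ v ∈ B, (degIn G v B : ℝ) := Finset.sum_le_sum hdegB
        have hCR : 2 * (c : ℝ) + 10 ≤ C := by exact_mod_cast hC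
        have hc0 : (0 : ℝ) ≤ c := by positivity
        have hBn : n / 4 ≤ B.card := by
          rw [hBσ]
          have e1 : ζ * n ≤ 1 / 64 * n := mul_le_mul_of_nonneg_right hζ hnpos.le
          have e2 : 1 / 2 * n ≤ (1 - ls) * n := mul_le_mul_of_nonneg_right (by linarith) hnpos.le
          linarith [hσabs.1]
        have hmain : 32 * τ * (w + 2) < C + σ := by
          rw [hw]
          exact num1 τ ((a : ℝ) + b) σ c C (by linarith) hτ hτ1 hτ2 hc0 hCR (hw ▸ hwpos)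
        have hfin := num3 k w (⌊2 * τ * n⌋₊ : ℝ) τ n C σ (e2 G B B) B.card hfl
          (by positivity) hτ hnpos hm2 hwpos hmain hBn he2
        exact_mod_cast hfin

/-- the last step of the extremal case -/
lemma extr_final {h : ℕ} (H : SimpleGraph (Fin h)) (a b g m c N0 : ℕ) (hP : Par H a b g)
    (κ τ0 τ ζ ls n S : ℝ)
    (hncb : ∀ (V : Type) [DecidableEq V] (G : SimpleGraph V) (A B : Finset V),
      Disjoint A B → N0 ≤ A.card + B.card →
      (∀ x ∈ A, (misIn G x B : ℝ) ≤ τ0 * ((A.card : ℝ) + B.card)) →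
      (∀ x ∈ B, (misIn G x A : ℝ) ≤ τ0 * ((A.card : ℝ) + B.card)) →
      (g : ℤ) ∣ (B.card : ℤ) - A.card →
      a * B.card + c ≤ b * A.card →
      κ * ((A.card : ℝ) + B.card) ≤ (B.card : ℝ) - A.card →
      Tiled H G (A ∪ B))
    {V : Type} [Fintype V] [DecidableEq V] (G : SimpleGraph V) (A B D A' B' : Finset V)
    (hAB : Disjoint A B) (hu : A ∪ B = Finset.univ) (hA'A : A' ⊆ A) (hB'B : B' ⊆ B)
    (hA'D : ∀ x ∈ A', x ∉ D) (hS : S = (a : ℝ) + b) (hκ : κ = (1 - 2 * ls) / 4)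
    (hκ0 : 0 < κ) (hτ0 : 0 < τ0) (hτ : 0 < τ) (tA : τ ≤ 1 / 64) (tB : τ ≤ τ0 / 6) (tE : τ ≤ κ)
    (hζ0 : 0 < ζ) (hζ16 : 16 * ζ ≤ τ / 32) (hnpos : 0 < n)
    (h64 : 64 * ((c : ℝ) + 4 + N0) ≤ n)
    (hcard : (A.card : ℝ) + B.card = n)
    (hDmis : ∀ v ∈ A, v ∉ D → (misIn G v B : ℝ) ≤ τ * n)
    (hBmis : ∀ v ∈ B, (misIn G v A : ℝ) ≤ 3 * τ * n)
    (hσ : -(ζ * n) ≤ (B.card : ℝ) - (1 - ls) * n)
    (hmslack : a * B.card + c ≤ b * A.card + a * m) (hmev : Even m)
    (hcA' : A'.card + a * m + a * D.card = A.card)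
    (hcB' : B'.card + (b + 1) * m + b * D.card = B.card)
    (hused : (S + 1) * (m + D.card) ≤ τ * n / 16)
    (hg : g = 1 ∨ g = 2 ∧ Even (Fintype.card V)) : Tiled H G (A' ∪ B') := by
  have hcA'R : (A'.card : ℝ) + a * m + a * D.card = A.card := by exact_mod_cast hcA'
  have hcB'R : (B'.card : ℝ) + (b + 1) * m + b * D.card = B.card := by exact_mod_cast hcB'
  obtain ⟨dc, hdc⟩ : ∃ dc : ℝ, dc = (D.card : ℝ) := ⟨_, rfl⟩
  obtain ⟨mr, hmr⟩ : ∃ mr : ℝ, mr = (m : ℝ) := ⟨_, rfl⟩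
  obtain ⟨ac, hac⟩ : ∃ ac : ℝ, ac = (A'.card : ℝ) := ⟨_, rfl⟩
  obtain ⟨bc, hbc⟩ : ∃ bc : ℝ, bc = (B'.card : ℝ) := ⟨_, rfl⟩
  have hDc0 : 0 ≤ dc := by rw [hdc]; exact Nat.cast_nonneg _
  have hm0 : 0 ≤ mr := by rw [hmr]; exact Nat.cast_nonneg _
  have ha0 : (0 : ℝ) ≤ a := Nat.cast_nonneg _
  have hb0 : (0 : ℝ) ≤ b := Nat.cast_nonneg _
  have hc0 : (0 : ℝ) ≤ c := Nat.cast_nonneg _
  have hN00 : (0 : ℝ) ≤ N0 := Nat.cast_nonneg _
  rw [← hdc, ← hmr, ← hac] at hcA'R
  rw [← hdc, ← hmr, ← hbc] at hcB'R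
  rw [← hdc, ← hmr] at hused
  have hτn0 : 0 < τ * n := mul_pos hτ hnpos
  have hζn : 16 * (ζ * n) ≤ τ * n / 32 := by
    have : (16 * ζ) * n ≤ (τ / 32) * n := mul_le_mul_of_nonneg_right hζ16 hnpos.le
    linarith
  have hτ64 : τ * n ≤ 1 / 64 * n := mul_le_mul_of_nonneg_right tA hnpos.le
  have hn' : n - τ * n / 16 ≤ ac + bc := by
    have e1 : ac + bc = n - ((S + 1) * mr + S * dc) := by
      rw [hS]; linarith
    have e2 : S * dc ≤ (S + 1) * dc := mul_le_mul_of_nonneg_right (by linarith) hDc0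
    rw [e1]; linarith
  have hn'2 : n / 2 ≤ ac + bc := by linarith
  have hτ0n : 3 * τ * n ≤ τ0 * (ac + bc) := by
    have e1 : τ0 * (n / 2) ≤ τ0 * (ac + bc) := mul_le_mul_of_nonneg_left hn'2 hτ0.le
    have e2 : τ * n ≤ τ0 / 6 * n := mul_le_mul_of_nonneg_right tB hnpos.le
    linarith
  apply hncb V G A' B' (Disjoint.mono hA'A hB'B hAB)
  · have : (N0 : ℝ) ≤ (A'.card : ℝ) + B'.card := by rw [← hac, ← hbc]; linarith
    exact_mod_cast this
  · intro x hx
    have e1 := hDmis x (hA'A hx) (hA'D x hx)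
    have e2 : (misIn G x B' : ℝ) ≤ misIn G x B := by exact_mod_cast misIn_mono G x hB'B
    rw [← hac, ← hbc]
    linarith
  · intro x hx
    have e1 := hBmis x (hB'B hx)
    have e2 : (misIn G x A' : ℝ) ≤ misIn G x A := by exact_mod_cast misIn_mono G x hA'A
    rw [← hac, ← hbc]
    linarith
  · rcases hg with hg1 | ⟨hg2, hev⟩
    · rw [hg1, Nat.cast_one]; exact one_dvd _
    · rw [hg2]
      have hd : (2 : ℤ) ∣ (b : ℤ) - a := by have := hP.gdvd; rw [hg2] at this; exact this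
      obtain ⟨e, he⟩ := hd
      obtain ⟨f, hf⟩ := hmev
      obtain ⟨k, hk⟩ := hev
      have hcardN : A.card + B.card = k + k := by
        have h1 := Finset.card_union_of_disjoint hAB
        rw [hu, Finset.card_univ] at h1
        rw [← h1]; exact hk
      have z1 : (A'.card : ℤ) + a * m + a * D.card = A.card := by exact_mod_cast hcA'
      have z2 : (B'.card : ℤ) + (b + 1) * m + b * D.card = B.card := by exact_mod_cast hcB'
      have z3 : (A.card : ℤ) + B.card = k + k := by exact_mod_cast hcardN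
      have z4 : (m : ℤ) = f + f := by exact_mod_cast hf
      refine ⟨(k : ℤ) - A.card - e * m - f - e * D.card, ?_⟩
      have z5 : (b : ℤ) = a + 2 * e := by linarith
      rw [z5] at z2
      linear_combination z2 - z1 + z3 - z4
  · have e1 : (a : ℝ) * B.card + c ≤ b * A.card + a * m := by exact_mod_cast hmslack
    have e2 : (a : ℝ) * B'.card + c ≤ b * A'.card := by
      rw [← hcA'R, ← hcB'R, ← hmr] at e1
      rw [← hac, ← hbc]
      have e3 : 0 ≤ (a : ℝ) * ((b : ℝ) * mr) := mul_nonneg ha0 (mul_nonneg hb0 hm0)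
      nlinarith
    exact_mod_cast e2
  · have e1 : bc - ac = (B.card : ℝ) - A.card - (b + 1 - a) * mr - (b - a) * dc := by linarith
    have e2 : ((b : ℝ) + 1 - a) * mr + (b - a) * dc ≤ (S + 1) * (mr + dc) := by
      have p1 : ((b : ℝ) + 1 - a) * mr ≤ (S + 1) * mr := by
        apply mul_le_mul_of_nonneg_right _ hm0
        rw [hS]; linarith
      have p2 : ((b : ℝ) - a) * dc ≤ (S + 1) * dc := by
        apply mul_le_mul_of_nonneg_right _ hDc0
        rw [hS]; linarith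
      linarith
    have e3 : (1 - 2 * ls) * n - 2 * (ζ * n) ≤ (B.card : ℝ) - A.card := by
      linarith
    have e4 : ac + bc ≤ n := by
      have p1 : 0 ≤ (a : ℝ) * mr := mul_nonneg ha0 hm0
      have p2 : 0 ≤ (a : ℝ) * dc := mul_nonneg ha0 hDc0
      have p3 : 0 ≤ ((b : ℝ) + 1) * mr := mul_nonneg (by linarith) hm0
      have p4 : 0 ≤ (b : ℝ) * dc := mul_nonneg hb0 hDc0
      linarith
    have e5 : κ * (ac + bc) ≤ κ * n := mul_le_mul_of_nonneg_left e4 hκ0.le
    have e6 : τ * n ≤ κ * n := mul_le_mul_of_nonneg_right tE hnpos.le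
    have e7 : (1 - 2 * ls) * n = 4 * (κ * n) := by rw [hκ]; ring
    rw [← hac, ← hbc]
    linarith

theorem extr (h1 : TileStmt) (h2 : TbTiledStmt) (h3 : NCBStmt) (h4 : SplitStmt)
    (h5 : MatchStmt) : ExtrStmt := by
  intro h H a b g hP ls hls0 hls1 hls2
  have ha := hP.ha
  have hab := hP.hab
  have haR : (1 : ℝ) ≤ a := by exact_mod_cast ha
  have habR : (a : ℝ) + 1 ≤ b := by exact_mod_cast hab
  obtain ⟨S, hS⟩ : ∃ S : ℝ, S = (a : ℝ) + b := ⟨_, rfl⟩
  have hS3 : 3 ≤ S := by rw [hS]; linarith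
  obtain ⟨κ, hκ⟩ : ∃ κ : ℝ, κ = (1 - 2 * ls) / 4 := ⟨_, rfl⟩
  have hκ0 : 0 < κ := by rw [hκ]; linarith
  obtain ⟨τ0, c, N0, hτ0, hncb⟩ := h3 h H a b g hP κ hκ0
  obtain ⟨τ, hτ, tA, tB, tC, tD, tE⟩ : ∃ τ : ℝ, 0 < τ ∧ τ ≤ 1 / 64 ∧ τ ≤ τ0 / 6 ∧
      τ * (24 * S) ≤ ls ∧ τ * (64 * S) ≤ 1 ∧ τ ≤ κ := by
    refine ⟨min (min (1 / 64) (τ0 / 6)) (min (ls / (24 * S)) (min (1 / (64 * S)) κ)), ?_,
      ?_, ?_, ?_, ?_, ?_⟩
    · have : 0 < S := by linarith
      positivity
    · exact le_trans (min_le_left _ _) (min_le_left _ _)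
    · exact le_trans (min_le_left _ _) (min_le_right _ _)
    · rw [← le_div_iff₀ (by linarith)]
      exact le_trans (min_le_right _ _) (min_le_left _ _)
    · rw [← le_div_iff₀ (by linarith)]
      exact le_trans (min_le_right _ _) (le_trans (min_le_right _ _) (min_le_left _ _))
    · exact le_trans (min_le_right _ _) (le_trans (min_le_right _ _) (min_le_right _ _))
  obtain ⟨ζ, hζ⟩ : ∃ ζ : ℝ, ζ = τ / (32 * (S + 1) ^ 2) := ⟨_, rfl⟩
  have hζ0 : 0 < ζ := by rw [hζ]; positivity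
  have hζS : (S + 1) ^ 2 * ζ = τ / 32 := by rw [hζ]; field_simp
  have hζ16 : 16 * ζ ≤ τ / 32 := by
    rw [← hζS]
    apply mul_le_mul_of_nonneg_right _ hζ0.le
    nlinarith
  obtain ⟨γ, hγ0, hγ1, hsplit⟩ := h4 ls τ ζ hls0 hls1 hτ (by linarith) hζ0
  obtain ⟨n0, hn0⟩ := exists_nat_ge (64 * (S + 2) * (c + 4 + N0) / (τ * ls))
  refine ⟨γ, 2 * c + 10, n0, hγ0, hγ1, ?_⟩
  intro V _ _ G hn hdeg hg hE
  have hτls : 0 < τ * ls := mul_pos hτ hls0
  have hN00 : (0 : ℝ) ≤ N0 := by positivity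
  have hc0 : (0 : ℝ) ≤ c := by positivity
  obtain ⟨A, B, hAB, hu, hBdeg, hBmis, hAdeg, ⟨D, hDA, hDc, hDmis⟩, hBc⟩ := hsplit V G
    (fun v => by
      have := hdeg v
      have h7 : (0 : ℝ) ≤ ((2 * c + 10 : ℕ) : ℝ) := by positivity
      linarith) hE
  obtain ⟨n, hnR⟩ : ∃ n : ℝ, n = (Fintype.card V : ℝ) := ⟨_, rfl⟩
  obtain ⟨X, hX⟩ : ∃ X : ℝ, X = 64 * (S + 2) * (c + 4 + N0) := ⟨_, rfl⟩
  have hX0 : 0 < X := by rw [hX]; positivity
  have hbig : X ≤ τ * ls * n := by
    have : (n0 : ℝ) ≤ n := by rw [hnR]; exact_mod_cast hn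
    have h6 := le_trans hn0 this
    rw [div_le_iff₀ hτls] at h6
    rw [hX]; linarith
  have hnpos : 0 < n := by
    by_contra hcon
    push Not at hcon
    have : τ * ls * n ≤ 0 := mul_nonpos_of_nonneg_of_nonpos hτls.le hcon
    linarith
  have hcardpos : 0 < Fintype.card V := by
    have : (0 : ℝ) < (Fintype.card V : ℝ) := by rw [← hnR]; exact hnpos
    exact_mod_cast this
  have hbτ : X ≤ τ * n := by
    have h8 : τ * ls * n ≤ τ * 1 * n := by
      apply mul_le_mul_of_nonneg_right _ hnpos.le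
      exact mul_le_mul_of_nonneg_left (by linarith) hτ.le
    linarith
  have hbl : X ≤ ls * n := by
    have h8 : τ * ls * n ≤ 1 * ls * n := by
      apply mul_le_mul_of_nonneg_right _ hnpos.le
      exact mul_le_mul_of_nonneg_right (by linarith) hls0.le
    linarith
  have hbn : X ≤ n := by
    have h8 : ls * n ≤ 1 * n := mul_le_mul_of_nonneg_right (by linarith) hnpos.le
    linarith
  have hSc : 64 * ((S + 2) * 4) ≤ X := by
    rw [hX]
    have : (S + 2) * 4 ≤ (S + 2) * (c + 4 + N0) :=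
      mul_le_mul_of_nonneg_left (by linarith) (by linarith)
    linarith
  have hcN : 64 * ((c : ℝ) + 4 + N0) ≤ X := by
    rw [hX]
    have : 1 * ((c : ℝ) + 4 + N0) ≤ (S + 2) * (c + 4 + N0) :=
      mul_le_mul_of_nonneg_right (by linarith) (by linarith)
    linarith
  have hSc2 : 64 * ((S + 1) * (c + 2)) ≤ X := by
    rw [hX]
    have : (S + 1) * (c + 2) ≤ (S + 2) * (c + 4 + N0) :=
      mul_le_mul (by linarith) (by linarith) (by linarith) (by linarith)
    linarith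
  have hcard : (A.card : ℝ) + B.card = n := by
    have h1 := Finset.card_union_of_disjoint hAB
    rw [hu, Finset.card_univ] at h1
    rw [hnR, h1]; push_cast; ring
  obtain ⟨m, hmev, hmslack, hmle, M, hMc, hMadj, hMdis⟩ := exists_edges h5 G A B a b c
    (2 * c + 10) ls τ ζ hAB hu ha hab hls1 hls2 hτ tA (hS ▸ tD) hζ0 (by linarith) le_rfl
    hcardpos hdeg hBdeg hBc
  rw [← hnR] at hBdeg hBmis hAdeg hDc hDmis hBc hmle
  rw [← hS] at hmle
  clear hdeg hE hsplit
  have hσ := abs_le.mp hBc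
  have hζ64 : ζ * n ≤ 1 / 64 * n := mul_le_mul_of_nonneg_right (by linarith) hnpos.le
  have hBge : n / 4 ≤ B.card := by
    have e2 : 1 / 2 * n ≤ (1 - ls) * n := mul_le_mul_of_nonneg_right (by linarith) hnpos.le
    linarith [hσ.1]
  have hAge : ls * n - ζ * n ≤ A.card := by linarith [hσ.2]
  obtain ⟨t1, ht1⟩ : ∃ t1 : ℕ, t1 = ⌊τ * n⌋₊ := ⟨_, rfl⟩
  obtain ⟨t2, ht2⟩ : ∃ t2 : ℕ, t2 = ⌊3 * τ * n⌋₊ := ⟨_, rfl⟩
  have ht1R : (t1 : ℝ) ≤ τ * n := by rw [ht1]; exact Nat.floor_le (by positivity)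
  have ht2R : (t2 : ℝ) ≤ 3 * τ * n := by rw [ht2]; exact Nat.floor_le (by positivity)
  have hBm : ∀ v ∈ B, misIn G v A ≤ t2 := fun v hv => ht2 ▸ Nat.le_floor (hBmis v hv)
  have hAm : ∀ v ∈ A, v ∉ D → misIn G v B ≤ t1 := fun v hv hvD =>
    ht1 ▸ Nat.le_floor (hDmis v hv hvD)
  obtain ⟨L, hL⟩ : ∃ L : ℕ, L = ⌊τ * n / 8⌋₊ := ⟨_, rfl⟩
  have hLR : (L : ℝ) ≤ τ * n / 8 := by rw [hL]; exact Nat.floor_le (by positivity)
  obtain ⟨K, hK⟩ : ∃ K : ℕ, K = a + b + 1 := ⟨_, rfl⟩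
  have hKR : (K : ℝ) = S + 1 := by rw [hK, hS]; push_cast; ring
  have hτn0 : 0 < τ * n := mul_pos hτ hnpos
  have hζn0 : 0 < ζ * n := mul_pos hζ0 hnpos
  have hused : (K : ℝ) * (m + D.card) ≤ τ * n / 16 := by
    rw [hKR]
    have e1 : (m : ℝ) + D.card ≤ (S + 1) * ζ * n + c + 2 := by
      have e0 : (S + 1) * ζ * n = S * ζ * n + ζ * n := by ring
      linarith
    calc (S + 1) * ((m : ℝ) + D.card) ≤ (S + 1) * ((S + 1) * ζ * n + c + 2) :=
          mul_le_mul_of_nonneg_left e1 (by linarith)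
      _ = ((S + 1) ^ 2 * ζ) * n + (S + 1) * (c + 2) := by ring
      _ = τ / 32 * n + (S + 1) * (c + 2) := by rw [hζS]
      _ ≤ τ * n / 16 := by linarith
  have hused2 : K * (m + D.card) ≤ L := by
    rw [hL]
    apply Nat.le_floor
    push_cast
    linarith
  -- sizes of the rests
  have hrestA : ∀ U : Finset V, U.card ≤ L →
      ls * n - 2 * ζ * n - τ * n / 8 ≤ ((A \ (D ∪ U)).card : ℝ) := by
    intro U hU
    have e1 : A.card ≤ (A \ (D ∪ U)).card + (D.card + U.card) := by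
      have h8 := Finset.le_card_sdiff (D ∪ U) A
      have h9 := Finset.card_union_le D U
      omega
    have e2 : (A.card : ℝ) ≤ (A \ (D ∪ U)).card + (D.card + U.card) := by exact_mod_cast e1
    have e3 : (U.card : ℝ) ≤ L := by exact_mod_cast hU
    linarith
  have hζn : 16 * (ζ * n) ≤ τ * n / 32 := by
    have : (16 * ζ) * n ≤ (τ / 32) * n := mul_le_mul_of_nonneg_right hζ16 hnpos.le
    linarith
  have hτls2 : 72 * (τ * n) ≤ ls * n := by
    have h8 : 72 * τ ≤ ls := by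
      have : τ * (24 * 3) ≤ τ * (24 * S) := mul_le_mul_of_nonneg_left (by linarith) hτ.le
      linarith
    have : (72 * τ) * n ≤ ls * n := mul_le_mul_of_nonneg_right h8 hnpos.le
    linarith
  have hSτ : 24 * (S * (τ * n)) ≤ ls * n := by
    have : (τ * (24 * S)) * n ≤ ls * n := mul_le_mul_of_nonneg_right tC hnpos.le
    linarith
  have hSτ2 : 64 * (S * (τ * n)) ≤ n := by
    have : (τ * (64 * S)) * n ≤ 1 * n := mul_le_mul_of_nonneg_right tD hnpos.le
    linarith
  have haS : (a : ℝ) ≤ S := by rw [hS]; linarith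
  have hbS : (b : ℝ) ≤ S := by rw [hS]; linarith
  have hτ64 : τ * n ≤ 1 / 64 * n := mul_le_mul_of_nonneg_right tA hnpos.le
  -- first family
  obtain ⟨T1, hT1, hT1d⟩ := greedyCover M (fun p => {p.1, p.2}) D K L
    (fun _ T => Tiled H G T ∧ (T ∩ A).card = a ∧ (T ∩ B).card = b + 1)
    (by
      intro p hp q hq hpq
      obtain ⟨d1, d2, d3, d4⟩ := hMdis p hp q hq hpq
      rw [Finset.disjoint_left]
      intro z hz hz'
      simp only [Finset.mem_insert, Finset.mem_singleton] at hz hz'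
      rcases hz with rfl | rfl <;> rcases hz' with h | h
      · exact d1 h
      · exact d2 h
      · exact d3 h
      · exact d4 h)
    (by
      intro p hp
      rw [Finset.disjoint_left]
      intro z hzD hz
      have hzA := hDA hzD
      simp only [Finset.mem_insert, Finset.mem_singleton] at hz
      rcases hz with rfl | rfl
      · exact Finset.disjoint_left.mp hAB hzA (hMadj p hp).1
      · exact Finset.disjoint_left.mp hAB hzA (hMadj p hp).2.1)
    (by
      intro p _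
      refine le_trans (Finset.card_le_two) ?_
      rw [hK]; omega)
    (by
      intro p hp U hU hUd
      obtain ⟨T, r1, r2, r3, r4⟩ := stepEdge h1 H hP.edge ha (by omega) hP.ex G A B D U p.1 p.2
        t1 t2 hAB (hMadj p hp).1 (hMadj p hp).2.1 (hMadj p hp).2.2 hBm hAm hUd
        (by
          have e1 := hrestA U hU
          have e2 : ((2 * t2 + a : ℕ) : ℝ) ≤ ((A \ (D ∪ U)).card : ℝ) := by
            push_cast
            linarith
          exact_mod_cast e2)
        (by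
          have e1 : B.card ≤ (B \ (U ∪ {p.1, p.2})).card + (U.card + 2) := by
            have h8 := Finset.le_card_sdiff (U ∪ {p.1, p.2}) B
            have h9 := Finset.card_union_le U {p.1, p.2}
            have h10 : ({p.1, p.2} : Finset V).card ≤ 2 := Finset.card_le_two
            omega
          have e2 : (B.card : ℝ) ≤ (B \ (U ∪ {p.1, p.2})).card + (U.card + 2) := by
            exact_mod_cast e1
          have e3 : (U.card : ℝ) ≤ L := by exact_mod_cast hU
          have e4 : ((a * t1 + b : ℕ) : ℝ) ≤ ((B \ (U ∪ {p.1, p.2})).card : ℝ) := by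
            push_cast
            have e5 : (a : ℝ) * t1 ≤ S * (τ * n) :=
              mul_le_mul haS ht1R (by positivity) (by linarith)
            linarith
          exact_mod_cast e4)
      exact ⟨T, r1, r2, by rw [hK]; exact r3, r4⟩)
    (by
      rw [hMc]
      refine le_trans ?_ hused2
      rw [mul_add]
      have : D.card ≤ K * D.card := Nat.le_mul_of_pos_left _ (by omega)
      omega)
  set U1 : Finset V := M.biUnion T1 with hU1
  have hU1c : U1.card ≤ K * m := by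
    refine le_trans Finset.card_biUnion_le ?_
    refine le_trans (Finset.sum_le_sum (fun j hj => (hT1 j hj).2.2.1)) ?_
    rw [Finset.sum_const, smul_eq_mul, mul_comm, hMc]
  have hU1D : Disjoint U1 D := by
    rw [hU1, Finset.disjoint_biUnion_left]
    intro p hp
    exact (hT1 p hp).2.2.2.symm
  -- second family
  obtain ⟨T2, hT2, hT2d⟩ := greedyCover D (fun v => {v}) U1 K L
    (fun _ T => Tiled H G T ∧ (T ∩ A).card = a ∧ (T ∩ B).card = b)
    (by
      intro v _ w _ hvw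
      rw [Finset.disjoint_singleton]
      exact hvw)
    (by
      intro v hv
      rw [Finset.disjoint_singleton_right]
      exact fun hv' => Finset.disjoint_left.mp hU1D hv' hv)
    (by
      intro v _
      rw [Finset.card_singleton, hK]; omega)
    (by
      intro v hv U hU hUd
      obtain ⟨T, r1, r2, r3, r4⟩ := stepD h2 H hP.edge ha hP.ex G A B D U v t2 hAB hv hDA hBm
        hUd
        (by
          have e1 := hAdeg v (hDA hv)
          have e3 : (U.card : ℝ) ≤ L := by exact_mod_cast hU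
          have e4 : ((b + U.card : ℕ) : ℝ) ≤ (degIn G v B : ℝ) := by
            push_cast
            linarith
          exact_mod_cast e4)
        (by
          have e1 := hrestA U hU
          have e2 : ((b * t2 + a : ℕ) : ℝ) ≤ ((A \ (D ∪ U)).card : ℝ) := by
            push_cast
            have e5 : (b : ℝ) * t2 ≤ S * (3 * τ * n) :=
              mul_le_mul hbS ht2R (by positivity) (by linarith)
            have e7 : S * (3 * τ * n) = 3 * (S * (τ * n)) := by ring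
            linarith
          exact_mod_cast e2)
      exact ⟨T, r1, r2, by rw [hK]; exact r3, r4⟩)
    (by
      refine le_trans ?_ hused2
      rw [mul_add]
      omega)
  set U2 : Finset V := D.biUnion T2 with hU2
  have hU12 : Disjoint U1 U2 := by
    rw [hU2, Finset.disjoint_biUnion_right]
    intro v hv
    exact (hT2 v hv).2.2.2
  have hDU2 : D ⊆ U2 := by
    intro v hv
    rw [hU2, Finset.mem_biUnion]
    exact ⟨v, hv, (hT2 v hv).1 (Finset.mem_singleton_self v)⟩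
  have hcA1 : (U1 ∩ A).card = a * m := by
    rw [hU1, card_biUnion_inter M T1 A a (fun p hp => (hT1 p hp).2.1.2.1) hT1d, hMc]
  have hcB1 : (U1 ∩ B).card = (b + 1) * m := by
    rw [hU1, card_biUnion_inter M T1 B (b + 1) (fun p hp => (hT1 p hp).2.1.2.2) hT1d, hMc]
  have hcA2 : (U2 ∩ A).card = a * D.card := by
    rw [hU2, card_biUnion_inter D T2 A a (fun p hp => (hT2 p hp).2.1.2.1) hT2d]
  have hcB2 : (U2 ∩ B).card = b * D.card := by
    rw [hU2, card_biUnion_inter D T2 B b (fun p hp => (hT2 p hp).2.1.2.2) hT2d]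
  have hsplitc : ∀ X : Finset V, (X \ (U1 ∪ U2)).card + (U1 ∩ X).card + (U2 ∩ X).card =
      X.card := by
    intro X
    have e1 : (U1 ∪ U2) ∩ X = (U1 ∩ X) ∪ (U2 ∩ X) := Finset.union_inter_distrib_right _ _ _
    have e2 : ((U1 ∩ X) ∪ (U2 ∩ X)).card = (U1 ∩ X).card + (U2 ∩ X).card :=
      Finset.card_union_of_disjoint
        (Disjoint.mono Finset.inter_subset_left Finset.inter_subset_left hU12)
    have e3 := Finset.card_sdiff_add_card_inter X (U1 ∪ U2)
    rw [Finset.inter_comm, e1, e2] at e3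
    omega
  obtain ⟨A', hA'⟩ : ∃ A' : Finset V, A' = A \ (U1 ∪ U2) := ⟨_, rfl⟩
  obtain ⟨B', hB'⟩ : ∃ B' : Finset V, B' = B \ (U1 ∪ U2) := ⟨_, rfl⟩
  have hcA' : A'.card + a * m + a * D.card = A.card := by
    have := hsplitc A; rw [hcA1, hcA2] at this; rw [hA']; exact this
  have hcB' : B'.card + (b + 1) * m + b * D.card = B.card := by
    have := hsplitc B; rw [hcB1, hcB2] at this; rw [hB']; exact this
  have hA'D : ∀ x ∈ A', x ∉ D := fun x hx hxD => by
    rw [hA'] at hx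
    exact (Finset.mem_sdiff.mp hx).2 (Finset.mem_union_right _ (hDU2 hxD))
  have hfinal : Tiled H G (A' ∪ B') := by
    have h64 : 64 * ((c : ℝ) + 4 + N0) ≤ n := le_trans hcN hbn
    exact extr_final H a b g m c N0 hP κ τ0 τ ζ ls n S hncb G A B D A' B' hAB hu
      (hA' ▸ Finset.sdiff_subset) (hB' ▸ Finset.sdiff_subset) hA'D hS hκ hκ0 hτ0 hτ tA tB
      tE hζ0 hζ16 hnpos h64 hcard hDmis hBmis hσ.1 hmslack hmev hcA' hcB' (hKR ▸ hused) hg
  have hT1t : Tiled H G U1 := Tiled.biUnion' M T1 (fun p hp => (hT1 p hp).2.1.1) hT1d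
  have hT2t : Tiled H G U2 := Tiled.biUnion' D T2 (fun p hp => (hT2 p hp).2.1.1) hT2d
  have hd12 : Disjoint (U1 ∪ U2) (A' ∪ B') := by
    rw [Finset.disjoint_union_right, hA', hB']
    exact ⟨Finset.disjoint_sdiff, Finset.disjoint_sdiff⟩
  refine ((hT1t.union hT2t hU12).union hfinal hd12).congr ?_
  rw [Finset.eq_univ_iff_forall]
  intro z
  have hz : z ∈ A ∪ B := by rw [hu]; exact Finset.mem_univ z
  by_cases hzU : z ∈ U1 ∪ U2
  · exact Finset.mem_union_left _ hzU
  · apply Finset.mem_union_right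
    rcases Finset.mem_union.mp hz with hzA | hzB
    · exact Finset.mem_union_left _ (hA' ▸ Finset.mem_sdiff.mpr ⟨hzA, hzU⟩)
    · exact Finset.mem_union_right _ (hB' ▸ Finset.mem_sdiff.mpr ⟨hzB, hzU⟩)

end Pool.Agent.MP_d32e04
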