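import Pool.Agent.Work.MP_d32e04_co.Basic

/-!
MP_d32e04_co: two vertices that are not free form a good pair.
-/

set_option autoImplicit false

namespace Pool.Agent.MP_d32e04

open Finset

theorem goodPair : GoodPairStmt := by
  classical
  intro ls γ h1 h2 h3 η h4 h5 V _ _ G hdeg hE u w hu hw
  by_contra hG
  unfold Good at hG
  unfold Free at hu hw
  rw [not_or, not_le, not_le] at hG
  rw [not_le] at hu hw
  obtain ⟨hG1, hG2⟩ := hG
  apply hE
  set n : ℝ := (Fintype.card V : ℝ) with hn
  have hn0 : 0 ≤ n := Nat.cast_nonneg _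
  refine ⟨nb G u ∪ nb G w, ?_, ?_⟩
  · have h6 := Finset.card_union_add_card_inter (nb G u) (nb G w)
    have h7 : ((nb G u ∪ nb G w).card : ℝ) + ((nb G u ∩ nb G w).card : ℝ) =
        (nb G u).card + (nb G w).card := by exact_mod_cast h6
    have h8 := hdeg u
    have h9 := hdeg w
    rw [degIn_univ] at h8 h9
    have h10 : η * n ≤ γ * n := mul_le_mul_of_nonneg_right (by linarith) hn0
    have h11 : (1 - ls) * n ≤ 2 * (ls * n) := by nlinarith
    have h12 : (1 - ls - γ) * n = (1 - ls) * n - γ * n := by ring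
    linarith
  · have h6 := e2_union_left_le G (nb G u) (nb G w) (nb G u ∪ nb G w)
    have h7 := e2_union_right_le G (nb G u) (nb G u) (nb G w)
    have h8 := e2_union_right_le G (nb G w) (nb G u) (nb G w)
    have h9 := e2_comm G (nb G w) (nb G u)
    have h10 : e2 G (nb G u ∪ nb G w) (nb G u ∪ nb G w) ≤
        e2 G (nb G u) (nb G u) + 2 * e2 G (nb G u) (nb G w) + e2 G (nb G w) (nb G w) := by omega
    have h11 : (e2 G (nb G u ∪ nb G w) (nb G u ∪ nb G w) : ℝ) ≤
        e2 G (nb G u) (nb G u) + 2 * e2 G (nb G u) (nb G w) + e2 G (nb G w) (nb G w) := by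
      exact_mod_cast h10
    have h12 : 4 * η * n ^ 2 ≤ γ * n ^ 2 := mul_le_mul_of_nonneg_right (by linarith) (by positivity)
    linarith

end Pool.Agent.MP_d32e04
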