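import Pool.Agent.Work.MP_d32e04_co.Basic

/-!
MP_d32e04_co: spanning subdivisions in graphs of minimum degree above `n / 2 + C`.
-/

set_option autoImplicit false

namespace Pool.Agent.MP_d32e04

open Finset

lemma half_common {V : Type} [Fintype V] [DecidableEq V] (G : SimpleGraph V) (C : ℕ)
    (hG : ∀ v, 1 / 2 * (Fintype.card V : ℝ) + C ≤ degIn G v Finset.univ) (u w : V) :
    2 * C ≤ (nb G u ∩ nb G w).card := by
  have h1 := hG u
  have h2 := hG w
  rw [degIn_univ] at h1 h2
  have h3 := Finset.card_inter_add_card_union (nb G u) (nb G w)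
  have h4 : (nb G u ∪ nb G w).card ≤ Fintype.card V := Finset.card_le_univ _
  have h5 : ((2 * C : ℕ) : ℝ) ≤ ((nb G u ∩ nb G w).card : ℝ) := by
    have h3' : ((nb G u ∩ nb G w).card : ℝ) + (nb G u ∪ nb G w).card
        = (nb G u).card + (nb G w).card := by exact_mod_cast h3
    have h4' : ((nb G u ∪ nb G w).card : ℝ) ≤ Fintype.card V := by exact_mod_cast h4
    push_cast
    linarith
  exact_mod_cast h5

/-- distinct representatives when all sets are large -/
lemma half_sdr {ι V : Type} [Fintype ι] [DecidableEq V] (t : ι → Finset V)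
    (ht : ∀ i, Fintype.card ι ≤ (t i).card) :
    ∃ f : ι → V, Function.Injective f ∧ ∀ i, f i ∈ t i := by
  classical
  rw [← Finset.all_card_le_biUnion_card_iff_exists_injective]
  intro s
  rcases s.eq_empty_or_nonempty with rfl | ⟨i, hi⟩
  · simp
  · calc s.card ≤ Fintype.card ι := Finset.card_le_univ s
      _ ≤ (t i).card := ht i
      _ ≤ (s.biUnion t).card := Finset.card_le_card (Finset.subset_biUnion_of_mem t hi)

theorem half (hH : HamStmt) : HalfStmt := by
  classical
  intro h H hex
  obtain ⟨u0', v0', hadj0'⟩ := hex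
  obtain ⟨u0, v0, hlt0, hadj0⟩ : ∃ u0 v0, u0 < v0 ∧ H.Adj u0 v0 := by
    rcases lt_trichotomy u0' v0' with h1 | h1 | h1
    · exact ⟨_, _, h1, hadj0'⟩
    · exact absurd h1 hadj0'.ne
    · exact ⟨_, _, h1, hadj0'.symm⟩
  refine ⟨h ^ 2 + h + 5, ?_⟩
  intro V _ _ _ G hG
  set C : ℕ := h ^ 2 + h + 5 with hC
  have hcom := half_common G C hG
  -- the number of vertices
  have hn : 2 * C ≤ Fintype.card V := by
    obtain ⟨v⟩ := ‹Nonempty V›
    exact le_trans (hcom v v) (Finset.card_le_univ _)
  -- the branch vertices
  obtain ⟨φ⟩ : Nonempty (Fin h ↪ V) := by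
    apply Function.Embedding.nonempty_of_card_le
    rw [Fintype.card_fin]
    have : h ≤ C := by rw [hC]; omega
    omega
  set Im : Finset V := Finset.univ.image φ with hIm
  have hImc : Im.card ≤ h := by
    refine le_trans Finset.card_image_le ?_
    rw [Finset.card_univ, Fintype.card_fin]
  -- the inner vertices
  obtain ⟨z, hzinj, hz⟩ := half_sdr (ι := Fin h × Fin h)
    (fun e => (nb G (φ e.1) ∩ nb G (φ e.2)) \ Im) (by
      intro e
      have h1 := hcom (φ e.1) (φ e.2)
      have h2 := Finset.le_card_sdiff Im (nb G (φ e.1) ∩ nb G (φ e.2))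
      rw [Fintype.card_prod, Fintype.card_fin]
      have h3 : h * h = h ^ 2 := (sq h).symm
      omega)
  have hz1 : ∀ e, G.Adj (φ e.1) (z e) := by
    intro e
    have := hz e
    rw [Finset.mem_sdiff, Finset.mem_inter, mem_nb] at this
    exact this.1.1
  have hz2 : ∀ e, G.Adj (φ e.2) (z e) := by
    intro e
    have := hz e
    rw [Finset.mem_sdiff, Finset.mem_inter, mem_nb, mem_nb] at this
    exact this.1.2
  have hz3 : ∀ e w, φ w ≠ z e := by
    intro e w hw
    have := hz e
    rw [Finset.mem_sdiff] at this
    apply this.2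
    rw [← hw]
    exact Finset.mem_image_of_mem _ (Finset.mem_univ w)
  -- the other edges
  set E' : Finset (Fin h × Fin h) := Finset.univ.filter
    (fun e => e.1 < e.2 ∧ H.Adj e.1 e.2 ∧ e ≠ (u0, v0)) with hE'
  set U : Finset V := (Im \ {φ u0, φ v0}) ∪ E'.image z with hU
  have hUc : U.card ≤ h + h ^ 2 := by
    refine le_trans (Finset.card_union_le _ _) ?_
    have h1 : (Im \ {φ u0, φ v0}).card ≤ h :=
      le_trans (Finset.card_le_card Finset.sdiff_subset) hImc
    have h2 : (E'.image z).card ≤ h ^ 2 := by
      refine le_trans Finset.card_image_le ?_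
      refine le_trans (Finset.card_le_univ _) ?_
      rw [Fintype.card_prod, Fintype.card_fin, sq]
    omega
  have hu0 : φ u0 ∉ U := by
    rw [hU, Finset.mem_union, Finset.mem_image]
    rintro (h1 | ⟨e, _, he⟩)
    · rw [Finset.mem_sdiff] at h1
      exact h1.2 (by simp)
    · exact hz3 e u0 he.symm
  have hv0 : φ v0 ∉ U := by
    rw [hU, Finset.mem_union, Finset.mem_image]
    rintro (h1 | ⟨e, _, he⟩)
    · rw [Finset.mem_sdiff] at h1
      exact h1.2 (by simp)
    · exact hz3 e v0 he.symm
  -- the Hamilton path in the rest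
  have hcard : Fintype.card {v : V // v ∉ U} = Fintype.card V - U.card := by
    rw [Fintype.card_subtype_compl, Fintype.card_coe]
  obtain ⟨R, hR1, hR2, hR3, hR4, hR5⟩ := hH {v : V // v ∉ U} (G.comap Subtype.val)
    ⟨φ u0, hu0⟩ ⟨φ v0, hv0⟩ (by
      intro he
      have h1 := congrArg Subtype.val he
      exact hlt0.ne (φ.injective h1)) (by
      rintro ⟨v, hv⟩
      have h1 := hG v
      have h2 : degIn G v Finset.univ ≤
          degIn (G.comap (Subtype.val : {v : V // v ∉ U} → V)) ⟨v, hv⟩ Finset.univ + U.card := by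
        have h3 : degIn G v Finset.univ ≤ degIn G v (Finset.univ \ U) + degIn G v U := by
          have := degIn_union_le G v (Finset.univ \ U) U
          rwa [Finset.sdiff_union_of_subset (Finset.subset_univ U)] at this
        have h4 := degIn_le G v U
        have h5 : degIn G v (Finset.univ \ U) ≤
            degIn (G.comap (Subtype.val : {v : V // v ∉ U} → V)) ⟨v, hv⟩ Finset.univ := by
          unfold degIn
          apply Finset.card_le_card_of_injOn
            (fun w => if hw : w ∉ U then (⟨w, hw⟩ : {v : V // v ∉ U}) else ⟨v, hv⟩)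
          · intro w hw
            simp only [Finset.coe_filter, Finset.mem_sdiff, Finset.mem_univ, true_and,
              Set.mem_ofPred_eq] at hw
            simp only [Finset.coe_filter, Finset.mem_univ, true_and, Set.mem_ofPred_eq]
            rw [dif_pos hw.1]
            exact hw.2
          · intro w hw w' hw' he
            simp only [Finset.coe_filter, Finset.mem_sdiff, Finset.mem_univ, true_and,
              Set.mem_ofPred_eq] at hw hw'
            simp only at he
            rw [dif_pos hw.1, dif_pos hw'.1] at he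
            exact congrArg Subtype.val he
        omega
      have h6 : (degIn G v Finset.univ : ℝ) ≤
          degIn (G.comap (Subtype.val : {v : V // v ∉ U} → V)) ⟨v, hv⟩ Finset.univ + U.card := by
        exact_mod_cast h2
      have h7 : (Fintype.card {v : V // v ∉ U} : ℝ) = Fintype.card V - U.card := by
        rw [hcard, Nat.cast_sub (Finset.card_le_univ U)]
      have h8 : (U.card : ℝ) ≤ h + h ^ 2 := by exact_mod_cast hUc
      have h9 : (C : ℝ) = h ^ 2 + h + 5 := by rw [hC]; push_cast; ring
      rw [h7]
      rw [h9] at h1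
      linarith)
  -- the list of the special path
  set R' : List V := R.map Subtype.val with hR'
  have hR'U : ∀ x ∈ R', x ∉ U := by
    intro x hx
    rw [hR', List.mem_map] at hx
    obtain ⟨y, _, rfl⟩ := hx
    exact y.2
  have hR'n : ∀ w, φ w ∉ R' := by
    intro w hw
    by_cases h1 : w = u0
    · subst h1
      rw [hR', List.mem_map] at hw
      obtain ⟨y, hy, hye⟩ := hw
      apply hR2
      have : y = ⟨φ w, hu0⟩ := Subtype.ext hye
      rwa [this] at hy
    · by_cases h2 : w = v0
      · subst h2
        rw [hR', List.mem_map] at hw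
        obtain ⟨y, hy, hye⟩ := hw
        apply hR3
        have : y = ⟨φ w, hv0⟩ := Subtype.ext hye
        rwa [this] at hy
      · apply hR'U _ hw
        rw [hU, Finset.mem_union]
        left
        rw [Finset.mem_sdiff]
        refine ⟨Finset.mem_image_of_mem _ (Finset.mem_univ w), ?_⟩
        rw [Finset.mem_insert, Finset.mem_singleton]
        rintro (h3 | h3)
        · exact h1 (φ.injective h3)
        · exact h2 (φ.injective h3)
  have hR'z : ∀ e, e ∈ E' → z e ∉ R' := by
    intro e he hx
    apply hR'U _ hx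
    rw [hU, Finset.mem_union]
    right
    exact Finset.mem_image_of_mem _ he
  have hmemE : ∀ u v, u < v → H.Adj u v → (u, v) ≠ (u0, v0) → (u, v) ∈ E' := by
    intro u v h1 h2 h3
    rw [hE', Finset.mem_filter]
    exact ⟨Finset.mem_univ _, h1, h2, h3⟩
  refine ⟨φ, fun u v => if (u, v) = (u0, v0) then R' else [z (u, v)], φ.injective, ?_, ?_, ?_⟩
  · intro u v huv hadj
    by_cases he : (u, v) = (u0, v0)
    · simp only [if_pos he]
      obtain ⟨rfl, rfl⟩ := Prod.mk.inj he
      refine ⟨?_, hR1.map Subtype.val_injective, hR'n⟩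
      have h1 : φ u :: (R' ++ [φ v]) =
          ((⟨φ u, hu0⟩ : {v : V // v ∉ U}) :: (R ++ [⟨φ v, hv0⟩])).map Subtype.val := by
        rw [hR']
        simp
      rw [h1, List.isChain_map]
      exact hR4.imp (fun a b hab => hab)
    · simp only [if_neg he]
      refine ⟨?_, List.nodup_singleton _, ?_⟩
      · simp only [List.cons_append, List.nil_append, List.isChain_cons_cons,
          List.isChain_singleton, and_true]
        exact ⟨hz1 (u, v), (hz2 (u, v)).symm⟩
      · intro w hw
        rw [List.mem_singleton] at hw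
        exact hz3 (u, v) w hw
  · intro u v u' v' a1 a2 a3 a4 hne x hx hx'
    by_cases he : (u, v) = (u0, v0)
    · have he' : (u', v') ≠ (u0, v0) := fun h => hne (he.trans h.symm)
      simp only [if_pos he] at hx
      simp only [if_neg he'] at hx'
      rw [List.mem_singleton] at hx'
      rw [hx'] at hx
      exact hR'z _ (hmemE _ _ a3 a4 he') hx
    · simp only [if_neg he] at hx
      rw [List.mem_singleton] at hx
      by_cases he' : (u', v') = (u0, v0)
      · simp only [if_pos he'] at hx'
        rw [hx] at hx'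
        exact hR'z _ (hmemE _ _ a1 a2 he) hx'
      · simp only [if_neg he'] at hx'
        rw [List.mem_singleton] at hx'
        exact hne (hzinj (hx.symm.trans hx'))
  · intro x
    refine ⟨fun _ => ?_, fun _ => Finset.mem_univ x⟩
    by_cases hxU : x ∈ U
    · rw [hU, Finset.mem_union] at hxU
      rcases hxU with h1 | h1
      · rw [Finset.mem_sdiff, hIm, Finset.mem_image] at h1
        obtain ⟨⟨w, _, hw⟩, _⟩ := h1
        exact Or.inl ⟨w, hw.symm⟩
      · rw [Finset.mem_image] at h1
        obtain ⟨⟨u, v⟩, he, hex⟩ := h1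
        rw [hE', Finset.mem_filter] at he
        obtain ⟨_, h3, h4, h5⟩ := he
        refine Or.inr ⟨u, v, h3, h4, ?_⟩
        simp only [if_neg h5]
        rw [List.mem_singleton]
        exact hex.symm
    · rcases hR5 ⟨x, hxU⟩ with h1 | h1 | h1
      · exact Or.inl ⟨u0, congrArg Subtype.val h1⟩
      · exact Or.inl ⟨v0, congrArg Subtype.val h1⟩
      · refine Or.inr ⟨u0, v0, hlt0, hadj0, ?_⟩
        simp only [if_true]
        rw [hR', List.mem_map]
        exact ⟨_, h1, rfl⟩

end Pool.Agent.MP_d32e04
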