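import Pool.Agent.Work.MP_d32e04_co.Basic

/-!
Hamilton paths with given ends, by the exchange argument: among all linear arrangements of the
vertices from `x` to `y` take one with the fewest nonadjacent consecutive pairs; reversing a
segment removes a nonadjacent pair.
-/

set_option autoImplicit false

namespace Pool.Agent.MP_d32e04

open Finset

section ham

variable {V : Type}

open Classical in
/-- number of consecutive nonadjacent pairs -/
noncomputable def badc (G : SimpleGraph V) : List V → ℕ
  | [] => 0
  | [_] => 0
  | a :: b :: l => (if G.Adj a b then 0 else 1) + badc G (b :: l)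

open Classical in
theorem badc_cons_cons (G : SimpleGraph V) (a b : V) (l : List V) :
    badc G (a :: b :: l) = (if G.Adj a b then 0 else 1) + badc G (b :: l) := by
  rw [badc]

theorem badc_singleton (G : SimpleGraph V) (a : V) : badc G [a] = 0 := by rw [badc]

open Classical in
theorem badc_append (G : SimpleGraph V) (P : List V) (a b : V) (Q : List V) :
    badc G (P ++ a :: b :: Q) =
      badc G (P ++ [a]) + (if G.Adj a b then 0 else 1) + badc G (b :: Q) := by
  induction P with
  | nil => rw [List.nil_append, List.nil_append, badc_cons_cons, badc_singleton]; ring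
  | cons c P ih =>
    cases P with
    | nil =>
      simp only [List.cons_append, List.nil_append, badc_cons_cons, badc_singleton]
      ring
    | cons d P =>
      simp only [List.cons_append, badc_cons_cons] at ih ⊢
      rw [ih]
      ring

theorem badc_reverse (G : SimpleGraph V) (l : List V) : badc G l.reverse = badc G l := by
  classical
  induction l with
  | nil => rfl
  | cons a l ih =>
    cases l with
    | nil => rfl
    | cons b l =>
      rw [List.reverse_cons, List.reverse_cons, List.append_assoc]
      show badc G (l.reverse ++ b :: a :: []) = _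
      rw [badc_append, badc_singleton, badc_cons_cons, ← ih, List.reverse_cons]
      simp only [G.adj_comm b a]
      ring

open Classical in
theorem badc_split (G : SimpleGraph V) (P : List V) (p : V) (S : List V) (s1 s2 z : V)
    (Q : List V) (h1 : S.head? = some s1) (h2 : S.getLast? = some s2) :
    badc G (P ++ p :: (S ++ z :: Q)) = badc G (P ++ [p]) + (if G.Adj p s1 then 0 else 1) +
      badc G S + (if G.Adj s2 z then 0 else 1) + badc G (z :: Q) := by
  obtain ⟨S', rfl⟩ : ∃ S', S = s1 :: S' := by
    cases S with
    | nil => simp at h1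
    | cons a S => simp at h1; exact ⟨S, by rw [h1]⟩
  obtain ⟨S'', h3⟩ := List.getLast?_eq_some_iff.1 h2
  rw [List.cons_append, badc_append]
  have h4 : s1 :: (S' ++ z :: Q) = S'' ++ s2 :: z :: Q := by
    rw [← List.cons_append, h3, List.append_assoc]; rfl
  rw [h4, badc_append, h3]
  ring

theorem isChain_of_badc (G : SimpleGraph V) (l : List V) (h : badc G l = 0) :
    List.IsChain G.Adj l := by
  classical
  induction l with
  | nil => exact List.isChain_nil
  | cons a l ih =>
    cases l with
    | nil => exact List.isChain_singleton a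
    | cons b l =>
      rw [badc_cons_cons] at h
      rw [List.isChain_cons_cons]
      have h1 : (if G.Adj a b then 0 else 1) = 0 := by omega
      refine ⟨?_, ih (by omega)⟩
      by_contra hc
      rw [if_neg hc] at h1
      omega

theorem exists_bad (G : SimpleGraph V) (l : List V) (h : badc G l ≠ 0) :
    ∃ i, ∃ hi : i + 1 < l.length, ¬ G.Adj l[i] l[i + 1] := by
  classical
  induction l with
  | nil => exact absurd rfl h
  | cons a l ih =>
    cases l with
    | nil => exact absurd (badc_singleton G a) h
    | cons b l =>
      rw [badc_cons_cons] at h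
      by_cases hab : G.Adj a b
      · rw [if_pos hab, zero_add] at h
        obtain ⟨i, hi, h1⟩ := ih h
        exact ⟨i + 1, by simp only [List.length_cons] at hi ⊢; omega, by simpa using h1⟩
      · exact ⟨0, by simp, by simpa using hab⟩

theorem split_at (l : List V) (i j : ℕ) (hij : i < j) (hj : j + 1 < l.length) :
    ∃ P S Q, l = P ++ l[i] :: (S ++ l[j + 1] :: Q) ∧ S.head? = some l[i + 1] ∧
      S.getLast? = some l[j] := by
  refine ⟨l.take i, (l.take (j + 1)).drop (i + 1), l.drop (j + 2), ?_, ?_, ?_⟩
  · have e1 : l.drop (j + 1) = l[j + 1] :: l.drop (j + 2) := List.drop_eq_getElem_cons hj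
    have e2 : l.drop (i + 1) = (l.take (j + 1)).drop (i + 1) ++ l.drop (j + 1) := by
      conv_lhs => rw [← List.take_append_drop (j + 1) l]
      rw [List.drop_append_of_le_length]
      rw [List.length_take]; omega
    rw [← e1, ← e2, ← List.drop_eq_getElem_cons (by omega), List.take_append_drop]
  · rw [List.head?_drop, List.getElem?_take_of_lt (by omega), List.getElem?_eq_getElem]
  · rw [List.getLast?_drop, if_neg (by rw [List.length_take]; omega), List.getLast?_take,
      if_neg (by omega)]
    simp only [Nat.add_sub_cancel]
    rw [List.getElem?_eq_getElem (by omega)]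
    rfl

/-- One exchange. -/
theorem exchange (G : SimpleGraph V) (l : List V) (i j : ℕ) (hij : i < j) (hj : j + 1 < l.length)
    (hbad : ¬ (G.Adj l[i] l[i + 1] ∧ G.Adj l[j] l[j + 1])) (h1 : G.Adj l[i] l[j])
    (h2 : G.Adj l[i + 1] l[j + 1]) :
    ∃ l' : List V, l'.Perm l ∧ l'.head? = l.head? ∧ l'.getLast? = l.getLast? ∧
      badc G l' < badc G l := by
  classical
  obtain ⟨P, S, Q, hl, hS1, hS2⟩ := split_at l i j hij hj
  generalize l[i] = p at hl hbad h1
  generalize l[i + 1] = s1 at hS1 hbad h2
  generalize l[j] = s2 at hS2 hbad h1
  generalize l[j + 1] = z at hl hbad h2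
  refine ⟨P ++ p :: (S.reverse ++ z :: Q), ?_, ?_, ?_, ?_⟩
  · rw [hl]
    exact List.Perm.append_left _ (List.Perm.cons _ (List.Perm.append_right _
      (List.reverse_perm S)))
  · rw [hl]
    cases P <;> simp
  · rw [hl]
    simp [List.getLast?_append, List.getLast?_cons]
  · rw [hl, badc_split G P p S s1 s2 z Q hS1 hS2,
      badc_split G P p S.reverse s2 s1 z Q (by rw [List.head?_reverse]; exact hS2)
        (by rw [List.getLast?_reverse]; exact hS1), badc_reverse, if_pos h1, if_pos h2]
    by_cases h3 : G.Adj p s1
    · have h4 : ¬ G.Adj s2 z := fun h => hbad ⟨h3, h⟩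
      rw [if_pos h3, if_neg h4]
      omega
    · rw [if_neg h3]
      split_ifs <;> omega

theorem exists_exchange [Fintype V] [DecidableEq V] (G : SimpleGraph V) (l : List V)
    (hnd : l.Nodup) (hall : ∀ v, v ∈ l)
    (hdeg : ∀ v, 1 / 2 * (Fintype.card V : ℝ) + 1 ≤ degIn G v Finset.univ)
    (hb : badc G l ≠ 0) :
    ∃ l' : List V, l'.Perm l ∧ l'.head? = l.head? ∧ l'.getLast? = l.getLast? ∧
      badc G l' < badc G l := by
  classical
  obtain ⟨i, hi, hbad⟩ := exists_bad G l hb
  have hn : l.length = Fintype.card V := by
    rw [← List.toFinset_card_of_nodup hnd, ← Finset.card_univ]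
    congr 1
    ext v
    simp [hall v]
  -- degrees counted by positions
  have hcount : ∀ u : V, degIn G u Finset.univ =
      ((Finset.univ : Finset (Fin l.length)).filter (fun j => G.Adj u l[j])).card := by
    intro u
    unfold degIn
    symm
    apply Finset.card_bij (fun j _ => l[j])
    · intro j hj
      simp only [Finset.mem_filter, Finset.mem_univ, true_and] at hj ⊢
      exact hj
    · intro j _ k _ h
      have := (List.Nodup.getElem_inj_iff hnd).1 h
      exact Fin.ext this
    · intro v hv
      obtain ⟨k, hk, hkv⟩ := List.getElem_of_mem (hall v)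
      refine ⟨⟨k, hk⟩, ?_, hkv⟩
      simp only [Finset.mem_filter, Finset.mem_univ, true_and] at hv ⊢
      show G.Adj u l[k]
      rw [hkv]; exact hv
  set u := l[i] with hu
  set v := l[i + 1] with hv
  set A := (Finset.range (l.length - 1)).filter (fun j => ∃ h : j < l.length, G.Adj u l[j]) with hA
  set B := (Finset.range (l.length - 1)).filter (fun j => ∃ h : j + 1 < l.length, G.Adj v l[j + 1])
    with hB
  have hA1 : degIn G u Finset.univ ≤ A.card + 1 := by
    rw [hcount]
    calc ((Finset.univ : Finset (Fin l.length)).filter (fun j => G.Adj u l[j])).card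
        = (((Finset.univ : Finset (Fin l.length)).filter (fun j => G.Adj u l[j])).map
            Fin.valEmbedding).card := (Finset.card_map _).symm
      _ ≤ (insert (l.length - 1) A).card := by
          apply Finset.card_le_card
          intro j hj
          rw [Finset.mem_map] at hj
          obtain ⟨k, hk, rfl⟩ := hj
          simp only [Finset.mem_filter, Finset.mem_univ, true_and] at hk
          rw [Finset.mem_insert, hA, Finset.mem_filter, Finset.mem_range]
          have := k.2
          by_cases h : (k : ℕ) = l.length - 1
          · left; exact h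
          · right; exact ⟨by show (k : ℕ) < _; omega, k.2, hk⟩
      _ ≤ A.card + 1 := Finset.card_insert_le _ _
  have hB1 : degIn G v Finset.univ ≤ B.card + 1 := by
    rw [hcount]
    calc ((Finset.univ : Finset (Fin l.length)).filter (fun j => G.Adj v l[j])).card
        = (((Finset.univ : Finset (Fin l.length)).filter (fun j => G.Adj v l[j])).map
            Fin.valEmbedding).card := (Finset.card_map _).symm
      _ ≤ (insert 0 (B.image (fun j => j + 1))).card := by
          apply Finset.card_le_card
          intro j hj
          rw [Finset.mem_map] at hj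
          obtain ⟨k, hk, rfl⟩ := hj
          simp only [Finset.mem_filter, Finset.mem_univ, true_and] at hk
          rw [Finset.mem_insert, Finset.mem_image]
          obtain ⟨k, hk2⟩ := k
          cases k with
          | zero => left; rfl
          | succ k =>
            right
            refine ⟨k, ?_, rfl⟩
            rw [hB, Finset.mem_filter, Finset.mem_range]
            exact ⟨by omega, hk2, hk⟩
      _ ≤ (B.image (fun j => j + 1)).card + 1 := Finset.card_insert_le _ _
      _ ≤ B.card + 1 := by have := Finset.card_image_le (s := B) (f := fun j => j + 1); omega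
  have hAi : A ⊆ (Finset.range (l.length - 1)).erase i := by
    intro j hj
    rw [hA, Finset.mem_filter] at hj
    obtain ⟨hj1, hj2, hj3⟩ := hj
    rw [Finset.mem_erase]
    refine ⟨?_, hj1⟩
    rintro rfl
    exact G.loopless.irrefl _ hj3
  have hBi : B ⊆ (Finset.range (l.length - 1)).erase i := by
    intro j hj
    rw [hB, Finset.mem_filter] at hj
    obtain ⟨hj1, hj2, hj3⟩ := hj
    rw [Finset.mem_erase]
    refine ⟨?_, hj1⟩
    rintro rfl
    exact G.loopless.irrefl _ hj3
  have hex : ∃ j, j ∈ A ∧ j ∈ B := by
    by_contra hcon
    push Not at hcon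
    have hd : Disjoint A B := Finset.disjoint_left.2 (fun j hj => hcon j hj)
    have h1 := Finset.card_le_card (Finset.union_subset hAi hBi)
    rw [Finset.card_union_of_disjoint hd, Finset.card_erase_of_mem
      (Finset.mem_range.2 (by omega)), Finset.card_range] at h1
    have h2 := hdeg u
    have h3 := hdeg v
    have h4 : (degIn G u Finset.univ : ℝ) ≤ A.card + 1 := by exact_mod_cast hA1
    have h5 : (degIn G v Finset.univ : ℝ) ≤ B.card + 1 := by exact_mod_cast hB1
    have h6 : (A.card : ℝ) + B.card + 2 ≤ Fintype.card V := by
      have : A.card + B.card + 2 ≤ Fintype.card V := by omega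
      exact_mod_cast this
    linarith
  obtain ⟨j, hjA, hjB⟩ := hex
  have hne : j ≠ i := (Finset.mem_erase.1 (hAi hjA)).1
  rw [hA, Finset.mem_filter] at hjA
  rw [hB, Finset.mem_filter] at hjB
  obtain ⟨-, hj1, hj2⟩ := hjA
  obtain ⟨-, hj3, hj4⟩ := hjB
  rcases lt_or_gt_of_ne hne with h | h
  · exact exchange G l j i h hi (fun hc => hbad hc.2) hj2.symm hj4.symm
  · exact exchange G l i j h hj3 (fun hc => hbad hc.1) hj2 hj4

theorem ham : HamStmt := by
  intro V _ _ G x y hxy hdeg
  classical
  -- arrangements
  let Pr : ℕ → Prop := fun k => ∃ l : List V, l.Nodup ∧ (∀ v, v ∈ l) ∧ l.head? = some x ∧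
    l.getLast? = some y ∧ badc G l = k
  have hex : ∃ k, Pr k := by
    refine ⟨_, x :: (((Finset.univ.erase x).erase y).toList ++ [y]), ?_, ?_, rfl, ?_, rfl⟩
    · rw [List.nodup_cons, List.nodup_append]
      refine ⟨?_, Finset.nodup_toList _, List.nodup_singleton y, ?_⟩
      · simp [hxy]
      · intro a ha b hb
        rw [List.mem_singleton] at hb
        subst hb
        rintro rfl
        simp at ha
    · intro v
      simp only [List.mem_cons, List.mem_append, Finset.mem_toList, Finset.mem_erase,
        Finset.mem_univ, and_true, List.not_mem_nil, or_false]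
      tauto
    · rw [← List.cons_append, List.getLast?_concat]
  obtain ⟨l, hnd, hall, hh, hg, hb⟩ := Nat.find_spec hex
  have hb0 : badc G l = 0 := by
    by_contra hne
    obtain ⟨l', hp, h1, h2, h3⟩ := exists_exchange G l hnd hall hdeg hne
    have h4 : Pr (badc G l') := ⟨l', hp.nodup_iff.2 hnd, fun v => hp.mem_iff.2 (hall v),
      h1.trans hh, h2.trans hg, rfl⟩
    have h5 := Nat.find_min' hex h4
    omega
  have hc := isChain_of_badc G l hb0
  obtain ⟨l1, rfl⟩ : ∃ l1, l = x :: l1 := by
    cases l with
    | nil => simp at hh
    | cons a l => simp at hh; exact ⟨l, by rw [hh]⟩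
  obtain ⟨l2, hl2⟩ := List.getLast?_eq_some_iff.1 hg
  cases l2 with
  | nil =>
    rw [List.nil_append] at hl2
    exact absurd (List.cons.inj hl2).1 hxy
  | cons a R =>
    rw [List.cons_append] at hl2
    obtain ⟨h1, h2⟩ := List.cons.inj hl2
    subst h1 h2
    rw [List.nodup_cons, List.nodup_append, List.mem_append] at hnd
    obtain ⟨hn1, hn2, -, hn3⟩ := hnd
    refine ⟨R, hn2, fun h => hn1 (Or.inl h), fun h => hn3 y h y (List.mem_singleton.2 rfl) rfl,
      hc, fun v => ?_⟩
    have := hall v
    simp only [List.mem_cons, List.mem_append, List.not_mem_nil, or_false] at this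
    tauto

end ham

end Pool.Agent.MP_d32e04
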