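import Pool.Agent.Work.MP_d32e04_co.Basic

/-!
MP_d32e04_co, items 6 and 7: many complete bipartite graphs, Kovari-Sos-Turan.
-/

set_option autoImplicit false

namespace Pool.Agent.MP_d32e04

open Finset

section kst

open Classical in
/-- homomorphisms of `K_{s,s}` into the pair `(U1, U2)` -/
noncomputable def homK {V : Type} (G : SimpleGraph V) (U1 U2 : Finset V) (s : ℕ) :
    Finset ((Fin s → V) × (Fin s → V)) :=
  ((Fintype.piFinset (fun _ : Fin s => U1)) ×ˢ (Fintype.piFinset (fun _ : Fin s => U2))).filter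
    (fun p => ∀ i j, G.Adj (p.1 i) (p.2 j))

open Classical in
/-- common neighbours in `U` of a tuple -/
noncomputable def cnK {V : Type} (G : SimpleGraph V) (U : Finset V) {s : ℕ} (x : Fin s → V) :
    Finset V := U.filter (fun y => ∀ i, G.Adj (x i) y)

lemma card_homK {V : Type} (G : SimpleGraph V) (U1 U2 : Finset V) (s : ℕ) :
    (homK G U1 U2 s).card =
      ∑ x ∈ Fintype.piFinset (fun _ : Fin s => U1), (cnK G U2 x).card ^ s := by
  classical
  unfold homK
  rw [Finset.card_filter, Finset.sum_product]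
  apply Finset.sum_congr rfl
  intro x _
  rw [← Finset.card_filter, ← Fintype.card_piFinset_const (cnK G U2 x) s]
  congr 1
  ext y
  simp only [Finset.mem_filter, Fintype.mem_piFinset, cnK]
  constructor
  · rintro ⟨h1, h2⟩ j
    exact ⟨h1 j, fun i => h2 i j⟩
  · intro h
    exact ⟨fun j => (h j).1, fun i j => (h j).2 i⟩

lemma sum_cnK {V : Type} (G : SimpleGraph V) (U1 U2 : Finset V) (s : ℕ) :
    ∑ x ∈ Fintype.piFinset (fun _ : Fin s => U1), (cnK G U2 x).card =
      ∑ y ∈ U2, (degIn G y U1) ^ s := by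
  classical
  have h1 : ∀ x : Fin s → V, (cnK G U2 x).card = ∑ y ∈ U2, if ∀ i, G.Adj (x i) y then 1 else 0 := by
    intro x
    unfold cnK
    rw [Finset.card_filter]
  simp only [h1]
  rw [Finset.sum_comm]
  apply Finset.sum_congr rfl
  intro y _
  rw [← Finset.card_filter]
  unfold degIn
  rw [← Fintype.card_piFinset_const _ s]
  congr 1
  ext x
  simp only [Finset.mem_filter, Fintype.mem_piFinset]
  constructor
  · rintro ⟨h2, h3⟩ i
    exact ⟨h2 i, (h3 i).symm⟩
  · intro h
    exact ⟨fun i => (h i).1, fun i => ((h i).2).symm⟩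

/-- Sidorenko for `K_{s,s}` -/
lemma homK_lower {V : Type} (G : SimpleGraph V) (U1 U2 : Finset V) (t : ℕ) :
    (e2 G U1 U2) ^ ((t + 1) * (t + 1)) ≤
      (homK G U1 U2 (t + 1)).card * (U1.card * U2.card) ^ ((t + 1) * t) := by
  classical
  have hA : (e2 G U1 U2) ^ (t + 1) ≤
      U2.card ^ t * ∑ x ∈ Fintype.piFinset (fun _ : Fin (t + 1) => U1), (cnK G U2 x).card := by
    rw [sum_cnK, e2_comm, e2_eq_sum]
    exact pow_sum_le_card_mul_sum_pow (fun i _ => Nat.zero_le _) t
  have hB : (∑ x ∈ Fintype.piFinset (fun _ : Fin (t + 1) => U1), (cnK G U2 x).card) ^ (t + 1) ≤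
      (U1.card ^ (t + 1)) ^ t * (homK G U1 U2 (t + 1)).card := by
    rw [card_homK, ← Fintype.card_piFinset_const U1 (t + 1)]
    exact pow_sum_le_card_mul_sum_pow (fun i _ => Nat.zero_le _) t
  calc (e2 G U1 U2) ^ ((t + 1) * (t + 1)) = ((e2 G U1 U2) ^ (t + 1)) ^ (t + 1) := by
        rw [pow_mul]
    _ ≤ (U2.card ^ t * ∑ x ∈ Fintype.piFinset (fun _ : Fin (t + 1) => U1),
          (cnK G U2 x).card) ^ (t + 1) := Nat.pow_le_pow_left hA _
    _ = (U2.card ^ t) ^ (t + 1) * (∑ x ∈ Fintype.piFinset (fun _ : Fin (t + 1) => U1),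
          (cnK G U2 x).card) ^ (t + 1) := by rw [mul_pow]
    _ ≤ (U2.card ^ t) ^ (t + 1) * ((U1.card ^ (t + 1)) ^ t * (homK G U1 U2 (t + 1)).card) :=
        Nat.mul_le_mul_left _ hB
    _ = (homK G U1 U2 (t + 1)).card * (U1.card * U2.card) ^ ((t + 1) * t) := by
        rw [← pow_mul, ← pow_mul, mul_pow, mul_comm t (t + 1)]
        ring

open Classical in
/-- tuples with a repetition -/
lemma card_noninj {V : Type} (U : Finset V) (t : ℕ) :
    ((Fintype.piFinset (fun _ : Fin (t + 1) => U)).filter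
      (fun x => ¬ Function.Injective x)).card ≤ (t + 1) * (t + 1) * U.card ^ t := by
  classical
  set F : Fin (t + 1) × Fin (t + 1) → Finset (Fin (t + 1) → V) := fun p =>
    (Fintype.piFinset (fun _ : Fin (t + 1) => U)).filter (fun x => p.1 ≠ p.2 ∧ x p.1 = x p.2)
    with hF
  have h1 : (Fintype.piFinset (fun _ : Fin (t + 1) => U)).filter
      (fun x => ¬ Function.Injective x) ⊆ Finset.univ.biUnion F := by
    intro x hx
    rw [Finset.mem_filter] at hx
    obtain ⟨hx1, hx2⟩ := hx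
    unfold Function.Injective at hx2
    push Not at hx2
    obtain ⟨i, j, hij, hne⟩ := hx2
    rw [Finset.mem_biUnion]
    exact ⟨(i, j), Finset.mem_univ _, Finset.mem_filter.mpr ⟨hx1, hne, hij⟩⟩
  have h2 : ∀ p, (F p).card ≤ U.card ^ t := by
    intro p
    rw [← Fintype.card_piFinset_const U t]
    by_cases hp : p.1 = p.2
    · have : F p = ∅ := by
        rw [hF]
        apply Finset.filter_eq_empty_iff.mpr
        intro x _ h
        exact h.1 hp
      rw [this]
      simp
    · apply Finset.card_le_card_of_injOn (fun x => fun k : Fin t => x (p.1.succAbove k))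
      · intro x hx
        rw [hF] at hx
        simp only [Finset.coe_filter, Set.mem_ofPred_eq, Fintype.mem_piFinset] at hx
        simp only [Finset.mem_coe, Fintype.mem_piFinset]
        intro k
        exact hx.1 _
      · intro x hx y hy hxy
        rw [hF] at hx hy
        simp only [Finset.coe_filter, Set.mem_ofPred_eq, Fintype.mem_piFinset] at hx hy
        have h3 : ∀ k, x (p.1.succAbove k) = y (p.1.succAbove k) := fun k => congrFun hxy k
        have h4 : ∀ k, k ≠ p.1 → x k = y k := by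
          intro k hk
          obtain ⟨k', rfl⟩ := Fin.exists_succAbove_eq hk
          exact h3 k'
        funext k
        by_cases hk : k = p.1
        · rw [hk, hx.2.2, hy.2.2]
          exact h4 _ (fun h => hp h.symm)
        · exact h4 k hk
  calc _ ≤ (Finset.univ.biUnion F).card := Finset.card_le_card h1
    _ ≤ ∑ p : Fin (t + 1) × Fin (t + 1), (F p).card := Finset.card_biUnion_le
    _ ≤ ∑ _p : Fin (t + 1) × Fin (t + 1), U.card ^ t := Finset.sum_le_sum (fun p _ => h2 p)
    _ = (t + 1) * (t + 1) * U.card ^ t := by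
        rw [Finset.sum_const, Finset.card_univ, smul_eq_mul]
        simp

open Classical in
/-- injective homomorphisms -/
noncomputable def ihomK {V : Type} (G : SimpleGraph V) (U1 U2 : Finset V) (s : ℕ) :
    Finset ((Fin s → V) × (Fin s → V)) :=
  (homK G U1 U2 s).filter (fun p => Function.Injective p.1 ∧ Function.Injective p.2)

lemma homK_le {V : Type} (G : SimpleGraph V) (U1 U2 : Finset V) (t : ℕ) :
    (homK G U1 U2 (t + 1)).card ≤ (ihomK G U1 U2 (t + 1)).card +
      (t + 1) * (t + 1) * (U1.card ^ t * U2.card ^ (t + 1) + U1.card ^ (t + 1) * U2.card ^ t) := by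
  classical
  set P1 := Fintype.piFinset (fun _ : Fin (t + 1) => U1) with hP1
  set P2 := Fintype.piFinset (fun _ : Fin (t + 1) => U2) with hP2
  have h1 : homK G U1 U2 (t + 1) ⊆ ihomK G U1 U2 (t + 1) ∪
      (((P1.filter (fun x => ¬ Function.Injective x)) ×ˢ P2) ∪
        (P1 ×ˢ (P2.filter (fun x => ¬ Function.Injective x)))) := by
    intro p hp
    have hp' := hp
    unfold homK at hp'
    rw [Finset.mem_filter, Finset.mem_product] at hp'
    by_cases h1 : Function.Injective p.1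
    · by_cases h2 : Function.Injective p.2
      · exact Finset.mem_union_left _ (Finset.mem_filter.mpr ⟨hp, h1, h2⟩)
      · apply Finset.mem_union_right
        apply Finset.mem_union_right
        rw [Finset.mem_product, Finset.mem_filter]
        exact ⟨hp'.1.1, hp'.1.2, h2⟩
    · apply Finset.mem_union_right
      apply Finset.mem_union_left
      rw [Finset.mem_product, Finset.mem_filter]
      exact ⟨⟨hp'.1.1, h1⟩, hp'.1.2⟩
  have h2 := card_noninj U1 t
  have h3 := card_noninj U2 t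
  have c1 : P1.card = U1.card ^ (t + 1) := Fintype.card_piFinset_const _ _
  have c2 : P2.card = U2.card ^ (t + 1) := Fintype.card_piFinset_const _ _
  calc (homK G U1 U2 (t + 1)).card ≤ _ := Finset.card_le_card h1
    _ ≤ (ihomK G U1 U2 (t + 1)).card +
        (((P1.filter (fun x => ¬ Function.Injective x)) ×ˢ P2).card +
          (P1 ×ˢ (P2.filter (fun x => ¬ Function.Injective x))).card) := by
        refine le_trans (Finset.card_union_le _ _) ?_
        exact Nat.add_le_add_left (Finset.card_union_le _ _) _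
    _ ≤ (ihomK G U1 U2 (t + 1)).card +
        ((t + 1) * (t + 1) * U1.card ^ t * U2.card ^ (t + 1) +
          U1.card ^ (t + 1) * ((t + 1) * (t + 1) * U2.card ^ t)) := by
        rw [Finset.card_product, Finset.card_product, c1, c2]
        gcongr
    _ = _ := by ring

lemma mem_ihomK {V : Type} (G : SimpleGraph V) (U1 U2 : Finset V) (s : ℕ)
    (p : (Fin s → V) × (Fin s → V)) (hp : p ∈ ihomK G U1 U2 s) :
    (((∀ i, p.1 i ∈ U1) ∧ (∀ i, p.2 i ∈ U2)) ∧ ∀ i j, G.Adj (p.1 i) (p.2 j)) ∧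
      Function.Injective p.1 ∧ Function.Injective p.2 := by
  classical
  unfold ihomK homK at hp
  rw [Finset.mem_filter, Finset.mem_filter, Finset.mem_product, Fintype.mem_piFinset,
    Fintype.mem_piFinset] at hp
  exact hp

/-- an injective homomorphism gives a complete pair -/
lemma ihomK_spec {V : Type} [DecidableEq V] (G : SimpleGraph V) (U1 U2 : Finset V) (s : ℕ)
    (p : (Fin s → V) × (Fin s → V)) (hp : p ∈ ihomK G U1 U2 s) :
    Finset.univ.image p.1 ⊆ U1 ∧ Finset.univ.image p.2 ⊆ U2 ∧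
      (Finset.univ.image p.1).card = s ∧ (Finset.univ.image p.2).card = s ∧
      Cpl G (Finset.univ.image p.1) (Finset.univ.image p.2) := by
  obtain ⟨⟨⟨h1, h2⟩, h3⟩, h4, h5⟩ := mem_ihomK G U1 U2 s p hp
  refine ⟨?_, ?_, ?_, ?_, ?_⟩
  · intro v hv
    obtain ⟨i, _, rfl⟩ := Finset.mem_image.mp hv
    exact h1 i
  · intro v hv
    obtain ⟨i, _, rfl⟩ := Finset.mem_image.mp hv
    exact h2 i
  · rw [Finset.card_image_of_injective _ h4]
    simp
  · rw [Finset.card_image_of_injective _ h5]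
    simp
  · intro v hv w hw
    obtain ⟨i, _, rfl⟩ := Finset.mem_image.mp hv
    obtain ⟨j, _, rfl⟩ := Finset.mem_image.mp hw
    exact h3 i j

/-- item 6 -/
theorem kstCount : KSTCountStmt := by
  classical
  intro s c hs hc
  obtain ⟨t, rfl⟩ : ∃ t, s = t + 1 := ⟨s - 1, by omega⟩
  set δ : ℝ := c ^ ((t + 1) * (t + 1)) with hδ
  have hδ0 : 0 < δ := pow_pos hc _
  set M : ℝ := ((2 * (t + 1) : ℕ) : ℝ) ^ (2 * (t + 1)) with hM
  have hM0 : 0 < M := by rw [hM]; positivity
  obtain ⟨n1, hn1⟩ := exists_nat_ge (4 * (((t + 1) * (t + 1) : ℕ) : ℝ) / δ)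
  refine ⟨min 1 (δ / (2 * M)), n1 + 1, lt_min one_pos (by positivity), min_le_left _ _, ?_⟩
  intro V _ _ G U1 U2 hn he
  set n := Fintype.card V with hndef
  have hn0 : (0 : ℝ) < n := by
    have : 0 < n := by omega
    exact_mod_cast this
  have hU1 : U1.card ≤ n := Finset.card_le_univ _
  have hU2 : U2.card ≤ n := Finset.card_le_univ _
  -- many homomorphisms
  have hlow : δ * (n : ℝ) ^ (2 * (t + 1)) ≤ (homK G U1 U2 (t + 1)).card := by
    have h1 := homK_lower G U1 U2 t
    have h2 : (homK G U1 U2 (t + 1)).card * (U1.card * U2.card) ^ ((t + 1) * t) ≤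
        (homK G U1 U2 (t + 1)).card * (n * n) ^ ((t + 1) * t) := by
      gcongr
    have h3 : ((e2 G U1 U2 : ℕ) : ℝ) ^ ((t + 1) * (t + 1)) ≤
        ((homK G U1 U2 (t + 1)).card : ℝ) * ((n : ℝ) * n) ^ ((t + 1) * t) := by
      exact_mod_cast h1.trans h2
    have h4 : (c * (n : ℝ) ^ 2) ^ ((t + 1) * (t + 1)) ≤
        ((e2 G U1 U2 : ℕ) : ℝ) ^ ((t + 1) * (t + 1)) :=
      pow_le_pow_left₀ (by positivity) he _
    have h5 : (c * (n : ℝ) ^ 2) ^ ((t + 1) * (t + 1)) =
        (δ * (n : ℝ) ^ (2 * (t + 1))) * ((n : ℝ) * n) ^ ((t + 1) * t) := by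
      rw [mul_pow, ← hδ]
      ring
    have h6 : 0 < ((n : ℝ) * n) ^ ((t + 1) * t) := by positivity
    have h7 := h4.trans h3
    rw [h5] at h7
    exact le_of_mul_le_mul_right h7 h6
  -- few of them are not injective
  have hinj : δ / 2 * (n : ℝ) ^ (2 * (t + 1)) ≤ (ihomK G U1 U2 (t + 1)).card := by
    have h1 := homK_le G U1 U2 t
    have h2 : (t + 1) * (t + 1) * (U1.card ^ t * U2.card ^ (t + 1) +
        U1.card ^ (t + 1) * U2.card ^ t) ≤ (t + 1) * (t + 1) * (n ^ t * n ^ (t + 1) +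
        n ^ (t + 1) * n ^ t) := by
      gcongr
    have h3 : ((homK G U1 U2 (t + 1)).card : ℝ) ≤ (ihomK G U1 U2 (t + 1)).card +
        (((t + 1) * (t + 1) : ℕ) : ℝ) * ((n : ℝ) ^ t * (n : ℝ) ^ (t + 1) +
          (n : ℝ) ^ (t + 1) * (n : ℝ) ^ t) := by
      have := h1.trans (Nat.add_le_add_left h2 _)
      exact_mod_cast this
    have h4 : (((t + 1) * (t + 1) : ℕ) : ℝ) * ((n : ℝ) ^ t * (n : ℝ) ^ (t + 1) +
          (n : ℝ) ^ (t + 1) * (n : ℝ) ^ t) ≤ δ / 2 * (n : ℝ) ^ (2 * (t + 1)) := by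
      have h5 : (n : ℝ) ^ t * (n : ℝ) ^ (t + 1) +
          (n : ℝ) ^ (t + 1) * (n : ℝ) ^ t = 2 * (n : ℝ) ^ (2 * t + 1) := by
        rw [← pow_add, ← pow_add]
        have e1 : t + (t + 1) = 2 * t + 1 := by ring
        have e2' : t + 1 + t = 2 * t + 1 := by ring
        rw [e1, e2']
        ring
      rw [h5]
      have h6 : (n : ℝ) ^ (2 * (t + 1)) = (n : ℝ) ^ (2 * t + 1) * n := by
        rw [← pow_succ]
        congr 1
      rw [h6]
      have h7 : 4 * (((t + 1) * (t + 1) : ℕ) : ℝ) ≤ δ * n := by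
        have h8 : 4 * (((t + 1) * (t + 1) : ℕ) : ℝ) / δ ≤ n := by
          refine hn1.trans ?_
          exact_mod_cast (by omega : n1 ≤ n)
        rw [div_le_iff₀ hδ0] at h8
        linarith
      have h9 : (0 : ℝ) < (n : ℝ) ^ (2 * t + 1) := by positivity
      nlinarith
    linarith
  -- the family
  refine ⟨(ihomK G U1 U2 (t + 1)).image
    (fun p => Finset.univ.image p.1 ∪ Finset.univ.image p.2), ?_, ?_⟩
  · have hfib := Finset.card_le_mul_card_image (f := fun p : (Fin (t + 1) → V) × (Fin (t + 1) → V)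
        => Finset.univ.image p.1 ∪ Finset.univ.image p.2) (ihomK G U1 U2 (t + 1))
        ((2 * (t + 1)) ^ (2 * (t + 1))) (by
      intro S hS
      obtain ⟨p0, hp0, hp0S⟩ := Finset.mem_image.mp hS
      obtain ⟨_, _, g3, g4, g5⟩ := ihomK_spec G U1 U2 (t + 1) p0 hp0
      have hScard : S.card = 2 * (t + 1) := by
        rw [← hp0S, Finset.card_union_of_disjoint g5.disjoint, g3, g4]
        ring
      have hsub : (ihomK G U1 U2 (t + 1)).filter
          (fun p => Finset.univ.image p.1 ∪ Finset.univ.image p.2 = S) ⊆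
          (Fintype.piFinset (fun _ : Fin (t + 1) => S)) ×ˢ
            (Fintype.piFinset (fun _ : Fin (t + 1) => S)) := by
        intro p hp
        rw [Finset.mem_filter] at hp
        rw [Finset.mem_product, Fintype.mem_piFinset, Fintype.mem_piFinset]
        constructor
        · intro i
          rw [← hp.2]
          exact Finset.mem_union_left _ (Finset.mem_image_of_mem _ (Finset.mem_univ i))
        · intro i
          rw [← hp.2]
          exact Finset.mem_union_right _ (Finset.mem_image_of_mem _ (Finset.mem_univ i))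
      refine (Finset.card_le_card hsub).trans ?_
      rw [Finset.card_product, Fintype.card_piFinset_const, hScard, ← pow_add]
      apply le_of_eq
      congr 1
      ring)
    have hfib' : ((ihomK G U1 U2 (t + 1)).card : ℝ) ≤ M *
        ((ihomK G U1 U2 (t + 1)).image
          (fun p => Finset.univ.image p.1 ∪ Finset.univ.image p.2)).card := by
      rw [hM]
      exact_mod_cast hfib
    have h1 : min 1 (δ / (2 * M)) * (n : ℝ) ^ (2 * (t + 1)) ≤
        δ / (2 * M) * (n : ℝ) ^ (2 * (t + 1)) :=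
      mul_le_mul_of_nonneg_right (min_le_right _ _) (by positivity)
    refine h1.trans ?_
    have h2 : δ / (2 * M) * (n : ℝ) ^ (2 * (t + 1)) =
        (δ / 2 * (n : ℝ) ^ (2 * (t + 1))) / M := by
      field_simp
    rw [h2, div_le_iff₀ hM0]
    linarith
  · intro S hS
    obtain ⟨p, hp, rfl⟩ := Finset.mem_image.mp hS
    obtain ⟨g1, g2, g3, g4, g5⟩ := ihomK_spec G U1 U2 (t + 1) p hp
    exact ⟨_, _, g1, g2, g3, g4, g5, rfl⟩

/-- item 7 -/
theorem kstEx : KSTExStmt := by
  classical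
  intro s c hc
  rcases Nat.eq_zero_or_pos s with rfl | hs
  · refine ⟨0, ?_⟩
    intro V _ G U1 U2 _ _ _
    exact ⟨∅, ∅, Finset.empty_subset _, Finset.empty_subset _, rfl, rfl, by
      intro p hp
      simp at hp⟩
  obtain ⟨t, rfl⟩ : ∃ t, s = t + 1 := ⟨s - 1, by omega⟩
  set δ : ℝ := c ^ ((t + 1) * (t + 1)) with hδ
  have hδ0 : 0 < δ := pow_pos hc _
  obtain ⟨n1, hn1⟩ := exists_nat_gt (2 * (((t + 1) * (t + 1) : ℕ) : ℝ) / δ)
  refine ⟨n1 + 1, ?_⟩
  intro V _ G U1 U2 hm1 hm2 he
  set a : ℝ := (U1.card : ℝ) with ha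
  set b : ℝ := (U2.card : ℝ) with hb
  have ha1 : (n1 : ℝ) < a := by rw [ha]; exact_mod_cast (by omega : n1 < U1.card)
  have hb1 : (n1 : ℝ) < b := by rw [hb]; exact_mod_cast (by omega : n1 < U2.card)
  have ha0 : 0 < a := lt_of_le_of_lt (Nat.cast_nonneg _) ha1
  have hb0 : 0 < b := lt_of_le_of_lt (Nat.cast_nonneg _) hb1
  have hlow : δ * (a ^ (t + 1) * b ^ (t + 1)) ≤ (homK G U1 U2 (t + 1)).card := by
    have h1 := homK_lower G U1 U2 t
    have h3 : ((e2 G U1 U2 : ℕ) : ℝ) ^ ((t + 1) * (t + 1)) ≤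
        ((homK G U1 U2 (t + 1)).card : ℝ) * (a * b) ^ ((t + 1) * t) := by
      rw [ha, hb]
      exact_mod_cast h1
    have h4 : (c * a * b) ^ ((t + 1) * (t + 1)) ≤
        ((e2 G U1 U2 : ℕ) : ℝ) ^ ((t + 1) * (t + 1)) :=
      pow_le_pow_left₀ (by positivity) he _
    have h5 : (c * a * b) ^ ((t + 1) * (t + 1)) =
        (δ * (a ^ (t + 1) * b ^ (t + 1))) * (a * b) ^ ((t + 1) * t) := by
      rw [mul_assoc c a b, mul_pow c, ← hδ]
      ring
    have h6 : 0 < (a * b) ^ ((t + 1) * t) := by positivity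
    have h7 := h4.trans h3
    rw [h5] at h7
    exact le_of_mul_le_mul_right h7 h6
  have hpos : 0 < (ihomK G U1 U2 (t + 1)).card := by
    by_contra hcon
    have hz : (ihomK G U1 U2 (t + 1)).card = 0 := by omega
    have h1 := homK_le G U1 U2 t
    rw [hz, zero_add] at h1
    have h3 : ((homK G U1 U2 (t + 1)).card : ℝ) ≤
        (((t + 1) * (t + 1) : ℕ) : ℝ) * (a ^ t * b ^ (t + 1) + a ^ (t + 1) * b ^ t) := by
      rw [ha, hb]
      exact_mod_cast h1
    have h8 : 2 * (((t + 1) * (t + 1) : ℕ) : ℝ) < δ * n1 := by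
      rw [div_lt_iff₀ hδ0] at hn1
      linarith
    have hA : 2 * (((t + 1) * (t + 1) : ℕ) : ℝ) < δ * a := by nlinarith
    have hB : 2 * (((t + 1) * (t + 1) : ℕ) : ℝ) < δ * b := by nlinarith
    have p1 : 0 < a ^ t * b ^ (t + 1) := by positivity
    have p2 : 0 < a ^ (t + 1) * b ^ t := by positivity
    have q1 : 2 * (((t + 1) * (t + 1) : ℕ) : ℝ) * (a ^ t * b ^ (t + 1)) <
        δ * a * (a ^ t * b ^ (t + 1)) := mul_lt_mul_of_pos_right hA p1
    have q2 : 2 * (((t + 1) * (t + 1) : ℕ) : ℝ) * (a ^ (t + 1) * b ^ t) <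
        δ * b * (a ^ (t + 1) * b ^ t) := mul_lt_mul_of_pos_right hB p2
    have r1 : δ * a * (a ^ t * b ^ (t + 1)) = δ * (a ^ (t + 1) * b ^ (t + 1)) := by ring
    have r2 : δ * b * (a ^ (t + 1) * b ^ t) = δ * (a ^ (t + 1) * b ^ (t + 1)) := by ring
    nlinarith
  obtain ⟨p, hp⟩ := Finset.card_pos.mp hpos
  obtain ⟨g1, g2, g3, g4, g5⟩ := ihomK_spec G U1 U2 (t + 1) p hp
  exact ⟨_, _, g1, g2, g3, g4, g5⟩

end kst

end Pool.Agent.MP_d32e04
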