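import Pool.Agent.Work.MP_d32e04_co.Basic

/-!
MP_d32e04_co, item 11: fractional tiling of the reduced graph with small support, by separation
and Caratheodory.
-/

set_option autoImplicit false

namespace Pool.Agent.MP_d32e04

open Finset

/-- no linear functional separates: the combinatorial heart of the duality -/
lemma lp_no_sep (a b k : ℕ) (R : SimpleGraph (Fin k)) (ρ ι : ℝ) (ha : 1 ≤ a) (hk : 0 < k)
    (hρ : 0 < ρ) (hdeg : ∀ i, ρ * k ≤ (nb R i).card)
    (hind : ∀ I : Finset (Fin k), (∀ i ∈ I, ∀ j ∈ I, ¬ R.Adj i j) → (I.card : ℝ) ≤ ι * k)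
    (hι : a * ι ≤ b * ρ) (w : Fin k → ℝ) (hw0 : ∑ i, w i = 0)
    (hw : ∀ i j, R.Adj i j → 0 < a * w i + b * w j) : False := by
  classical
  have hkR : (0 : ℝ) < k := by exact_mod_cast hk
  have haR : (0 : ℝ) < a := by exact_mod_cast ha
  have hbR : (0 : ℝ) ≤ b := by positivity
  have : Nonempty (Fin k) := ⟨⟨0, hk⟩⟩
  obtain ⟨i0, -, hi0⟩ := Finset.exists_min_image (Finset.univ : Finset (Fin k)) w
    Finset.univ_nonempty
  have hne : (nb R i0).Nonempty := by
    rw [← Finset.card_pos]
    have : (0 : ℝ) < (nb R i0).card := lt_of_lt_of_le (by positivity) (hdeg i0)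
    exact_mod_cast this
  have hmem : ∀ j ∈ nb R i0, R.Adj i0 j := by
    intro j hj
    simpa [nb] using hj
  -- the minimum is not positive
  have hle0 : w i0 ≤ 0 := by
    by_contra hcon
    push Not at hcon
    have : 0 < ∑ i, w i := Finset.sum_pos (fun i _ => lt_of_lt_of_le hcon (hi0 i (mem_univ i)))
      Finset.univ_nonempty
    linarith
  obtain ⟨μ, hμ⟩ : ∃ μ, μ = - w i0 := ⟨_, rfl⟩
  have hμ0 : 0 ≤ μ := by linarith
  have hN : ∀ j ∈ nb R i0, b * μ / a < w j := by
    intro j hj
    have h1 := hw j i0 (hmem j hj).symm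
    rw [div_lt_iff₀ haR]
    have : w i0 = -μ := by linarith
    rw [this] at h1
    nlinarith
  let I : Finset (Fin k) := Finset.univ.filter (fun i => w i ≤ 0)
  have hI : (I.card : ℝ) ≤ ι * k := by
    apply hind
    intro i hi j hj hadj
    have h1 := hw i j hadj
    have h2 : w i ≤ 0 := by simpa [I] using hi
    have h3 : w j ≤ 0 := by simpa [I] using hj
    have h4 : a * w i ≤ 0 := mul_nonpos_of_nonneg_of_nonpos haR.le h2
    have h5 : b * w j ≤ 0 := mul_nonpos_of_nonneg_of_nonpos hbR h3
    linarith
  have hbμ : 0 ≤ b * μ / a := by positivity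
  -- the sum over the complement of `I`
  have hNI : nb R i0 ⊆ Iᶜ := by
    intro j hj
    have := hN j hj
    simp only [I, Finset.mem_compl, Finset.mem_filter, Finset.mem_univ, true_and, not_le]
    linarith
  have h1 : ∑ i ∈ I, w i + ∑ i ∈ Iᶜ, w i = 0 := by
    rw [Finset.sum_add_sum_compl]
    exact hw0
  have h2 : -(μ * I.card) ≤ ∑ i ∈ I, w i := by
    have : ∑ i ∈ I, (-μ) ≤ ∑ i ∈ I, w i := by
      apply Finset.sum_le_sum
      intro i _
      have := hi0 i (mem_univ i)
      linarith
    rw [Finset.sum_const, nsmul_eq_mul] at this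
    linarith
  have h3 : ∑ i ∈ nb R i0, w i ≤ ∑ i ∈ Iᶜ, w i := by
    apply Finset.sum_le_sum_of_subset_of_nonneg hNI
    intro i hi _
    simp only [I, Finset.mem_compl, Finset.mem_filter, Finset.mem_univ, true_and, not_le] at hi
    exact hi.le
  have h4 : (nb R i0).card * (b * μ / a) < ∑ i ∈ nb R i0, w i := by
    have : ∑ i ∈ nb R i0, (b * μ / a) < ∑ i ∈ nb R i0, w i :=
      Finset.sum_lt_sum_of_nonempty hne hN
    rwa [Finset.sum_const, nsmul_eq_mul] at this
  have h5 : ρ * k * (b * μ / a) ≤ (nb R i0).card * (b * μ / a) :=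
    mul_le_mul_of_nonneg_right (hdeg i0) hbμ
  have h6 : μ * I.card ≤ μ * (ι * k) := mul_le_mul_of_nonneg_left hI hμ0
  have h7 : μ * (ι * k) ≤ ρ * k * (b * μ / a) := by
    have e : ρ * k * (b * μ / a) = (b * ρ) * (k * μ) / a := by field_simp
    rw [e, le_div_iff₀ haR]
    have : a * ι * (k * μ) ≤ b * ρ * (k * μ) := mul_le_mul_of_nonneg_right hι (by positivity)
    calc μ * (ι * k) * a = a * ι * (k * μ) := by ring
      _ ≤ b * ρ * (k * μ) := this
  linarith

/-- item 11 -/
theorem lp : LPStmt := by
  classical
  intro a b k R ρ ι ha hab hk hρ hdeg hind hι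
  have hkR : (0 : ℝ) < k := by exact_mod_cast hk
  have haR : (0 : ℝ) < a := by exact_mod_cast ha
  have hbR : (0 : ℝ) < b := by exact_mod_cast (by omega : 0 < b)
  have habR : (0 : ℝ) < (a : ℝ) + b := by positivity
  -- the points
  let c : Fin k × Fin k → (Fin k → ℝ) := fun p =>
    (a : ℝ) • Pi.single p.1 1 + (b : ℝ) • Pi.single p.2 1
  let P : Set (Fin k × Fin k) := {p | R.Adj p.1 p.2}
  let t : Fin k → ℝ := fun _ => ((a : ℝ) + b) / k
  have hfin : (c '' P).Finite := (Set.toFinite P).image c
  have hmem : t ∈ convexHull ℝ (c '' P) := by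
    by_contra hnot
    obtain ⟨f, u, hu, hf⟩ := geometric_hahn_banach_point_closed (convex_convexHull ℝ (c '' P))
      (hfin.isClosed_convexHull ℝ) hnot
    -- the coefficients of `f`
    let w : Fin k → ℝ := fun i => f (Pi.single i 1)
    have hfw : ∀ y : Fin k → ℝ, f y = ∑ i, y i * w i := by
      intro y
      have hy : y = ∑ i, y i • (Pi.single i (1 : ℝ) : Fin k → ℝ) := by
        ext j
        simp [Finset.sum_apply, Pi.single_apply]
      conv_lhs => rw [hy]
      rw [map_sum]
      apply Finset.sum_congr rfl
      intro i _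
      rw [map_smul, smul_eq_mul]
    obtain ⟨W, hW⟩ : ∃ W, W = ∑ i, w i := ⟨_, rfl⟩
    have hft : f t = ((a : ℝ) + b) / k * W := by
      rw [hfw t, hW, Finset.mul_sum]
    have hfc : ∀ i j, R.Adj i j → u < a * w i + b * w j := by
      intro i j hadj
      have h1 := hf (c (i, j)) (subset_convexHull ℝ _ ⟨(i, j), hadj, rfl⟩)
      have h2 : f (c (i, j)) = a * w i + b * w j := by
        simp only [c, w, map_add, map_smul, smul_eq_mul]
      rw [h2] at h1
      exact h1
    refine lp_no_sep a b k R ρ ι ha hk hρ hdeg hind hι (fun i => w i - W / k) ?_ ?_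
    · rw [Finset.sum_sub_distrib, ← hW, Finset.sum_const, Finset.card_univ, Fintype.card_fin,
        nsmul_eq_mul]
      field_simp
      ring
    · intro i j hadj
      have h1 := hfc i j hadj
      have h2 : (a : ℝ) * (w i - W / k) + b * (w j - W / k) =
          (a * w i + b * w j) - ((a : ℝ) + b) / k * W := by ring
      rw [h2]
      linarith
  -- Caratheodory
  obtain ⟨κ, hκ, z, w, hz, haff, hw0, hw1, hwt⟩ := eq_pos_convex_span_of_mem_convexHull hmem
  have hcard : Fintype.card κ ≤ k + 1 := by
    have h1 := haff.card_le_finrank_succ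
    have h2 : Module.finrank ℝ (vectorSpan ℝ (Set.range z)) ≤ k := by
      refine le_trans (Submodule.finrank_le _) ?_
      simp
    omega
  have hq : ∀ s : κ, ∃ p : Fin k × Fin k, R.Adj p.1 p.2 ∧ z s = c p := by
    intro s
    obtain ⟨p, hp, hpz⟩ := hz ⟨s, rfl⟩
    exact ⟨p, hp, hpz.symm⟩
  choose q hqR hqz using hq
  let x : Fin k → Fin k → ℝ := fun i j =>
    (k : ℝ) / (a + b) * ∑ s, if q s = (i, j) then w s else 0
  refine ⟨x, ?_, ?_, ?_, ?_⟩
  · intro i j
    apply mul_nonneg (by positivity)
    apply Finset.sum_nonneg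
    intro s _
    split_ifs
    · exact (hw0 s).le
    · exact le_rfl
  · intro i j hnadj
    have : ∑ s, (if q s = (i, j) then w s else 0) = 0 := by
      apply Finset.sum_eq_zero
      intro s _
      rw [if_neg]
      intro h
      apply hnadj
      have := hqR s
      rw [h] at this
      exact this
    simp only [x, this, mul_zero]
  · intro i
    -- the row sums
    have h1 : ∀ s, ∑ j, (if q s = (i, j) then w s else 0) =
        w s * (Pi.single (q s).1 (1 : ℝ) : Fin k → ℝ) i := by
      intro s
      by_cases h : (q s).1 = i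
      · rw [Finset.sum_eq_single (q s).2]
        · rw [if_pos (by rw [← h])]
          rw [← h, Pi.single_eq_same, mul_one]
        · intro j _ hj
          rw [if_neg]
          intro h'
          apply hj
          rw [h']
        · intro h'
          exact absurd (mem_univ _) h'
      · rw [Pi.single_eq_of_ne (Ne.symm h), mul_zero]
        apply Finset.sum_eq_zero
        intro j _
        rw [if_neg]
        intro h'
        apply h
        rw [h']
    have h2 : ∀ s, ∑ j, (if q s = (j, i) then w s else 0) =
        w s * (Pi.single (q s).2 (1 : ℝ) : Fin k → ℝ) i := by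
      intro s
      by_cases h : (q s).2 = i
      · rw [Finset.sum_eq_single (q s).1]
        · rw [if_pos (by rw [← h])]
          rw [← h, Pi.single_eq_same, mul_one]
        · intro j _ hj
          rw [if_neg]
          intro h'
          apply hj
          rw [h']
        · intro h'
          exact absurd (mem_univ _) h'
      · rw [Pi.single_eq_of_ne (Ne.symm h), mul_zero]
        apply Finset.sum_eq_zero
        intro j _
        rw [if_neg]
        intro h'
        apply h
        rw [h']
    have h3 : ∑ j, (a * x i j + b * x j i) = (k : ℝ) / (a + b) * ∑ s, w s * (z s i) := by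
      have e1 : ∑ j, x i j = (k : ℝ) / (a + b) *
          ∑ s, w s * (Pi.single (q s).1 (1 : ℝ) : Fin k → ℝ) i := by
        simp only [x]
        rw [← Finset.mul_sum, Finset.sum_comm]
        congr 1
        exact Finset.sum_congr rfl (fun s _ => h1 s)
      have e2 : ∑ j, x j i = (k : ℝ) / (a + b) *
          ∑ s, w s * (Pi.single (q s).2 (1 : ℝ) : Fin k → ℝ) i := by
        simp only [x]
        rw [← Finset.mul_sum, Finset.sum_comm]
        congr 1
        exact Finset.sum_congr rfl (fun s _ => h2 s)
      have e0 : ∑ j, (a * x i j + b * x j i) = a * ∑ j, x i j + b * ∑ j, x j i := by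
        rw [Finset.mul_sum, Finset.mul_sum, ← Finset.sum_add_distrib]
      rw [e0, e1, e2]
      have e3 : ∀ s, w s * z s i = a * (w s * (Pi.single (q s).1 (1 : ℝ) : Fin k → ℝ) i) +
          b * (w s * (Pi.single (q s).2 (1 : ℝ) : Fin k → ℝ) i) := by
        intro s
        rw [hqz s]
        simp only [c, Pi.add_apply, Pi.smul_apply, smul_eq_mul]
        ring
      simp only [e3]
      rw [Finset.sum_add_distrib, ← Finset.mul_sum, ← Finset.mul_sum]
      ring
    have h4 : ∑ s, w s * (z s i) = ((a : ℝ) + b) / k := by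
      have := congrFun hwt i
      simp only [Finset.sum_apply, Pi.smul_apply, smul_eq_mul] at this
      exact this
    rw [h3, h4]
    field_simp
  · refine le_trans ?_ hcard
    have hsub : (Finset.univ : Finset (Fin k × Fin k)).filter (fun p => x p.1 p.2 ≠ 0) ⊆
        Finset.univ.image q := by
      intro p hp
      simp only [Finset.mem_filter, Finset.mem_univ, true_and] at hp
      rw [Finset.mem_image]
      by_contra hcon
      push Not at hcon
      apply hp
      have : ∑ s, (if q s = (p.1, p.2) then w s else 0) = 0 := by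
        apply Finset.sum_eq_zero
        intro s _
        rw [if_neg]
        exact hcon s (mem_univ s)
      simp only [x, this, mul_zero]
    refine le_trans (Finset.card_le_card hsub) ?_
    exact le_trans Finset.card_image_le (le_of_eq (Finset.card_univ))

end Pool.Agent.MP_d32e04
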