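import Pool.Agent.Work.MP_d32e04_co.Basic

/-!
MP_d32e04_co: disjoint edges in a graph of small maximum degree.
-/

set_option autoImplicit false

namespace Pool.Agent.MP_d32e04

open Finset

theorem matching : MatchStmt := by
  classical
  intro V _ G B D m hD he
  have key : ∀ i, i ≤ m → ∃ M : Finset (V × V), M.card = i ∧
      (∀ p ∈ M, p.1 ∈ B ∧ p.2 ∈ B ∧ G.Adj p.1 p.2) ∧
      ∀ p ∈ M, ∀ q ∈ M, p ≠ q → p.1 ≠ q.1 ∧ p.1 ≠ q.2 ∧ p.2 ≠ q.1 ∧ p.2 ≠ q.2 := by
    intro i
    induction i with
    | zero => intro _; exact ⟨∅, by simp, by simp, by simp⟩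
    | succ i ih =>
      intro hi
      obtain ⟨M, h1, h2, h3⟩ := ih (by omega)
      set U : Finset V := M.image Prod.fst ∪ M.image Prod.snd with hU
      have hUB : U ⊆ B := by
        intro x hx
        rw [hU, Finset.mem_union, Finset.mem_image, Finset.mem_image] at hx
        rcases hx with ⟨p, hp, rfl⟩ | ⟨p, hp, rfl⟩
        · exact (h2 p hp).1
        · exact (h2 p hp).2.1
      have hUc : U.card ≤ 2 * i := by
        have h4 : (M.image Prod.fst).card ≤ M.card := Finset.card_image_le
        have h5 : (M.image Prod.snd).card ≤ M.card := Finset.card_image_le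
        have h6 := Finset.card_union_le (M.image Prod.fst) (M.image Prod.snd)
        rw [← hU] at h6
        omega
      have hUe : e2 G U B ≤ 2 * i * D := by
        rw [e2_eq_sum]
        calc ∑ v ∈ U, degIn G v B ≤ ∑ _v ∈ U, D := Finset.sum_le_sum fun v hv => hD v (hUB hv)
          _ = U.card * D := by rw [Finset.sum_const, smul_eq_mul]
          _ ≤ 2 * i * D := Nat.mul_le_mul_right _ hUc
      have hsplit : B = (B \ U) ∪ U := (Finset.sdiff_union_of_subset hUB).symm
      have h7 : e2 G B B ≤ e2 G (B \ U) (B \ U) + 2 * i * D + 2 * i * D := by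
        have h8 : e2 G B B ≤ e2 G (B \ U) B + e2 G U B := by
          have := e2_union_left_le G (B \ U) U B
          rwa [← hsplit] at this
        have h9 : e2 G (B \ U) B ≤ e2 G (B \ U) (B \ U) + e2 G (B \ U) U := by
          have := e2_union_right_le G (B \ U) (B \ U) U
          rwa [← hsplit] at this
        have h10 : e2 G (B \ U) U ≤ e2 G U B := by
          rw [e2_comm]
          exact e2_mono G (subset_refl _) Finset.sdiff_subset
        omega
      have h11 : 0 < e2 G (B \ U) (B \ U) := by
        have h12 : 2 * i * D + 2 * i * D ≤ 4 * m * D := by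
          have : 2 * i * D + 2 * i * D = 4 * i * D := by ring
          rw [this]
          exact Nat.mul_le_mul_right _ (by omega)
        omega
      unfold e2 at h11
      obtain ⟨⟨x, y⟩, hxy⟩ := Finset.card_pos.1 h11
      rw [Finset.mem_filter, Finset.mem_product, Finset.mem_sdiff, Finset.mem_sdiff] at hxy
      obtain ⟨⟨⟨hxB, hxU⟩, hyB, hyU⟩, hadj⟩ := hxy
      simp only at hxB hxU hyB hyU hadj
      have hnU : ∀ z, z ∉ U → ∀ p ∈ M, z ≠ p.1 ∧ z ≠ p.2 := by
        intro z hz p hp
        rw [hU, Finset.mem_union, Finset.mem_image, Finset.mem_image, not_or] at hz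
        exact ⟨fun h => hz.1 ⟨p, hp, h.symm⟩, fun h => hz.2 ⟨p, hp, h.symm⟩⟩
      have hnew : (x, y) ∉ M := fun h => (hnU x hxU _ h).1 rfl
      refine ⟨insert (x, y) M, ?_, ?_, ?_⟩
      · rw [Finset.card_insert_of_notMem hnew, h1]
      · intro p hp
        rcases Finset.mem_insert.1 hp with rfl | hp
        · exact ⟨hxB, hyB, hadj⟩
        · exact h2 p hp
      · intro p hp q hq hpq
        rcases Finset.mem_insert.1 hp with rfl | hp
        · rcases Finset.mem_insert.1 hq with rfl | hq
          · exact absurd rfl hpq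
          · exact ⟨(hnU x hxU q hq).1, (hnU x hxU q hq).2, (hnU y hyU q hq).1,
              (hnU y hyU q hq).2⟩
        · rcases Finset.mem_insert.1 hq with rfl | hq
          · exact ⟨(hnU x hxU p hp).1.symm, (hnU y hyU p hp).1.symm, (hnU x hxU p hp).2.symm,
              (hnU y hyU p hp).2.symm⟩
          · exact h3 p hp q hq hpq
  exact key m le_rfl

end Pool.Agent.MP_d32e04
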