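import Pool.Agent.Work.MP_d32e04_co.Basic

/-!
MP_d32e04_co, item 4: nearly complete bipartite graphs.
-/

set_option autoImplicit false

namespace Pool.Agent.MP_d32e04

open Finset

section ncb

variable {V : Type} [DecidableEq V]

/-- a set of `k * t` elements is a disjoint union of `t` groups of size `k` -/
lemma exists_groups (k t : ℕ) : ∀ S : Finset V, S.card = k * t →
    ∃ P : Fin t → Finset V, (∀ i, (P i).card = k) ∧ (∀ i j, i ≠ j → Disjoint (P i) (P j)) ∧
      Finset.univ.biUnion P = S := by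
  induction t with
  | zero =>
    intro S hS
    rw [Nat.mul_zero, Finset.card_eq_zero] at hS
    exact ⟨fun i => i.elim0, fun i => i.elim0, fun i => i.elim0, by subst hS; ext; simp⟩
  | succ t ih =>
    intro S hS
    obtain ⟨T, hTS, hT⟩ := Finset.exists_subset_card_eq (s := S) (n := k) (by rw [hS]; nlinarith)
    obtain ⟨P, h1, h2, h3⟩ := ih (S \ T) (by
      rw [Finset.card_sdiff_of_subset hTS, hS, hT, Nat.mul_succ]; omega)
    have hd : ∀ i, Disjoint T (P i) := by
      intro i
      have h4 : P i ⊆ S \ T := by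
        rw [← h3]; exact Finset.subset_biUnion_of_mem P (Finset.mem_univ i)
      exact Disjoint.mono_right h4 Finset.disjoint_sdiff
    refine ⟨Fin.cons T P, ?_, ?_, ?_⟩
    · intro i
      refine Fin.cases ?_ ?_ i
      · simpa using hT
      · intro j; simpa using h1 j
    · intro i j
      refine Fin.cases ?_ ?_ i
      · refine Fin.cases ?_ ?_ j
        · intro h; exact absurd rfl h
        · intro j' _; simpa using hd j'
      · intro i'
        refine Fin.cases ?_ ?_ j
        · intro _; simpa using (hd i').symm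
        · intro j' h
          have : i' ≠ j' := fun h5 => h (by rw [h5])
          simpa using h2 i' j' this
    · ext x
      rw [Finset.mem_biUnion, Fin.exists_fin_succ]
      simp only [Finset.mem_univ, true_and, Fin.cons_zero, Fin.cons_succ]
      have h4 : (∃ i, x ∈ P i) ↔ x ∈ S \ T := by
        rw [← h3, Finset.mem_biUnion]
        simp
      rw [h4, Finset.mem_sdiff]
      constructor
      · rintro (h5 | h5)
        · exact hTS h5
        · exact h5.1
      · intro h5
        by_cases h6 : x ∈ T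
        · exact Or.inl h6
        · exact Or.inr ⟨h5, h6⟩

/-- the last step: both sides are split into `t0` groups which are matched -/
lemma tile_groups {h : ℕ} {H : SimpleGraph (Fin h)} {G : SimpleGraph V} {a b t0 t : ℕ}
    (htile : ∀ P Q : Finset V, Cpl G P Q → P.card = a → Q.card = b → Tiled H G (P ∪ Q))
    (A B : Finset V) (hAB : Disjoint A B) (hA : A.card = a * t0) (hB : B.card = b * t0)
    (hmA : ∀ x ∈ A, misIn G x B ≤ t) (hmB : ∀ x ∈ B, misIn G x A ≤ t)
    (ha : 2 * (a * t) ≤ t0) (hb : 2 * (b * t) ≤ t0) : Tiled H G (A ∪ B) := by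
  classical
  obtain ⟨P, hP1, hP2, hP3⟩ := exists_groups a t0 A hA
  obtain ⟨Q, hQ1, hQ2, hQ3⟩ := exists_groups b t0 B hB
  have hPA : ∀ i, P i ⊆ A := fun i => by
    rw [← hP3]; exact Finset.subset_biUnion_of_mem P (Finset.mem_univ i)
  have hQB : ∀ i, Q i ⊆ B := fun i => by
    rw [← hQ3]; exact Finset.subset_biUnion_of_mem Q (Finset.mem_univ i)
  -- compatible groups
  set C : Fin t0 → Finset (Fin t0) := fun i => Finset.univ.filter (fun j => Cpl G (P i) (Q j))
    with hC
  -- general counting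
  have count : ∀ (R : Finset V) (S : Fin t0 → Finset V) (T : Finset V),
      (∀ j, S j ⊆ T) → (∀ i j, i ≠ j → Disjoint (S i) (S j)) → (∀ x ∈ R, misIn G x T ≤ t) →
      (Finset.univ.filter (fun j => ¬ Cpl G R (S j))).card ≤ R.card * t := by
    intro R S T hS hd hm
    set U := R.biUnion (fun v => T.filter (fun w => ¬ G.Adj v w)) with hU
    have h1 : U.card ≤ R.card * t := by
      refine le_trans Finset.card_biUnion_le ?_
      calc ∑ v ∈ R, (T.filter (fun w => ¬ G.Adj v w)).card ≤ ∑ _v ∈ R, t :=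
            Finset.sum_le_sum (fun v hv => by
              have := hm v hv
              unfold misIn at this
              convert this)
        _ = R.card * t := by rw [Finset.sum_const, smul_eq_mul]
    refine le_trans ?_ h1
    set W := Finset.univ.filter (fun j => ¬ Cpl G R (S j)) with hW
    have h2 : ∀ j ∈ W, 1 ≤ (S j ∩ U).card := by
      intro j hj
      have hj := (Finset.mem_filter.mp hj).2
      unfold Cpl at hj
      push Not at hj
      obtain ⟨p, hp, q, hq, hpq⟩ := hj
      refine Finset.card_pos.mpr ⟨q, Finset.mem_inter.mpr ⟨hq, ?_⟩⟩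
      rw [hU, Finset.mem_biUnion]
      exact ⟨p, hp, Finset.mem_filter.mpr ⟨hS j hq, hpq⟩⟩
    calc W.card = ∑ _j ∈ W, 1 := by simp
      _ ≤ ∑ j ∈ W, (S j ∩ U).card := Finset.sum_le_sum h2
      _ = (W.biUnion (fun j => S j ∩ U)).card := by
          rw [Finset.card_biUnion]
          intro i _ j _ hij
          exact Disjoint.mono Finset.inter_subset_left Finset.inter_subset_left (hd i j hij)
      _ ≤ U.card := Finset.card_le_card (Finset.biUnion_subset.mpr fun j _ =>
          Finset.inter_subset_right)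
  have hcard : ∀ i, t0 ≤ (C i).card + a * t := by
    intro i
    have h1 := count (P i) Q B hQB hQ2 (fun x hx => hmA x (hPA i hx))
    rw [hP1] at h1
    have h2 := Finset.card_filter_add_card_filter_not (s := (Finset.univ : Finset (Fin t0)))
      (fun j => Cpl G (P i) (Q j))
    rw [Finset.card_univ, Fintype.card_fin] at h2
    rw [hC]
    simp only
    omega
  -- Hall
  have hall : ∀ s : Finset (Fin t0), s.card ≤ (s.biUnion C).card := by
    intro s
    rcases s.eq_empty_or_nonempty with hs | ⟨i0, hi0⟩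
    · rw [hs]; simp
    · by_cases hsc : s.card + a * t ≤ t0
      · have h1 : (C i0).card ≤ (s.biUnion C).card :=
          Finset.card_le_card (Finset.subset_biUnion_of_mem C hi0)
        have h2 := hcard i0
        omega
      · have h1 : s.biUnion C = Finset.univ := by
          refine Finset.eq_univ_iff_forall.mpr fun j => ?_
          have h2 := count (Q j) P A hPA hP2 (fun x hx => hmB x (hQB j hx))
          rw [hQ1] at h2
          by_contra hcon
          rw [Finset.mem_biUnion] at hcon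
          push Not at hcon
          have h3 : s ⊆ Finset.univ.filter (fun i => ¬ Cpl G (Q j) (P i)) := by
            intro i hi
            refine Finset.mem_filter.mpr ⟨Finset.mem_univ i, fun hc => ?_⟩
            exact hcon i hi (Finset.mem_filter.mpr ⟨Finset.mem_univ j, hc.symm⟩)
          have h4 := Finset.card_le_card h3
          omega
        rw [h1, Finset.card_univ, Fintype.card_fin]
        have := Finset.card_le_univ s
        rwa [Fintype.card_fin] at this
  obtain ⟨f, hf1, hf2⟩ := (Finset.all_card_le_biUnion_card_iff_exists_injective C).mp hall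
  have hfb : Function.Bijective f := Finite.injective_iff_bijective.mp hf1
  have htl : Tiled H G (Finset.univ.biUnion (fun i => P i ∪ Q (f i))) := by
    refine Tiled.biUnion' Finset.univ _ (fun i _ => ?_) (fun i _ j _ hij => ?_)
    · exact htile (P i) (Q (f i)) (Finset.mem_filter.mp (hf2 i)).2 (hP1 i) (hQ1 _)
    · have h1 : ∀ i j, Disjoint (P i) (Q j) := fun i j =>
        Disjoint.mono (hPA i) (hQB j) hAB
      rw [Finset.disjoint_union_left, Finset.disjoint_union_right, Finset.disjoint_union_right]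
      exact ⟨⟨hP2 i j hij, h1 _ _⟩, (h1 _ _).symm, hQ2 _ _ (fun h => hij (hf1 h))⟩
  refine htl.congr ?_
  ext x
  rw [Finset.mem_union, ← hP3, ← hQ3]
  simp only [Finset.mem_biUnion, Finset.mem_univ, true_and, Finset.mem_union]
  constructor
  · rintro ⟨i, h1 | h1⟩
    · exact Or.inl ⟨i, h1⟩
    · exact Or.inr ⟨f i, h1⟩
  · rintro (⟨i, h1⟩ | ⟨j, h1⟩)
    · exact ⟨i, Or.inl h1⟩
    · obtain ⟨i, rfl⟩ := hfb.2 j
      exact ⟨i, Or.inr h1⟩

/-- pieces of bounded size are taken off one after another -/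
lemma greedy {h : ℕ} {H : SimpleGraph (Fin h)} {G : SimpleGraph V} {M t x y : ℕ}
    (hy : M * t + M ≤ y) : ∀ (Ls : List (ℕ × ℕ)),
    (∀ l ∈ Ls, l.1 ≤ M ∧ l.2 ≤ M ∧
      ∀ P Q : Finset V, Cpl G P Q → P.card = l.1 → Q.card = l.2 → Tiled H G (P ∪ Q)) →
    ∀ (A B : Finset V), Disjoint A B → A.card = (Ls.map Prod.fst).sum + x →
    B.card = (Ls.map Prod.snd).sum + y → (∀ v ∈ A, misIn G v B ≤ t) →
    ∃ A0 B0 : Finset V, A0 ⊆ A ∧ B0 ⊆ B ∧ A0.card = x ∧ B0.card = y ∧
      Tiled H G ((A \ A0) ∪ (B \ B0)) := by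
  classical
  intro Ls
  induction Ls with
  | nil =>
    intro _ A B _ hA hB _
    refine ⟨A, B, subset_rfl, subset_rfl, by simpa using hA, by simpa using hB, ?_⟩
    simpa using (Tiled.empty (H := H) (G := G))
  | cons l Ls ih =>
    intro hLs A B hAB hA hB hm
    rw [List.map_cons, List.sum_cons] at hA hB
    obtain ⟨hl1, hl2, hl3⟩ := hLs l (List.mem_cons_self ..)
    obtain ⟨P, hPA, hP⟩ := Finset.exists_subset_card_eq (s := A) (n := l.1) (by omega)
    obtain ⟨Q, hQB, hQ, hPQ⟩ := exists_common G P B t l.2 (fun v hv => hm v (hPA hv)) (by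
      have h1 : P.card * t ≤ M * t := Nat.mul_le_mul_right t (by omega)
      omega)
    obtain ⟨A0, B0, h1, h2, h3, h4, h5⟩ := ih (fun l' hl' => hLs l' (List.mem_cons_of_mem _ hl'))
      (A \ P) (B \ Q) (Disjoint.mono Finset.sdiff_subset Finset.sdiff_subset hAB)
      (by rw [Finset.card_sdiff_of_subset hPA]; omega)
      (by rw [Finset.card_sdiff_of_subset hQB]; omega)
      (fun v hv => (misIn_mono G v Finset.sdiff_subset).trans (hm v (Finset.sdiff_subset hv)))
    refine ⟨A0, B0, h1.trans Finset.sdiff_subset, h2.trans Finset.sdiff_subset, h3, h4, ?_⟩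
    have hd : Disjoint (P ∪ Q) ((A \ P) \ A0 ∪ (B \ Q) \ B0) := by
      rw [Finset.disjoint_union_left, Finset.disjoint_union_right, Finset.disjoint_union_right]
      refine ⟨⟨?_, ?_⟩, ?_, ?_⟩
      · exact Disjoint.mono_right Finset.sdiff_subset Finset.disjoint_sdiff
      · exact Disjoint.mono hPA (Finset.sdiff_subset.trans Finset.sdiff_subset) hAB
      · exact (Disjoint.mono (Finset.sdiff_subset.trans Finset.sdiff_subset) hQB hAB).symm
      · exact Disjoint.mono_right Finset.sdiff_subset Finset.disjoint_sdiff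
    refine ((hl3 P Q hPQ hP hQ).union h5 hd).congr ?_
    ext v
    simp only [Finset.mem_union, Finset.mem_sdiff]
    have e1 : v ∈ A0 → v ∈ A ∧ v ∉ P := fun hv => Finset.mem_sdiff.mp (h1 hv)
    have e2 : v ∈ B0 → v ∈ B ∧ v ∉ Q := fun hv => Finset.mem_sdiff.mp (h2 hv)
    have e3 : v ∈ P → v ∈ A := fun hv => hPA hv
    have e4 : v ∈ Q → v ∈ B := fun hv => hQB hv
    constructor
    · rintro ((h | h) | ⟨⟨h, h'⟩, h''⟩ | ⟨⟨h, h'⟩, h''⟩)
      · exact Or.inl ⟨e3 h, fun h' => (e1 h').2 h⟩
      · exact Or.inr ⟨e4 h, fun h' => (e2 h').2 h⟩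
      · exact Or.inl ⟨h, h''⟩
      · exact Or.inr ⟨h, h''⟩
    · rintro (⟨h, h'⟩ | ⟨h, h'⟩)
      · by_cases hp : v ∈ P
        · exact Or.inl (Or.inl hp)
        · exact Or.inr (Or.inl ⟨⟨h, hp⟩, h'⟩)
      · by_cases hq : v ∈ Q
        · exact Or.inl (Or.inr hq)
        · exact Or.inr (Or.inr ⟨⟨h, hq⟩, h'⟩)

end ncb

lemma sum_diff {h : ℕ} {H : SimpleGraph (Fin h)} (L : List (Finset (Fin h))) :
    ((((L.map (fun X => (X, 0))).map (fun t => bN H t.1 + t.2)).sum : ℕ) : ℤ) -
      (((L.map (fun X => (X, 0))).map (fun t => aN H t.1 + t.2)).sum : ℕ) =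
      (L.map (fun X => (bN H X : ℤ) - aN H X)).sum := by
  induction L with
  | nil => simp
  | cons X L ih =>
    simp only [List.map_cons, List.sum_cons] at ih ⊢
    push_cast at ih ⊢
    linarith

/-- item 4 -/
theorem ncb (hTb : TbTiledStmt) : NCBStmt := by
  classical
  intro h H a b g hpar κ hκ
  obtain ⟨d, hd⟩ : ∃ d, b = a + d := ⟨b - a, by have := hpar.hab; omega⟩
  have hd1 : 1 ≤ d := by have := hpar.hab; omega
  have ha := hpar.ha
  have hgd : (g : ℤ) ∣ (d : ℤ) := by
    have := hpar.gdvd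
    rw [hd] at this
    have h2 : ((a + d : ℕ) : ℤ) - a = d := by push_cast; ring
    rwa [h2] at this
  -- sizes with a given difference
  have hch : ∀ z : ℕ, ∃ p q : ℕ, (g : ℤ) ∣ (z : ℤ) → Tb H p q ∧ (q : ℤ) - p = z := by
    intro z
    by_cases hz : (g : ℤ) ∣ (z : ℤ)
    · obtain ⟨L, _, hL⟩ := hpar.gen z hz
      refine ⟨((L.map (fun X => (X, 0))).map (fun t => aN H t.1 + t.2)).sum,
        ((L.map (fun X => (X, 0))).map (fun t => bN H t.1 + t.2)).sum, fun _ =>
        ⟨⟨L.map (fun X => (X, 0)), rfl, rfl⟩, ?_⟩⟩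
      rw [← hL]
      exact sum_diff L
    · exact ⟨0, 0, fun h => absurd h hz⟩
  choose pf qf hpq using hch
  obtain ⟨X0, hX1, hX2⟩ := hpar.ex
  have hTbj : ∀ j, Tb H (a + j) (b + j) := fun j => ⟨[(X0, j)], by simp [hX1], by simp [hX2]⟩
  set M0 := ∑ z ∈ Finset.range d, (pf z + qf z) with hM0
  set J := ⌈4 * (d : ℝ) / κ⌉₊ + 1 with hJ
  set M := M0 + a + b + J with hM
  have hMpos : (0 : ℝ) < M := by
    have : 0 < M := by omega
    exact_mod_cast this
  have hdpos : (0 : ℝ) < d := by exact_mod_cast hd1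
  refine ⟨κ / (8 * d * (M + 1)), b * M0, ⌈8 * (d : ℝ) * (M + 2) / κ⌉₊ + 1, by positivity, ?_⟩
  intro V _ G A B hAB hn0 hmA hmB hg hc hκn
  set n : ℝ := (A.card : ℝ) + B.card with hn
  have hTile : ∀ p q : ℕ, Tb H p q → ∀ P Q : Finset V, Cpl G P Q → P.card = p → Q.card = q →
      Tiled H G (P ∪ Q) := fun p q hpq' P Q hPQ hP hQ =>
    hTb h H V G P Q hpar.edge hPQ (by rw [hP, hQ]; exact hpq')
  -- `n` is large
  have hnbig : 8 * (d : ℝ) * (M + 2) / κ ≤ n := by
    have h1 : (⌈8 * (d : ℝ) * (M + 2) / κ⌉₊ : ℝ) ≤ n := by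
      have : ⌈8 * (d : ℝ) * (M + 2) / κ⌉₊ ≤ A.card + B.card := by omega
      rw [hn]
      exact_mod_cast this
    exact (Nat.le_ceil _).trans h1
  have hnbig2 : 8 * (d : ℝ) * (M + 2) ≤ κ * n := by
    rw [div_le_iff₀ hκ] at hnbig
    linarith
  have hnnn : 0 ≤ n := add_nonneg (Nat.cast_nonneg _) (Nat.cast_nonneg _)
  -- the difference
  have hBA : A.card ≤ B.card := by
    have : (A.card : ℝ) ≤ B.card := by nlinarith
    exact_mod_cast this
  obtain ⟨Z, hZ⟩ : ∃ Z, B.card = A.card + Z := ⟨B.card - A.card, by omega⟩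
  set z := Z % d with hz
  set u := Z / d with hu
  have hZzu : Z = d * u + z := (Nat.div_add_mod Z d).symm
  have hzlt : z < d := Nat.mod_lt _ (by omega)
  have hgz : (g : ℤ) ∣ (z : ℤ) := by
    have h1 : (g : ℤ) ∣ (Z : ℤ) := by
      have h2 : (B.card : ℤ) - A.card = Z := by rw [hZ]; push_cast; ring
      rwa [h2] at hg
    have h2 : (z : ℤ) = Z - d * u := by rw [hZzu]; push_cast; ring
    rw [h2]
    exact dvd_sub h1 (Dvd.dvd.mul_right hgd _)
  obtain ⟨hTz, hdz⟩ := hpq z hgz
  set pz := pf z with hpz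
  set qz := qf z with hqz
  have hpM : pz + qz ≤ M0 := by
    rw [hM0]
    exact Finset.single_le_sum (f := fun z => pf z + qf z) (fun _ _ => Nat.zero_le _)
      (Finset.mem_range.mpr hzlt)
  have hqz' : qz = pz + z := by omega
  -- the remaining size
  have hEge : pz + a * u ≤ A.card := by
    have h1 : a * B.card + b * M0 ≤ b * A.card := hc
    rw [hZ, hZzu, hd] at h1
    have h2 : pz ≤ M0 := by omega
    by_contra hcon
    have h3 : A.card + 1 ≤ pz + a * u := by omega
    have h4 : d * (A.card + 1) ≤ d * (pz + a * u) := Nat.mul_le_mul_left d h3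
    have h5 : d * pz ≤ (a + d) * M0 := by
      calc d * pz ≤ (a + d) * pz := Nat.mul_le_mul_right _ (by omega)
        _ ≤ (a + d) * M0 := Nat.mul_le_mul_left _ h2
    have h6 : a * (A.card + (d * u + z)) = a * A.card + a * (d * u) + a * z := by ring
    have h7 : (a + d) * A.card = a * A.card + d * A.card := by ring
    have h8 : d * (pz + a * u) = d * pz + a * (d * u) := by ring
    have h9 : d * (A.card + 1) = d * A.card + d := by ring
    omega
  obtain ⟨E, hE⟩ : ∃ E, A.card = pz + a * u + E := ⟨A.card - (pz + a * u), by omega⟩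
  set t1 := E / J with ht1
  set r := E % J with hr
  have hJpos : 0 < J := by omega
  have hEJ : E = J * t1 + r := (Nat.div_add_mod E J).symm
  have hrJ : r < J := Nat.mod_lt _ hJpos
  -- real estimates
  have hJr : 4 * (d : ℝ) / κ ≤ J := by
    rw [hJ]; push_cast
    have := Nat.le_ceil (4 * (d : ℝ) / κ)
    linarith
  have hJr2 : 4 * (d : ℝ) ≤ κ * J := by
    rw [div_le_iff₀ hκ] at hJr; linarith
  have hur : κ * n - d ≤ d * u := by
    have h1 : (Z : ℝ) = d * u + z := by exact_mod_cast hZzu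
    have h2 : (B.card : ℝ) = A.card + Z := by exact_mod_cast hZ
    have h3 : (z : ℝ) ≤ d := by exact_mod_cast hzlt.le
    linarith
  have ht1r : 4 * (d : ℝ) * t1 ≤ κ * n := by
    have h1 : (J : ℝ) * t1 ≤ n := by
      have h2 : J * t1 ≤ A.card := by omega
      have h3 : ((J * t1 : ℕ) : ℝ) ≤ A.card := by exact_mod_cast h2
      push_cast at h3
      have h4 : (0 : ℝ) ≤ B.card := Nat.cast_nonneg _
      linarith
    have h2 : (0 : ℝ) ≤ t1 := Nat.cast_nonneg _
    calc 4 * (d : ℝ) * t1 ≤ κ * J * t1 := mul_le_mul_of_nonneg_right hJr2 h2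
      _ = κ * (J * t1) := by ring
      _ ≤ κ * n := mul_le_mul_of_nonneg_left h1 hκ.le
  have hMd : 8 * (d : ℝ) * M + 16 * d ≤ κ * n := by linarith
  have hMd0 : 0 ≤ (d : ℝ) * M := mul_nonneg hdpos.le hMpos.le
  have hut : t1 + 1 ≤ u := by
    have h1 : (d : ℝ) * (t1 + 1) ≤ d * u := by linarith
    have h2 : (t1 : ℝ) + 1 ≤ u := le_of_mul_le_mul_left h1 hdpos
    exact_mod_cast h2
  obtain ⟨t0, ht0⟩ : ∃ t0, u = t0 + t1 + 1 := ⟨u - (t1 + 1), by omega⟩
  have ht0r : κ * n ≤ 2 * d * t0 := by
    have h1 : (u : ℝ) = t0 + t1 + 1 := by exact_mod_cast ht0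
    rw [h1] at hur
    linarith
  -- the bound for the number of missing neighbours
  set t := ⌊κ / (8 * d * (M + 1)) * n⌋₊ with ht
  have htr : (t : ℝ) * (8 * d * (M + 1)) ≤ κ * n := by
    have h2 : 0 < 8 * (d : ℝ) * (M + 1) :=
      mul_pos (mul_pos (by norm_num) hdpos) (add_pos hMpos one_pos)
    have h1 : (t : ℝ) ≤ κ / (8 * d * (M + 1)) * n :=
      Nat.floor_le (mul_nonneg (div_nonneg hκ.le h2.le) hnnn)
    calc (t : ℝ) * (8 * d * (M + 1)) ≤ κ / (8 * d * (M + 1)) * n * (8 * d * (M + 1)) :=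
          mul_le_mul_of_nonneg_right h1 h2.le
      _ = κ * n := by field_simp
  have htnn : (0 : ℝ) ≤ t := Nat.cast_nonneg _
  have hC1 : M * t + M ≤ t0 := by
    have h1 : (d : ℝ) * (M * t + M) ≤ d * t0 := by nlinarith
    have h2 : (M : ℝ) * t + M ≤ t0 := le_of_mul_le_mul_left h1 hdpos
    exact_mod_cast h2
  have hC2 : 2 * (M * t) ≤ t0 := by
    have h1 : (d : ℝ) * (2 * (M * t)) ≤ d * t0 := by nlinarith
    have h2 : 2 * ((M : ℝ) * t) ≤ t0 := le_of_mul_le_mul_left h1 hdpos
    exact_mod_cast h2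
  have hmA' : ∀ x ∈ A, misIn G x B ≤ t := fun x hx => Nat.le_floor (hmA x hx)
  have hmB' : ∀ x ∈ B, misIn G x A ≤ t := fun x hx => Nat.le_floor (hmB x hx)
  -- take off the pieces
  set Ls : List (ℕ × ℕ) := (pz, qz) :: (a + r, b + r) :: List.replicate t1 (a + J, b + J)
    with hLs
  have hbt0 : M * t + M ≤ b * t0 := hC1.trans (Nat.le_mul_of_pos_left t0 (by omega))
  obtain ⟨A0, B0, hA0, hB0, hcA, hcB, htl⟩ := greedy (H := H) (G := G) (M := M) (t := t)
    (x := a * t0) (y := b * t0) hbt0 Ls (by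
      intro l hl
      rw [hLs, List.mem_cons, List.mem_cons] at hl
      rcases hl with h1 | h1 | h1
      · rw [h1]
        exact ⟨by simp only; omega, by simp only; omega, hTile _ _ hTz⟩
      · rw [h1]
        exact ⟨by simp only; omega, by simp only; omega, hTile _ _ (hTbj r)⟩
      · rw [List.eq_of_mem_replicate h1]
        exact ⟨by simp only; omega, by simp only; omega, hTile _ _ (hTbj J)⟩) A B hAB
    (by
      rw [hLs]
      simp only [List.map_cons, List.sum_cons, List.map_replicate, List.sum_replicate,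
        smul_eq_mul]
      rw [hE, hEJ, ht0]; ring)
    (by
      rw [hLs]
      simp only [List.map_cons, List.sum_cons, List.map_replicate, List.sum_replicate,
        smul_eq_mul]
      rw [hZ, hZzu, hE, hEJ, ht0, hqz', hd]; ring) hmA'
  have hfin : Tiled H G (A0 ∪ B0) := tile_groups (t := t) (hTile a b (hTbj 0)) A0 B0
    (Disjoint.mono hA0 hB0 hAB) hcA hcB
    (fun x hx => (misIn_mono G x hB0).trans (hmA' x (hA0 hx)))
    (fun x hx => (misIn_mono G x hA0).trans (hmB' x (hB0 hx)))
    (le_trans (Nat.mul_le_mul_left 2 (Nat.mul_le_mul_right t (by omega))) hC2)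
    (le_trans (Nat.mul_le_mul_left 2 (Nat.mul_le_mul_right t (by omega))) hC2)
  have hdd : Disjoint ((A \ A0) ∪ (B \ B0)) (A0 ∪ B0) := by
    rw [Finset.disjoint_union_left, Finset.disjoint_union_right, Finset.disjoint_union_right]
    exact ⟨⟨Finset.sdiff_disjoint, Disjoint.mono Finset.sdiff_subset hB0 hAB⟩,
      (Disjoint.mono hA0 Finset.sdiff_subset hAB).symm, Finset.sdiff_disjoint⟩
  refine (htl.union hfin hdd).congr ?_
  ext v
  simp only [Finset.mem_union, Finset.mem_sdiff]
  constructor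
  · rintro ((⟨h, _⟩ | ⟨h, _⟩) | h | h)
    · exact Or.inl h
    · exact Or.inr h
    · exact Or.inl (hA0 h)
    · exact Or.inr (hB0 h)
  · rintro (h | h)
    · by_cases h' : v ∈ A0
      · exact Or.inr (Or.inl h')
      · exact Or.inl (Or.inl ⟨h, h'⟩)
    · by_cases h' : v ∈ B0
      · exact Or.inr (Or.inr h')
      · exact Or.inl (Or.inr ⟨h, h'⟩)

end Pool.Agent.MP_d32e04
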