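import Pool.Agent.Work.MP_d32e04_co.Basic

/-!
MP_d32e04_co, item 15: the nonextremal case, `g = 1`.
-/

set_option autoImplicit false

namespace Pool.Agent.MP_d32e04

open Finset

theorem non1 (h2 : TbTiledStmt) (h3 : TbBalStmt) (h6 : KSTCountStmt) (h9 : AbsorbStmt)
    (h14 : AlmostStmt) : Non1Stmt := by
  classical
  intro h H a b par ls γ hls0 hls1 hab hγ
  -- the sizes
  obtain ⟨s0, hs0⟩ := h3 h H a b 1 par 0 (by simp)
  obtain ⟨s1, hs1⟩ := h3 h H a b 1 par 1 (by simp)
  set s : ℕ := max s0 s1 + 1 with hs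
  have hspos : 0 < s := by omega
  have hTb0 : Tb H s s := hs0 s s (by omega) (by simp)
  have hTb1 : Tb H s (s + 1) := hs1 s (s + 1) (by omega) (by push_cast; ring)
  have hTbab : Tb H a b := by
    obtain ⟨X, hX1, hX2⟩ := par.ex
    exact ⟨[(X, 0)], by simp [hX1], by simp [hX2]⟩
  obtain ⟨c1, n1, hc1, hc1', hKST⟩ := h6 s (ls ^ 2 / 2) hspos (by positivity)
  obtain ⟨θ, hθ, hAl⟩ := h14 a b ls γ par.ha par.hab hls0 hls1 hab hγ
  obtain ⟨μ, n2, hμ, hAbs⟩ := h9 h H (2 * s) c1 θ (by omega) hc1 hc1' hθ
  obtain ⟨n3, hAl3⟩ := hAl μ hμ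
  refine ⟨max (max n1 n2) (max n3 (Nat.ceil (2 / ls))), ?_⟩
  intro V _ _ G hn hdeg hne
  have hn1 : n1 ≤ Fintype.card V := le_trans (le_max_left _ _) (le_trans (le_max_left _ _) hn)
  have hn2 : n2 ≤ Fintype.card V := le_trans (le_max_right _ _) (le_trans (le_max_left _ _) hn)
  have hn3 : n3 ≤ Fintype.card V := le_trans (le_max_left _ _) (le_trans (le_max_right _ _) hn)
  have hn4 : Nat.ceil (2 / ls) ≤ Fintype.card V :=
    le_trans (le_max_right _ _) (le_trans (le_max_right _ _) hn)
  set n : ℝ := (Fintype.card V : ℝ) with hnn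
  have hn4' : 2 ≤ ls * n := by
    have h1 : (2 / ls : ℝ) ≤ n := le_trans (Nat.le_ceil _) (by rw [hnn]; exact_mod_cast hn4)
    rw [div_le_iff₀ hls0] at h1
    linarith
  -- absorbers of a single vertex
  have habs1 : ∀ v : V, ∃ 𝒮 : Finset (Finset V), c1 * n ^ (2 * s) ≤ 𝒮.card ∧
      ∀ S ∈ 𝒮, S.card = 2 * s ∧ Tiled H G S ∧ Disjoint S {v} ∧ Tiled H G (S ∪ {v}) := by
    intro v
    have he : ls ^ 2 / 2 * n ^ 2 ≤ (e2 G (nb G v) (Finset.univ \ {v}) : ℝ) := by
      rw [e2_eq_sum]
      push_cast
      have hx : ∀ x ∈ nb G v, ls * n - 1 ≤ (degIn G x (Finset.univ \ {v}) : ℝ) := by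
        intro x _
        have h1 := degIn_union_le G x (Finset.univ \ {v}) {v}
        have h2' : (Finset.univ \ {v} : Finset V) ∪ {v} = Finset.univ := by
          ext y; simp
        rw [h2'] at h1
        have h3' : degIn G x {v} ≤ 1 := by
          have := degIn_le G x {v}
          simpa using this
        have h4 := hdeg x
        have h5 : (degIn G x Finset.univ : ℝ) ≤ degIn G x (Finset.univ \ {v}) + 1 := by
          have : degIn G x Finset.univ ≤ degIn G x (Finset.univ \ {v}) + 1 := by omega
          exact_mod_cast this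
        linarith
      have hsum : ((nb G v).card : ℝ) * (ls * n - 1) ≤
          ∑ x ∈ nb G v, (degIn G x (Finset.univ \ {v}) : ℝ) := by
        have := Finset.sum_le_sum hx
        rw [Finset.sum_const, nsmul_eq_mul] at this
        exact this
      have hcard : ls * n ≤ ((nb G v).card : ℝ) := by
        have := hdeg v
        rw [degIn_univ] at this
        exact this
      nlinarith
    obtain ⟨𝒮, hS1, hS2⟩ := hKST V G (nb G v) (Finset.univ \ {v}) hn1 he
    refine ⟨𝒮, hS1, ?_⟩
    intro S hS
    obtain ⟨P, Q, hP, hQ, hPc, hQc, hPQ, rfl⟩ := hS2 S hS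
    have hd := hPQ.disjoint
    have hvP : v ∉ P := by
      intro hv
      have := hP hv
      rw [mem_nb] at this
      exact G.loopless.irrefl v this
    have hvQ : v ∉ Q := by
      intro hv
      have := hQ hv
      simp at this
    refine ⟨?_, ?_, ?_, ?_⟩
    · rw [Finset.card_union_of_disjoint hd, hPc, hQc]; ring
    · exact h2 h H V G P Q par.edge hPQ (by rw [hPc, hQc]; exact hTb0)
    · rw [Finset.disjoint_singleton_right, Finset.mem_union]
      rintro (h | h)
      · exact hvP h
      · exact hvQ h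
    · have hC : Cpl G P (Q ∪ {v}) := by
        intro p hp q hq
        rw [Finset.mem_union, Finset.mem_singleton] at hq
        rcases hq with hq | rfl
        · exact hPQ p hp q hq
        · have := hP hp
          rw [mem_nb] at this
          exact this.symm
      have hcard : (Q ∪ {v}).card = s + 1 := by
        rw [Finset.card_union_of_disjoint (by simpa using hvQ), hQc, Finset.card_singleton]
      have := h2 h H V G P (Q ∪ {v}) par.edge hC (by rw [hPc, hcard]; exact hTb1)
      rw [← Finset.union_assoc] at this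
      exact this
  -- the absorbing family
  obtain ⟨F, hF1, hF2, hF3, hF4⟩ := hAbs V G hn2 (Finset.univ.image (fun v : V => ({v} : Finset V)))
    ∅ (by
      intro X hX
      rw [Finset.mem_image] at hX
      obtain ⟨v, _, rfl⟩ := hX
      exact ⟨Finset.singleton_nonempty v, by simp⟩) (by
      intro X hX
      rw [Finset.mem_image] at hX
      obtain ⟨v, _, rfl⟩ := hX
      exact habs1 v) (by
      simp only [Finset.card_empty, Nat.cast_zero]
      positivity)
  set M : Finset V := F.biUnion id with hM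
  -- the almost perfect tiling outside M
  obtain ⟨𝒯, hT1, hT2, hT3⟩ := hAl3 V G M hn3 hF3 hdeg hne
  set U : Finset V := 𝒯.biUnion (fun p => p.1 ∪ p.2) with hU
  set W : Finset V := (Finset.univ \ M) \ U with hW
  -- absorb the rest
  have hWt : Tiled H G (M ∪ (W.image (fun v : V => ({v} : Finset V))).biUnion id) := by
    apply hF4
    · intro X hX
      rw [Finset.mem_image] at hX ⊢
      obtain ⟨v, _, rfl⟩ := hX
      exact ⟨v, Finset.mem_univ v, rfl⟩
    · intro Y hY Y' hY' hYY
      rw [Finset.mem_image] at hY hY'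
      obtain ⟨v, _, rfl⟩ := hY
      obtain ⟨w, _, rfl⟩ := hY'
      rw [Finset.disjoint_singleton]
      rintro rfl
      exact hYY rfl
    · intro Y hY
      rw [Finset.mem_image] at hY
      obtain ⟨v, hv, rfl⟩ := hY
      rw [Finset.disjoint_singleton_left]
      rw [hW, Finset.mem_sdiff, Finset.mem_sdiff] at hv
      exact hv.1.2
    · refine le_trans ?_ hT3
      exact_mod_cast Finset.card_image_le
  have hWe : (W.image (fun v : V => ({v} : Finset V))).biUnion id = W := by
    ext x
    simp
  rw [hWe] at hWt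
  have hUt : Tiled H G U := by
    apply Tiled.biUnion'
    · intro p hp
      obtain ⟨k1, k2, k3, _⟩ := hT1 p hp
      exact h2 h H V G p.1 p.2 par.edge k3 (by rw [k1, k2]; exact hTbab)
    · intro p hp q hq hpq
      exact hT2 p hp q hq hpq
  have hMU : Disjoint (M ∪ W) U := by
    rw [Finset.disjoint_union_left]
    constructor
    · rw [hU, Finset.disjoint_biUnion_right]
      intro p hp
      exact (hT1 p hp).2.2.2.symm
    · exact Finset.sdiff_disjoint
  have hfin := hWt.union hUt hMU
  refine hfin.congr ?_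
  ext x
  simp only [Finset.mem_union, Finset.mem_univ, iff_true]
  by_cases hx : x ∈ U
  · exact Or.inr hx
  · by_cases hx' : x ∈ M
    · exact Or.inl (Or.inl hx')
    · left; right
      rw [hW, Finset.mem_sdiff, Finset.mem_sdiff]
      exact ⟨⟨Finset.mem_univ x, hx'⟩, hx⟩

end Pool.Agent.MP_d32e04
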