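import Pool.Agent.Work.MP_d32e04_co.Basic

/-!
MP_d32e04_co, item 18: the nonextremal case with `g = 2`.
-/

set_option autoImplicit false

namespace Pool.Agent.MP_d32e04

open Finset

section non2

variable {V : Type} [DecidableEq V]

/-- a set of even size is a disjoint union of pairs -/
lemma non2_pairing (N : Finset V) (hN : Even N.card) :
    ∃ 𝓅 : Finset (Finset V), (∀ Y ∈ 𝓅, ∃ u w, u ≠ w ∧ u ∈ N ∧ w ∈ N ∧ Y = {u, w}) ∧
      (∀ Y ∈ 𝓅, ∀ Y' ∈ 𝓅, Y ≠ Y' → Disjoint Y Y') ∧ 𝓅.biUnion id = N ∧ 𝓅.card ≤ N.card := by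
  obtain ⟨k, hk⟩ := hN
  induction k generalizing N with
  | zero =>
    have hN0 : N = ∅ := Finset.card_eq_zero.mp (by omega)
    subst hN0
    exact ⟨∅, by simp, by simp, by simp, by simp⟩
  | succ k ih =>
    have h1 : 1 < N.card := by omega
    obtain ⟨u, hu, w, hw, huw⟩ := Finset.one_lt_card.mp h1
    have hsub : ({u, w} : Finset V) ⊆ N := by
      intro x hx
      rcases Finset.mem_insert.mp hx with h | h
      · rw [h]; exact hu
      · rw [Finset.mem_singleton.mp h]; exact hw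
    have hc : (N \ {u, w}).card = k + k := by
      rw [Finset.card_sdiff_of_subset hsub, Finset.card_pair huw]; omega
    obtain ⟨𝓅, p1, p2, p3, p4⟩ := ih (N \ {u, w}) hc
    have hdis : ∀ Y ∈ 𝓅, Disjoint ({u, w} : Finset V) Y := by
      intro Y hY
      have : Y ⊆ N \ {u, w} := by
        rw [← p3]; exact Finset.subset_biUnion_of_mem id hY
      exact Disjoint.mono_right this Finset.disjoint_sdiff
    refine ⟨insert {u, w} 𝓅, ?_, ?_, ?_, ?_⟩
    · intro Y hY
      rcases Finset.mem_insert.mp hY with h | h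
      · exact ⟨u, w, huw, hu, hw, h⟩
      · obtain ⟨u', w', a1, a2, a3, a4⟩ := p1 Y h
        exact ⟨u', w', a1, (Finset.mem_sdiff.mp a2).1, (Finset.mem_sdiff.mp a3).1, a4⟩
    · intro Y hY Y' hY' hne
      rcases Finset.mem_insert.mp hY with h | h <;>
        rcases Finset.mem_insert.mp hY' with h' | h'
      · exact absurd (h.trans h'.symm) hne
      · rw [h]; exact hdis Y' h'
      · rw [h']; exact (hdis Y h).symm
      · exact p2 Y h Y' h' hne
    · rw [Finset.biUnion_insert, p3]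
      simp only [id]
      rw [Finset.union_sdiff_of_subset hsub]
    · have := Finset.card_insert_le ({u, w} : Finset V) 𝓅
      omega

variable {h : ℕ} {H : SimpleGraph (Fin h)} {G : SimpleGraph V}

lemma non2_tiled_free (h1 : TileStmt) (h2 : TbTiledStmt) {a b : ℕ} (par : Par H a b 2)
    {s s0 : ℕ} (hs0 : ∀ p q : ℕ, s0 ≤ p → (q : ℤ) - p = (a : ℤ) - b → Tb H p q)
    (hs : a + b + s0 ≤ s) (v : V) (P Q : Finset V) (hP : ∀ x ∈ P, G.Adj v x)
    (hQ : ∀ x ∈ Q, G.Adj v x) (hPc : P.card = s) (hQc : Q.card = s) (hC : Cpl G P Q) :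
    Tiled H G (P ∪ Q ∪ {v}) := by
  obtain ⟨X, hXa, hXb⟩ := par.ex
  have ha := par.ha
  have hab := par.hab
  obtain ⟨P', hP', hP'c⟩ := Finset.exists_subset_card_eq (s := P) (n := a) (by omega)
  obtain ⟨Q', hQ', hQ'c⟩ := Finset.exists_subset_card_eq (s := Q) (n := b) (by omega)
  obtain ⟨x, hx⟩ := Finset.card_pos.mp (by omega : 0 < P'.card)
  obtain ⟨y, hy⟩ := Finset.card_pos.mp (by omega : 0 < Q'.card)
  have hvP : v ∉ P := fun hv => G.loopless.irrefl v (hP v hv)
  have hvQ : v ∉ Q := fun hv => G.loopless.irrefl v (hQ v hv)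
  have hPQ := hC.disjoint
  have t1 : IsSubdivOn H G (P' ∪ Q' ∪ ([v] : List V).toFinset) := by
    refine h1 h H V G X 0 P' Q' x y [v] par.edge (hC.mono hP' hQ') (by omega) (by omega)
      hx hy (List.nodup_singleton v) ?_ ?_
    · intro r hr
      rw [List.mem_singleton] at hr
      subst hr
      exact ⟨fun hh => hvP (hP' hh), fun hh => hvQ (hQ' hh)⟩
    · have e : (x :: ([v] ++ [y]) : List V) = [x, v, y] := rfl
      rw [e, List.isChain_cons_cons, List.isChain_cons_cons]
      exact ⟨(hP x (hP' hx)).symm, hQ y (hQ' hy), List.isChain_singleton y⟩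
  have t2 : Tiled H G ((P \ P') ∪ (Q \ Q')) := by
    refine h2 h H V G (P \ P') (Q \ Q') par.edge
      (hC.mono Finset.sdiff_subset Finset.sdiff_subset) ?_
    have c1 : (P \ P').card = s - a := by
      rw [Finset.card_sdiff_of_subset hP', hPc, hP'c]
    have c2 : (Q \ Q').card = s - b := by
      rw [Finset.card_sdiff_of_subset hQ', hQc, hQ'c]
    rw [c1, c2]
    apply hs0 _ _ (by omega)
    omega
  have hvf : ([v] : List V).toFinset = {v} := rfl
  rw [hvf] at t1
  have hd : Disjoint (P' ∪ Q' ∪ {v}) ((P \ P') ∪ (Q \ Q')) := by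
    rw [Finset.disjoint_left]
    intro z hz hz'
    simp only [Finset.mem_union, Finset.mem_sdiff, Finset.mem_singleton] at hz hz'
    rw [Finset.disjoint_left] at hPQ
    rcases hz with (hz | hz) | hz <;> rcases hz' with hz' | hz'
    · exact hz'.2 hz
    · exact hPQ (hP' hz) hz'.1
    · exact hPQ hz'.1 (hQ' hz)
    · exact hz'.2 hz
    · exact hvP (hz ▸ hz'.1)
    · exact hvQ (hz ▸ hz'.1)
  refine ((Tiled.of_tile t1).union t2 hd).congr ?_
  ext z
  simp only [Finset.mem_union, Finset.mem_sdiff, Finset.mem_singleton]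
  have k1 : z ∈ P' → z ∈ P := fun hh => hP' hh
  have k2 : z ∈ Q' → z ∈ Q := fun hh => hQ' hh
  tauto

lemma non2_tiled_common (h2 : TbTiledStmt) {a b : ℕ} (par : Par H a b 2)
    {s : ℕ} (hs : Tb H s (s + 2)) (u w : V) (huw : u ≠ w) (P Q : Finset V)
    (hPu : ∀ x ∈ P, G.Adj u x) (hPw : ∀ x ∈ P, G.Adj w x) (huQ : u ∉ Q) (hwQ : w ∉ Q)
    (hPc : P.card = s) (hQc : Q.card = s) (hC : Cpl G P Q) :
    Tiled H G (P ∪ Q ∪ {u, w}) := by
  have hc : (Q ∪ {u, w}).card = s + 2 := by
    rw [Finset.card_union_of_disjoint, hQc, Finset.card_pair huw]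
    rw [Finset.disjoint_right]
    intro z hz
    rcases Finset.mem_insert.mp hz with e | e
    · rw [e]; exact huQ
    · rw [Finset.mem_singleton.mp e]; exact hwQ
  have hC' : Cpl G P (Q ∪ {u, w}) := by
    intro p hp q hq
    rcases Finset.mem_union.mp hq with e | e
    · exact hC p hp q e
    · rcases Finset.mem_insert.mp e with e | e
      · rw [e]; exact (hPu p hp).symm
      · rw [Finset.mem_singleton.mp e]; exact (hPw p hp).symm
  have := h2 h H V G P (Q ∪ {u, w}) par.edge hC' (by rw [hPc, hc]; exact hs)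
  exact this.congr (by rw [Finset.union_assoc])

lemma non2_tiled_cross (h2 : TbTiledStmt) {a b : ℕ} (par : Par H a b 2)
    {s k : ℕ} (hk : 1 ≤ k) (hks : k ≤ s) (hs1 : Tb H k k) (hs2 : Tb H (s - k + 1) (s - k + 1))
    (u w : V) (huw : u ≠ w) (P Q : Finset V)
    (hPu : ∀ x ∈ P, G.Adj u x) (hQw : ∀ x ∈ Q, G.Adj w x) (huQ : u ∉ Q) (hwP : w ∉ P)
    (hPc : P.card = s) (hQc : Q.card = s) (hC : Cpl G P Q) :
    Tiled H G (P ∪ Q ∪ {u, w}) := by
  obtain ⟨P1, hP1, hP1c⟩ := Finset.exists_subset_card_eq (s := P) (n := k) (by omega)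
  obtain ⟨Q1, hQ1, hQ1c⟩ := Finset.exists_subset_card_eq (s := Q) (n := k - 1) (by omega)
  have huP : u ∉ P := fun hv => G.loopless.irrefl u (hPu u hv)
  have hwQ : w ∉ Q := fun hv => G.loopless.irrefl w (hQw w hv)
  have hPQ := hC.disjoint
  rw [Finset.disjoint_left] at hPQ
  have t1 : Tiled H G (P1 ∪ insert u Q1) := by
    refine h2 h H V G P1 (insert u Q1) par.edge ?_ ?_
    · intro p hp q hq
      rcases Finset.mem_insert.mp hq with e | e
      · rw [e]; exact (hPu p (hP1 hp)).symm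
      · exact hC p (hP1 hp) q (hQ1 e)
    · rw [Finset.card_insert_of_notMem (fun hh => huQ (hQ1 hh)), hP1c, hQ1c,
        Nat.sub_add_cancel hk]
      exact hs1
  have t2 : Tiled H G (insert w (P \ P1) ∪ (Q \ Q1)) := by
    refine h2 h H V G (insert w (P \ P1)) (Q \ Q1) par.edge ?_ ?_
    · intro p hp q hq
      have hq' := (Finset.mem_sdiff.mp hq).1
      rcases Finset.mem_insert.mp hp with e | e
      · rw [e]; exact hQw q hq'
      · exact hC p (Finset.mem_sdiff.mp e).1 q hq'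
    · rw [Finset.card_insert_of_notMem (fun hh => hwP (Finset.mem_sdiff.mp hh).1),
        Finset.card_sdiff_of_subset hP1, Finset.card_sdiff_of_subset hQ1, hPc, hQc, hP1c, hQ1c]
      have e : s - (k - 1) = s - k + 1 := by omega
      rw [e]
      exact hs2
  have hd : Disjoint (P1 ∪ insert u Q1) (insert w (P \ P1) ∪ (Q \ Q1)) := by
    rw [Finset.disjoint_left]
    intro z hz hz'
    simp only [Finset.mem_union, Finset.mem_sdiff, Finset.mem_insert] at hz hz'
    rcases hz with hz | hz | hz <;> rcases hz' with (hz' | hz') | hz'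
    · exact hwP (hz' ▸ hP1 hz)
    · exact hz'.2 hz
    · exact hPQ (hP1 hz) hz'.1
    · exact huw (hz.symm.trans hz')
    · exact huP (hz ▸ hz'.1)
    · exact huQ (hz ▸ hz'.1)
    · exact hwQ (hz' ▸ hQ1 hz)
    · exact hPQ hz'.1 (hQ1 hz)
    · exact hz'.2 hz
  refine (t1.union t2 hd).congr ?_
  ext z
  simp only [Finset.mem_union, Finset.mem_sdiff, Finset.mem_insert, Finset.mem_singleton]
  have k1 : z ∈ P1 → z ∈ P := fun hh => hP1 hh
  have k2 : z ∈ Q1 → z ∈ Q := fun hh => hQ1 hh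
  tauto

end non2

section nf

variable {V : Type} [Fintype V] [DecidableEq V] {G : SimpleGraph V} {η : ℝ}

lemma nf_union {S T : Finset V} (hd : Disjoint S T) : nf G η (S ∪ T) = nf G η S + nf G η T := by
  classical
  unfold nf
  rw [Finset.filter_union, Finset.card_union_of_disjoint (Finset.disjoint_filter_filter hd)]

lemma nf_biUnion_even {ι : Type} [DecidableEq ι] (s : Finset ι) (f : ι → Finset V)
    (hF : ∀ i ∈ s, Even (nf G η (f i))) (hd : ∀ i ∈ s, ∀ j ∈ s, i ≠ j → Disjoint (f i) (f j)) :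
    Even (nf G η (s.biUnion f)) := by
  induction s using Finset.induction_on with
  | empty => simp [nf]
  | insert i s hi ih =>
    rw [Finset.biUnion_insert, nf_union]
    · exact (hF i (Finset.mem_insert_self _ _)).add
        (ih (fun S hS => hF S (Finset.mem_insert_of_mem hS))
        (fun S hS S' hS' => hd S (Finset.mem_insert_of_mem hS) S' (Finset.mem_insert_of_mem hS')))
    · rw [Finset.disjoint_biUnion_right]
      intro j hj
      exact hd i (Finset.mem_insert_self _ _) j (Finset.mem_insert_of_mem hj)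
        (fun h => hi (h ▸ hj))

/-- splitting a set with an even number of non-free vertices into free singletons and pairs of
non-free vertices -/
lemma non2_split (W : Finset V) (hW : Even (nf G η W)) :
    ∃ 𝒴 : Finset (Finset V), (∀ Y ∈ 𝒴, (∃ v ∈ W, Free G η v ∧ Y = {v}) ∨
        ∃ u w, u ≠ w ∧ ¬ Free G η u ∧ ¬ Free G η w ∧ Y = {u, w}) ∧
      (∀ Y ∈ 𝒴, ∀ Y' ∈ 𝒴, Y ≠ Y' → Disjoint Y Y') ∧ 𝒴.biUnion id = W ∧ 𝒴.card ≤ W.card := by
  classical
  obtain ⟨𝓅, p1, p2, p3, p4⟩ := non2_pairing (W.filter (fun v => ¬ Free G η v)) (by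
    unfold nf at hW; convert hW)
  set 𝒬 := (W.filter (fun v => Free G η v)).image (fun v => ({v} : Finset V)) with h𝒬
  have hPN : ∀ Y ∈ 𝓅, ∀ z ∈ Y, ¬ Free G η z := by
    intro Y hY z hz
    have : z ∈ 𝓅.biUnion id := Finset.mem_biUnion.mpr ⟨Y, hY, hz⟩
    rw [p3] at this
    exact (Finset.mem_filter.mp this).2
  have hQF : ∀ Y ∈ 𝒬, ∃ v ∈ W, Free G η v ∧ Y = {v} := by
    intro Y hY
    rw [h𝒬, Finset.mem_image] at hY
    obtain ⟨v, hv, rfl⟩ := hY
    exact ⟨v, (Finset.mem_filter.mp hv).1, (Finset.mem_filter.mp hv).2, rfl⟩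
  have hcross : ∀ Y ∈ 𝒬, ∀ Y' ∈ 𝓅, Disjoint Y Y' := by
    intro Y hY Y' hY'
    obtain ⟨v, _, hv, rfl⟩ := hQF Y hY
    rw [Finset.disjoint_singleton_left]
    exact fun hh => hPN Y' hY' v hh hv
  refine ⟨𝒬 ∪ 𝓅, ?_, ?_, ?_, ?_⟩
  · intro Y hY
    rcases Finset.mem_union.mp hY with e | e
    · exact Or.inl (hQF Y e)
    · obtain ⟨u, w, a1, a2, a3, a4⟩ := p1 Y e
      exact Or.inr ⟨u, w, a1, (Finset.mem_filter.mp a2).2, (Finset.mem_filter.mp a3).2, a4⟩
  · intro Y hY Y' hY' hne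
    rcases Finset.mem_union.mp hY with e | e <;> rcases Finset.mem_union.mp hY' with e' | e'
    · obtain ⟨v, _, _, rfl⟩ := hQF Y e
      obtain ⟨v', _, _, rfl⟩ := hQF Y' e'
      rw [Finset.disjoint_singleton]
      intro hh; exact hne (by rw [hh])
    · exact hcross Y e Y' e'
    · exact (hcross Y' e' Y e).symm
    · exact p2 Y e Y' e' hne
  · rw [Finset.union_biUnion, p3]
    have : 𝒬.biUnion id = W.filter (fun v => Free G η v) := by
      ext z
      simp [h𝒬]
    rw [this, Finset.filter_union_filter_not_eq]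
  · have c1 := Finset.card_union_le 𝒬 𝓅
    have c2 : 𝒬.card ≤ (W.filter (fun v => Free G η v)).card := Finset.card_image_le
    have c3 := Finset.card_filter_add_card_filter_not (s := W) (fun v => Free G η v)
    omega

end nf

section edges

variable {V : Type} [Fintype V] [DecidableEq V] {G : SimpleGraph V} {η : ℝ}

lemma non2_e2_common (hη : 0 < η) (hn : 24 ≤ Fintype.card V)
    (hdeg : ∀ v, 1 / 3 * (Fintype.card V : ℝ) ≤ degIn G v Finset.univ) (u w : V)
    (U : Finset V) (hU : η * (Fintype.card V : ℝ) ≤ U.card) :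
    η / 4 * (Fintype.card V : ℝ) ^ 2 ≤ e2 G U (Finset.univ \ {u, w}) := by
  have hn' : (24 : ℝ) ≤ Fintype.card V := by exact_mod_cast hn
  have h1 : (U.card : ℝ) * (1 / 3 * (Fintype.card V : ℝ)) ≤ e2 G U Finset.univ := by
    rw [e2_eq_sum]
    push_cast
    calc (U.card : ℝ) * (1 / 3 * (Fintype.card V : ℝ)) = ∑ _v ∈ U, (1 / 3 * (Fintype.card V : ℝ)) := by
          rw [Finset.sum_const, nsmul_eq_mul]
      _ ≤ ∑ v ∈ U, (degIn G v Finset.univ : ℝ) := Finset.sum_le_sum (fun v _ => hdeg v)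
  have h2 : e2 G U Finset.univ ≤ e2 G U (Finset.univ \ {u, w}) + e2 G U {u, w} := by
    have := e2_union_right_le G U (Finset.univ \ {u, w}) {u, w}
    rwa [Finset.sdiff_union_of_subset (Finset.subset_univ _)] at this
  have h3 : e2 G U {u, w} ≤ U.card * 2 :=
    (e2_le G U {u, w}).trans (Nat.mul_le_mul_left _ Finset.card_le_two)
  have h4 : (e2 G U Finset.univ : ℝ) ≤ e2 G U (Finset.univ \ {u, w}) + U.card * 2 := by
    exact_mod_cast h2.trans (Nat.add_le_add_left h3 _)
  have h5 : η * (Fintype.card V : ℝ) * (1 / 3 * (Fintype.card V : ℝ) - 2) ≤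
      U.card * (1 / 3 * (Fintype.card V : ℝ) - 2) :=
    mul_le_mul_of_nonneg_right hU (by linarith)
  have h6 : 0 ≤ η * (Fintype.card V : ℝ) * (1 / 12 * (Fintype.card V : ℝ) - 2) :=
    mul_nonneg (by positivity) (by linarith)
  nlinarith

lemma non2_e2_cross (hn : 8 ≤ 3 * η * (Fintype.card V : ℝ)) (u w : V)
    (hU : η * (Fintype.card V : ℝ) ^ 2 ≤ e2 G (nb G u) (nb G w)) :
    η / 4 * (Fintype.card V : ℝ) ^ 2 ≤ e2 G (nb G u \ {w}) (nb G w \ {u}) := by
  have h1 : e2 G (nb G u) (nb G w) ≤ e2 G (nb G u \ {w}) (nb G w) + e2 G {w} (nb G w) := by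
    refine le_trans (e2_mono G ?_ (Finset.Subset.refl _))
      (e2_union_left_le G (nb G u \ {w}) {w} (nb G w))
    rw [Finset.sdiff_union_self_eq_union]
    exact Finset.subset_union_left
  have h2 : e2 G (nb G u \ {w}) (nb G w) ≤ e2 G (nb G u \ {w}) (nb G w \ {u}) +
      e2 G (nb G u \ {w}) {u} := by
    refine le_trans (e2_mono G (Finset.Subset.refl _) ?_)
      (e2_union_right_le G (nb G u \ {w}) (nb G w \ {u}) {u})
    rw [Finset.sdiff_union_self_eq_union]
    exact Finset.subset_union_left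
  have h3 : e2 G {w} (nb G w) ≤ Fintype.card V := by
    refine (e2_le G _ _).trans ?_
    rw [Finset.card_singleton, one_mul]
    exact Finset.card_le_univ _
  have h4 : e2 G (nb G u \ {w}) {u} ≤ Fintype.card V := by
    refine (e2_le G _ _).trans ?_
    rw [Finset.card_singleton, mul_one]
    exact Finset.card_le_univ _
  have h5 : (e2 G (nb G u) (nb G w) : ℝ) ≤ e2 G (nb G u \ {w}) (nb G w \ {u}) +
      2 * Fintype.card V := by
    have : e2 G (nb G u) (nb G w) ≤ e2 G (nb G u \ {w}) (nb G w \ {u}) +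
      2 * Fintype.card V := by omega
    exact_mod_cast this
  have h6 : (0 : ℝ) ≤ Fintype.card V := by positivity
  nlinarith

end edges

theorem non2 (h2 : TbTiledStmt) (h1 : TileStmt) (h3 : TbBalStmt) (h6 : KSTCountStmt)
    (h9 : AbsorbStmt) (h14 : AlmostStmt) (h16 : GoodPairStmt) (h17 : ParityStmt) :
    Non2Stmt := by
  intro h H a b par ls γ hls1 hls2 hab hγ
  obtain ⟨η0, hη0, h17'⟩ := h17 h H a b par
  -- the constant η
  obtain ⟨η, hη, hηγ, hηη0⟩ : ∃ η : ℝ, 0 < η ∧ η ≤ γ / 4 ∧ η ≤ η0 :=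
    ⟨min (γ / 4) η0, lt_min (by linarith) hη0, min_le_left _ _, min_le_right _ _⟩
  obtain ⟨C, t0, n17, h17⟩ := h17' η hη hηη0
  -- sizes
  obtain ⟨sA, hsA⟩ := h3 h H a b 2 par 0 (dvd_zero _)
  obtain ⟨sB, hsB⟩ := h3 h H a b 2 par 2 (by norm_num)
  obtain ⟨sC, hsC⟩ := h3 h H a b 2 par ((a : ℤ) - b) (by
    have := par.gdvd
    rw [← neg_sub]
    exact this.neg_right)
  set s : ℕ := 2 * sA + sB + sC + a + b + 2 with hs
  obtain ⟨c1, n6, hc1, hc1', h6⟩ := h6 s (η / 4) (by omega) (by linarith)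
  obtain ⟨θ, hθ, h14⟩ := h14 a b ls γ par.ha par.hab (by linarith) hls2 hab hγ
  obtain ⟨μ, n9, hμ, h9⟩ := h9 h H (2 * s) c1 (θ / 2) (by omega) hc1 hc1' (by linarith)
  obtain ⟨n14, h14⟩ := h14 (μ / 2) (by linarith)
  set t1 : ℕ := t0 + 2 * s + a + b with ht1
  obtain ⟨m1, hm1⟩ := exists_nat_ge (8 / (3 * η))
  obtain ⟨m2, hm2⟩ := exists_nat_ge (2 * t1 / μ)
  obtain ⟨m3, hm3⟩ := exists_nat_ge (2 * t1 / θ)
  refine ⟨C, n6 + n9 + n14 + n17 + 24 + m1 + m2 + m3, ?_⟩
  intro V _ _ G hn heven hdeg hextr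
  have hdeg1 : ∀ v, ls * (Fintype.card V : ℝ) ≤ degIn G v Finset.univ := by
    intro v
    have := hdeg v
    have hC : (0 : ℝ) ≤ C := by positivity
    linarith
  have hn0 : (0 : ℝ) ≤ Fintype.card V := by positivity
  have hdeg2 : ∀ v, 1 / 3 * (Fintype.card V : ℝ) ≤ degIn G v Finset.univ := by
    intro v
    have := hdeg1 v
    nlinarith
  have hdeg3 : ∀ v, 1 / 3 * (Fintype.card V : ℝ) + C ≤ degIn G v Finset.univ := by
    intro v
    have := hdeg v
    nlinarith
  have hnm : ∀ (m : ℕ) (x y : ℝ), 0 < y → x / y ≤ m → m ≤ Fintype.card V →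
      x ≤ y * Fintype.card V := by
    intro m x y hy hx hm
    have : (m : ℝ) ≤ Fintype.card V := by exact_mod_cast hm
    have h' : x / y ≤ Fintype.card V := hx.trans this
    rw [div_le_iff₀ hy] at h'
    linarith
  have hq1 : (8 : ℝ) ≤ 3 * η * Fintype.card V := hnm m1 _ _ (by positivity) hm1 (by omega)
  have hq2 : (2 * t1 : ℝ) ≤ μ * Fintype.card V := hnm m2 _ _ hμ hm2 (by omega)
  have hq3 : (2 * t1 : ℝ) ≤ θ * Fintype.card V := hnm m3 _ _ hθ hm3 (by omega)
  -- the family of small sets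
  classical
  set 𝒳 : Finset (Finset V) := (Finset.univ : Finset (Finset V)).filter (fun X =>
    (∃ v, Free G η v ∧ X = {v}) ∨ ∃ u w, u ≠ w ∧ Good G η u w ∧ X = {u, w}) with h𝒳
  have hX1 : ∀ X ∈ 𝒳, X.Nonempty ∧ X.card ≤ 2 := by
    intro X hX
    rcases (Finset.mem_filter.mp hX).2 with ⟨v, _, rfl⟩ | ⟨u, w, huw, _, rfl⟩
    · exact ⟨Finset.singleton_nonempty v, by simp⟩
    · exact ⟨Finset.insert_nonempty _ _, Finset.card_le_two⟩
  have hTb0 : ∀ p : ℕ, sA ≤ p → Tb H p p := fun p hp => hsA p p hp (by simp)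
  have hTss : Tb H s s := hTb0 s (by omega)
  have hTs2 : Tb H s (s + 2) := hsB s (s + 2) (by omega) (by push_cast; ring)
  have hbase : ∀ P Q : Finset V, P.card = s → Q.card = s → Cpl G P Q →
      (P ∪ Q).card = 2 * s ∧ Tiled H G (P ∪ Q) := by
    intro P Q hP hQ hC
    refine ⟨?_, h2 h H V G P Q par.edge hC (by rw [hP, hQ]; exact hTss)⟩
    rw [Finset.card_union_of_disjoint hC.disjoint, hP, hQ]; ring
  have hX2 : ∀ X ∈ 𝒳, ∃ 𝒮 : Finset (Finset V),
      c1 * (Fintype.card V : ℝ) ^ (2 * s) ≤ 𝒮.card ∧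
      ∀ S ∈ 𝒮, S.card = 2 * s ∧ Tiled H G S ∧ Disjoint S X ∧ Tiled H G (S ∪ X) := by
    intro X hX
    rcases (Finset.mem_filter.mp hX).2 with ⟨v, hv, rfl⟩ | ⟨u, w, huw, hg, rfl⟩
    · obtain ⟨𝒮, h𝒮, h𝒮'⟩ := h6 V G (nb G v) (nb G v) (by omega) (by
        refine le_trans ?_ hv
        nlinarith [sq_nonneg (Fintype.card V : ℝ)])
      refine ⟨𝒮, h𝒮, ?_⟩
      intro S hS
      obtain ⟨P, Q, hP, hQ, hPc, hQc, hC, rfl⟩ := h𝒮' S hS
      obtain ⟨k1, k2⟩ := hbase P Q hPc hQc hC
      have hPa : ∀ x ∈ P, G.Adj v x := fun x hx => (mem_nb G v x).mp (hP hx)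
      have hQa : ∀ x ∈ Q, G.Adj v x := fun x hx => (mem_nb G v x).mp (hQ hx)
      refine ⟨k1, k2, ?_, ?_⟩
      · rw [Finset.disjoint_singleton_right, Finset.mem_union, not_or]
        exact ⟨fun hh => G.loopless.irrefl v (hPa v hh), fun hh => G.loopless.irrefl v (hQa v hh)⟩
      · exact non2_tiled_free h1 h2 par hsC (by omega) v P Q hPa hQa hPc hQc hC
    · rcases hg with hg | hg
      · obtain ⟨𝒮, h𝒮, h𝒮'⟩ := h6 V G (nb G u ∩ nb G w) (Finset.univ \ {u, w}) (by omega)
          (non2_e2_common hη (by omega) hdeg2 u w _ hg)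
        refine ⟨𝒮, h𝒮, ?_⟩
        intro S hS
        obtain ⟨P, Q, hP, hQ, hPc, hQc, hC, rfl⟩ := h𝒮' S hS
        obtain ⟨k1, k2⟩ := hbase P Q hPc hQc hC
        have hPu : ∀ x ∈ P, G.Adj u x := fun x hx =>
          (mem_nb G u x).mp (Finset.mem_inter.mp (hP hx)).1
        have hPw : ∀ x ∈ P, G.Adj w x := fun x hx =>
          (mem_nb G w x).mp (Finset.mem_inter.mp (hP hx)).2
        have huQ : u ∉ Q := fun hh => (Finset.mem_sdiff.mp (hQ hh)).2 (by simp)
        have hwQ : w ∉ Q := fun hh => (Finset.mem_sdiff.mp (hQ hh)).2 (by simp)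
        refine ⟨k1, k2, ?_, ?_⟩
        · rw [Finset.disjoint_right]
          intro z hz
          rw [Finset.mem_union, not_or]
          rcases Finset.mem_insert.mp hz with e | e
          · rw [e]; exact ⟨fun hh => G.loopless.irrefl u (hPu u hh), huQ⟩
          · rw [Finset.mem_singleton.mp e]
            exact ⟨fun hh => G.loopless.irrefl w (hPw w hh), hwQ⟩
        · exact non2_tiled_common h2 par hTs2 u w huw P Q hPu hPw huQ hwQ hPc hQc hC
      · obtain ⟨𝒮, h𝒮, h𝒮'⟩ := h6 V G (nb G u \ {w}) (nb G w \ {u}) (by omega)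
          (non2_e2_cross hq1 u w hg)
        refine ⟨𝒮, h𝒮, ?_⟩
        intro S hS
        obtain ⟨P, Q, hP, hQ, hPc, hQc, hC, rfl⟩ := h𝒮' S hS
        obtain ⟨k1, k2⟩ := hbase P Q hPc hQc hC
        have hPu : ∀ x ∈ P, G.Adj u x := fun x hx =>
          (mem_nb G u x).mp (Finset.mem_sdiff.mp (hP hx)).1
        have hQw : ∀ x ∈ Q, G.Adj w x := fun x hx =>
          (mem_nb G w x).mp (Finset.mem_sdiff.mp (hQ hx)).1
        have hwP : w ∉ P := fun hh => (Finset.mem_sdiff.mp (hP hh)).2 (by simp)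
        have huQ : u ∉ Q := fun hh => (Finset.mem_sdiff.mp (hQ hh)).2 (by simp)
        refine ⟨k1, k2, ?_, ?_⟩
        · rw [Finset.disjoint_right]
          intro z hz
          rw [Finset.mem_union, not_or]
          rcases Finset.mem_insert.mp hz with e | e
          · rw [e]; exact ⟨fun hh => G.loopless.irrefl u (hPu u hh), huQ⟩
          · rw [Finset.mem_singleton.mp e]
            exact ⟨hwP, fun hh => G.loopless.irrefl w (hQw w hh)⟩
        · exact non2_tiled_cross h2 par (k := sA + 1) (by omega) (by omega)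
            (hTb0 _ (by omega)) (hTb0 _ (by omega)) u w huw P Q hPu hQw huQ hwP hPc hQc hC
  -- the parity set
  obtain ⟨T, hTt, hTc, hT⟩ : ∃ T : Finset V, Tiled H G T ∧ T.card ≤ t1 ∧
      (Odd (nf G η T) ∨ (T = ∅ ∧ Even (nf G η (Finset.univ : Finset V)) ∧
        ∀ S : Finset V, Tiled H G S → S.card ≤ t1 → Even (nf G η S))) := by
    by_cases hex : ∃ T : Finset V, Tiled H G T ∧ T.card ≤ t1 ∧ Odd (nf G η T)
    · obtain ⟨T, e1, e2, e3⟩ := hex
      exact ⟨T, e1, e2, Or.inl e3⟩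
    · refine ⟨∅, Tiled.empty, by simp, Or.inr ⟨rfl, ?_, ?_⟩⟩
      · by_contra hodd
        rw [Nat.not_even_iff_odd] at hodd
        obtain ⟨T, e1, e2, e3⟩ := h17 V G (by omega) heven hdeg3 hodd
        exact hex ⟨T, e1, by omega, e3⟩
      · intro S hS hSc
        by_contra hodd
        rw [Nat.not_even_iff_odd] at hodd
        exact hex ⟨S, hS, hSc, hodd⟩
  have hTr : (T.card : ℝ) ≤ t1 := by exact_mod_cast hTc
  have ht1r : (0 : ℝ) ≤ t1 := by positivity
  -- absorption
  obtain ⟨F, hF1, hF2, hF3, hF4⟩ := h9 V G (by omega) 𝒳 T hX1 hX2 (by linarith)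
  set M := F.biUnion id with hM
  have hMT : Disjoint M T := by
    rw [hM, Finset.disjoint_biUnion_left]
    exact fun S hS => (hF2 S hS).2.2
  -- almost perfect tiling
  obtain ⟨𝒯, hA1, hA2, hA3⟩ := h14 V G (M ∪ T) (by omega) (by
    have h7 : ((M ∪ T).card : ℝ) ≤ M.card + T.card := by
      exact_mod_cast Finset.card_union_le M T
    linarith) hdeg1 hextr
  set A := 𝒯.biUnion (fun p => p.1 ∪ p.2) with hA
  set W := (Finset.univ \ (M ∪ T)) \ A with hW
  have hATb : Tb H a b := by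
    obtain ⟨X, hXa, hXb⟩ := par.ex
    exact ⟨[(X, 0)], by simp [hXa], by simp [hXb]⟩
  have hTp : ∀ p ∈ 𝒯, Tiled H G (p.1 ∪ p.2) := by
    intro p hp
    obtain ⟨k1, k2, k3, _⟩ := hA1 p hp
    exact h2 h H V G p.1 p.2 par.edge k3 (by rw [k1, k2]; exact hATb)
  have hAt : Tiled H G A := Tiled.biUnion' 𝒯 _ hTp hA2
  have hAZ : Disjoint A (M ∪ T) := by
    rw [hA, Finset.disjoint_biUnion_left]
    exact fun p hp => (hA1 p hp).2.2.2
  have hWM : Disjoint W M := by
    rw [Finset.disjoint_left]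
    intro z hz hz'
    exact (Finset.mem_sdiff.mp (Finset.mem_sdiff.mp hz).1).2 (Finset.mem_union_left _ hz')
  have hWT : Disjoint W T := by
    rw [Finset.disjoint_left]
    intro z hz hz'
    exact (Finset.mem_sdiff.mp (Finset.mem_sdiff.mp hz).1).2 (Finset.mem_union_right _ hz')
  have hWA : Disjoint W A := Finset.sdiff_disjoint
  have hAM : Disjoint A M := Disjoint.mono_right Finset.subset_union_left hAZ
  have hAT : Disjoint A T := Disjoint.mono_right Finset.subset_union_right hAZ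
  -- absorbing a set with an even number of non-free vertices
  have habs : ∀ W' : Finset V, Even (nf G η W') → Disjoint W' M →
      (W'.card : ℝ) ≤ μ * Fintype.card V → Tiled H G (M ∪ W') := by
    intro W' hev hd hc
    obtain ⟨𝒴, y1, y2, y3, y4⟩ := non2_split W' hev
    have y5 : 𝒴 ⊆ 𝒳 := by
      intro Y hY
      rw [h𝒳, Finset.mem_filter]
      refine ⟨Finset.mem_univ _, ?_⟩
      rcases y1 Y hY with ⟨v, _, hv, rfl⟩ | ⟨u, w, huw, hu, hw, rfl⟩
      · exact Or.inl ⟨v, hv, rfl⟩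
      · exact Or.inr ⟨u, w, huw, h16 ls γ hls1 hls2 hγ η hη hηγ V G hdeg1 hextr u w hu hw, rfl⟩
    have := hF4 𝒴 y5 y2 (by
      intro Y hY
      have : Y ⊆ W' := by rw [← y3]; exact Finset.subset_biUnion_of_mem id hY
      exact Disjoint.mono_left this hd) (by
      refine le_trans ?_ hc
      exact_mod_cast y4)
    rwa [y3] at this
  have huniv : (Finset.univ : Finset V) = M ∪ W ∪ (A ∪ T) := by
    ext z
    simp only [Finset.mem_univ, Finset.mem_union, hW, Finset.mem_sdiff, true_and]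
    tauto
  have hWr : (W.card : ℝ) ≤ μ / 2 * Fintype.card V := hA3
  have hμn : 0 ≤ μ * (Fintype.card V : ℝ) := by positivity
  by_cases hev : Even (nf G η W)
  · have k1 := habs W hev hWM (by linarith)
    have k2 : Tiled H G (A ∪ T) := hAt.union hTt hAT
    have k3 := k1.union k2 (by
      rw [Finset.disjoint_union_left, Finset.disjoint_union_right, Finset.disjoint_union_right]
      exact ⟨⟨hAM.symm, hMT⟩, hWA, hWT⟩)
    exact k3.congr huniv.symm
  · rw [Nat.not_even_iff_odd] at hev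
    rcases hT with hT | ⟨hT0, hTe, hTs⟩
    · have k1 := habs (W ∪ T) (by rw [nf_union hWT]; exact hev.add_odd hT)
        (Finset.disjoint_union_left.mpr ⟨hWM, hMT.symm⟩) (by
          have h7 : ((W ∪ T).card : ℝ) ≤ W.card + T.card := by
            exact_mod_cast Finset.card_union_le W T
          linarith)
      have k3 := k1.union hAt (by
        rw [Finset.disjoint_union_left, Finset.disjoint_union_left]
        exact ⟨hAM.symm, hWA, hAT.symm⟩)
      refine k3.congr ?_
      rw [huniv]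
      ext z
      simp only [Finset.mem_union]
      tauto
    · exfalso
      have e1 : Even (nf G η M) := by
        rw [hM]
        refine nf_biUnion_even F id (fun S hS => ?_) hF1
        exact hTs S (hF2 S hS).2.1 (by rw [(hF2 S hS).1]; omega)
      have e2 : Even (nf G η A) := by
        rw [hA]
        refine nf_biUnion_even 𝒯 _ (fun p hp => ?_) hA2
        refine hTs _ (hTp p hp) ?_
        have := Finset.card_union_le p.1 p.2
        obtain ⟨k1, k2, _, _⟩ := hA1 p hp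
        omega
      have e3 : Even (nf G η T) := by rw [hT0]; simp [nf]
      have e4 : nf G η (Finset.univ : Finset V) = nf G η M + nf G η W + (nf G η A + nf G η T) := by
        rw [huniv, nf_union, nf_union hWM.symm, nf_union hAT]
        rw [Finset.disjoint_union_left, Finset.disjoint_union_right, Finset.disjoint_union_right]
        exact ⟨⟨hAM.symm, hMT⟩, hWA, hWT⟩
      rw [e4] at hTe
      have e5 : Odd (nf G η M + nf G η W + (nf G η A + nf G η T)) :=
        (e1.add_odd hev).add_even (e2.add e3)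
      exact (Nat.not_even_iff_odd.mpr e5) hTe

end Pool.Agent.MP_d32e04
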