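import Mathlib
import Pool.Agent.Work.MP_d32e04_co.Defs

/-!
MP_d32e04_co, item 12: greedy tiling of a regular pair.
-/

set_option autoImplicit false

namespace Pool.Agent.MP_d32e04

open Finset

theorem pair (h : KSTExStmt) : PairStmt := by
  classical
  intro a b d ε ha hb hd hε
  obtain ⟨M0, hM0⟩ := h (max a b) d hd
  obtain ⟨m0, hm0⟩ := exists_nat_ge ((M0 : ℝ) / ε)
  refine ⟨m0, ?_⟩
  intro V _ G P Q t m hm
  have hM : (M0 : ℝ) ≤ ε * m := by
    rw [div_le_iff₀ hε] at hm0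
    have : (m0 : ℝ) ≤ m := by exact_mod_cast hm
    nlinarith
  have ha' : (1 : ℝ) ≤ a := by exact_mod_cast ha
  have hb' : (1 : ℝ) ≤ b := by exact_mod_cast hb
  have hεm : 0 ≤ ε * (m : ℝ) := by positivity
  -- the stopping case
  have hstop : ∀ (P Q : Finset V) (t : ℕ), P.card = a * t → Q.card = b * t →
      (t : ℝ) ≤ ε * m + 1 →
      ∃ 𝒯 : Finset (Finset V × Finset V),
      (∀ p ∈ 𝒯, p.1 ⊆ P ∧ p.2 ⊆ Q ∧ p.1.card = a ∧ p.2.card = b ∧ Cpl G p.1 p.2) ∧
      (∀ p ∈ 𝒯, ∀ p' ∈ 𝒯, p ≠ p' → Disjoint (p.1 ∪ p.2) (p'.1 ∪ p'.2)) ∧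
      ((((P ∪ Q) \ 𝒯.biUnion (fun p => p.1 ∪ p.2)).card : ℕ) : ℝ) ≤
        ((a : ℝ) + b) * (ε * m + 1) := by
    intro P Q t hP hQ ht
    refine ⟨∅, by simp, by simp, ?_⟩
    rw [biUnion_empty, sdiff_empty]
    have h1 : (P ∪ Q).card ≤ a * t + b * t := by
      rw [← hP, ← hQ]; exact card_union_le _ _
    have h2 : ((P ∪ Q).card : ℝ) ≤ (a : ℝ) * t + b * t := by exact_mod_cast h1
    have h3 : ((a : ℝ) + b) * t ≤ ((a : ℝ) + b) * (ε * m + 1) :=
      mul_le_mul_of_nonneg_left ht (by positivity)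
    linarith
  induction t generalizing P Q with
  | zero =>
    intro hP hQ _ _
    exact hstop P Q 0 hP hQ (by push_cast; linarith)
  | succ t ih =>
    intro hP hQ hdisj hreg
    by_cases hsmall : ((t + 1 : ℕ) : ℝ) ≤ ε * m + 1
    · exact hstop P Q (t + 1) hP hQ hsmall
    push Not at hsmall
    have hPc : ε * m ≤ (P.card : ℝ) := by
      rw [hP]
      push_cast
      push_cast at hsmall
      nlinarith [Nat.cast_nonneg (α := ℝ) t]
    have hQc : ε * m ≤ (Q.card : ℝ) := by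
      rw [hQ]
      push_cast
      push_cast at hsmall
      nlinarith [Nat.cast_nonneg (α := ℝ) t]
    obtain ⟨P1, Q1, hP1, hQ1, hP1c, hQ1c, hcpl⟩ := hM0 V G P Q
      (by exact_mod_cast hM.trans hPc) (by exact_mod_cast hM.trans hQc)
      (hreg P (Subset.refl _) Q (Subset.refl _) hPc hQc)
    obtain ⟨P', hP'1, hP'c⟩ := exists_subset_card_eq (s := P1) (n := a)
      (by rw [hP1c]; exact le_max_left _ _)
    obtain ⟨Q', hQ'1, hQ'c⟩ := exists_subset_card_eq (s := Q1) (n := b)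
      (by rw [hQ1c]; exact le_max_right _ _)
    have hP' : P' ⊆ P := hP'1.trans hP1
    have hQ' : Q' ⊆ Q := hQ'1.trans hQ1
    obtain ⟨𝒯, hT1, hT2, hT3⟩ := ih (P \ P') (Q \ Q')
      (by rw [card_sdiff_of_subset hP', hP, hP'c, Nat.mul_succ]; omega)
      (by rw [card_sdiff_of_subset hQ', hQ, hQ'c, Nat.mul_succ]; omega)
      (hdisj.mono sdiff_subset sdiff_subset)
      (fun X hX Y hY hXc hYc => hreg X (hX.trans sdiff_subset) Y (hY.trans sdiff_subset) hXc hYc)
    have hdis : ∀ p ∈ 𝒯, Disjoint (P' ∪ Q') (p.1 ∪ p.2) := by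
      intro p hp
      obtain ⟨h1, h2, -⟩ := hT1 p hp
      rw [disjoint_union_left, disjoint_union_right, disjoint_union_right]
      refine ⟨⟨?_, ?_⟩, ?_, ?_⟩
      · exact disjoint_sdiff.mono_right h1
      · exact hdisj.mono hP' (h2.trans sdiff_subset)
      · exact (hdisj.mono (h1.trans sdiff_subset) hQ').symm
      · exact disjoint_sdiff.mono_right h2
    refine ⟨insert (P', Q') 𝒯, ?_, ?_, ?_⟩
    · intro p hp
      rw [mem_insert] at hp
      rcases hp with rfl | hp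
      · exact ⟨hP', hQ', hP'c, hQ'c, fun x hx y hy => hcpl x (hP'1 hx) y (hQ'1 hy)⟩
      · obtain ⟨h1, h2, h3⟩ := hT1 p hp
        exact ⟨h1.trans sdiff_subset, h2.trans sdiff_subset, h3⟩
    · intro p hp p' hp' hne
      rw [mem_insert] at hp hp'
      rcases hp with rfl | hp
      · rcases hp' with rfl | hp'
        · exact (hne rfl).elim
        · exact hdis p' hp'
      · rcases hp' with rfl | hp'
        · exact (hdis p hp).symm
        · exact hT2 p hp p' hp' hne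
    · refine le_trans ?_ hT3
      have hsub : (P ∪ Q) \ (insert (P', Q') 𝒯).biUnion (fun p => p.1 ∪ p.2) ⊆
          ((P \ P') ∪ (Q \ Q')) \ 𝒯.biUnion (fun p => p.1 ∪ p.2) := by
        intro x hx
        rw [biUnion_insert, mem_sdiff, mem_union, mem_union, mem_union] at hx
        rw [mem_sdiff, mem_union, mem_sdiff, mem_sdiff]
        push Not at hx
        obtain ⟨hx1, hx2, hx3⟩ := hx
        exact ⟨hx1.imp (fun h => ⟨h, hx2.1⟩) (fun h => ⟨h, hx2.2⟩), hx3⟩
      exact_mod_cast card_le_card hsub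

end Pool.Agent.MP_d32e04
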