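import Pool.Agent.Work.MP_d32e04_co.Basic

/-!
MP_d32e04_co, item 21: the parameters of `H`.
-/

set_option autoImplicit false

namespace Pool.Agent.MP_d32e04

open Finset

variable {h : ℕ}

lemma aN_compl_par (H : SimpleGraph (Fin h)) (X : Finset (Fin h)) : aN H Xᶜ = bN H X := by
  unfold aN bN
  rw [compl_compl]

lemma bN_compl_par (H : SimpleGraph (Fin h)) (X : Finset (Fin h)) : bN H Xᶜ = aN H X := by
  unfold aN bN
  rw [compl_compl]

lemma one_le_bN (H : SimpleGraph (Fin h)) (hH : ∃ u v, H.Adj u v) (X : Finset (Fin h)) :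
    1 ≤ bN H X := by
  classical
  rcases X.eq_empty_or_nonempty with hX | hX
  · subst hX
    obtain ⟨u, v, huv⟩ := hH
    unfold bN eIn
    have : 0 < ((Finset.univ : Finset (Fin h × Fin h)).filter
      (fun p => p.1 < p.2 ∧ p.1 ∈ (∅ : Finset (Fin h))ᶜ ∧ p.2 ∈ (∅ : Finset (Fin h))ᶜ ∧
        H.Adj p.1 p.2)).card := by
      rw [Finset.card_pos]
      rcases lt_trichotomy u v with h1 | h1 | h1
      · exact ⟨(u, v), by simp [h1, huv]⟩
      · exact absurd huv (h1 ▸ H.loopless.irrefl u)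
      · exact ⟨(v, u), by simp [h1, huv.symm]⟩
    omega
  · have := hX.card_pos
    unfold bN
    omega

lemma one_le_aN (H : SimpleGraph (Fin h)) (hH : ∃ u v, H.Adj u v) (X : Finset (Fin h)) :
    1 ≤ aN H X := by
  rw [← bN_compl_par]
  exact one_le_bN H hH _

lemma fH_eq (H : SimpleGraph (Fin h)) (X : Finset (Fin h)) :
    fH H X = ((aN H X : ℝ) + bN H X) / bN H X := by
  unfold fH aN bN
  have h1 : X.card + Xᶜ.card = h := by
    rw [Finset.card_add_card_compl, Fintype.card_fin]
  have h2 : (X.card : ℝ) + (Xᶜ.card : ℝ) = h := by exact_mod_cast h1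
  push_cast
  rw [← h2]
  congr 1
  ring

lemma fH_lt_two_iff (H : SimpleGraph (Fin h)) (hH : ∃ u v, H.Adj u v) (X : Finset (Fin h)) :
    fH H X < 2 ↔ aN H X < bN H X := by
  have hb : (0 : ℝ) < bN H X := by exact_mod_cast one_le_bN H hH X
  rw [fH_eq, div_lt_iff₀ hb]
  constructor
  · intro h1
    have : (aN H X : ℝ) < bN H X := by linarith
    exact_mod_cast this
  · intro h1
    have : (aN H X : ℝ) < bN H X := by exact_mod_cast h1
    linarith

/-- the subgroup of all sums of nonempty lists -/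
def sumGroup (H : SimpleGraph (Fin h)) : AddSubgroup ℤ where
  carrier := {z | ∃ L : List (Finset (Fin h)), L ≠ [] ∧
    (L.map (fun X => (bN H X : ℤ) - aN H X)).sum = z}
  zero_mem' := by
    refine ⟨[∅, ∅ᶜ], by simp, ?_⟩
    simp only [List.map_cons, List.map_nil, List.sum_cons, List.sum_nil]
    rw [bN_compl_par, aN_compl_par]
    ring
  add_mem' := by
    rintro x y ⟨L, hL, rfl⟩ ⟨M, _, rfl⟩
    refine ⟨L ++ M, ?_, ?_⟩
    · intro h0
      exact hL (List.append_eq_nil_iff.mp h0).1
    · rw [List.map_append, List.sum_append]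
  neg_mem' := by
    rintro x ⟨L, hL, rfl⟩
    refine ⟨L.map compl, ?_, ?_⟩
    · intro h0
      exact hL (List.map_eq_nil_iff.mp h0)
    · clear hL
      induction L with
      | nil => simp
      | cons X L ih =>
        simp only [List.map_cons, List.sum_cons] at ih ⊢
        rw [ih, bN_compl_par, aN_compl_par]
        ring

theorem parH : ParStmt := by
  intro h H hH h0
  classical
  obtain ⟨X, hX⟩ : ∃ X, fH H X = xi H := exists_eq_ciInf_of_finite
  have hmin : ∀ Y, fH H X ≤ fH H Y := by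
    intro Y
    rw [hX]
    exact ciInf_le (Set.finite_range _).bddBelow Y
  -- some difference is positive
  have hY : ∃ Y, aN H Y < bN H Y := by
    by_contra hcon
    push Not at hcon
    apply h0
    unfold hcf
    rw [Finset.gcd_eq_zero_iff]
    intro Y _
    have h1 := hcon Y
    have h2 := hcon Yᶜ
    rw [aN_compl_par, bN_compl_par] at h2
    have h3 : aN H Y = bN H Y := le_antisymm h2 h1
    rw [h3]
    simp
  have hlt : aN H X < bN H X := by
    obtain ⟨Y, hY⟩ := hY
    exact (fH_lt_two_iff H hH X).mp (lt_of_le_of_lt (hmin Y) ((fH_lt_two_iff H hH Y).mpr hY))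
  have hdvd : ∀ Y, ((hcf H : ℕ) : ℤ) ∣ (bN H Y : ℤ) - aN H Y := by
    intro Y
    rw [Int.natCast_dvd]
    exact Finset.gcd_dvd (Finset.mem_univ Y)
  refine ⟨aN H X, bN H X, ⟨one_le_aN H hH X, hlt, hH, ⟨X, rfl, rfl⟩, Nat.pos_of_ne_zero h0,
    hdvd X, ?_⟩, ?_⟩
  · intro z hz
    obtain ⟨c, hc⟩ := Int.subgroup_cyclic (sumGroup H)
    rw [← AddSubgroup.zmultiples_eq_closure] at hc
    have h1 : c.natAbs ∣ hcf H := by
      apply Finset.dvd_gcd
      intro Y _
      rw [Int.natAbs_dvd_natAbs]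
      have h2 : (bN H Y : ℤ) - aN H Y ∈ sumGroup H := ⟨[Y], by simp, by simp⟩
      rw [hc, Int.mem_zmultiples_iff] at h2
      exact h2
    have h3 : z ∈ sumGroup H := by
      rw [hc, Int.mem_zmultiples_iff]
      exact dvd_trans (Int.natAbs_dvd.mp (Int.natCast_dvd_natCast.mpr h1)) hz
    exact h3
  · rw [← hX, fH_eq]
    have ha : (0 : ℝ) < aN H X := by exact_mod_cast one_le_aN H hH X
    have hb : (0 : ℝ) < bN H X := by exact_mod_cast one_le_bN H hH X
    field_simp
    ring

end Pool.Agent.MP_d32e04
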