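import Pool.Agent.Work.MP_d32e04_co.Basic

/-!
MP_d32e04_co, item 17: the parity tile.
-/

set_option autoImplicit false

namespace Pool.Agent.MP_d32e04

open Finset

section nflemmas

variable {V : Type} [Fintype V] [DecidableEq V]

lemma par_nf_union (G : SimpleGraph V) (η : ℝ) (S T : Finset V) (hd : Disjoint S T) :
    nf G η (S ∪ T) = nf G η S + nf G η T := by
  classical
  unfold nf
  rw [Finset.filter_union, Finset.card_union_of_disjoint]
  exact Finset.disjoint_filter_filter hd

omit [DecidableEq V] in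
lemma par_nf_free (G : SimpleGraph V) (η : ℝ) (S : Finset V) (hS : ∀ v ∈ S, Free G η v) :
    nf G η S = 0 := by
  classical
  unfold nf
  rw [Finset.card_eq_zero, Finset.filter_eq_empty_iff]
  intro v hv
  exact not_not.mpr (hS v hv)

omit [DecidableEq V] in
lemma par_nf_not (G : SimpleGraph V) (η : ℝ) (S : Finset V) (hS : ∀ v ∈ S, ¬ Free G η v) :
    nf G η S = S.card := by
  classical
  unfold nf
  rw [Finset.filter_true_of_mem hS]

end nflemmas

section counts

variable {V : Type}

lemma par_degIn_union [DecidableEq V] (G : SimpleGraph V) (v : V) (S T : Finset V)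
    (hd : Disjoint S T) : degIn G v (S ∪ T) = degIn G v S + degIn G v T := by
  classical
  unfold degIn
  rw [Finset.filter_union, Finset.card_union_of_disjoint]
  exact Finset.disjoint_filter_filter hd

/-- missing pairs only decrease in subsets -/
lemma par_e2_sub [DecidableEq V] (G : SimpleGraph V) {X S Y T : Finset V} (hX : X ⊆ S)
    (hY : Y ⊆ T) : X.card * Y.card + e2 G S T ≤ S.card * T.card + e2 G X Y := by
  classical
  have h1 : ((S ×ˢ T).filter (fun p => G.Adj p.1 p.2)).card +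
      ((S ×ˢ T).filter (fun p => ¬ G.Adj p.1 p.2)).card = S.card * T.card := by
    rw [Finset.card_filter_add_card_filter_not, Finset.card_product]
  have h2 : ((X ×ˢ Y).filter (fun p => G.Adj p.1 p.2)).card +
      ((X ×ˢ Y).filter (fun p => ¬ G.Adj p.1 p.2)).card = X.card * Y.card := by
    rw [Finset.card_filter_add_card_filter_not, Finset.card_product]
  have h3 : ((X ×ˢ Y).filter (fun p => ¬ G.Adj p.1 p.2)).card ≤
      ((S ×ˢ T).filter (fun p => ¬ G.Adj p.1 p.2)).card :=
    Finset.card_le_card (Finset.filter_subset_filter _ (Finset.product_subset_product hX hY))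
  unfold e2
  have e1 : ((S ×ˢ T).filter (fun p => G.Adj p.1 p.2)).card =
    ((S ×ˢ T).filter (fun p => G.Adj p.1 p.2)).card := rfl
  convert (show X.card * Y.card + ((S ×ˢ T).filter (fun p => G.Adj p.1 p.2)).card ≤
    S.card * T.card + ((X ×ˢ Y).filter (fun p => G.Adj p.1 p.2)).card by omega) using 2

/-- a lower bound for an edge count from a lower bound of the degrees -/
lemma par_e2_ge (G : SimpleGraph V) (S T : Finset V) (d : ℝ)
    (hd : ∀ v ∈ S, d ≤ degIn G v T) : S.card * d ≤ e2 G S T := by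
  rw [e2_eq_sum]
  push_cast
  calc (S.card : ℝ) * d = ∑ _v ∈ S, d := by rw [Finset.sum_const, nsmul_eq_mul]
    _ ≤ ∑ v ∈ S, (degIn G v T : ℝ) := Finset.sum_le_sum hd

/-- number of common neighbours -/
lemma par_common [DecidableEq V] (G : SimpleGraph V) (u w : V) (S : Finset V) :
    ∃ D ⊆ S, (∀ x ∈ D, G.Adj u x ∧ G.Adj w x) ∧
      degIn G u S + degIn G w S ≤ D.card + S.card := by
  classical
  refine ⟨(S.filter (fun x => G.Adj u x)) ∩ (S.filter (fun x => G.Adj w x)), ?_, ?_, ?_⟩
  · exact (Finset.inter_subset_left).trans (Finset.filter_subset _ _)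
  · intro x hx
    rw [Finset.mem_inter, Finset.mem_filter, Finset.mem_filter] at hx
    exact ⟨hx.1.2, hx.2.2⟩
  · have h1 := Finset.card_inter_add_card_union (S.filter (fun x => G.Adj u x))
      (S.filter (fun x => G.Adj w x))
    have h2 : ((S.filter (fun x => G.Adj u x)) ∪ (S.filter (fun x => G.Adj w x))).card ≤
        S.card := Finset.card_le_card (Finset.union_subset (Finset.filter_subset _ _)
          (Finset.filter_subset _ _))
    have e1 : degIn G u S = (S.filter (fun x => G.Adj u x)).card := by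
      unfold degIn; congr
    have e2 : degIn G w S = (S.filter (fun x => G.Adj w x)).card := by
      unfold degIn; congr
    omega

end counts

/-- two non-free vertices `w1`, `w2` with common neighbours in a complete pair of non-free
vertices, joined by a short path through free vertices -/
lemma par_tile (h1 : TileStmt) {h : ℕ} {H : SimpleGraph (Fin h)} {a b : ℕ} (hp : Par H a b 2)
    {V : Type} [Fintype V] [DecidableEq V] (G : SimpleGraph V) (η : ℝ) (P0 Q0 : Finset V)
    (w1 w2 : V) (R0 : List V)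
    (hPc : a + 1 ≤ P0.card) (hQc : b ≤ Q0.card) (hPQ : Cpl G P0 Q0)
    (hPn : ∀ v ∈ P0, ¬ Free G η v) (hQn : ∀ v ∈ Q0, ¬ Free G η v)
    (hw : w1 ≠ w2) (hw1 : ¬ Free G η w1) (hw2 : ¬ Free G η w2)
    (hq1 : ∀ q ∈ Q0, G.Adj w1 q) (hq2 : ∀ q ∈ Q0, G.Adj w2 q)
    (hR : R0.Nodup) (hRF : ∀ r ∈ R0, Free G η r) (hRl : R0.length ≤ 3)
    (hch : List.IsChain G.Adj (w1 :: (R0 ++ [w2]))) :
    ∃ T, Tiled H G T ∧ T.card ≤ a + b + 4 ∧ Odd (nf G η T) := by
  classical
  obtain ⟨X, hXa, hXb⟩ := hp.ex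
  have ha := hp.ha
  have hab := hp.hab
  have hc1 : a - 1 ≤ (P0 \ {w1, w2}).card := by
    have h3 := Finset.le_card_sdiff ({w1, w2} : Finset V) P0
    have h4 : ({w1, w2} : Finset V).card ≤ 2 := Finset.card_le_two
    omega
  obtain ⟨P'', hP'', hP''c⟩ := Finset.exists_subset_card_eq hc1
  obtain ⟨Q, hQ, hQc'⟩ := Finset.exists_subset_card_eq hQc
  have hw1P : w1 ∉ P'' := by
    intro hmem
    have := hP'' hmem
    simp at this
  have hw2P : w2 ∉ P'' := by
    intro hmem
    have := hP'' hmem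
    simp at this
  have hPP : P'' ⊆ P0 := hP''.trans Finset.sdiff_subset
  have hw1Q : w1 ∉ Q := fun hmem => G.loopless.irrefl _ (hq1 _ (hQ hmem))
  have hw2Q : w2 ∉ Q := fun hmem => G.loopless.irrefl _ (hq2 _ (hQ hmem))
  have hcpl : Cpl G (insert w1 P'') Q := by
    intro p hpm q hq
    rcases Finset.mem_insert.mp hpm with rfl | hpm
    · exact hq1 q (hQ hq)
    · exact hPQ p (hPP hpm) q (hQ hq)
  have hPcard : (insert w1 P'').card = a := by
    rw [Finset.card_insert_of_notMem hw1P, hP''c]; omega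
  have hQne : Q.Nonempty := by
    rw [← Finset.card_pos, hQc']; omega
  obtain ⟨y, hy⟩ := hQne
  have hRw : w2 ∉ R0 := fun hmem => hw2 (hRF _ hmem)
  have hdisjR : ∀ r ∈ R0, r ∉ insert w1 P'' ∧ r ∉ Q := by
    intro r hr
    have hrF := hRF r hr
    constructor
    · intro hmem
      rcases Finset.mem_insert.mp hmem with rfl | hmem
      · exact hw1 hrF
      · exact hPn _ (hPP hmem) hrF
    · intro hmem
      exact hQn _ (hQ hmem) hrF
  have key := h1 h H V G X 0 (insert w1 P'') Q w1 y (R0 ++ [w2]) hp.edge hcpl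
    (by rw [hPcard, hXa, Nat.add_zero]) (by rw [hQc', hXb, Nat.add_zero])
    (Finset.mem_insert_self _ _) hy
    (by
      rw [List.nodup_append]
      refine ⟨hR, List.nodup_singleton _, ?_⟩
      intro x hx z hz
      rw [List.mem_singleton] at hz
      subst hz
      exact fun hxz => hRw (hxz ▸ hx))
    (by
      intro r hr
      rw [List.mem_append, List.mem_singleton] at hr
      rcases hr with hr | rfl
      · exact hdisjR r hr
      · refine ⟨?_, hw2Q⟩
        intro hmem
        rcases Finset.mem_insert.mp hmem with h5 | h5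
        · exact hw h5.symm
        · exact hw2P h5)
    (by
      have e1 : w1 :: (R0 ++ [w2] ++ [y]) = (w1 :: (R0 ++ [w2])) ++ [y] := by simp
      rw [e1, List.isChain_append]
      refine ⟨hch, List.isChain_singleton _, ?_⟩
      intro x hx z hz
      have e2 : (w1 :: (R0 ++ [w2])).getLast? = some w2 := by
        have : w1 :: (R0 ++ [w2]) = (w1 :: R0) ++ [w2] := by simp
        rw [this, List.getLast?_append]
        simp
      rw [e2] at hx
      simp at hx hz
      subst hx
      subst hz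
      exact hq2 _ (hQ hy))
  refine ⟨insert w1 P'' ∪ Q ∪ (R0 ++ [w2]).toFinset, Tiled.of_tile key, ?_, ?_⟩
  · calc (insert w1 P'' ∪ Q ∪ (R0 ++ [w2]).toFinset).card
        ≤ (insert w1 P'' ∪ Q).card + ((R0 ++ [w2]).toFinset).card := Finset.card_union_le _ _
      _ ≤ ((insert w1 P'').card + Q.card) + (R0 ++ [w2]).length :=
          Nat.add_le_add (Finset.card_union_le _ _) (List.toFinset_card_le _)
      _ ≤ a + b + 4 := by
          rw [hPcard, hQc', List.length_append, List.length_singleton]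
          omega
  · have hd1 : Disjoint (insert w1 P'') Q := hcpl.disjoint
    have hd2 : Disjoint (insert w1 P'' ∪ Q) ((R0 ++ [w2]).toFinset) := by
      rw [Finset.disjoint_right]
      intro r hr hmem
      rw [List.mem_toFinset, List.mem_append, List.mem_singleton] at hr
      rw [Finset.mem_union] at hmem
      rcases hr with hr | rfl
      · rcases hmem with h5 | h5
        · exact (hdisjR r hr).1 h5
        · exact (hdisjR r hr).2 h5
      · rcases hmem with h5 | h5
        · rcases Finset.mem_insert.mp h5 with h6 | h6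
          · exact hw h6.symm
          · exact hw2P h6
        · exact hw2Q h5
    have e1 : (R0 ++ [w2]).toFinset = R0.toFinset ∪ {w2} := by
      rw [List.toFinset_append]
      simp
    have hd3 : Disjoint R0.toFinset {w2} := by
      rw [Finset.disjoint_singleton_right, List.mem_toFinset]
      exact hRw
    rw [par_nf_union _ _ _ _ hd2, par_nf_union _ _ _ _ hd1, e1, par_nf_union _ _ _ _ hd3,
      par_nf_not G η (insert w1 P''), par_nf_not G η Q, par_nf_free G η R0.toFinset,
      par_nf_not G η {w2}, hPcard, hQc', Finset.card_singleton]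
    · have h7 := hp.gdvd
      have h8 : Even (a + b) := by
        obtain ⟨k, hk⟩ := h7
        push_cast at hk
        rw [Nat.even_iff]
        omega
      have : a + b + (0 + 1) = (a + b) + 1 := by ring
      rw [this]
      exact h8.add_one
    · intro v hv
      rw [Finset.mem_singleton] at hv
      rw [hv]; exact hw2
    · intro v hv
      rw [List.mem_toFinset] at hv
      exact hRF v hv
    · intro v hv
      exact hQn v (hQ hv)
    · intro v hv
      rcases Finset.mem_insert.mp hv with h5 | h5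
      · rw [h5]; exact hw1
      · exact hPn v (hPP h5)

/-- a vertex `u` of one kind with linearly many neighbours of the other kind -/
lemma par_case12 (h2 : TbTiledStmt) (h7 : KSTExStmt) {h : ℕ} {H : SimpleGraph (Fin h)}
    (hedge : ∃ u v, H.Adj u v) (s : ℕ) (hs : Odd s) (hTb : Tb H s s) :
    ∃ n0 : ℕ, ∀ (V : Type) [Fintype V] [DecidableEq V] (G : SimpleGraph V) (p : V → Prop)
      [DecidablePred p] (u : V), n0 ≤ Fintype.card V →
      (∀ v, 1 / 3 * (Fintype.card V : ℝ) ≤ degIn G v Finset.univ) → ¬ p u →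
      1 / 1000 * (Fintype.card V : ℝ) ≤ degIn G u (Finset.univ.filter p) →
      ∃ T, Tiled H G T ∧ T.card = 2 * s ∧ Odd (T.filter p).card := by
  classical
  obtain ⟨m0, hm0⟩ := h7 s (1 / 6) (by norm_num)
  refine ⟨1000 * m0 + 1, ?_⟩
  intro V _ _ G p _ u hn hdeg hpu hdu
  set n : ℝ := (Fintype.card V : ℝ) with hndef
  have hn' : (1000 : ℝ) * m0 + 1 ≤ n := by
    rw [hndef]; exact_mod_cast hn
  have hm0' : (0 : ℝ) ≤ m0 := Nat.cast_nonneg _
  have hnpos : 0 < n := by linarith
  set Q0 : Finset V := (Finset.univ.filter p).filter (fun w => G.Adj u w) with hQ0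
  have hQ0c : degIn G u (Finset.univ.filter p) = Q0.card := by
    unfold degIn
    congr
  have hQ0p : ∀ q ∈ Q0, p q ∧ G.Adj u q := by
    intro q hq
    rw [hQ0, Finset.mem_filter, Finset.mem_filter] at hq
    exact ⟨hq.1.2, hq.2⟩
  have hQ0n : 1 / 1000 * n ≤ Q0.card := by rw [← hQ0c]; exact hdu
  have hQ0m : m0 ≤ Q0.card := by
    have : (m0 : ℝ) ≤ Q0.card := by linarith
    exact_mod_cast this
  have hQ0pos : (0 : ℝ) < Q0.card := by
    have : 0 < 1 / 1000 * n := by positivity
    linarith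
  have htot : (Q0.card : ℝ) * (1 / 3 * n) ≤ e2 G Q0 Finset.univ :=
    par_e2_ge G Q0 Finset.univ _ (fun v _ => hdeg v)
  have hsplit : (Finset.univ : Finset V) = Finset.univ.filter p ∪
      Finset.univ.filter (fun v => ¬ p v) := by
    rw [Finset.filter_union_filter_not_eq]
  have hle : e2 G Q0 Finset.univ ≤ e2 G Q0 (Finset.univ.filter p) +
      e2 G Q0 (Finset.univ.filter (fun v => ¬ p v)) := by
    conv_lhs => rw [hsplit]
    exact e2_union_right_le G _ _ _
  have hle' : (e2 G Q0 Finset.univ : ℝ) ≤ e2 G Q0 (Finset.univ.filter p) +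
      e2 G Q0 (Finset.univ.filter (fun v => ¬ p v)) := by exact_mod_cast hle
  -- consequence for one of the classes
  have hone : ∀ A : Finset V, (Q0.card : ℝ) * (1 / 6 * n) ≤ e2 G Q0 A →
      ∃ P' Q', P' ⊆ A ∧ Q' ⊆ Q0 ∧ P'.card = s ∧ Q'.card = s ∧ Cpl G P' Q' := by
    intro A hA
    have hAle : (e2 G Q0 A : ℝ) ≤ Q0.card * A.card := by exact_mod_cast e2_le G Q0 A
    have hAc : 1 / 6 * n ≤ A.card := by
      have h5 : (Q0.card : ℝ) * (1 / 6 * n) ≤ Q0.card * A.card := hA.trans hAle
      exact le_of_mul_le_mul_left h5 hQ0pos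
    have hAm : m0 ≤ A.card := by
      have : (m0 : ℝ) ≤ A.card := by linarith
      exact_mod_cast this
    have hAn : (A.card : ℝ) ≤ n := by
      rw [hndef]; exact_mod_cast Finset.card_le_univ A
    apply hm0 V G A Q0 hAm hQ0m
    rw [e2_comm]
    refine le_trans ?_ hA
    nlinarith
  have hcases : (Q0.card : ℝ) * (1 / 6 * n) ≤ e2 G Q0 (Finset.univ.filter p) ∨
      (Q0.card : ℝ) * (1 / 6 * n) ≤ e2 G Q0 (Finset.univ.filter (fun v => ¬ p v)) := by
    by_contra hcon
    push Not at hcon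
    nlinarith [hcon.1, hcon.2]
  rcases hcases with hc | hc
  · obtain ⟨P', Q', hP', hQ', hP'c, hQ'c, hcpl⟩ := hone _ hc
    have hP'p : ∀ x ∈ P', p x := fun x hx => (Finset.mem_filter.mp (hP' hx)).2
    have hs1 : 1 ≤ s := hs.pos
    obtain ⟨P, hP, hPc⟩ := Finset.exists_subset_card_eq (show s - 1 ≤ P'.card by omega)
    have huP : u ∉ P := fun hmem => hpu (hP'p u (hP hmem))
    have hcpl2 : Cpl G (insert u P) Q' := by
      intro x hx q hq
      rcases Finset.mem_insert.mp hx with rfl | hx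
      · exact (hQ0p q (hQ' hq)).2
      · exact hcpl x (hP hx) q hq
    have hc2 : (insert u P).card = s := by
      rw [Finset.card_insert_of_notMem huP, hPc]; omega
    refine ⟨insert u P ∪ Q', ?_, ?_, ?_⟩
    · apply h2 h H V G _ _ hedge hcpl2
      rw [hc2, hQ'c]; exact hTb
    · rw [Finset.card_union_of_disjoint hcpl2.disjoint, hc2, hQ'c]; ring
    · have h8 : (insert u P ∪ Q').filter p = P ∪ Q' := by
        rw [Finset.filter_union, Finset.filter_insert, if_neg hpu,
          Finset.filter_true_of_mem (fun x hx => hP'p x (hP hx)),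
          Finset.filter_true_of_mem (fun x hx => (hQ0p x (hQ' hx)).1)]
      rw [h8, Finset.card_union_of_disjoint
        (Disjoint.mono_left (Finset.subset_insert _ _) hcpl2.disjoint), hPc, hQ'c]
      rw [Nat.odd_iff] at hs ⊢
      omega
  · obtain ⟨P', Q', hP', hQ', hP'c, hQ'c, hcpl⟩ := hone _ hc
    have hP'p : ∀ x ∈ P', ¬ p x := fun x hx => (Finset.mem_filter.mp (hP' hx)).2
    refine ⟨P' ∪ Q', ?_, ?_, ?_⟩
    · apply h2 h H V G _ _ hedge hcpl
      rw [hP'c, hQ'c]; exact hTb
    · rw [Finset.card_union_of_disjoint hcpl.disjoint, hP'c, hQ'c]; ring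
    · have h8 : (P' ∪ Q').filter p = Q' := by
        rw [Finset.filter_union, Finset.filter_false_of_mem hP'p,
          Finset.filter_true_of_mem (fun x hx => (hQ0p x (hQ' hx)).1), Finset.empty_union]
      rw [h8, hQ'c]; exact hs

/-- two non-free vertices of the same type -/
lemma par_same (h1 : TileStmt) (h7 : KSTExStmt) {h : ℕ} {H : SimpleGraph (Fin h)} {a b : ℕ}
    (hp : Par H a b 2) :
    ∃ n0 : ℕ, ∀ (V : Type) [Fintype V] [DecidableEq V] (G : SimpleGraph V) (η : ℝ)
      (S1 S2 : Finset V) (w1 w2 : V) (R0 : List V), n0 ≤ Fintype.card V →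
      (∀ v ∈ S1, ¬ Free G η v) → (∀ v ∈ S2, ¬ Free G η v) →
      (S1.card : ℝ) ≤ 0.34 * (Fintype.card V : ℝ) → 0.33 * (Fintype.card V : ℝ) ≤ S2.card →
      (S1.card : ℝ) * S2.card ≤ e2 G S1 S2 + 0.002 * (Fintype.card V : ℝ) ^ 2 →
      0.27 * (Fintype.card V : ℝ) ≤ degIn G w1 S1 →
      0.27 * (Fintype.card V : ℝ) ≤ degIn G w2 S1 →
      w1 ≠ w2 → ¬ Free G η w1 → ¬ Free G η w2 →
      R0.Nodup → (∀ r ∈ R0, Free G η r) → R0.length ≤ 3 →
      List.IsChain G.Adj (w1 :: (R0 ++ [w2])) →
      ∃ T, Tiled H G T ∧ T.card ≤ a + b + 4 ∧ Odd (nf G η T) := by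
  classical
  obtain ⟨m0, hm0⟩ := h7 (a + b + 2) (1 / 2) (by norm_num)
  refine ⟨10 * m0 + 1, ?_⟩
  intro V _ _ G η S1 S2 w1 w2 R0 hn hS1 hS2 hS1c hS2c hmiss hd1 hd2 hw hw1 hw2 hR hRF hRl hch
  set n : ℝ := (Fintype.card V : ℝ) with hndef
  have hn' : (10 : ℝ) * m0 + 1 ≤ n := by
    rw [hndef]; exact_mod_cast hn
  have hm0' : (0 : ℝ) ≤ m0 := Nat.cast_nonneg _
  have hnpos : 0 < n := by linarith
  obtain ⟨D, hDS, hDadj, hDc⟩ := par_common G w1 w2 S1
  have hDc' : (degIn G w1 S1 : ℝ) + degIn G w2 S1 ≤ D.card + S1.card := by exact_mod_cast hDc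
  have hD2 : 0.2 * n ≤ D.card := by linarith
  have hDm : m0 ≤ D.card := by
    have : (m0 : ℝ) ≤ D.card := by linarith
    exact_mod_cast this
  have hS2m : m0 ≤ S2.card := by
    have : (m0 : ℝ) ≤ S2.card := by linarith
    exact_mod_cast this
  have hsub := par_e2_sub G hDS (Finset.Subset.refl S2)
  have hsub' : (D.card : ℝ) * S2.card + e2 G S1 S2 ≤ S1.card * S2.card + e2 G D S2 := by
    exact_mod_cast hsub
  have hprod : 0.066 * n ^ 2 ≤ (D.card : ℝ) * S2.card := by
    have h5 : 0.2 * n * (0.33 * n) ≤ (D.card : ℝ) * S2.card :=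
      mul_le_mul hD2 hS2c (by positivity) (Nat.cast_nonneg _)
    calc 0.066 * n ^ 2 = 0.2 * n * (0.33 * n) := by ring
      _ ≤ _ := h5
  have hn2 : 0 ≤ n ^ 2 := by positivity
  obtain ⟨P, Q, hP, hQ, hPc, hQc, hcpl⟩ := hm0 V G S2 D hS2m hDm (by
    rw [e2_comm]
    have e1 : 1 / 2 * (S2.card : ℝ) * D.card = 1 / 2 * ((D.card : ℝ) * S2.card) := by ring
    rw [e1]
    linarith)
  exact par_tile h1 hp G η P Q w1 w2 R0 (by omega) (by omega) hcpl
    (fun v hv => hS2 v (hP hv)) (fun v hv => hS1 v (hDS (hQ hv))) hw hw1 hw2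
    (fun q hq => (hDadj q (hQ hq)).1) (fun q hq => (hDadj q (hQ hq)).2) hR hRF hRl hch

lemma par_nbr {V : Type} (G : SimpleGraph V) (v : V) (S E : Finset V)
    (hc : E.card < degIn G v S) : ∃ w ∈ S, G.Adj v w ∧ w ∉ E := by
  classical
  have h0 : degIn G v S = (S.filter (fun x => G.Adj v x)).card := by
    unfold degIn; congr
  rw [h0] at hc
  obtain ⟨w, hw, hwE⟩ := Finset.exists_mem_notMem_of_card_lt_card hc
  rw [Finset.mem_filter] at hw
  exact ⟨w, hw.1, hw.2, hwE⟩

/-- few edges between free and non-free vertices -/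
lemma par_case3 (h1 : TileStmt) (h7 : KSTExStmt) {h : ℕ} {H : SimpleGraph (Fin h)} {a b : ℕ}
    (hp : Par H a b 2) :
    ∃ n0 : ℕ, ∀ (V : Type) [Fintype V] [DecidableEq V] (G : SimpleGraph V) (η : ℝ)
      (N F : Finset V), n0 ≤ Fintype.card V → η ≤ 1 / 1000000 →
      (∀ v, v ∈ N ↔ ¬ Free G η v) → (∀ v, v ∈ F ↔ Free G η v) →
      (∀ v, 1 / 3 * (Fintype.card V : ℝ) + 4 ≤ degIn G v Finset.univ) →
      (∀ v ∈ N, (degIn G v F : ℝ) < 1 / 1000 * (Fintype.card V : ℝ)) →
      (∀ v ∈ F, (degIn G v N : ℝ) < 1 / 1000 * (Fintype.card V : ℝ)) →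
      N.Nonempty → F.Nonempty →
      ∃ T, Tiled H G T ∧ T.card ≤ a + b + 4 ∧ Odd (nf G η T) := by
  classical
  obtain ⟨n1, hn1⟩ := par_same h1 h7 hp
  refine ⟨n1 + 1000, ?_⟩
  intro V _ _ G η N F hn hη hN hF hdeg hNd hFd hNne hFne
  have hnn1 : n1 ≤ Fintype.card V := by omega
  set n : ℝ := (Fintype.card V : ℝ) with hndef
  have hn' : (1000 : ℝ) ≤ n := by
    have : 1000 ≤ Fintype.card V := by omega
    rw [hndef]; exact_mod_cast this
  have hnpos : 0 < n := by linarith
  have hn2 : 0 < n ^ 2 := by positivity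
  have hunion : (Finset.univ : Finset V) = N ∪ F := by
    ext v
    simp only [Finset.mem_univ, Finset.mem_union, hN, hF, true_iff]
    exact (em _).symm
  have hdisj : Disjoint N F := by
    rw [Finset.disjoint_left]
    intro v hv hv'
    exact ((hN v).mp hv) ((hF v).mp hv')
  have hcardNF : (N.card : ℝ) + F.card = n := by
    rw [hndef, ← Finset.card_univ, hunion, Finset.card_union_of_disjoint hdisj]
    push_cast; ring
  have hsplit : ∀ v, (degIn G v Finset.univ : ℝ) = degIn G v N + degIn G v F := by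
    intro v
    have := par_degIn_union G v N F hdisj
    rw [← hunion] at this
    exact_mod_cast this
  have hNN : ∀ v ∈ N, 0.3323 * n ≤ degIn G v N := by
    intro v hv
    have e1 := hsplit v
    have e2 := hdeg v
    have e3 := hNd v hv
    linarith
  have hFF : ∀ v ∈ F, 0.3323 * n ≤ degIn G v F := by
    intro v hv
    have e1 := hsplit v
    have e2 := hdeg v
    have e3 := hFd v hv
    linarith
  obtain ⟨u0, hu0⟩ := hNne
  set P0 : Finset V := N.filter (fun x => G.Adj u0 x) with hP0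
  set Q0 : Finset V := N.filter (fun x => ¬ G.Adj u0 x) with hQ0
  have hPQdisj : Disjoint P0 Q0 := Finset.disjoint_filter_filter_not _ _ _
  have hPQN : P0 ∪ Q0 = N := by rw [hP0, hQ0, Finset.filter_union_filter_not_eq]
  have hP0N : P0 ⊆ N := Finset.filter_subset _ _
  have hQ0N : Q0 ⊆ N := Finset.filter_subset _ _
  have hPQc : (P0.card : ℝ) + Q0.card = N.card := by
    rw [← hPQN, Finset.card_union_of_disjoint hPQdisj]; push_cast; ring
  have hP0c : 0.3323 * n ≤ P0.card := by
    have e1 := hNN u0 hu0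
    have e2 : degIn G u0 N = P0.card := by
      unfold degIn; congr
    rw [e2] at e1; exact e1
  -- the graph inside a neighbourhood of a non-free vertex
  have hsparse : ∀ w ∈ N, ∀ S T : Finset V, (∀ x ∈ S, G.Adj w x) → (∀ x ∈ T, G.Adj w x) →
      (e2 G S T : ℝ) < 0.000001 * n ^ 2 := by
    intro w hw S T hS hT
    have e1 : e2 G S T ≤ e2 G (nb G w) (nb G w) :=
      e2_mono G (fun x hx => (mem_nb G w x).mpr (hS x hx))
        (fun x hx => (mem_nb G w x).mpr (hT x hx))
    have e2' : (e2 G S T : ℝ) ≤ e2 G (nb G w) (nb G w) := by exact_mod_cast e1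
    have e3 := (hN w).mp hw
    unfold Free at e3
    push Not at e3
    have e4 : η * n ^ 2 ≤ 1 / 1000000 * n ^ 2 := mul_le_mul_of_nonneg_right hη hn2.le
    rw [← hndef] at e3
    linarith
  have hP0e : (e2 G P0 P0 : ℝ) < 0.000001 * n ^ 2 :=
    hsparse u0 hu0 P0 P0 (fun x hx => (Finset.mem_filter.mp hx).2)
      (fun x hx => (Finset.mem_filter.mp hx).2)
  have hdPQ : ∀ v, (degIn G v N : ℝ) = degIn G v P0 + degIn G v Q0 := by
    intro v
    have := par_degIn_union G v P0 Q0 hPQdisj
    rw [hPQN] at this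
    exact_mod_cast this
  have hQ0c : 0.3322 * n ≤ Q0.card := by
    have hex : ∃ x ∈ P0, (degIn G x P0 : ℝ) < 0.000004 * n := by
      by_contra hcon
      push Not at hcon
      have e1 := par_e2_ge G P0 P0 (0.000004 * n) hcon
      nlinarith
    obtain ⟨x, hx, hxd⟩ := hex
    have e1 := hNN x (hP0N hx)
    have e2 := hdPQ x
    have e3 : (degIn G x Q0 : ℝ) ≤ Q0.card := by exact_mod_cast degIn_le G x Q0
    linarith
  have hFc : 0.3323 * n ≤ F.card := by
    obtain ⟨v, hv⟩ := hFne
    have e1 := hFF v hv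
    have e3 : (degIn G v F : ℝ) ≤ F.card := by exact_mod_cast degIn_le G v F
    linarith
  have hP0u : (P0.card : ℝ) ≤ 0.3355 * n := by linarith
  have hQ0u : (Q0.card : ℝ) ≤ 0.3354 * n := by linarith
  have hFu : (F.card : ℝ) ≤ 0.3355 * n := by linarith
  have hmiss : (P0.card : ℝ) * Q0.card ≤ e2 G P0 Q0 + 0.002 * n ^ 2 := by
    have e1 : (P0.card : ℝ) * (0.3323 * n) ≤ e2 G P0 N :=
      par_e2_ge G P0 N _ (fun v hv => hNN v (hP0N hv))
    have e2 : (e2 G P0 N : ℝ) ≤ e2 G P0 P0 + e2 G P0 Q0 := by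
      have := e2_union_right_le G P0 P0 Q0
      rw [hPQN] at this
      exact_mod_cast this
    have e3 : (P0.card : ℝ) * Q0.card ≤ P0.card * (0.3354 * n) :=
      mul_le_mul_of_nonneg_left hQ0u (Nat.cast_nonneg _)
    have e4 : (P0.card : ℝ) * (0.0031 * n) ≤ 0.3355 * n * (0.0031 * n) :=
      mul_le_mul_of_nonneg_right hP0u (by positivity)
    nlinarith
  have hmiss' : (Q0.card : ℝ) * P0.card ≤ e2 G Q0 P0 + 0.002 * n ^ 2 := by
    rw [e2_comm G Q0 P0, mul_comm]; exact hmiss
  -- types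
  have htype : ∀ w ∈ N, 0.27 * n ≤ degIn G w P0 ∨ 0.27 * n ≤ degIn G w Q0 := by
    intro w hw
    by_contra hcon
    push Not at hcon
    obtain ⟨c1, c2⟩ := hcon
    have e1 := hNN w hw
    have e2 := hdPQ w
    have e3 : degIn G w P0 = (P0.filter (fun x => G.Adj w x)).card := by
      unfold degIn; congr
    have e4 : degIn G w Q0 = (Q0.filter (fun x => G.Adj w x)).card := by
      unfold degIn; congr
    have e5 := hsparse w hw (P0.filter (fun x => G.Adj w x)) (Q0.filter (fun x => G.Adj w x))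
      (fun x hx => (Finset.mem_filter.mp hx).2) (fun x hx => (Finset.mem_filter.mp hx).2)
    have e6 := par_e2_sub G (Finset.filter_subset (fun x => G.Adj w x) P0)
      (Finset.filter_subset (fun x => G.Adj w x) Q0)
    rw [← e3, ← e4] at e6
    have e7 : (degIn G w P0 : ℝ) * degIn G w Q0 + Pool.Agent.MP_d32e04.e2 G P0 Q0 ≤
        P0.card * Q0.card + Pool.Agent.MP_d32e04.e2 G (P0.filter (fun x => G.Adj w x))
          (Q0.filter (fun x => G.Adj w x)) := by
      exact_mod_cast e6
    have e8 : (degIn G w P0 : ℝ) * degIn G w Q0 < 0.0021 * n ^ 2 := by linarith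
    have e9 : 0.0623 * n < degIn G w P0 := by linarith
    have e10 : 0 < ((degIn G w P0 : ℝ) - 0.0623 * n) * (0.27 * n - degIn G w P0) := by
      apply mul_pos <;> linarith
    have e11 : (degIn G w P0 : ℝ) * (0.3323 * n - degIn G w P0) ≤
        degIn G w P0 * degIn G w Q0 :=
      mul_le_mul_of_nonneg_left (by linarith) (Nat.cast_nonneg _)
    nlinarith
  set A : Finset V := N.filter (fun w => 0.27 * n ≤ degIn G w P0) with hA
  set B : Finset V := N.filter (fun w => ¬ 0.27 * n ≤ degIn G w P0) with hB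
  have hABN : A ∪ B = N := by rw [hA, hB, Finset.filter_union_filter_not_eq]
  have hABc : (A.card : ℝ) + B.card = N.card := by
    rw [← hABN, Finset.card_union_of_disjoint (Finset.disjoint_filter_filter_not _ _ _)]
    push_cast; ring
  have hAN : A ⊆ N := Finset.filter_subset _ _
  have hBN : B ⊆ N := Finset.filter_subset _ _
  have hAd : ∀ w ∈ A, 0.27 * n ≤ degIn G w P0 := fun w hw => (Finset.mem_filter.mp hw).2
  have hBd : ∀ w ∈ B, 0.27 * n ≤ degIn G w Q0 := fun w hw =>
    (htype w (hBN hw)).resolve_left (Finset.mem_filter.mp hw).2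
  have hNf : ∀ v ∈ N, ¬ Free G η v := fun v hv => (hN v).mp hv
  have goodA : ∀ w1 ∈ A, ∀ w2 ∈ A, w1 ≠ w2 → ∀ R0 : List V, R0.Nodup → (∀ r ∈ R0, Free G η r) →
      R0.length ≤ 3 → List.IsChain G.Adj (w1 :: (R0 ++ [w2])) →
      ∃ T, Tiled H G T ∧ T.card ≤ a + b + 4 ∧ Odd (nf G η T) := by
    intro w1 hw1 w2 hw2 hne R0 k1 k2 k3 k4
    exact hn1 V G η P0 Q0 w1 w2 R0 hnn1 (fun v hv => hNf v (hP0N hv))
      (fun v hv => hNf v (hQ0N hv)) (by rw [← hndef]; linarith) (by rw [← hndef]; linarith)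
      hmiss (hAd w1 hw1) (hAd w2 hw2) hne (hNf _ (hAN hw1)) (hNf _ (hAN hw2)) k1 k2 k3 k4
  have goodB : ∀ w1 ∈ B, ∀ w2 ∈ B, w1 ≠ w2 → ∀ R0 : List V, R0.Nodup → (∀ r ∈ R0, Free G η r) →
      R0.length ≤ 3 → List.IsChain G.Adj (w1 :: (R0 ++ [w2])) →
      ∃ T, Tiled H G T ∧ T.card ≤ a + b + 4 ∧ Odd (nf G η T) := by
    intro w1 hw1 w2 hw2 hne R0 k1 k2 k3 k4
    exact hn1 V G η Q0 P0 w1 w2 R0 hnn1 (fun v hv => hNf v (hQ0N hv))
      (fun v hv => hNf v (hP0N hv)) (by rw [← hndef]; linarith) (by rw [← hndef]; linarith)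
      hmiss' (hBd w1 hw1) (hBd w2 hw2) hne (hNf _ (hBN hw1)) (hNf _ (hBN hw2)) k1 k2 k3 k4
  have hcom : ∀ v1 ∈ F, ∀ v2 ∈ F, ∃ r ∈ F, G.Adj v1 r ∧ G.Adj v2 r := by
    intro v1 hv1 v2 hv2
    obtain ⟨D, hDF, hDa, hDc⟩ := par_common G v1 v2 F
    have e1 := hFF v1 hv1
    have e2 := hFF v2 hv2
    have e3 : (degIn G v1 F : ℝ) + degIn G v2 F ≤ D.card + F.card := by exact_mod_cast hDc
    have e4 : (0 : ℝ) < D.card := by linarith
    have e5 : 0 < D.card := by exact_mod_cast e4
    obtain ⟨r, hr⟩ := Finset.card_pos.mp e5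
    exact ⟨r, hDF hr, hDa r hr⟩
  -- a path through three free vertices
  have hpath : ∀ Y : Finset V, (∀ w1 ∈ Y, ∀ w2 ∈ Y, w1 ≠ w2 → ∀ R0 : List V, R0.Nodup →
      (∀ r ∈ R0, Free G η r) → R0.length ≤ 3 → List.IsChain G.Adj (w1 :: (R0 ++ [w2])) →
      ∃ T, Tiled H G T ∧ T.card ≤ a + b + 4 ∧ Odd (nf G η T)) →
      ∀ w1 ∈ Y, ∀ w2 ∈ Y, w1 ≠ w2 → ∀ v1 ∈ F, ∀ v2 ∈ F, v1 ≠ v2 → G.Adj w1 v1 → G.Adj w2 v2 →
      ∃ T, Tiled H G T ∧ T.card ≤ a + b + 4 ∧ Odd (nf G η T) := by
    intro Y hY w1 hw1 w2 hw2 hne v1 hv1 v2 hv2 hvne ha1 ha2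
    obtain ⟨r, hrF, hr1, hr2⟩ := hcom v1 hv1 v2 hv2
    apply hY w1 hw1 w2 hw2 hne [v1, r, v2]
    · simp only [List.nodup_cons, List.mem_cons, List.not_mem_nil, or_false, not_or,
        not_false_eq_true, List.nodup_nil, and_true]
      exact ⟨⟨hr1.ne, hvne⟩, hr2.ne.symm⟩
    · intro x hx
      simp only [List.mem_cons, List.not_mem_nil, or_false] at hx
      rcases hx with rfl | rfl | rfl
      · exact (hF _).mp hv1
      · exact (hF _).mp hrF
      · exact (hF _).mp hv2
    · simp
    · simp only [List.cons_append, List.nil_append, List.isChain_cons_cons,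
        List.isChain_singleton, and_true]
      exact ⟨ha1, hr1, hr2.symm, ha2.symm⟩
  by_cases hFn : (F.card : ℝ) ≤ 1 / 3 * n
  · -- three disjoint edges between free and non-free vertices
    have hvN : ∀ v, 4 ≤ degIn G v N := by
      intro v
      have e1 := hsplit v
      have e2 := hdeg v
      have e3 : (degIn G v F : ℝ) ≤ F.card := by exact_mod_cast degIn_le G v F
      have e4 : (4 : ℝ) ≤ degIn G v N := by linarith
      exact_mod_cast e4
    have hF3 : 2 < F.card := by
      have : (2 : ℝ) < F.card := by linarith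
      exact_mod_cast this
    obtain ⟨v1, v2, v3, hv1, hv2, hv3, h12, h13, h23⟩ := Finset.two_lt_card_iff.mp hF3
    obtain ⟨w1, hw1, ha1, -⟩ := par_nbr G v1 N ∅ (by
      have := hvN v1
      rw [Finset.card_empty]; omega)
    obtain ⟨w2, hw2, ha2, hne2⟩ := par_nbr G v2 N {w1} (by
      have := hvN v2
      rw [Finset.card_singleton]; omega)
    obtain ⟨w3, hw3, ha3, hne3⟩ := par_nbr G v3 N {w1, w2} (by
      have := hvN v3
      have h9 : ({w1, w2} : Finset V).card ≤ 2 := Finset.card_le_two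
      omega)
    rw [Finset.mem_singleton] at hne2
    rw [Finset.mem_insert, Finset.mem_singleton] at hne3
    push Not at hne3
    rw [← hABN, Finset.mem_union] at hw1 hw2 hw3
    have hn12 : w1 ≠ w2 := fun he => hne2 he.symm
    have hn13 : w1 ≠ w3 := fun he => hne3.1 he.symm
    have hn23 : w2 ≠ w3 := fun he => hne3.2 he.symm
    rcases hw1 with k1 | k1 <;> rcases hw2 with k2 | k2
    · exact hpath A goodA w1 k1 w2 k2 hn12 v1 hv1 v2 hv2 h12 ha1.symm ha2.symm
    · rcases hw3 with k3 | k3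
      · exact hpath A goodA w1 k1 w3 k3 hn13 v1 hv1 v3 hv3 h13 ha1.symm ha3.symm
      · exact hpath B goodB w2 k2 w3 k3 hn23 v2 hv2 v3 hv3 h23 ha2.symm ha3.symm
    · rcases hw3 with k3 | k3
      · exact hpath A goodA w2 k2 w3 k3 hn23 v2 hv2 v3 hv3 h23 ha2.symm ha3.symm
      · exact hpath B goodB w1 k1 w3 k3 hn13 v1 hv1 v3 hv3 h13 ha1.symm ha3.symm
    · exact hpath B goodB w1 k1 w2 k2 hn12 v1 hv1 v2 hv2 h12 ha1.symm ha2.symm
  · push Not at hFn
    -- one of the two classes is small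
    have hmain : ∀ X Y : Finset V, X ∪ Y = N → (X.card : ℝ) < 1 / 3 * n →
        (X.card : ℝ) + Y.card = N.card →
        (∀ w1 ∈ Y, ∀ w2 ∈ Y, w1 ≠ w2 → ∀ R0 : List V, R0.Nodup →
        (∀ r ∈ R0, Free G η r) → R0.length ≤ 3 → List.IsChain G.Adj (w1 :: (R0 ++ [w2])) →
        ∃ T, Tiled H G T ∧ T.card ≤ a + b + 4 ∧ Odd (nf G η T)) →
        ∃ T, Tiled H G T ∧ T.card ≤ a + b + 4 ∧ Odd (nf G η T) := by
      intro X Y hXY hX hXYc hY
      by_cases hadj : ∃ w ∈ Y, ∃ w' ∈ Y, G.Adj w w'
      · obtain ⟨w, hw, w', hw', ha⟩ := hadj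
        apply hY w hw w' hw' ha.ne []
        · simp
        · simp
        · simp
        · simp only [List.nil_append, List.isChain_cons_cons, List.isChain_singleton, and_true]
          exact ha
      · push Not at hadj
        have hYF : ∀ w ∈ Y, 4 ≤ degIn G w F := by
          intro w hw
          have e1 := hsplit w
          have e2 := hdeg w
          have e3 : degIn G w N ≤ degIn G w X + degIn G w Y := by
            rw [← hXY]; exact degIn_union_le G w X Y
          have e4 : degIn G w Y = 0 := by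
            unfold degIn
            rw [Finset.card_eq_zero, Finset.filter_eq_empty_iff]
            intro x hx
            exact hadj w hw x hx
          have e5 : degIn G w X ≤ X.card := degIn_le G w X
          have e6 : (degIn G w N : ℝ) ≤ X.card := by
            have : degIn G w N ≤ X.card := by omega
            exact_mod_cast this
          have e7 : (4 : ℝ) ≤ degIn G w F := by linarith
          exact_mod_cast e7
        have hY2 : 1 < Y.card := by
          have : (1 : ℝ) < Y.card := by linarith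
          exact_mod_cast this
        obtain ⟨w1, hw1, w2, hw2, hne⟩ := Finset.one_lt_card.mp hY2
        obtain ⟨v1, hv1, ha1, -⟩ := par_nbr G w1 F ∅ (by
          have := hYF w1 hw1
          rw [Finset.card_empty]; omega)
        obtain ⟨v2, hv2, ha2, hne2⟩ := par_nbr G w2 F {v1} (by
          have := hYF w2 hw2
          rw [Finset.card_singleton]; omega)
        rw [Finset.mem_singleton] at hne2
        exact hpath Y hY w1 hw1 w2 hw2 hne v1 hv1 v2 hv2 (fun he => hne2 he.symm) ha1 ha2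
    by_cases hAc : (A.card : ℝ) < 1 / 3 * n
    · exact hmain A B hABN hAc hABc goodB
    · push Not at hAc
      apply hmain B A (by rw [Finset.union_comm]; exact hABN) (by linarith) (by linarith) goodA

/-- item 17 -/
theorem parity (h1 : TileStmt) (h2 : TbTiledStmt) (h3 : TbBalStmt) (h7 : KSTExStmt) :
    ParityStmt := by
  classical
  intro h H a b hp
  obtain ⟨s0, hs0⟩ := h3 h H a b 2 hp 0 (by simp)
  have hTb : Tb H (2 * s0 + 1) (2 * s0 + 1) := hs0 _ _ (by omega) (by simp)
  have hs : Odd (2 * s0 + 1) := odd_two_mul_add_one s0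
  obtain ⟨n1, hn1⟩ := par_case12 h2 h7 hp.edge (2 * s0 + 1) hs hTb
  obtain ⟨n3, hn3⟩ := par_case3 h1 h7 hp
  refine ⟨1 / 1000000, by norm_num, ?_⟩
  intro η _ hη0
  refine ⟨4, 2 * (2 * s0 + 1) + (a + b + 4), max n1 n3, ?_⟩
  intro V _ _ G hn heven hdeg hodd
  have hnn1 : n1 ≤ Fintype.card V := le_trans (le_max_left _ _) hn
  have hnn3 : n3 ≤ Fintype.card V := le_trans (le_max_right _ _) hn
  have hdeg' : ∀ v, 1 / 3 * (Fintype.card V : ℝ) ≤ degIn G v Finset.univ := by
    intro v
    have := hdeg v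
    push_cast at this
    linarith
  have hsum : ∀ T : Finset V, (T.filter (Free G η)).card + nf G η T = T.card := by
    intro T
    unfold nf
    rw [← Finset.card_filter_add_card_filter_not (s := T) (Free G η)]
  by_cases c1 : ∃ u, ¬ Free G η u ∧
      1 / 1000 * (Fintype.card V : ℝ) ≤ degIn G u (Finset.univ.filter (Free G η))
  · obtain ⟨u, hu, hud⟩ := c1
    obtain ⟨T, hT, hTc, hTo⟩ := hn1 V G (Free G η) u hnn1 hdeg' hu hud
    refine ⟨T, hT, by omega, ?_⟩
    have := hsum T
    rw [Nat.odd_iff] at hTo ⊢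
    omega
  by_cases c2 : ∃ v, ¬ ¬ Free G η v ∧
      1 / 1000 * (Fintype.card V : ℝ) ≤
        degIn G v (Finset.univ.filter (fun x => ¬ Free G η x))
  · obtain ⟨v, hv, hvd⟩ := c2
    obtain ⟨T, hT, hTc, hTo⟩ := hn1 V G (fun x => ¬ Free G η x) v hnn1 hdeg' hv hvd
    refine ⟨T, hT, by omega, ?_⟩
    unfold nf
    convert hTo
  push Not at c1 c2
  obtain ⟨T, hT, hTc, hTo⟩ := hn3 V G η (Finset.univ.filter (fun x => ¬ Free G η x))
    (Finset.univ.filter (Free G η)) hnn3 hη0 (by simp) (by simp)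
    (by intro v; have := hdeg v; push_cast at this; exact this)
    (by
      intro v hv
      exact c1 v (Finset.mem_filter.mp hv).2)
    (by
      intro v hv
      exact c2 v (Finset.mem_filter.mp hv).2)
    (by
      have h5 : 0 < nf G η Finset.univ := hodd.pos
      unfold nf at h5
      rw [Finset.card_pos] at h5
      exact h5)
    (by
      have h5 := hsum Finset.univ
      rw [Finset.card_univ] at h5
      rw [← Finset.card_pos]
      rw [Nat.odd_iff] at hodd
      rw [Nat.even_iff] at heven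
      omega)
  exact ⟨T, hT, by omega, hTo⟩

end Pool.Agent.MP_d32e04
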