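import Pool.Agent.Work.MP_d32e04_co.Basic

/-!
MP_d32e04_co, item 10: the reduced graph from the regularity lemma.
-/

set_option autoImplicit false

namespace Pool.Agent.MP_d32e04

open Finset

variable {V : Type}

lemma e2_eq_interedges (G : SimpleGraph V) [DecidableRel G.Adj] (S T : Finset V) :
    e2 G S T = (G.interedges S T).card := by
  unfold e2
  rw [SimpleGraph.interedges_def]
  apply congrArg
  apply Finset.filter_congr_decidable

lemma e2_eq_density (G : SimpleGraph V) [DecidableRel G.Adj] (S T : Finset V) :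
    (e2 G S T : ℝ) = (G.edgeDensity S T : ℝ) * S.card * T.card := by
  rw [e2_eq_interedges, SimpleGraph.edgeDensity_def]
  rcases S.eq_empty_or_nonempty with hS | hS
  · subst hS
    simp
  rcases T.eq_empty_or_nonempty with hT | hT
  · subst hT
    simp [SimpleGraph.interedges_def]
  have h1 : (S.card : ℝ) ≠ 0 := by
    have := hS.card_pos
    positivity
  have h2 : (T.card : ℝ) ≠ 0 := by
    have := hT.card_pos
    positivity
  push_cast
  field_simp

lemma e2_univ_eq_sum [Fintype V] [DecidableEq V] (G : SimpleGraph V) (S : Finset V)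
    (P : Finpartition (Finset.univ : Finset V)) :
    e2 G S Finset.univ = ∑ Q ∈ P.parts, e2 G S Q := by
  classical
  rw [e2_eq_interedges]
  have := Rel.card_interedges_finpartition_right G.Adj S P
  unfold SimpleGraph.interedges
  rw [this]
  apply Finset.sum_congr rfl
  intro Q _
  rw [e2_eq_interedges]
  rfl

lemma ite_nn {p : Prop} [Decidable p] {x : ℝ} (hx : 0 ≤ x) : 0 ≤ (if p then x else 0) := by
  split_ifs
  · exact hx
  · exact le_refl _

lemma dens_le {D a q d m : ℝ} (hD : D ≤ 2 * d) (ha : a ≤ m + 1) (ha0 : 0 ≤ a)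
    (hd : 0 ≤ 2 * d) (hq : 0 ≤ q) : D * a * q ≤ 2 * d * (m + 1) * q :=
  mul_le_mul_of_nonneg_right (mul_le_mul hD ha ha0 hd) hq

lemma five_le1 {a b c d e x : ℝ} (h : x ≤ a) (hb : 0 ≤ b) (hc : 0 ≤ c) (hd : 0 ≤ d)
    (he : 0 ≤ e) : x ≤ a + b + c + d + e := by linarith

lemma five_le2 {a b c d e x : ℝ} (h : x ≤ b) (ha : 0 ≤ a) (hc : 0 ≤ c) (hd : 0 ≤ d)
    (he : 0 ≤ e) : x ≤ a + b + c + d + e := by linarith

lemma five_le3 {a b c d e x : ℝ} (h : x ≤ c) (ha : 0 ≤ a) (hb : 0 ≤ b) (hd : 0 ≤ d)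
    (he : 0 ≤ e) : x ≤ a + b + c + d + e := by linarith

lemma five_le4 {a b c d e x : ℝ} (h : x ≤ d) (ha : 0 ≤ a) (hb : 0 ≤ b) (hc : 0 ≤ c)
    (he : 0 ≤ e) : x ≤ a + b + c + d + e := by linarith

lemma five_le5 {a b c d e x : ℝ} (h : x ≤ e) (ha : 0 ≤ a) (hb : 0 ≤ b) (hc : 0 ≤ c)
    (hd : 0 ≤ d) : x ≤ a + b + c + d + e := by linarith

/-- the numerical end of the proof -/
lemma reg_num {m n k1 δ d ε E Sg T2 T3 T5 : ℝ} (hm0 : 0 ≤ m) (hn0 : 0 ≤ n) (hδ : 0 < δ)
    (hd : 0 < d) (hd2 : d ≤ 1 / 2) (hε : 0 < ε) (hδε : 16 * δ ≤ ε) (hm1 : 1 ≤ m)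
    (hmδ : 1 ≤ δ * m)
    (hkm : k1 * m ≤ n) (hk1δ : k1 ≤ δ * n) (hδ1 : δ ≤ 1 / 32)
    (hmn : m ≤ δ * n)
    (h : E ≤ m * (m + 1) + T2 + T3 + 2 * d * (m + 1) * n + T5)
    (h2 : T2 ≤ δ * k1 * (m * (m + 1))) (h3 : T3 ≤ δ * k1 * (m * (m + 1)))
    (h5 : T5 ≤ Sg + k1 * m) : E ≤ Sg + (4 * d + 4 * ε) * m * n := by
  have hmn0 : 0 ≤ m * n := by positivity
  have b1 : m * (m + 1) ≤ 2 * δ * (m * n) := by
    have h1 : m + 1 ≤ 2 * (δ * n) := by linarith
    calc m * (m + 1) ≤ m * (2 * (δ * n)) := by gcongr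
      _ = 2 * δ * (m * n) := by ring
  have b2 : δ * k1 * (m * (m + 1)) ≤ 2 * δ * (m * n) := by
    have h1 : k1 * (m + 1) ≤ 2 * n := by nlinarith
    calc δ * k1 * (m * (m + 1)) = δ * m * (k1 * (m + 1)) := by ring
      _ ≤ δ * m * (2 * n) := by gcongr
      _ = 2 * δ * (m * n) := by ring
  have b4 : 2 * d * (m + 1) * n ≤ 2 * (d * (m * n)) + δ * (m * n) := by
    have h1 : 2 * d * n ≤ 1 * n := by gcongr; linarith
    have h2 : 1 * n ≤ δ * m * n := by gcongr
    calc 2 * d * (m + 1) * n = 2 * (d * (m * n)) + 2 * d * n := by ring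
      _ ≤ 2 * (d * (m * n)) + δ * m * n := by linarith
      _ = 2 * (d * (m * n)) + δ * (m * n) := by ring
  have b5 : k1 * m ≤ δ * (m * n) := by
    calc k1 * m ≤ (δ * n) * m := by gcongr
      _ = δ * (m * n) := by ring
  have b6 : 8 * (δ * (m * n)) ≤ ε * (m * n) := by
    have : 8 * δ ≤ ε := by linarith
    calc 8 * (δ * (m * n)) = (8 * δ) * (m * n) := by ring
      _ ≤ ε * (m * n) := by gcongr
  have b7 : 0 ≤ d * (m * n) := by positivity
  have b8 : 0 ≤ ε * (m * n) := by positivity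
  have b9 : (4 * d + 4 * ε) * m * n = 4 * (d * (m * n)) + 4 * (ε * (m * n)) := by ring
  rw [b9]
  linarith

lemma reg_num2 {m n k1 δ ε b k : ℝ} (hm0 : 0 ≤ m) (hn0 : 0 ≤ n) (hδ : 0 < δ)
    (hδε : 16 * δ ≤ ε) (hδ1 : δ ≤ 1 / 32)
    (hk1δ : k1 ≤ δ * n) (hb : b ≤ δ * k1) (hkm1 : n ≤ k1 * (m + 1)) (hk : k = k1 - b) :
    (1 - ε) * n ≤ k * m := by
  rw [hk]
  have h1 : n ≤ k1 * m + δ * n := by linarith
  have h2 : (1 - δ) * (k1 * m) ≤ (k1 - b) * m := by
    have : b * m ≤ δ * k1 * m := by gcongr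
    linarith
  have h3 : (1 - δ) * ((1 - δ) * n) ≤ (1 - δ) * (k1 * m) := by
    apply mul_le_mul_of_nonneg_left _ (by linarith)
    linarith
  have h4 : (1 - ε) * n ≤ (1 - δ) * ((1 - δ) * n) := by
    have : 1 - ε ≤ (1 - δ) * (1 - δ) := by nlinarith
    calc (1 - ε) * n ≤ ((1 - δ) * (1 - δ)) * n := by gcongr
      _ = _ := by ring
  linarith

lemma reg_num3 {m n k1 l δ : ℝ} (hδ : 0 < δ) (hm0 : 0 ≤ m)
    (hl : 1 ≤ δ * l) (hlm : l ≤ m) (hlk : l ≤ k1) (hk1 : 0 < k1) (hkm : k1 * m ≤ n) :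
    1 ≤ δ * m ∧ k1 ≤ δ * n ∧ m ≤ δ * n := by
  have h1 : 1 ≤ δ * m := le_trans hl (by gcongr)
  have h1' : 1 ≤ δ * k1 := le_trans hl (by gcongr)
  refine ⟨h1, ?_, ?_⟩
  · calc k1 = k1 * 1 := by ring
      _ ≤ k1 * (δ * m) := by gcongr
      _ = δ * (k1 * m) := by ring
      _ ≤ δ * n := by gcongr
  · calc m = m * 1 := by ring
      _ ≤ m * (δ * k1) := by gcongr
      _ = δ * (k1 * m) := by ring
      _ ≤ δ * n := by gcongr

theorem reg : RegStmt := by
  intro ε d hε hε2 hd hd2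
  classical
  set δ : ℝ := min ε d / 16 with hδdef
  have hδ : 0 < δ := by
    have : 0 < min ε d := lt_min hε hd
    positivity
  have hδε : 16 * δ ≤ ε := by
    have : min ε d ≤ ε := min_le_left _ _
    rw [hδdef]; linarith
  have hδd : 16 * δ ≤ d := by
    have : min ε d ≤ d := min_le_right _ _
    rw [hδdef]; linarith
  have hδ1 : δ ≤ 1 / 32 := by linarith
  set l : ℕ := ⌈1 / δ⌉₊ with hl
  have hl1 : 1 / δ ≤ (l : ℝ) := Nat.le_ceil _
  have hlδ : 1 ≤ δ * l := by
    rw [div_le_iff₀ hδ] at hl1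
    linarith
  have hl0 : 0 < l := by
    rw [hl]
    exact Nat.ceil_pos.mpr (by positivity)
  set B : ℕ := SzemerediRegularity.bound (δ ^ 2) l with hB
  refine ⟨B, l + B * l, ?_⟩
  intro V _ _ G hn
  obtain ⟨P, hP1, hP2, hP3, hP4⟩ := szemeredi_regularity G (ε := δ ^ 2) (l := l) (by positivity)
    (le_trans (Nat.le_add_right _ _) hn)
  set n : ℕ := Fintype.card V with hndef
  set k1 : ℕ := P.parts.card with hk1
  have hk1pos : 0 < k1 := lt_of_lt_of_le hl0 hP2
  set m : ℕ := n / k1 with hm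
  have hkm : k1 * m ≤ n := Nat.mul_div_le _ _
  have hkm1 : n < k1 * (m + 1) := by
    rw [mul_add, mul_one, mul_comm]
    have := Nat.lt_div_mul_add (a := n) hk1pos
    rw [← hm] at this
    exact this
  have hlm : l ≤ m := by
    rw [hm, Nat.le_div_iff_mul_le hk1pos]
    calc l * k1 ≤ l * B := Nat.mul_le_mul_left _ hP3
      _ = B * l := mul_comm _ _
      _ ≤ l + B * l := Nat.le_add_left _ _
      _ ≤ n := hn
  have hkmR : (k1 : ℝ) * m ≤ n := by exact_mod_cast hkm
  have hkm1R : (n : ℝ) ≤ k1 * (m + 1) := by exact_mod_cast hkm1.le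
  have hk1R : (0 : ℝ) < k1 := by exact_mod_cast hk1pos
  have hnR : (0 : ℝ) ≤ n := Nat.cast_nonneg _
  have hm0 : (0 : ℝ) ≤ m := Nat.cast_nonneg _
  obtain ⟨hmδ, hk1δ, hmn⟩ := reg_num3 hδ hm0 hlδ (by exact_mod_cast hlm)
    (by exact_mod_cast hP2) hk1R hkmR
  have hm1 : (1 : ℝ) ≤ m := by nlinarith
  -- sizes of parts
  have hcard : ∀ Q ∈ P.parts, m ≤ Q.card ∧ Q.card ≤ m + 1 := by
    intro Q hQ
    have h1 := hP1.average_le_card_part hQ
    have h2 := hP1.card_part_le_average_add_one hQ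
    rw [Finset.card_univ] at h1 h2
    exact ⟨h1, h2⟩
  -- nonuniform partners
  set N : Finset V → Finset (Finset V) := fun p =>
    P.parts.filter (fun q => p ≠ q ∧ ¬ G.IsUniform (δ ^ 2) p q) with hN
  set good := P.parts.filter (fun p => ((N p).card : ℝ) ≤ δ * k1) with hgood
  set bad := P.parts.filter (fun p => ¬ ((N p).card : ℝ) ≤ δ * k1) with hbad
  have hgb : good.card + bad.card = k1 := Finset.card_filter_add_card_filter_not _
  have hbadc : (bad.card : ℝ) ≤ δ * k1 := by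
    have h1 : ∑ p ∈ bad, (N p).card ≤ (P.nonUniforms G (δ ^ 2)).card := by
      rw [← Finset.card_sigma]
      apply Finset.card_le_card_of_injOn (fun x => (x.1, x.2))
      · rintro ⟨x, y⟩ hxy
        rw [Finset.mem_coe, Finset.mem_sigma] at hxy
        obtain ⟨hx, hy⟩ := hxy
        rw [hN, Finset.mem_filter] at hy
        rw [Finset.mem_coe, Finpartition.mk_mem_nonUniforms]
        exact ⟨(Finset.mem_filter.mp hx).1, hy.1, hy.2.1, hy.2.2⟩
      · rintro ⟨x, y⟩ _ ⟨x', y'⟩ _ h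
        simp only [Prod.mk.injEq] at h
        obtain ⟨rfl, rfl⟩ := h
        rfl
    have h2 : (bad.card : ℝ) * (δ * k1) ≤ ∑ p ∈ bad, ((N p).card : ℝ) := by
      rw [← nsmul_eq_mul]
      apply Finset.card_nsmul_le_sum
      intro p hp
      have := (Finset.mem_filter.mp hp).2
      linarith
    have h3 : ((P.nonUniforms G (δ ^ 2)).card : ℝ) ≤ (k1 * (k1 - 1) : ℕ) * δ ^ 2 := hP4
    have h4 : ((k1 * (k1 - 1) : ℕ) : ℝ) ≤ k1 * k1 := by
      have : k1 * (k1 - 1) ≤ k1 * k1 := Nat.mul_le_mul_left _ (Nat.sub_le _ _)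
      exact_mod_cast this
    have h5 : (bad.card : ℝ) * (δ * k1) ≤ (δ * k1) * (δ * k1) := by
      calc (bad.card : ℝ) * (δ * k1) ≤ ∑ p ∈ bad, ((N p).card : ℝ) := h2
        _ ≤ ((P.nonUniforms G (δ ^ 2)).card : ℝ) := by exact_mod_cast h1
        _ ≤ (k1 * (k1 - 1) : ℕ) * δ ^ 2 := h3
        _ ≤ (k1 * k1) * δ ^ 2 := by gcongr
        _ = (δ * k1) * (δ * k1) := by ring
    exact le_of_mul_le_mul_right h5 (by positivity)
  -- subsets of the parts of size exactly m
  have hW : ∀ Q : Finset V, ∃ S : Finset V, Q ∈ P.parts → S ⊆ Q ∧ S.card = m := by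
    intro Q
    by_cases hQ : Q ∈ P.parts
    · obtain ⟨S, hS, hSc⟩ := Finset.exists_subset_card_eq (hcard Q hQ).1
      exact ⟨S, fun _ => ⟨hS, hSc⟩⟩
    · exact ⟨∅, fun h => absurd h hQ⟩
  choose W hW using hW
  obtain ⟨k, hk⟩ : ∃ k, k = good.card := ⟨_, rfl⟩
  have f : good ≃ Fin k := Finset.equivFinOfCardEq hk.symm
  have hfmem : ∀ i, (f.symm i).1 ∈ P.parts := fun i =>
    (Finset.mem_filter.mp (f.symm i).2).1
  let R : SimpleGraph (Fin k) :=
    { Adj := fun i j => i ≠ j ∧ G.IsUniform (δ ^ 2) (f.symm i).1 (f.symm j).1 ∧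
        2 * d ≤ (G.edgeDensity (f.symm i).1 (f.symm j).1 : ℝ)
      symm := ⟨fun i j h => ⟨h.1.symm, h.2.1.symm, by
        rw [SimpleGraph.edgeDensity_comm]; exact h.2.2⟩⟩
      loopless := ⟨fun i h => h.1 rfl⟩ }
  have hkR : (k : ℝ) = k1 - bad.card := by
    rw [← hgb, hk]; push_cast; ring
  have hkpos : 0 < k := by
    have : (0 : ℝ) < k := by
      rw [hkR]
      nlinarith
    exact_mod_cast this
  have hinj : ∀ i j, (f.symm i).1 = (f.symm j).1 → i = j := by
    intro i j h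
    exact f.symm.injective (Subtype.ext h)
  refine ⟨k, m, fun i => W (f.symm i).1, R, hkpos, ?_, ?_, ?_, ?_, ?_, ?_⟩
  · calc k ≤ k1 := by omega
      _ ≤ B := hP3
  · intro i
    exact (hW _ (hfmem i)).2
  · intro i j hij
    have h1 := (hW _ (hfmem i)).1
    have h2 := (hW _ (hfmem j)).1
    have h3 : Disjoint (f.symm i).1 (f.symm j).1 :=
      P.disjoint (hfmem i) (hfmem j) (fun h => hij (hinj i j h))
    exact Disjoint.mono h1 h2 h3
  · exact reg_num2 hm0 hnR hδ hδε hδ1 hk1δ hbadc hkm1R hkR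
  · intro i j hij X hX Y hY hXc hYc
    obtain ⟨_, hu, hdens⟩ := hij
    have h1 := hW _ (hfmem i)
    have h2 := hW _ (hfmem j)
    have hc1 := hcard _ (hfmem i)
    have hc2 := hcard _ (hfmem j)
    have hb : ∀ q : ℕ, q ≤ m + 1 → (q : ℝ) * δ ^ 2 ≤ ε * m := by
      intro q hq
      have : (q : ℝ) ≤ 2 * m := by
        have : (q : ℝ) ≤ m + 1 := by exact_mod_cast hq
        linarith
      have h3 : δ ^ 2 ≤ ε / 2 := by nlinarith
      calc (q : ℝ) * δ ^ 2 ≤ (2 * m) * (ε / 2) := by gcongr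
        _ = ε * m := by ring
    have h3 := hu (hX.trans h1.1) (hY.trans h2.1) ((hb _ hc1.2).trans hXc)
      ((hb _ hc2.2).trans hYc)
    have h4 : d ≤ (G.edgeDensity X Y : ℝ) := by
      have := (abs_lt.mp h3).1
      nlinarith
    rw [e2_eq_density]
    gcongr
  · intro i
    set p := (f.symm i).1 with hp
    have hpP : p ∈ P.parts := hfmem i
    have hpgood : p ∈ good := (f.symm i).2
    have hS := hW p hpP
    set S := W p with hSdef
    set A := good.filter (fun Q => p ≠ Q ∧ G.IsUniform (δ ^ 2) p Q ∧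
      2 * d ≤ (G.edgeDensity p Q : ℝ)) with hA
    have hmm : (0 : ℝ) ≤ m * (m + 1) := by positivity
    have he2 : ∀ Q ∈ P.parts, (e2 G S Q : ℝ) ≤ m * (m + 1) := by
      intro Q hQ
      have h1 := e2_le G S Q
      rw [hS.2] at h1
      have h2 : m * Q.card ≤ m * (m + 1) := Nat.mul_le_mul_left _ (hcard Q hQ).2
      exact_mod_cast h1.trans h2
    have key : ∀ Q ∈ P.parts, (e2 G S Q : ℝ) ≤
        (if Q = p then (m * (m + 1) : ℝ) else 0) + (if Q ∈ bad then (m * (m + 1) : ℝ) else 0) +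
        (if Q ∈ N p then (m * (m + 1) : ℝ) else 0) + 2 * d * (m + 1) * Q.card +
        (if Q ∈ A then (e2 G S (W Q) : ℝ) + m else 0) := by
      intro Q hQ
      have hn1 : (0 : ℝ) ≤ (if Q = p then (m * (m + 1) : ℝ) else 0) := by
        exact ite_nn hmm
      have hn2 : (0 : ℝ) ≤ (if Q ∈ bad then (m * (m + 1) : ℝ) else 0) := by
        exact ite_nn hmm
      have hn3 : (0 : ℝ) ≤ (if Q ∈ N p then (m * (m + 1) : ℝ) else 0) := by
        exact ite_nn hmm
      have hn4 : (0 : ℝ) ≤ 2 * d * (m + 1) * Q.card :=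
        mul_nonneg (mul_nonneg (by linarith) (by linarith)) (Nat.cast_nonneg _)
      have hn5 : (0 : ℝ) ≤ (if Q ∈ A then (e2 G S (W Q) : ℝ) + m else 0) := by
        exact ite_nn (add_nonneg (Nat.cast_nonneg _) hm0)
      by_cases h1 : Q = p
      · refine five_le1 ?_ hn2 hn3 hn4 hn5
        rw [if_pos h1]
        exact he2 Q hQ
      by_cases h2 : Q ∈ bad
      · refine five_le2 ?_ hn1 hn3 hn4 hn5
        rw [if_pos h2]
        exact he2 Q hQ
      by_cases h3 : Q ∈ N p
      · refine five_le3 ?_ hn1 hn2 hn4 hn5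
        rw [if_pos h3]
        exact he2 Q hQ
      have hg : Q ∈ good := by
        rw [hgood, Finset.mem_filter]
        refine ⟨hQ, ?_⟩
        by_contra hcon
        exact h2 (Finset.mem_filter.mpr ⟨hQ, hcon⟩)
      have hunif : G.IsUniform (δ ^ 2) p Q := by
        by_contra hcon
        exact h3 (Finset.mem_filter.mpr ⟨hQ, fun h => h1 h.symm, hcon⟩)
      by_cases h4 : 2 * d ≤ (G.edgeDensity p Q : ℝ)
      · have hQA : Q ∈ A := Finset.mem_filter.mpr ⟨hg, fun h => h1 h.symm, hunif, h4⟩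
        refine five_le5 ?_ hn1 hn2 hn3 hn4
        rw [if_pos hQA]
        have hWQ := hW Q hQ
        have h5 : e2 G S Q ≤ e2 G S (W Q) + e2 G S (Q \ W Q) := by
          have := e2_union_right_le G S (W Q) (Q \ W Q)
          rwa [Finset.union_sdiff_of_subset hWQ.1] at this
        have h6 : e2 G S (Q \ W Q) ≤ m := by
          have h7 := e2_le G S (Q \ W Q)
          rw [hS.2, Finset.card_sdiff_of_subset hWQ.1, hWQ.2] at h7
          have h8 : Q.card - m ≤ 1 := by
            have := (hcard Q hQ).2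
            omega
          calc e2 G S (Q \ W Q) ≤ m * (Q.card - m) := h7
            _ ≤ m * 1 := Nat.mul_le_mul_left _ h8
            _ = m := mul_one _
        exact_mod_cast h5.trans (Nat.add_le_add_left h6 _)
      · push Not at h4
        refine five_le4 ?_ hn1 hn2 hn3 hn5
        have h5 : (e2 G S Q : ℝ) ≤ e2 G p Q := by
          exact_mod_cast e2_mono G hS.1 (subset_refl Q)
        have h6 : (e2 G p Q : ℝ) ≤ 2 * d * (m + 1) * Q.card := by
          rw [e2_eq_density]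
          have h7 : (p.card : ℝ) ≤ m + 1 := by exact_mod_cast (hcard p hpP).2
          exact dens_le h4.le h7 (Nat.cast_nonneg _) (by linarith) (Nat.cast_nonneg _)
        exact h5.trans h6
    have hsum : (e2 G S Finset.univ : ℝ) = ∑ Q ∈ P.parts, (e2 G S Q : ℝ) := by
      rw [e2_univ_eq_sum G S P]
      push_cast
      rfl
    rw [hsum]
    have hstep := Finset.sum_le_sum key
    rw [Finset.sum_add_distrib, Finset.sum_add_distrib, Finset.sum_add_distrib,
      Finset.sum_add_distrib] at hstep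
    have s1 : ∑ Q ∈ P.parts, (if Q = p then (m * (m + 1) : ℝ) else 0) = m * (m + 1) := by
      rw [Finset.sum_ite_eq' P.parts p (fun _ => (m * (m + 1) : ℝ)), if_pos hpP]
    have s2 : ∑ Q ∈ P.parts, (if Q ∈ bad then (m * (m + 1) : ℝ) else 0) ≤
        δ * k1 * (m * (m + 1)) := by
      rw [← Finset.sum_filter, Finset.sum_const, nsmul_eq_mul]
      have h1 : ((P.parts.filter (fun Q => Q ∈ bad)).card : ℝ) ≤ δ * k1 := by
        refine le_trans ?_ hbadc
        have : (P.parts.filter (fun Q => Q ∈ bad)).card ≤ bad.card := by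
          apply Finset.card_le_card
          intro Q hQ
          exact (Finset.mem_filter.mp hQ).2
        exact_mod_cast this
      exact mul_le_mul_of_nonneg_right h1 hmm
    have s3 : ∑ Q ∈ P.parts, (if Q ∈ N p then (m * (m + 1) : ℝ) else 0) ≤
        δ * k1 * (m * (m + 1)) := by
      rw [← Finset.sum_filter, Finset.sum_const, nsmul_eq_mul]
      have h1 : ((P.parts.filter (fun Q => Q ∈ N p)).card : ℝ) ≤ δ * k1 := by
        refine le_trans ?_ (Finset.mem_filter.mp hpgood).2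
        have : (P.parts.filter (fun Q => Q ∈ N p)).card ≤ (N p).card := by
          apply Finset.card_le_card
          intro Q hQ
          exact (Finset.mem_filter.mp hQ).2
        exact_mod_cast this
      exact mul_le_mul_of_nonneg_right h1 hmm
    have s4 : ∑ Q ∈ P.parts, 2 * d * (m + 1) * (Q.card : ℝ) = 2 * d * (m + 1) * n := by
      rw [← Finset.mul_sum]
      have : ∑ Q ∈ P.parts, (Q.card : ℝ) = n := by
        have h1 := P.sum_card_parts
        rw [Finset.card_univ] at h1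
        rw [hndef, ← h1]
        push_cast
        rfl
      rw [this]
    have s5 : ∑ Q ∈ P.parts, (if Q ∈ A then (e2 G S (W Q) : ℝ) + m else 0) ≤
        (∑ j ∈ nb R i, (e2 G S (W (f.symm j).1) : ℝ)) + k1 * m := by
      rw [← Finset.sum_filter]
      have hAs : P.parts.filter (fun Q => Q ∈ A) = A := by
        ext Q
        rw [Finset.mem_filter]
        constructor
        · exact fun h => h.2
        · intro h
          exact ⟨(Finset.mem_filter.mp (Finset.mem_filter.mp h).1).1, h⟩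
      rw [hAs, Finset.sum_add_distrib, Finset.sum_const, nsmul_eq_mul]
      have hAimg : A = (nb R i).image (fun j => (f.symm j).1) := by
        ext Q
        rw [Finset.mem_image]
        constructor
        · intro hQ
          obtain ⟨hg, hne, hun, hden⟩ := Finset.mem_filter.mp hQ
          refine ⟨f ⟨Q, hg⟩, ?_, ?_⟩
          · rw [mem_nb]
            refine ⟨?_, ?_, ?_⟩
            · intro h
              apply hne
              rw [hp, h]
              simp
            · simpa [← hp] using hun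
            · simpa [← hp] using hden
          · simp
        · rintro ⟨j, hj, rfl⟩
          rw [mem_nb] at hj
          obtain ⟨h1, h2, h3⟩ := hj
          rw [hA, Finset.mem_filter]
          exact ⟨(f.symm j).2, fun h => h1 (hinj i j h), h2, h3⟩
      have hAc : (A.card : ℝ) ≤ k1 := by
        have : A.card ≤ k1 := by
          calc A.card ≤ good.card := Finset.card_filter_le _ _
            _ ≤ k1 := by omega
        exact_mod_cast this
      have hsumA : ∑ Q ∈ A, (e2 G S (W Q) : ℝ) = ∑ j ∈ nb R i, (e2 G S (W (f.symm j).1) : ℝ) := by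
        rw [hAimg, Finset.sum_image]
        intro a _ b _ hab
        exact hinj a b hab
      rw [hsumA]
      have : (A.card : ℝ) * m ≤ k1 * m := mul_le_mul_of_nonneg_right hAc hm0
      exact add_le_add (le_refl _) this
    rw [s1, s4] at hstep
    exact reg_num hm0 hnR hδ hd hd2 hε hδε hm1 hmδ hkmR hk1δ hδ1 hmn hstep s2 s3 s5

end Pool.Agent.MP_d32e04
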