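import Pool.Agent.Work.MP_d32e04_co.Basic

/-!
MP_d32e04_co, item 5a: structure of the extremal case.
-/

set_option autoImplicit false

namespace Pool.Agent.MP_d32e04

open Finset

lemma sum_misIn_eq {V : Type} (G : SimpleGraph V) (S T : Finset V) :
    (∑ v ∈ S, (misIn G v T : ℝ)) = (S.card : ℝ) * T.card - e2 G S T := by
  have h1 : ∀ v ∈ S, (misIn G v T : ℝ) = (T.card : ℝ) - degIn G v T := by
    intro v _
    have := degIn_add_misIn G v T
    have h2 : (degIn G v T : ℝ) + misIn G v T = T.card := by exact_mod_cast this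
    linarith
  rw [Finset.sum_congr rfl h1, Finset.sum_sub_distrib, Finset.sum_const, nsmul_eq_mul, e2_eq_sum]
  push_cast
  ring

lemma sum_misIn_comm {V : Type} (G : SimpleGraph V) (S T : Finset V) :
    (∑ v ∈ S, (misIn G v T : ℝ)) = ∑ v ∈ T, (misIn G v S : ℝ) := by
  rw [sum_misIn_eq, sum_misIn_eq, e2_comm G S T]
  ring

theorem split : SplitStmt := by
  classical
  intro ls τ ζ hls0 hls1 hτ0 hτ1 hζ
  set δ : ℝ := min 1 ζ with hδ
  have hδ0 : 0 < δ := lt_min one_pos hζ
  have hδ1 : δ ≤ 1 := min_le_left _ _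
  have hδζ : δ ≤ ζ := min_le_right _ _
  set κ : ℝ := τ * δ / 64 with hκ
  have hκ0 : 0 < κ := by positivity
  have hκτ : κ ≤ τ / 64 := by
    rw [hκ]
    have : τ * δ ≤ τ * 1 := mul_le_mul_of_nonneg_left hδ1 hτ0.le
    linarith
  have hκζ : κ ≤ τ * ζ / 64 := by
    rw [hκ]
    have : τ * δ ≤ τ * ζ := mul_le_mul_of_nonneg_left hδζ hτ0.le
    linarith
  have hκζ' : 512 * κ ≤ ζ := by
    have : τ * ζ ≤ 1 / 8 * ζ := mul_le_mul_of_nonneg_right hτ1 hζ.le
    linarith
  set γ : ℝ := min (1 / 100) (κ * τ) with hγ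
  have hγ0 : 0 < γ := lt_min (by norm_num) (by positivity)
  have hγ1 : γ ≤ 1 / 100 := min_le_left _ _
  have hγκ : γ ≤ κ * τ := min_le_right _ _
  have hγκ8 : 8 * γ ≤ κ := by
    have : κ * τ ≤ κ * (1 / 8) := mul_le_mul_of_nonneg_left hτ1 hκ0.le
    linarith
  refine ⟨γ, hγ0, hγ1, ?_⟩
  intro V _ _ G hdeg hE
  rcases Nat.eq_zero_or_pos (Fintype.card V) with hn0 | hnpos
  · have hem : IsEmpty V := Fintype.card_eq_zero_iff.mp hn0
    refine ⟨∅, ∅, by simp, ?_, by simp, by simp, by simp, ⟨∅, by simp, ?_, by simp⟩, ?_⟩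
    · ext x; exact (hem.false x).elim
    · rw [hn0]; simp
    · rw [hn0]; simp
  set n : ℝ := (Fintype.card V : ℝ) with hn
  have hn0 : 0 < n := by rw [hn]; exact_mod_cast hnpos
  obtain ⟨B0, hB0c, hB0e⟩ := hE
  rw [← hn] at hB0c hB0e
  set A0 : Finset V := Finset.univ \ B0 with hA0
  have hAB0 : A0 ∪ B0 = Finset.univ := by
    ext x; by_cases hx : x ∈ B0 <;> simp [hA0, hx]
  have hcard0 : (A0.card : ℝ) + B0.card = n := by
    have h1 := Finset.card_sdiff_add_card_inter (Finset.univ : Finset V) B0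
    rw [Finset.univ_inter, Finset.card_univ] at h1
    rw [hn, ← h1]
    push_cast
    rfl
  set a0 : ℝ := (A0.card : ℝ) with ha0
  set b0 : ℝ := (B0.card : ℝ) with hb0
  have hb0n : n / 4 ≤ b0 := by
    have k1 : 1 / 4 * n ≤ (1 - ls - γ) * n :=
      mul_le_mul_of_nonneg_right (by linarith) hn0.le
    linarith
  have hb0le : b0 ≤ n := by
    have : (0 : ℝ) ≤ a0 := by rw [ha0]; positivity
    linarith
  have ha0le : a0 ≤ (ls + γ) * n := by
    have k1 : (1 - ls - γ) * n = n - (ls + γ) * n := by ring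
    linarith
  -- degrees split
  have hdsplit : ∀ (v : V) (S T : Finset V), S ∪ T = Finset.univ →
      ls * n ≤ (degIn G v S : ℝ) + degIn G v T := by
    intro v S T hST
    have h1 := degIn_union_le G v S T
    rw [hST] at h1
    have h2 : (degIn G v Finset.univ : ℝ) ≤ degIn G v S + degIn G v T := by exact_mod_cast h1
    exact le_trans (hdeg v) h2
  have hdle : ∀ (v : V) (S : Finset V), (degIn G v S : ℝ) ≤ S.card := by
    intro v S; exact_mod_cast degIn_le G v S
  have hdm : ∀ (v : V) (S : Finset V), (degIn G v S : ℝ) + misIn G v S = S.card := by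
    intro v S; exact_mod_cast degIn_add_misIn G v S
  have hmnn : ∀ (v : V) (S : Finset V), (0 : ℝ) ≤ misIn G v S := by
    intro v S; positivity
  -- (1)
  have he2 : (e2 G B0 B0 : ℝ) = ∑ v ∈ B0, (degIn G v B0 : ℝ) := by
    rw [e2_eq_sum]; push_cast; rfl
  have h1 : b0 ≤ (1 - ls + 4 * γ) * n := by
    by_contra hcon
    push Not at hcon
    have h2 : b0 * (b0 - (1 - ls) * n) ≤ γ * n ^ 2 := by
      refine le_trans ?_ hB0e
      rw [he2]
      have h3 : ∀ v ∈ B0, b0 - (1 - ls) * n ≤ (degIn G v B0 : ℝ) := by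
        intro v _
        have h4 := hdsplit v A0 B0 hAB0
        have h5 := hdle v A0
        linarith
      have h6 := Finset.sum_le_sum h3
      rw [Finset.sum_const, nsmul_eq_mul] at h6
      exact h6
    have h7 : 4 * γ * n < b0 - (1 - ls) * n := by linarith
    have h8 : n / 4 * (4 * γ * n) < b0 * (b0 - (1 - ls) * n) := by
      apply mul_lt_mul' hb0n h7 (by positivity) (by linarith)
    have h9 : n / 4 * (4 * γ * n) = γ * n ^ 2 := by ring
    linarith
  -- (2)
  have h2 : (∑ v ∈ B0, (misIn G v A0 : ℝ)) ≤ 2 * γ * n ^ 2 := by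
    have h3 : ∀ v ∈ B0, (misIn G v A0 : ℝ) ≤ γ * n + degIn G v B0 := by
      intro v _
      have h4 := hdsplit v A0 B0 hAB0
      have h5 := hdm v A0
      linarith
    have h6 := Finset.sum_le_sum h3
    rw [Finset.sum_add_distrib, Finset.sum_const, nsmul_eq_mul, ← he2] at h6
    have h7 : b0 * (γ * n) ≤ n * (γ * n) := mul_le_mul_of_nonneg_right hb0le (by positivity)
    have h8 : n * (γ * n) = γ * n ^ 2 := by ring
    linarith
  have h2' : (∑ v ∈ A0, (misIn G v B0 : ℝ)) ≤ 2 * γ * n ^ 2 := by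
    rw [sum_misIn_comm]; exact h2
  -- (3)
  set B : Finset V := Finset.univ.filter (fun v => (degIn G v B0 : ℝ) < τ * n) with hB
  set A : Finset V := Finset.univ \ B with hA
  have hmemB : ∀ v, v ∈ B ↔ (degIn G v B0 : ℝ) < τ * n := by
    intro v; simp [hB]
  have hmemA : ∀ v, v ∈ A ↔ τ * n ≤ (degIn G v B0 : ℝ) := by
    intro v; simp [hA, hmemB]
  have hABu : A ∪ B = Finset.univ := by
    ext x; by_cases hx : x ∈ B <;> simp [hA, hx]
  -- (3a)
  have h3a : ((B0 \ B).card : ℝ) ≤ κ * n := by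
    have h4 : ∀ v ∈ B0 \ B, τ * n ≤ (degIn G v B0 : ℝ) := by
      intro v hv
      rw [Finset.mem_sdiff, hmemB] at hv
      exact not_lt.mp hv.2
    have h5 := Finset.sum_le_sum h4
    rw [Finset.sum_const, nsmul_eq_mul] at h5
    have h6 : (∑ v ∈ B0 \ B, (degIn G v B0 : ℝ)) ≤ ∑ v ∈ B0, (degIn G v B0 : ℝ) :=
      Finset.sum_le_sum_of_subset_of_nonneg Finset.sdiff_subset (fun v _ _ => by positivity)
    rw [← he2] at h6
    have h7 : ((B0 \ B).card : ℝ) * (τ * n) ≤ κ * n * (τ * n) := by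
      have k1 : γ * n ^ 2 ≤ κ * τ * n ^ 2 := mul_le_mul_of_nonneg_right hγκ (by positivity)
      have k2 : κ * n * (τ * n) = κ * τ * n ^ 2 := by ring
      linarith
    exact le_of_mul_le_mul_right h7 (by positivity)
  -- (3b)
  have h3b : ((A0 ∩ B).card : ℝ) ≤ 2 * κ * n := by
    have h4 : ∀ v ∈ A0 ∩ B, n / 8 ≤ (misIn G v B0 : ℝ) := by
      intro v hv
      rw [Finset.mem_inter, hmemB] at hv
      have h5 := hdm v B0
      have h6 : τ * n ≤ 1 / 8 * n := mul_le_mul_of_nonneg_right hτ1 hn0.le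
      linarith
    have h5 := Finset.sum_le_sum h4
    rw [Finset.sum_const, nsmul_eq_mul] at h5
    have h6 : (∑ v ∈ A0 ∩ B, (misIn G v B0 : ℝ)) ≤ ∑ v ∈ A0, (misIn G v B0 : ℝ) :=
      Finset.sum_le_sum_of_subset_of_nonneg Finset.inter_subset_left
        (fun v _ _ => by positivity)
    have h7 : ((A0 ∩ B).card : ℝ) * (n / 8) ≤ 2 * κ * n * (n / 8) := by
      have k1 : 8 * γ * n ^ 2 ≤ κ * n ^ 2 := mul_le_mul_of_nonneg_right hγκ8 (by positivity)
      have k2 : 2 * κ * n * (n / 8) = κ * n ^ 2 / 4 := by ring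
      linarith
    exact le_of_mul_le_mul_right h7 (by positivity)
  have hBsub : B ⊆ B0 ∪ (A0 ∩ B) := by
    intro x hx
    by_cases hx0 : x ∈ B0
    · exact Finset.mem_union_left _ hx0
    · apply Finset.mem_union_right
      rw [Finset.mem_inter]
      exact ⟨by simp [hA0, hx0], hx⟩
  have hAsub : A ⊆ A0 ∪ (B0 \ B) := by
    intro x hx
    have hxB : x ∉ B := (Finset.mem_sdiff.mp hx).2
    by_cases hx0 : x ∈ B0
    · exact Finset.mem_union_right _ (Finset.mem_sdiff.mpr ⟨hx0, hxB⟩)
    · exact Finset.mem_union_left _ (by simp [hA0, hx0])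
  have hB0sub : B0 ⊆ B ∪ (B0 \ B) := by
    intro x hx
    by_cases hxB : x ∈ B
    · exact Finset.mem_union_left _ hxB
    · exact Finset.mem_union_right _ (Finset.mem_sdiff.mpr ⟨hx, hxB⟩)
  have hAcard : (A.card : ℝ) ≤ (ls + γ) * n + κ * n := by
    have h4 : A.card ≤ A0.card + (B0 \ B).card :=
      le_trans (Finset.card_le_card hAsub) (Finset.card_union_le _ _)
    have h5 : (A.card : ℝ) ≤ a0 + (B0 \ B).card := by rw [ha0]; exact_mod_cast h4
    linarith
  have hdB : ∀ v ∈ B, (degIn G v B : ℝ) ≤ τ * n + 2 * κ * n := by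
    intro v hv
    have h4 : degIn G v B ≤ degIn G v B0 + degIn G v (A0 ∩ B) :=
      le_trans (degIn_mono G v hBsub) (degIn_union_le G v _ _)
    have h5 : (degIn G v B : ℝ) ≤ degIn G v B0 + degIn G v (A0 ∩ B) := by exact_mod_cast h4
    have h6 := hdle v (A0 ∩ B)
    rw [hmemB] at hv
    linarith
  have hκn : κ * n ≤ τ / 64 * n := mul_le_mul_of_nonneg_right hκτ hn0.le
  have hγn : 8 * γ * n ≤ κ * n := mul_le_mul_of_nonneg_right hγκ8 hn0.le
  have hτn : 0 < τ * n := by positivity
  have hκn0 : 0 < κ * n := by positivity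
  refine ⟨A, B, Finset.sdiff_disjoint, hABu, ?_, ?_, ?_, ?_, ?_⟩
  · intro v hv
    have h4 := hdB v hv
    have k1 : 2 * κ * n = 2 * (κ * n) := by ring
    have k2 : 2 * τ * n = 2 * (τ * n) := by ring
    have k3 : τ / 64 * n = τ * n / 64 := by ring
    rw [k1] at h4
    rw [k2]
    rw [k3] at hκn
    linarith
  · intro v hv
    have h4 := hdB v hv
    have h5 := hdsplit v A B hABu
    have h6 := hdm v A
    have h7 : (misIn G v A : ℝ) = A.card - degIn G v A := by linarith
    have k1 : 2 * κ * n = 2 * (κ * n) := by ring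
    have k2 : 3 * τ * n = 3 * (τ * n) := by ring
    have k3 : τ / 64 * n = τ * n / 64 := by ring
    have k4 : (ls + γ) * n = ls * n + γ * n := by ring
    have k5 : 8 * γ * n = 8 * (γ * n) := by ring
    rw [k1] at h4
    rw [k2]
    rw [k3] at hκn
    rw [k4] at hAcard
    rw [k5] at hγn
    linarith
  · intro v hv
    rw [hmemA] at hv
    have h4 : degIn G v B0 ≤ degIn G v B + degIn G v (B0 \ B) :=
      le_trans (degIn_mono G v hB0sub) (degIn_union_le G v _ _)
    have h5 : (degIn G v B0 : ℝ) ≤ degIn G v B + degIn G v (B0 \ B) := by exact_mod_cast h4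
    have h6 := hdle v (B0 \ B)
    have k2 : τ / 2 * n = τ * n / 2 := by ring
    have k3 : τ / 64 * n = τ * n / 64 := by ring
    rw [k2]
    rw [k3] at hκn
    linarith
  · refine ⟨A.filter (fun v => τ * n < (misIn G v B : ℝ)), Finset.filter_subset _ _, ?_, ?_⟩
    · set D : Finset V := A.filter (fun v => τ * n < (misIn G v B : ℝ)) with hD
      -- missing pairs between A and B
      have hm1 : (∑ v ∈ A, (misIn G v B : ℝ)) ≤ 4 * κ * n ^ 2 := by
        have k1 : ∀ v : V, (misIn G v B : ℝ) ≤ misIn G v B0 + (A0 ∩ B).card := by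
          intro v
          have k2 : misIn G v B ≤ misIn G v B0 + misIn G v (A0 ∩ B) :=
            le_trans (misIn_mono G v hBsub) (misIn_union_le G v _ _)
          have k3 := misIn_le G v (A0 ∩ B)
          have k4 : misIn G v B ≤ misIn G v B0 + (A0 ∩ B).card := by omega
          exact_mod_cast k4
        have k5 : (∑ v ∈ A, (misIn G v B : ℝ)) ≤
            ∑ v ∈ A0 ∪ (B0 \ B), (misIn G v B : ℝ) :=
          Finset.sum_le_sum_of_subset_of_nonneg hAsub (fun v _ _ => by positivity)
        have k6 : (∑ v ∈ A0 ∪ (B0 \ B), (misIn G v B : ℝ)) =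
            (∑ v ∈ A0, (misIn G v B : ℝ)) + ∑ v ∈ B0 \ B, (misIn G v B : ℝ) := by
          apply Finset.sum_union
          rw [Finset.disjoint_left]
          intro x hx hx'
          rw [hA0, Finset.mem_sdiff] at hx
          exact hx.2 (Finset.mem_sdiff.mp hx').1
        have k7 : (∑ v ∈ A0, (misIn G v B : ℝ)) ≤ 2 * γ * n ^ 2 + n * (2 * κ * n) := by
          have k8 := Finset.sum_le_sum (s := A0) (fun v _ => k1 v)
          rw [Finset.sum_add_distrib, Finset.sum_const, nsmul_eq_mul] at k8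
          have k9 : a0 * ((A0 ∩ B).card : ℝ) ≤ n * (2 * κ * n) := by
            apply mul_le_mul _ h3b (by positivity) hn0.le
            have : (0 : ℝ) ≤ b0 := by rw [hb0]; positivity
            linarith
          linarith
        have k10 : (∑ v ∈ B0 \ B, (misIn G v B : ℝ)) ≤ κ * n * n := by
          have k11 : ∀ v ∈ B0 \ B, (misIn G v B : ℝ) ≤ n := by
            intro v _
            have k12 : misIn G v B ≤ Fintype.card V :=
              le_trans (misIn_le G v B) (Finset.card_le_univ B)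
            rw [hn]; exact_mod_cast k12
          have k13 := Finset.sum_le_sum k11
          rw [Finset.sum_const, nsmul_eq_mul] at k13
          refine le_trans k13 ?_
          exact mul_le_mul_of_nonneg_right h3a hn0.le
        have k14 : 8 * γ * n * n ≤ κ * n * n := mul_le_mul_of_nonneg_right hγn hn0.le
        have k15 : 8 * γ * n * n = 8 * (γ * n ^ 2) := by ring
        have k16 : κ * n * n = κ * n ^ 2 := by ring
        have k17 : 2 * γ * n ^ 2 + n * (2 * κ * n) = 2 * (γ * n ^ 2) + 2 * (κ * n ^ 2) := by ring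
        have k18 : 4 * κ * n ^ 2 = 4 * (κ * n ^ 2) := by ring
        have k19 : 0 ≤ κ * n ^ 2 := by positivity
        rw [k15, k16] at k14
        rw [k17] at k7
        rw [k16] at k10
        rw [k18]
        rw [k6] at k5
        linarith
      have hm2 : (D.card : ℝ) * (τ * n) ≤ ∑ v ∈ D, (misIn G v B : ℝ) := by
        have k1 : ∀ v ∈ D, τ * n ≤ (misIn G v B : ℝ) := by
          intro v hv
          exact (Finset.mem_filter.mp hv).2.le
        have k2 := Finset.sum_le_sum k1
        rw [Finset.sum_const, nsmul_eq_mul] at k2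
        exact k2
      have hm3 : (∑ v ∈ D, (misIn G v B : ℝ)) ≤ ∑ v ∈ A, (misIn G v B : ℝ) :=
        Finset.sum_le_sum_of_subset_of_nonneg (Finset.filter_subset _ _)
          (fun v _ _ => by positivity)
      have hm4 : (D.card : ℝ) * (τ * n) ≤ ζ * n * (τ * n) := by
        have k1 : κ * n ^ 2 ≤ τ * ζ / 64 * n ^ 2 :=
          mul_le_mul_of_nonneg_right hκζ (by positivity)
        have k2 : 0 ≤ τ * ζ * n ^ 2 := by positivity
        have k3 : 4 * κ * n ^ 2 = 4 * (κ * n ^ 2) := by ring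
        have k4 : τ * ζ / 64 * n ^ 2 = τ * ζ * n ^ 2 / 64 := by ring
        have k5 : ζ * n * (τ * n) = τ * ζ * n ^ 2 := by ring
        rw [k3] at hm1
        rw [k4] at k1
        rw [k5]
        linarith
      exact le_of_mul_le_mul_right hm4 (by positivity)
    · intro v hv hvD
      by_contra hcon
      push Not at hcon
      exact hvD (Finset.mem_filter.mpr ⟨hv, hcon⟩)
  · have h4 : (B.card : ℝ) ≤ b0 + (A0 ∩ B).card := by
      have : B.card ≤ B0.card + (A0 ∩ B).card :=
        le_trans (Finset.card_le_card hBsub) (Finset.card_union_le _ _)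
      rw [hb0]; exact_mod_cast this
    have h5 : b0 ≤ (B.card : ℝ) + (B0 \ B).card := by
      have : B0.card ≤ B.card + (B0 \ B).card :=
        le_trans (Finset.card_le_card hB0sub) (Finset.card_union_le _ _)
      rw [hb0]; exact_mod_cast this
    have h6 : 512 * κ * n ≤ ζ * n := mul_le_mul_of_nonneg_right hκζ' hn0.le
    have k1 : (1 - ls - γ) * n = n - ls * n - γ * n := by ring
    have k2 : (1 - ls + 4 * γ) * n = n - ls * n + 4 * (γ * n) := by ring
    have k3 : (1 - ls) * n = n - ls * n := by ring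
    have k4 : 2 * κ * n = 2 * (κ * n) := by ring
    have k5 : 512 * κ * n = 512 * (κ * n) := by ring
    have k6 : 8 * γ * n = 8 * (γ * n) := by ring
    have k7 : 0 < γ * n := by positivity
    rw [k1] at hB0c
    rw [k2] at h1
    rw [k3]
    rw [k4] at h3b
    rw [k5] at h6
    rw [k6] at hγn
    rw [abs_le]
    constructor
    · linarith
    · linarith

end Pool.Agent.MP_d32e04
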