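import Pool.Agent.Work.MP_d32e04_co.Tile

/-!
MP_d32e04_co, items 2 and 3: complete bipartite graphs with sizes in `Tb`.
-/

set_option autoImplicit false

namespace Pool.Agent.MP_d32e04

open Finset

/-- **Item 2.** -/
theorem tbTiled (ht : TileStmt) : TbTiledStmt := by
  intro h H V _ G P Q hH hC ⟨L, hL1, hL2⟩
  induction L generalizing P Q with
  | nil =>
    have h1 : P = ∅ := Finset.card_eq_zero.mp hL1.symm
    have h2 : Q = ∅ := Finset.card_eq_zero.mp hL2.symm
    rw [h1, h2, Finset.union_empty]
    exact Tiled.empty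
  | cons t L ih =>
    rw [List.map_cons, List.sum_cons] at hL1 hL2
    obtain ⟨X, j⟩ := t
    simp only at hL1 hL2
    have c1 := aN_pos hH X
    have c2 := bN_pos hH X
    obtain ⟨P1, hP1, hP1c⟩ := Finset.exists_subset_card_eq (s := P) (n := aN H X + j) (by omega)
    obtain ⟨Q1, hQ1, hQ1c⟩ := Finset.exists_subset_card_eq (s := Q) (n := bN H X + j) (by omega)
    obtain ⟨x, hx⟩ : P1.Nonempty := by rw [← Finset.card_pos]; omega
    obtain ⟨y, hy⟩ : Q1.Nonempty := by rw [← Finset.card_pos]; omega
    have k1 : Tiled H G (P1 ∪ Q1) := by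
      have := ht h H V G X j P1 Q1 x y [] hH (hC.mono hP1 hQ1) hP1c hQ1c hx hy List.nodup_nil
        (fun r hr => absurd hr List.not_mem_nil)
        (List.IsChain.cons_cons (hC _ (hP1 hx) _ (hQ1 hy)) (List.IsChain.singleton _))
      rw [List.toFinset_nil, Finset.union_empty] at this
      exact Tiled.of_tile this
    have k2 : Tiled H G ((P \ P1) ∪ (Q \ Q1)) := by
      apply ih
      · exact hC.mono Finset.sdiff_subset Finset.sdiff_subset
      · rw [Finset.card_sdiff_of_subset hP1]; omega
      · rw [Finset.card_sdiff_of_subset hQ1]; omega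
    have hd : Disjoint (P1 ∪ Q1) ((P \ P1) ∪ (Q \ Q1)) := by
      have hPQ := hC.disjoint
      rw [Finset.disjoint_left] at hPQ ⊢
      intro v hv hv'
      simp only [Finset.mem_union, Finset.mem_sdiff] at hv hv'
      rcases hv with hv | hv <;> rcases hv' with hv' | hv'
      · exact hv'.2 hv
      · exact hPQ (hP1 hv) hv'.1
      · exact hPQ hv'.1 (hQ1 hv)
      · exact hv'.2 hv
    refine (k1.union k2 hd).congr ?_
    ext v
    simp only [Finset.mem_union, Finset.mem_sdiff]
    constructor
    · rintro ((h1 | h1) | (h1 | h1))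
      · exact Or.inl (hP1 h1)
      · exact Or.inr (hQ1 h1)
      · exact Or.inl h1.1
      · exact Or.inr h1.1
    · rintro (h1 | h1)
      · by_cases h2 : v ∈ P1
        · exact Or.inl (Or.inl h2)
        · exact Or.inr (Or.inl ⟨h1, h2⟩)
      · by_cases h2 : v ∈ Q1
        · exact Or.inl (Or.inr h2)
        · exact Or.inr (Or.inr ⟨h1, h2⟩)

/-- **Item 3.** -/
theorem tbBal : TbBalStmt := by
  intro h H a b g hpar z hz
  obtain ⟨L, hL, hsum⟩ := hpar.gen z hz
  have key : ((L.map (fun X => bN H X)).sum : ℤ) - ((L.map (fun X => aN H X)).sum : ℤ) = z := by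
    rw [← hsum]
    clear hsum hL
    induction L with
    | nil => simp
    | cons X L ih =>
      simp only [List.map_cons, List.sum_cons, Nat.cast_add]
      rw [← ih]
      ring
  refine ⟨(L.map (fun X => aN H X)).sum, fun p q hp hq => ?_⟩
  obtain ⟨X0, L', rfl⟩ := List.exists_cons_of_ne_nil hL
  simp only [List.map_cons, List.sum_cons] at key hp
  refine ⟨(X0, p - (aN H X0 + (L'.map (fun X => aN H X)).sum)) :: L'.map (fun X => (X, 0)),
    ?_, ?_⟩
  · rw [List.map_cons, List.sum_cons, List.map_map]
    have e : L'.map ((fun t : Finset (Fin h) × ℕ => aN H t.1 + t.2) ∘ fun X => (X, 0)) =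
        L'.map (fun X => aN H X) := List.map_congr_left (fun _ _ => rfl)
    rw [e]
    show aN H X0 + (p - (aN H X0 + (L'.map (fun X => aN H X)).sum)) + _ = p
    omega
  · rw [List.map_cons, List.sum_cons, List.map_map]
    have e : L'.map ((fun t : Finset (Fin h) × ℕ => bN H t.1 + t.2) ∘ fun X => (X, 0)) =
        L'.map (fun X => bN H X) := List.map_congr_left (fun _ _ => rfl)
    rw [e]
    show bN H X0 + (p - (aN H X0 + (L'.map (fun X => aN H X)).sum)) + _ = q
    omega

end Pool.Agent.MP_d32e04
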