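import Pool.Agent.Work.MP_d32e04_co.Basic

/-!
MP_d32e04_co, item 13: almost perfect tiling of the whole graph.
-/

set_option autoImplicit false

namespace Pool.Agent.MP_d32e04

open Finset

lemma exists_disjoint_family {V ι : Type} [DecidableEq V] [DecidableEq ι] (s : Finset ι)
    (f : ι → ℕ) : ∀ S : Finset V, ∑ i ∈ s, f i ≤ S.card →
    ∃ g : ι → Finset V, (∀ i ∈ s, g i ⊆ S ∧ (g i).card = f i) ∧
      ∀ i ∈ s, ∀ j ∈ s, i ≠ j → Disjoint (g i) (g j) := by
  induction s using Finset.induction_on with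
  | empty => intro S _; exact ⟨fun _ => ∅, by simp, by simp⟩
  | insert i s hi ih =>
    intro S hS
    rw [Finset.sum_insert hi] at hS
    obtain ⟨T, hTS, hTc⟩ := Finset.exists_subset_card_eq (show f i ≤ S.card by omega)
    have h1 : ∑ j ∈ s, f j ≤ (S \ T).card := by
      rw [Finset.card_sdiff_of_subset hTS]; omega
    obtain ⟨g, hg1, hg2⟩ := ih (S \ T) h1
    refine ⟨fun j => if j = i then T else g j, ?_, ?_⟩
    · intro j hj
      rcases Finset.mem_insert.mp hj with rfl | hj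
      · simp only [if_true]; exact ⟨hTS, hTc⟩
      · have hne : j ≠ i := fun h => hi (h ▸ hj)
        simp only [hne, if_false]
        exact ⟨(hg1 j hj).1.trans Finset.sdiff_subset, (hg1 j hj).2⟩
    · intro j hj l hl hne
      have hTd : ∀ j ∈ s, Disjoint T (g j) := by
        intro j hj
        exact (Finset.disjoint_sdiff.mono_right (hg1 j hj).1)
      rcases Finset.mem_insert.mp hj with h5 | h5 <;> rcases Finset.mem_insert.mp hl with h6 | h6
      · exact absurd (h5.trans h6.symm) hne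
      · have h7 : l ≠ i := fun h => hi (h ▸ h6)
        simp only [h5, h7, if_true, if_false]; exact hTd l h6
      · have h7 : j ≠ i := fun h => hi (h ▸ h5)
        simp only [h6, h7, if_true, if_false]; exact (hTd j h5).symm
      · have h7 : l ≠ i := fun h => hi (h ▸ h6)
        have h8 : j ≠ i := fun h => hi (h ▸ h5)
        simp only [h7, h8, if_false]; exact hg2 j h5 l h6 hne

lemma Extr.mono {V : Type} [Fintype V] {G : SimpleGraph V} {ls γ γ' : ℝ} (h : γ ≤ γ')
    (hE : Extr G ls γ) : Extr G ls γ' := by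
  obtain ⟨B, h1, h2⟩ := hE
  refine ⟨B, le_trans ?_ h1, h2.trans ?_⟩
  · have : (0 : ℝ) ≤ Fintype.card V := Nat.cast_nonneg _
    nlinarith
  · have : (0 : ℝ) ≤ (Fintype.card V : ℝ) ^ 2 := by positivity
    nlinarith

lemma e2_biUnion_left {V ι : Type} [DecidableEq V] [DecidableEq ι] (G : SimpleGraph V)
    (s : Finset ι) (f : ι → Finset V) (T : Finset V)
    (hd : ∀ i ∈ s, ∀ j ∈ s, i ≠ j → Disjoint (f i) (f j)) :
    e2 G (s.biUnion f) T = ∑ i ∈ s, e2 G (f i) T := by
  rw [e2_eq_sum, Finset.sum_biUnion]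
  · exact Finset.sum_congr rfl fun i _ => (e2_eq_sum G (f i) T).symm
  · intro i hi j hj hne
    exact hd i hi j hj hne

/-- the reduced graph has large minimum degree and no large independent set -/
lemma reduced_props {V : Type} [Fintype V] [DecidableEq V] (G : SimpleGraph V)
    {ls γ θ ε d : ℝ} (hε : 0 < ε) (hε1 : ε ≤ 1 / 2) (hls2 : ls < 1 / 2)
    (hγ2 : γ ≤ 1 / 4) (hρ : 0 < ls - θ - 4 * d - 4 * ε) (hd : 4 * d + 4 * ε ≤ γ) (hd0 : 0 < d)
    {k m : ℕ} (Vc : Fin k → Finset V) (R : SimpleGraph (Fin k)) (hm : 0 < m)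
    (hcard : ∀ i, (Vc i).card = m) (hdisj : ∀ i j, i ≠ j → Disjoint (Vc i) (Vc j))
    (hcover : (1 - ε) * (Fintype.card V : ℝ) ≤ (k : ℝ) * m)
    (hkm : (k : ℝ) * m ≤ Fintype.card V)
    (hsum : ∀ i, (e2 G (Vc i) Finset.univ : ℝ) ≤ (∑ j ∈ nb R i, (e2 G (Vc i) (Vc j) : ℝ)) +
        (4 * d + 4 * ε) * m * Fintype.card V)
    (hdeg : ∀ v, (ls - θ) * (Fintype.card V : ℝ) ≤ degIn G v Finset.univ)
    (hext : ¬ Extr G ls γ) :
    (∀ i, (ls - θ - 4 * d - 4 * ε) * k ≤ (nb R i).card) ∧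
    ∀ I : Finset (Fin k), (∀ i ∈ I, ∀ j ∈ I, ¬ R.Adj i j) →
      (I.card : ℝ) ≤ (1 - ls - γ) / (1 - ε) * k := by
  have hm' : (0 : ℝ) < m := by exact_mod_cast hm
  have hn0 : (0 : ℝ) ≤ Fintype.card V := Nat.cast_nonneg _
  constructor
  · intro i
    have e1 : (m : ℝ) * ((ls - θ) * Fintype.card V) ≤ e2 G (Vc i) Finset.univ := by
      rw [e2_eq_sum]
      push_cast
      calc (m : ℝ) * ((ls - θ) * Fintype.card V) = ∑ _v ∈ Vc i, (ls - θ) * (Fintype.card V : ℝ) := by
            rw [Finset.sum_const, hcard, nsmul_eq_mul]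
        _ ≤ _ := Finset.sum_le_sum fun v _ => hdeg v
    have e2' : (∑ j ∈ nb R i, (e2 G (Vc i) (Vc j) : ℝ)) ≤ (nb R i).card * ((m : ℝ) * m) := by
      calc (∑ j ∈ nb R i, (e2 G (Vc i) (Vc j) : ℝ)) ≤ ∑ _j ∈ nb R i, ((m : ℝ) * m) := by
            apply Finset.sum_le_sum
            intro j _
            have := e2_le G (Vc i) (Vc j)
            rw [hcard, hcard] at this
            exact_mod_cast this
        _ = _ := by rw [Finset.sum_const, nsmul_eq_mul]
    have e3 := hsum i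
    have e4 : (m : ℝ) * ((ls - θ - 4 * d - 4 * ε) * Fintype.card V) ≤
        (nb R i).card * ((m : ℝ) * m) := by linarith
    have e5 : (m : ℝ) * ((ls - θ - 4 * d - 4 * ε) * (k * m)) ≤
        (nb R i).card * ((m : ℝ) * m) := by
      refine le_trans ?_ e4
      apply mul_le_mul_of_nonneg_left _ hm'.le
      exact mul_le_mul_of_nonneg_left hkm hρ.le
    have e6 : (ls - θ - 4 * d - 4 * ε) * k * ((m : ℝ) * m) ≤ (nb R i).card * ((m : ℝ) * m) := by
      linarith
    exact le_of_mul_le_mul_right e6 (by positivity)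
  · intro I hI
    by_contra hlt
    rw [not_le] at hlt
    apply hext
    set U := I.biUnion Vc with hU
    have hUc : (U.card : ℝ) = I.card * m := by
      rw [hU, Finset.card_biUnion (fun i _ j _ hne => hdisj i j hne)]
      simp only [hcard, Finset.sum_const, smul_eq_mul]
      push_cast
      ring
    have h1e : 0 < 1 - ε := by linarith
    refine ⟨U, ?_, ?_⟩
    · rw [hUc]
      have h3 : (1 - ls - γ) * (k : ℝ) < I.card * (1 - ε) := by
        rw [div_mul_eq_mul_div, div_lt_iff₀ h1e] at hlt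
        exact hlt
      have h4 : (1 - ls - γ) * ((1 - ε) * (Fintype.card V : ℝ)) ≤ (1 - ls - γ) * (k * m) :=
        mul_le_mul_of_nonneg_left hcover (by linarith)
      have h5 : (1 - ls - γ) * (k * m) ≤ (I.card * m) * (1 - ε) := by
        have := mul_le_mul_of_nonneg_right h3.le hm'.le
        linarith
      have h6 : (1 - ls - γ) * (Fintype.card V : ℝ) * (1 - ε) ≤ (I.card * m) * (1 - ε) := by
        linarith
      exact le_of_mul_le_mul_right h6 h1e
    · have h2 : ∀ i ∈ I, (e2 G (Vc i) U : ℝ) ≤ (4 * d + 4 * ε) * m * Fintype.card V := by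
        intro i hi
        have h3 := hsum i
        have hdUn : Disjoint U ((nb R i).biUnion Vc) := by
          rw [hU, Finset.disjoint_biUnion_left]
          intro j hj
          rw [Finset.disjoint_biUnion_right]
          intro l hl
          apply hdisj
          rintro rfl
          rw [mem_nb] at hl
          exact hI i hi j hj hl
        have h4 : (e2 G (Vc i) U : ℝ) + ∑ j ∈ nb R i, (e2 G (Vc i) (Vc j) : ℝ) ≤
            e2 G (Vc i) Finset.univ := by
          have h5 : e2 G (Vc i) U + e2 G (Vc i) ((nb R i).biUnion Vc) ≤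
              e2 G (Vc i) Finset.univ := by
            have h6 : e2 G (U ∪ (nb R i).biUnion Vc) (Vc i) =
                e2 G U (Vc i) + e2 G ((nb R i).biUnion Vc) (Vc i) := by
              rw [e2_eq_sum, Finset.sum_union hdUn, e2_eq_sum, e2_eq_sum]
            rw [e2_comm G (Vc i) U, e2_comm G (Vc i) ((nb R i).biUnion Vc), ← h6,
              e2_comm G (Vc i) Finset.univ]
            exact e2_mono G (Finset.subset_univ _) (Finset.Subset.refl _)
          have h7 : e2 G (Vc i) ((nb R i).biUnion Vc) = ∑ j ∈ nb R i, e2 G (Vc i) (Vc j) := by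
            rw [e2_comm, e2_biUnion_left G _ _ _ (fun i _ j _ hne => hdisj i j hne)]
            exact Finset.sum_congr rfl fun j _ => e2_comm G _ _
          rw [h7] at h5
          exact_mod_cast h5
        linarith
      rw [hU, e2_biUnion_left G _ _ _ (fun i _ j _ hne => hdisj i j hne)]
      push_cast
      calc (∑ i ∈ I, (e2 G (Vc i) (I.biUnion Vc) : ℝ)) ≤
            ∑ _i ∈ I, (4 * d + 4 * ε) * m * Fintype.card V := Finset.sum_le_sum h2
        _ = (4 * d + 4 * ε) * Fintype.card V * (I.card * m) := by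
            rw [Finset.sum_const, nsmul_eq_mul]; ring
        _ ≤ (4 * d + 4 * ε) * Fintype.card V * Fintype.card V := by
            apply mul_le_mul_of_nonneg_left _ (by positivity)
            refine le_trans ?_ hkm
            apply mul_le_mul_of_nonneg_right _ hm'.le
            have : I.card ≤ k := by simpa using Finset.card_le_univ I
            exact_mod_cast this
        _ ≤ γ * (Fintype.card V : ℝ) ^ 2 := by
            have : (0 : ℝ) ≤ (Fintype.card V : ℝ) ^ 2 := by positivity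
            nlinarith

/-- From a fractional tiling of the reduced graph to tiles. -/
lemma tiles_of_fractional {V : Type} [Fintype V] [DecidableEq V] (G : SimpleGraph V)
    {a b : ℕ} {ε d : ℝ} (hε : 0 ≤ ε) {k m : ℕ} (Vc : Fin k → Finset V)
    (R : SimpleGraph (Fin k))
    (hcard : ∀ i, (Vc i).card = m) (hdisj : ∀ i j, i ≠ j → Disjoint (Vc i) (Vc j))
    (hdense : ∀ i j, R.Adj i j → ∀ X ⊆ Vc i, ∀ Y ⊆ Vc j, ε * m ≤ X.card → ε * m ≤ Y.card →
        d * X.card * Y.card ≤ e2 G X Y)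
    (hpair : ∀ (P Q : Finset V) (t : ℕ), P.card = a * t → Q.card = b * t → Disjoint P Q →
      (∀ X ⊆ P, ∀ Y ⊆ Q, ε * m ≤ X.card → ε * m ≤ Y.card → d * X.card * Y.card ≤ e2 G X Y) →
      ∃ 𝒯 : Finset (Finset V × Finset V),
        (∀ p ∈ 𝒯, p.1 ⊆ P ∧ p.2 ⊆ Q ∧ p.1.card = a ∧ p.2.card = b ∧ Cpl G p.1 p.2) ∧
        (∀ p ∈ 𝒯, ∀ p' ∈ 𝒯, p ≠ p' → Disjoint (p.1 ∪ p.2) (p'.1 ∪ p'.2)) ∧
        ((((P ∪ Q) \ 𝒯.biUnion (fun p => p.1 ∪ p.2)).card : ℕ) : ℝ) ≤
          ((a : ℝ) + b) * (ε * m + 1))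
    (x : Fin k → Fin k → ℝ) (hx0 : ∀ i j, 0 ≤ x i j) (hxR : ∀ i j, ¬ R.Adj i j → x i j = 0)
    (hx1 : ∀ i, ∑ j, (a * x i j + b * x j i) = 1)
    (hxs : ((Finset.univ : Finset (Fin k × Fin k)).filter (fun p => x p.1 p.2 ≠ 0)).card ≤ k + 1) :
    ∃ 𝒯 : Finset (Finset V × Finset V),
      (∀ p ∈ 𝒯, p.1.card = a ∧ p.2.card = b ∧ Cpl G p.1 p.2) ∧
      (∀ p ∈ 𝒯, ∀ p' ∈ 𝒯, p ≠ p' → Disjoint (p.1 ∪ p.2) (p'.1 ∪ p'.2)) ∧
      (k : ℝ) * m - ((a : ℝ) + b) * ((k : ℝ) + 1) * (ε * m + 2) ≤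
        ((𝒯.biUnion (fun p => p.1 ∪ p.2)).card : ℝ) := by
  classical
  let t : Fin k → Fin k → ℕ := fun i j => ⌊x i j * m⌋₊
  have hm0 : (0 : ℝ) ≤ m := Nat.cast_nonneg _
  have ht1 : ∀ i j, (t i j : ℝ) ≤ x i j * m := fun i j =>
    Nat.floor_le (mul_nonneg (hx0 i j) hm0)
  have ht2 : ∀ i j, x i j * m - 1 ≤ (t i j : ℝ) := fun i j => by
    have := Nat.lt_floor_add_one (x i j * m)
    show _ ≤ ((⌊x i j * m⌋₊ : ℕ) : ℝ)
    linarith
  -- the pieces of each cluster
  have hpieces : ∀ i, ∃ g : Fin k × Bool → Finset V,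
      (∀ j, g (j, false) ⊆ Vc i ∧ (g (j, false)).card = a * t i j) ∧
      (∀ j, g (j, true) ⊆ Vc i ∧ (g (j, true)).card = b * t j i) ∧
      ∀ u v, u ≠ v → Disjoint (g u) (g v) := by
    intro i
    have hle : ∑ u : Fin k × Bool, (if u.2 then b * t u.1 i else a * t i u.1) ≤ (Vc i).card := by
      rw [hcard, Fintype.sum_prod_type]
      have h1 : ((∑ j : Fin k, ∑ c : Bool, (if (j, c).2 then b * t (j, c).1 i else
          a * t i (j, c).1) : ℕ) : ℝ) ≤ m := by
        push_cast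
        calc (∑ j : Fin k, ∑ c : Bool, (if (j, c).2 then (b : ℝ) * (t (j, c).1 i : ℝ) else
              (a : ℝ) * (t i (j, c).1 : ℝ)))
            = ∑ j : Fin k, ((a : ℝ) * t i j + b * t j i) := by
              apply Finset.sum_congr rfl
              intro j _
              rw [Fintype.sum_bool]
              simp only [if_true, Bool.false_eq_true, if_false]
              ring
          _ ≤ ∑ j : Fin k, (a * x i j + b * x j i) * m := by
              apply Finset.sum_le_sum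
              intro j _
              have h2 := mul_le_mul_of_nonneg_left (ht1 i j) (Nat.cast_nonneg (α := ℝ) a)
              have h3 := mul_le_mul_of_nonneg_left (ht1 j i) (Nat.cast_nonneg (α := ℝ) b)
              nlinarith
          _ = m := by rw [← Finset.sum_mul, hx1, one_mul]
      exact_mod_cast h1
    obtain ⟨g, hg1, hg2⟩ := exists_disjoint_family Finset.univ _ (Vc i) hle
    refine ⟨g, ?_, ?_, ?_⟩
    · intro j
      have := hg1 (j, false) (Finset.mem_univ _)
      simpa using this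
    · intro j
      have := hg1 (j, true) (Finset.mem_univ _)
      simpa using this
    · intro u v huv
      exact hg2 u (Finset.mem_univ _) v (Finset.mem_univ _) huv
  choose g hgP hgQ hgd using hpieces
  let P : Fin k × Fin k → Finset V := fun p => g p.1 (p.2, false)
  let Q : Fin k × Fin k → Finset V := fun p => g p.2 (p.1, true)
  have hPQ : ∀ p q : Fin k × Fin k, p ≠ q → Disjoint (P p) (P q) := by
    intro p q hpq
    by_cases h1 : p.1 = q.1
    · have h2 : p.2 ≠ q.2 := fun h => hpq (Prod.ext h1 h)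
      show Disjoint (g p.1 (p.2, false)) (g q.1 (q.2, false))
      rw [h1]
      exact hgd _ _ _ (fun h => h2 (Prod.ext_iff.1 h).1)
    · exact (hdisj _ _ h1).mono (hgP _ _).1 (hgP _ _).1
  have hQQ : ∀ p q : Fin k × Fin k, p ≠ q → Disjoint (Q p) (Q q) := by
    intro p q hpq
    by_cases h1 : p.2 = q.2
    · have h2 : p.1 ≠ q.1 := fun h => hpq (Prod.ext h h1)
      show Disjoint (g p.2 (p.1, true)) (g q.2 (q.1, true))
      rw [h1]
      exact hgd _ _ _ (fun h => h2 (Prod.ext_iff.1 h).1)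
    · exact (hdisj _ _ h1).mono (hgQ _ _).1 (hgQ _ _).1
  have hPQ' : ∀ p q : Fin k × Fin k, Disjoint (P p) (Q q) := by
    intro p q
    by_cases h1 : p.1 = q.2
    · show Disjoint (g p.1 (p.2, false)) (g q.2 (q.1, true))
      rw [h1]
      exact hgd _ _ _ (fun h => by simpa using (Prod.ext_iff.1 h).2)
    · exact (hdisj _ _ h1).mono (hgP _ _).1 (hgQ _ _).1
  set S := (Finset.univ : Finset (Fin k × Fin k)).filter (fun p => x p.1 p.2 ≠ 0) with hS
  have hSR : ∀ p ∈ S, R.Adj p.1 p.2 := by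
    intro p hp
    by_contra hR
    rw [hS, Finset.mem_filter] at hp
    exact hp.2 (hxR _ _ hR)
  have htiles : ∀ p : Fin k × Fin k, ∃ 𝒯 : Finset (Finset V × Finset V), p ∈ S →
      (∀ q ∈ 𝒯, q.1 ⊆ P p ∧ q.2 ⊆ Q p ∧ q.1.card = a ∧ q.2.card = b ∧ Cpl G q.1 q.2) ∧
        (∀ q ∈ 𝒯, ∀ q' ∈ 𝒯, q ≠ q' → Disjoint (q.1 ∪ q.2) (q'.1 ∪ q'.2)) ∧
        ((((P p ∪ Q p) \ 𝒯.biUnion (fun q => q.1 ∪ q.2)).card : ℕ) : ℝ) ≤
          ((a : ℝ) + b) * (ε * m + 1) := by
    intro p
    by_cases hp : p ∈ S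
    · obtain ⟨𝒯, h𝒯⟩ := hpair (P p) (Q p) (t p.1 p.2) (hgP _ _).2 (hgQ _ _).2 (hPQ' p p) (by
        intro X hX Y hY
        exact hdense _ _ (hSR p hp) X (hX.trans (hgP _ _).1) Y (hY.trans (hgQ _ _).1))
      exact ⟨𝒯, fun _ => h𝒯⟩
    · exact ⟨∅, fun h => absurd h hp⟩
  choose 𝒯 h𝒯 using htiles
  let U : Fin k × Fin k → Finset V := fun p => (𝒯 p).biUnion (fun q => q.1 ∪ q.2)
  have hU : ∀ p ∈ S, U p ⊆ P p ∪ Q p := by
    intro p hp v hv
    obtain ⟨q, hq, hv⟩ := Finset.mem_biUnion.1 hv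
    obtain ⟨h1, h2, -⟩ := (h𝒯 p hp).1 q hq
    rcases Finset.mem_union.1 hv with h3 | h3
    · exact Finset.mem_union_left _ (h1 h3)
    · exact Finset.mem_union_right _ (h2 h3)
  have hUd : ∀ p ∈ S, ∀ q ∈ S, p ≠ q → Disjoint (P p ∪ Q p) (P q ∪ Q q) := by
    intro p _ q _ hpq
    rw [Finset.disjoint_union_left, Finset.disjoint_union_right, Finset.disjoint_union_right]
    exact ⟨⟨hPQ p q hpq, hPQ' p q⟩, (hPQ' q p).symm, hQQ p q hpq⟩
  refine ⟨S.biUnion 𝒯, ?_, ?_, ?_⟩
  · intro q hq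
    obtain ⟨p, hp, hq⟩ := Finset.mem_biUnion.1 hq
    obtain ⟨-, -, h1, h2, h3⟩ := (h𝒯 p hp).1 q hq
    exact ⟨h1, h2, h3⟩
  · intro q hq q' hq' hne
    obtain ⟨p, hp, hq⟩ := Finset.mem_biUnion.1 hq
    obtain ⟨p', hp', hq'⟩ := Finset.mem_biUnion.1 hq'
    by_cases hpp : p = p'
    · subst hpp
      exact (h𝒯 p hp).2.1 q hq q' hq' hne
    · refine (hUd p hp p' hp' hpp).mono ?_ ?_
      · exact Finset.union_subset_union ((h𝒯 p hp).1 q hq).1 ((h𝒯 p hp).1 q hq).2.1
      · exact Finset.union_subset_union ((h𝒯 p' hp').1 q' hq').1 ((h𝒯 p' hp').1 q' hq').2.1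
  · have h1 : (S.biUnion 𝒯).biUnion (fun p => p.1 ∪ p.2) = S.biUnion U := by
      rw [Finset.biUnion_biUnion]
    rw [h1, Finset.card_biUnion (fun p hp q hq hne =>
      (hUd p hp q hq hne).mono (hU p hp) (hU q hq))]
    push_cast
    have h2 : ∀ p ∈ S, ((a : ℝ) + b) * (x p.1 p.2 * m) - ((a : ℝ) + b) * (ε * m + 2) ≤
        ((U p).card : ℝ) := by
      intro p hp
      have h3 := (h𝒯 p hp).2.2
      have h4 : (P p ∪ Q p).card = (U p).card + ((P p ∪ Q p) \ U p).card := by
        rw [Finset.card_sdiff_of_subset (hU p hp)]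
        have := Finset.card_le_card (hU p hp)
        omega
      have h5 : (P p ∪ Q p).card = a * t p.1 p.2 + b * t p.1 p.2 := by
        rw [Finset.card_union_of_disjoint (hPQ' p p)]
        congr 1
        · exact (hgP _ _).2
        · exact (hgQ _ _).2
      have h6 : ((U p).card : ℝ) + (((P p ∪ Q p) \ U p).card : ℝ) =
          ((a : ℝ) + b) * t p.1 p.2 := by
        have : (((U p).card + ((P p ∪ Q p) \ U p).card : ℕ) : ℝ) =
            ((a * t p.1 p.2 + b * t p.1 p.2 : ℕ) : ℝ) := by rw [← h4, h5]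
        push_cast at this
        rw [this]; ring
      have h7 := mul_le_mul_of_nonneg_left (ht2 p.1 p.2)
        (show (0 : ℝ) ≤ (a : ℝ) + b by positivity)
      have h8 : (((P p ∪ Q p) \ U p).card : ℝ) ≤ ((a : ℝ) + b) * (ε * m + 1) := h3
      nlinarith
    have h3 : ∑ p ∈ S, ((a : ℝ) + b) * (x p.1 p.2 * m) = (k : ℝ) * m := by
      have h4 : ∑ p ∈ S, ((a : ℝ) + b) * (x p.1 p.2 * m) =
          ∑ p : Fin k × Fin k, ((a : ℝ) + b) * (x p.1 p.2 * m) := by
        apply Finset.sum_subset (Finset.subset_univ _)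
        intro p _ hp
        have : x p.1 p.2 = 0 := by
          by_contra h
          exact hp (by rw [hS, Finset.mem_filter]; exact ⟨Finset.mem_univ _, h⟩)
        rw [this]; ring
      rw [h4, Fintype.sum_prod_type]
      have h5 : ∑ i : Fin k, ∑ j : Fin k, (a * x i j + b * x j i) = (k : ℝ) := by
        simp only [hx1, Finset.sum_const, Finset.card_univ, Fintype.card_fin, nsmul_eq_mul,
          mul_one]
      have h6 : ∑ i : Fin k, ∑ j : Fin k, x j i = ∑ i : Fin k, ∑ j : Fin k, x i j :=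
        Finset.sum_comm
      have h7 : ((a : ℝ) + b) * ∑ i : Fin k, ∑ j : Fin k, x i j = k := by
        rw [← h5]
        simp only [Finset.sum_add_distrib, ← Finset.mul_sum]
        rw [h6]; ring
      rw [← h7]
      simp only [← Finset.mul_sum, ← Finset.sum_mul]
      ring
    have h9 : (S.card : ℝ) ≤ (k : ℝ) + 1 := by exact_mod_cast hxs
    calc (k : ℝ) * m - ((a : ℝ) + b) * ((k : ℝ) + 1) * (ε * m + 2)
        ≤ (k : ℝ) * m - S.card * (((a : ℝ) + b) * (ε * m + 2)) := by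
          have h10 := mul_le_mul_of_nonneg_right h9
            (show (0 : ℝ) ≤ ((a : ℝ) + b) * (ε * m + 2) by positivity)
          linarith
      _ = ∑ p ∈ S, (((a : ℝ) + b) * (x p.1 p.2 * m) - ((a : ℝ) + b) * (ε * m + 2)) := by
          rw [Finset.sum_sub_distrib, h3, Finset.sum_const, nsmul_eq_mul]
      _ ≤ _ := Finset.sum_le_sum h2

/-- the pieces of the final computation -/
lemma final_calc {n k m K a b ε μ u U : ℝ} (hε : 0 ≤ ε) (hk : 1 ≤ k) (hkK : k ≤ K)
    (ha : 0 ≤ a) (hb : 0 ≤ b) (hn : 0 ≤ n)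
    (hcover : (1 - ε) * n ≤ k * m) (hkm : k * m ≤ n) (hm : 0 ≤ m)
    (hU : k * m - (a + b) * (k + 1) * (ε * m + 2) ≤ U) (hu : u = n - U)
    (h1 : ε * (1 + 2 * (a + b)) ≤ μ / 2) (h2 : 4 * (a + b) * K ≤ μ / 2 * n) :
    u ≤ μ * n := by
  have hab : 0 ≤ a + b := by linarith
  have h3 : (a + b) * (k + 1) * (ε * m + 2) ≤ (a + b) * (2 * ε * n + 4 * K) := by
    have h4 : (k + 1) * (ε * m + 2) ≤ 2 * ε * n + 4 * K := by
      have h5 : (k + 1) * (ε * m + 2) ≤ (2 * k) * (ε * m + 2) := by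
        apply mul_le_mul_of_nonneg_right (by linarith) (by positivity)
      have h6 : ε * (k * m) ≤ ε * n := mul_le_mul_of_nonneg_left hkm hε
      nlinarith
    have := mul_le_mul_of_nonneg_left h4 hab
    linarith
  have h7 := mul_le_mul_of_nonneg_right h1 hn
  nlinarith

/-- item 13 -/
theorem almost0 (h1 : RegStmt) (h2 : LPStmt) (h3 : PairStmt) : Almost0Stmt := by
  intro a b ls γ0 ha hab hls hls2 habls hγ0
  have ha' : (1 : ℝ) ≤ a := by exact_mod_cast ha
  have hab' : (a : ℝ) < b := by exact_mod_cast hab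
  have hb' : (0 : ℝ) < b := by linarith
  set γ := min γ0 (ls / 2) with hγ
  have hγpos : 0 < γ := lt_min hγ0 (by linarith)
  have hγls : γ ≤ ls / 2 := min_le_right _ _
  have hγγ : γ ≤ γ0 := min_le_left _ _
  set q := a * γ / b with hq
  have hqpos : 0 < q := by positivity
  have hbq : b * q = a * γ := by rw [hq]; field_simp
  have hqγ : q ≤ γ := by
    rw [hq, div_le_iff₀ hb']
    nlinarith
  refine ⟨q / 4, by positivity, ?_⟩
  intro μ hμ
  set ε := min (q / 20) (μ / (2 * (1 + 2 * (a + b)))) with hε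
  have hden : (0 : ℝ) < 2 * (1 + 2 * (a + b)) := by positivity
  have hεpos : 0 < ε := lt_min (by positivity) (by positivity)
  have hεq : ε ≤ q / 20 := min_le_left _ _
  have hεμ : ε * (1 + 2 * ((a : ℝ) + b)) ≤ μ / 2 := by
    have h4 : ε ≤ μ / (2 * (1 + 2 * (a + b))) := min_le_right _ _
    rw [le_div_iff₀ hden] at h4
    linarith
  obtain ⟨K, n1, hreg⟩ := h1 ε (q / 16) hεpos (by linarith) (by positivity) (by linarith)
  obtain ⟨m0, hpair⟩ := h3 a b (q / 16) ε ha (by omega) (by positivity) hεpos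
  refine ⟨n1 + 2 * K * m0 + ⌈8 * ((a : ℝ) + b) * K / μ⌉₊ + 1, ?_⟩
  intro V _ _ G hn hdeg hext
  obtain ⟨k, m, Vc, R, hk, hkK, hcard, hdisj, hcover, hdense, hsum⟩ := hreg V G (by omega)
  have hn1 : 1 ≤ Fintype.card V := by omega
  have hn1' : (1 : ℝ) ≤ Fintype.card V := by exact_mod_cast hn1
  have hk' : (1 : ℝ) ≤ k := by exact_mod_cast hk
  have hkK' : (k : ℝ) ≤ K := by exact_mod_cast hkK
  have hε1 : ε ≤ 1 / 80 := by linarith
  have hm : 0 < m := by
    rcases Nat.eq_zero_or_pos m with h | h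
    · exfalso
      rw [h] at hcover
      push_cast at hcover
      nlinarith
    · exact h
  have hkm : k * m ≤ Fintype.card V := by
    have h5 : ((Finset.univ : Finset (Fin k)).biUnion Vc).card = k * m := by
      rw [Finset.card_biUnion (fun i _ j _ hne => hdisj i j hne)]
      simp [hcard]
    rw [← h5]
    exact Finset.card_le_univ _
  have hkm' : (k : ℝ) * m ≤ Fintype.card V := by exact_mod_cast hkm
  have hmm0 : m0 ≤ m := by
    have h5 : (2 * K * m0 : ℝ) ≤ Fintype.card V := by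
      have : 2 * K * m0 ≤ Fintype.card V := by omega
      exact_mod_cast this
    have h6 : (k : ℝ) * m0 ≤ k * m := by
      have h7 : (k : ℝ) * m0 ≤ K * m0 :=
        mul_le_mul_of_nonneg_right hkK' (Nat.cast_nonneg _)
      nlinarith
    have h8 : (m0 : ℝ) ≤ m := le_of_mul_le_mul_left h6 (by linarith)
    exact_mod_cast h8
  have hρ : 0 < ls - q / 4 - 4 * (q / 16) - 4 * ε := by linarith
  obtain ⟨hR1, hR2⟩ := reduced_props G (ls := ls) (γ := γ) (θ := q / 4) (ε := ε) (d := q / 16)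
    hεpos (by linarith) hls2 (by linarith) hρ (by linarith) (by positivity) Vc R hm hcard hdisj
    hcover hkm' hsum hdeg (fun h => hext (Extr.mono hγγ h))
  obtain ⟨x, hx0, hxR, hx1, hxs⟩ := h2 a b k R _ _ ha hab hk hρ hR1 hR2 (by
    have h1e : (0 : ℝ) < 1 - ε := by linarith
    rw [mul_div_assoc', div_le_iff₀ h1e]
    have h5 : (ls - q / 4 - 4 * (q / 16) - 4 * ε) * ε ≤ ε := by nlinarith
    have h6 : b * (ls - 3 / 4 * q) ≤
        b * (ls - q / 4 - 4 * (q / 16) - 4 * ε) * (1 - ε) := by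
      rw [mul_assoc]
      apply mul_le_mul_of_nonneg_left _ hb'.le
      nlinarith
    nlinarith)
  obtain ⟨𝒯, h𝒯1, h𝒯2, h𝒯3⟩ := tiles_of_fractional G (d := q / 16) hεpos.le Vc R hcard hdisj
    hdense (fun P Q t hP hQ hPQ hX => hpair V G P Q t m hmm0 hP hQ hPQ hX) x hx0 hxR hx1 hxs
  refine ⟨𝒯, h𝒯1, h𝒯2, ?_⟩
  refine final_calc (U := ((𝒯.biUnion (fun p => p.1 ∪ p.2)).card : ℝ)) hεpos.le hk' hkK'
    (Nat.cast_nonneg a) (Nat.cast_nonneg b) (Nat.cast_nonneg _) hcover hkm' (Nat.cast_nonneg m)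
    h𝒯3 ?_ hεμ ?_
  · rw [Finset.card_sdiff_of_subset (Finset.subset_univ _), Finset.card_univ,
      Nat.cast_sub (Finset.card_le_univ _)]
  · have h5 : 8 * ((a : ℝ) + b) * K / μ ≤ Fintype.card V := by
      refine (Nat.le_ceil _).trans ?_
      have : ⌈8 * ((a : ℝ) + b) * K / μ⌉₊ ≤ Fintype.card V := by omega
      exact_mod_cast this
    rw [div_le_iff₀ hμ] at h5
    linarith

end Pool.Agent.MP_d32e04
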