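import Pool.Agent.Work.MP_d32e04_co.Greedy

/-!
MP_d32e04_co: the two kinds of tiles used in the extremal case.
-/

set_option autoImplicit false

namespace Pool.Agent.MP_d32e04

open Finset

variable {V : Type} [DecidableEq V]

lemma stepEdge (h1 : TileStmt) {h : ℕ} (H : SimpleGraph (Fin h)) (hE : ∃ u v, H.Adj u v)
    {a b : ℕ} (ha : 1 ≤ a) (hb : 1 ≤ b) (hX : ∃ X, aN H X = a ∧ bN H X = b)
    (G : SimpleGraph V) (A B D U : Finset V) (y y' : V) (t1 t2 : ℕ) (hAB : Disjoint A B)
    (hy : y ∈ B) (hy' : y' ∈ B) (hadj : G.Adj y y') (hB : ∀ v ∈ B, misIn G v A ≤ t2)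
    (hA : ∀ v ∈ A, v ∉ D → misIn G v B ≤ t1) (hU : Disjoint U {y, y'})
    (hc1 : 2 * t2 + a ≤ (A \ (D ∪ U)).card)
    (hc2 : a * t1 + b ≤ (B \ (U ∪ {y, y'})).card) :
    ∃ T : Finset V, {y, y'} ⊆ T ∧ Disjoint U T ∧ T.card ≤ a + b + 1 ∧
      (Tiled H G T ∧ (T ∩ A).card = a ∧ (T ∩ B).card = b + 1) := by
  have hyy : y ≠ y' := hadj.ne
  obtain ⟨P, hPs, hPc, hPcpl⟩ := exists_common G {y, y'} (A \ (D ∪ U)) t2 a (by
    intro v hv
    have hvB : v ∈ B := by
      rcases Finset.mem_insert.mp hv with rfl | hv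
      · exact hy
      · rw [Finset.mem_singleton] at hv; rw [hv]; exact hy'
    exact le_trans (misIn_mono G v Finset.sdiff_subset) (hB v hvB)) (by
    rw [Finset.card_pair hyy]; exact hc1)
  have hPA : P ⊆ A := hPs.trans Finset.sdiff_subset
  have hPD : ∀ p ∈ P, p ∉ D := fun p hp hpD =>
    (Finset.mem_sdiff.mp (hPs hp)).2 (Finset.mem_union_left _ hpD)
  have hPU : ∀ p ∈ P, p ∉ U := fun p hp hpU =>
    (Finset.mem_sdiff.mp (hPs hp)).2 (Finset.mem_union_right _ hpU)
  obtain ⟨Q, hQs, hQc, hQcpl⟩ := exists_common G P (B \ (U ∪ {y, y'})) t1 (b - 1) (by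
    intro v hv
    exact le_trans (misIn_mono G v Finset.sdiff_subset) (hA v (hPA hv) (hPD v hv))) (by
    rw [hPc]; omega)
  have hQB : Q ⊆ B := hQs.trans Finset.sdiff_subset
  have hQU : ∀ q ∈ Q, q ∉ U := fun q hq hqU =>
    (Finset.mem_sdiff.mp (hQs hq)).2 (Finset.mem_union_left _ hqU)
  have hQy : y ∉ Q := fun hq =>
    (Finset.mem_sdiff.mp (hQs hq)).2 (Finset.mem_union_right _ (by simp))
  have hQy' : y' ∉ Q := fun hq =>
    (Finset.mem_sdiff.mp (hQs hq)).2 (Finset.mem_union_right _ (by simp))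
  have hyU : y ∉ U := fun hyU => (Finset.disjoint_left.mp hU hyU) (by simp)
  have hyU' : y' ∉ U := fun hyU => (Finset.disjoint_left.mp hU hyU) (by simp)
  have hPB : ∀ p ∈ P, p ∉ B := fun p hp hpB => Finset.disjoint_left.mp hAB (hPA hp) hpB
  have hBA : ∀ q ∈ B, q ∉ A := fun q hq hqA => Finset.disjoint_left.mp hAB hqA hq
  obtain ⟨X, hXa, hXb⟩ := hX
  have hPne : P.Nonempty := by rw [← Finset.card_pos, hPc]; exact ha
  obtain ⟨x, hx⟩ := hPne
  have hcpl : Cpl G P (insert y Q) := by
    intro p hp q hq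
    rcases Finset.mem_insert.mp hq with rfl | hq
    · exact (hPcpl _ (by simp) p hp).symm
    · exact hQcpl p hp q hq
  have htile := h1 h H V G X 0 P (insert y Q) x y [y'] hE hcpl (by rw [hPc, hXa, add_zero])
    (by rw [Finset.card_insert_of_notMem hQy, hQc, hXb]; omega) hx
    (Finset.mem_insert_self _ _) (List.nodup_singleton _) (by
      intro r hr
      rw [List.mem_singleton] at hr
      subst hr
      exact ⟨fun hp => hPB _ hp hy', fun hq => by
        rcases Finset.mem_insert.mp hq with h | h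
        · exact hyy h.symm
        · exact hQy' h⟩) (by
      simp only [List.singleton_append]
      rw [List.isChain_cons_cons, List.isChain_cons_cons]
      exact ⟨(hPcpl y' (by simp) x hx).symm, hadj.symm, List.isChain_singleton _⟩)
  have hTe : P ∪ insert y Q ∪ [y'].toFinset = P ∪ insert y' (insert y Q) := by
    ext z
    simp only [Finset.mem_union, Finset.mem_insert, List.mem_toFinset, List.mem_singleton]
    tauto
  rw [hTe] at htile
  have hc3 : (insert y' (insert y Q)).card = b + 1 := by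
    rw [Finset.card_insert_of_notMem, Finset.card_insert_of_notMem hQy, hQc]
    · omega
    · rw [Finset.mem_insert]
      rintro (h | h)
      · exact hyy h.symm
      · exact hQy' h
  have hsubB : insert y' (insert y Q) ⊆ B := by
    intro z hz
    rcases Finset.mem_insert.mp hz with rfl | hz
    · exact hy'
    · rcases Finset.mem_insert.mp hz with rfl | hz
      · exact hy
      · exact hQB hz
  refine ⟨P ∪ insert y' (insert y Q), ?_, ?_, ?_, Tiled.of_tile htile, ?_, ?_⟩
  · intro z hz
    rcases Finset.mem_insert.mp hz with rfl | hz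
    · simp
    · rw [Finset.mem_singleton] at hz; subst hz; simp
  · rw [Finset.disjoint_left]
    intro z hzU hz
    rcases Finset.mem_union.mp hz with hz | hz
    · exact hPU z hz hzU
    · rcases Finset.mem_insert.mp hz with rfl | hz
      · exact hyU' hzU
      · rcases Finset.mem_insert.mp hz with rfl | hz
        · exact hyU hzU
        · exact hQU z hz hzU
  · refine le_trans (Finset.card_union_le _ _) ?_
    rw [hPc, hc3]; omega
  · have : (P ∪ insert y' (insert y Q)) ∩ A = P := by
      ext z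
      rw [Finset.mem_inter, Finset.mem_union]
      constructor
      · rintro ⟨hz | hz, hzA⟩
        · exact hz
        · exact absurd hzA (hBA z (hsubB hz))
      · intro hz
        exact ⟨Or.inl hz, hPA hz⟩
    rw [this, hPc]
  · have : (P ∪ insert y' (insert y Q)) ∩ B = insert y' (insert y Q) := by
      ext z
      rw [Finset.mem_inter, Finset.mem_union]
      constructor
      · rintro ⟨hz | hz, hzB⟩
        · exact absurd hzB (hPB z hz)
        · exact hz
      · intro hz
        exact ⟨Or.inr hz, hsubB hz⟩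
    rw [this, hc3]

lemma stepD (h2 : TbTiledStmt) {h : ℕ} (H : SimpleGraph (Fin h)) (hE : ∃ u v, H.Adj u v)
    {a b : ℕ} (ha : 1 ≤ a) (hX : ∃ X, aN H X = a ∧ bN H X = b)
    (G : SimpleGraph V) (A B D U : Finset V) (v : V) (t2 : ℕ) (hAB : Disjoint A B)
    (hv : v ∈ D) (hDA : D ⊆ A) (hB : ∀ v ∈ B, misIn G v A ≤ t2) (hU : Disjoint U {v})
    (hc1 : b + U.card ≤ degIn G v B) (hc2 : b * t2 + a ≤ (A \ (D ∪ U)).card) :
    ∃ T : Finset V, {v} ⊆ T ∧ Disjoint U T ∧ T.card ≤ a + b + 1 ∧
      (Tiled H G T ∧ (T ∩ A).card = a ∧ (T ∩ B).card = b) := by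
  classical
  have hvU : v ∉ U := fun hvU => (Finset.disjoint_left.mp hU hvU) (by simp)
  have hQ0 : b ≤ ((B.filter (fun w => G.Adj v w)) \ U).card := by
    have h5 := Finset.le_card_sdiff U (B.filter (fun w => G.Adj v w))
    have h6 : degIn G v B = (B.filter (fun w => G.Adj v w)).card := by
      unfold degIn; congr
    omega
  obtain ⟨Q, hQs, hQc⟩ := Finset.exists_subset_card_eq hQ0
  have hQB : ∀ q ∈ Q, q ∈ B := fun q hq =>
    (Finset.mem_filter.mp (Finset.mem_sdiff.mp (hQs hq)).1).1
  have hQv : ∀ q ∈ Q, G.Adj v q := fun q hq =>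
    (Finset.mem_filter.mp (Finset.mem_sdiff.mp (hQs hq)).1).2
  have hQU : ∀ q ∈ Q, q ∉ U := fun q hq => (Finset.mem_sdiff.mp (hQs hq)).2
  obtain ⟨P, hPs, hPc, hPcpl⟩ := exists_common G Q (A \ (D ∪ U)) t2 (a - 1) (by
    intro w hw
    exact le_trans (misIn_mono G w Finset.sdiff_subset) (hB w (hQB w hw))) (by
    rw [hQc]; omega)
  have hPA : P ⊆ A := hPs.trans Finset.sdiff_subset
  have hPD : ∀ p ∈ P, p ∉ D := fun p hp hpD =>
    (Finset.mem_sdiff.mp (hPs hp)).2 (Finset.mem_union_left _ hpD)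
  have hPU : ∀ p ∈ P, p ∉ U := fun p hp hpU =>
    (Finset.mem_sdiff.mp (hPs hp)).2 (Finset.mem_union_right _ hpU)
  have hvP : v ∉ P := fun hp => hPD v hp hv
  have hsubA : insert v P ⊆ A := by
    intro z hz
    rcases Finset.mem_insert.mp hz with rfl | hz
    · exact hDA hv
    · exact hPA hz
  have hc3 : (insert v P).card = a := by
    rw [Finset.card_insert_of_notMem hvP, hPc]; omega
  have hcpl : Cpl G (insert v P) Q := by
    intro p hp q hq
    rcases Finset.mem_insert.mp hp with rfl | hp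
    · exact hQv q hq
    · exact (hPcpl q hq p hp).symm
  have hTb : Tb H (insert v P).card Q.card := by
    obtain ⟨X, hXa, hXb⟩ := hX
    refine ⟨[(X, 0)], ?_, ?_⟩
    · simp [hXa, hc3]
    · simp [hXb, hQc]
  refine ⟨insert v P ∪ Q, ?_, ?_, ?_, h2 h H V G _ _ hE hcpl hTb, ?_, ?_⟩
  · intro z hz
    rw [Finset.mem_singleton] at hz; subst hz; simp
  · rw [Finset.disjoint_left]
    intro z hzU hz
    rcases Finset.mem_union.mp hz with hz | hz
    · rcases Finset.mem_insert.mp hz with rfl | hz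
      · exact hvU hzU
      · exact hPU z hz hzU
    · exact hQU z hz hzU
  · refine le_trans (Finset.card_union_le _ _) ?_
    rw [hQc, hc3]; omega
  · have : (insert v P ∪ Q) ∩ A = insert v P := by
      ext z
      rw [Finset.mem_inter, Finset.mem_union]
      constructor
      · rintro ⟨hz | hz, hzA⟩
        · exact hz
        · exact absurd (hQB z hz) (Finset.disjoint_left.mp hAB hzA)
      · intro hz
        exact ⟨Or.inl hz, hsubA hz⟩
    rw [this, hc3]
  · have : (insert v P ∪ Q) ∩ B = Q := by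
      ext z
      rw [Finset.mem_inter, Finset.mem_union]
      constructor
      · rintro ⟨hz | hz, hzB⟩
        · exact absurd hzB (Finset.disjoint_left.mp hAB (hsubA hz))
        · exact hz
      · intro hz
        exact ⟨Or.inr hz, hQB z hz⟩
    rw [this, hQc]

/-- counting for a union of disjoint sets -/
lemma card_biUnion_inter {ι : Type} [DecidableEq ι] (I : Finset ι) (T : ι → Finset V)
    (A : Finset V) (k : ℕ) (hT : ∀ i ∈ I, (T i ∩ A).card = k)
    (hd : ∀ i ∈ I, ∀ j ∈ I, i ≠ j → Disjoint (T i) (T j)) :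
    (I.biUnion T ∩ A).card = k * I.card := by
  rw [Finset.biUnion_inter, Finset.card_biUnion]
  · rw [Finset.sum_congr rfl hT, Finset.sum_const, smul_eq_mul, mul_comm]
  · intro i hi j hj hij
    exact Disjoint.mono Finset.inter_subset_left Finset.inter_subset_left (hd i hi j hj hij)

end Pool.Agent.MP_d32e04
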