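import Pool.Agent.Work.MP_d32e04_co.Basic

/-!
MP_d32e04_co: a general greedyCover lemma.
-/

set_option autoImplicit false

namespace Pool.Agent.MP_d32e04

open Finset

/-- choose pairwise disjoint sets containing given disjoint sets, one after another -/
lemma greedyCover {V ι : Type} [DecidableEq V] [DecidableEq ι] (I : Finset ι) (req : ι → Finset V)
    (Z0 : Finset V) (K L : ℕ) (Pr : ι → Finset V → Prop)
    (hreq : ∀ i ∈ I, ∀ j ∈ I, i ≠ j → Disjoint (req i) (req j))
    (hZ : ∀ i ∈ I, Disjoint Z0 (req i)) (hK : ∀ i ∈ I, (req i).card ≤ K)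
    (hstep : ∀ i ∈ I, ∀ U : Finset V, U.card ≤ L → Disjoint U (req i) →
      ∃ T, req i ⊆ T ∧ Disjoint U T ∧ T.card ≤ K ∧ Pr i T)
    (hL : Z0.card + K * I.card ≤ L) :
    ∃ T : ι → Finset V, (∀ i ∈ I, req i ⊆ T i ∧ Pr i (T i) ∧ (T i).card ≤ K ∧
      Disjoint Z0 (T i)) ∧ ∀ i ∈ I, ∀ j ∈ I, i ≠ j → Disjoint (T i) (T j) := by
  suffices hmain : ∀ J ⊆ I, ∃ T : ι → Finset V, (∀ i ∈ J, req i ⊆ T i ∧ Pr i (T i) ∧
      (T i).card ≤ K ∧ Disjoint Z0 (T i)) ∧ (∀ i ∈ J, ∀ j ∈ J, i ≠ j → Disjoint (T i) (T j)) ∧
      ∀ i ∈ J, ∀ j ∈ I, j ∉ J → Disjoint (T i) (req j) by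
    obtain ⟨T, h1, h2, _⟩ := hmain I (Finset.Subset.refl _)
    exact ⟨T, h1, h2⟩
  intro J
  induction J using Finset.induction_on with
  | empty => intro _; exact ⟨fun _ => ∅, by simp, by simp, by simp⟩
  | insert i J hi ih =>
    intro hJ
    have hiI : i ∈ I := hJ (Finset.mem_insert_self _ _)
    have hJI : J ⊆ I := fun x hx => hJ (Finset.mem_insert_of_mem hx)
    obtain ⟨T, h1, h2, h3⟩ := ih hJI
    set U : Finset V := Z0 ∪ J.biUnion T ∪ (I \ insert i J).biUnion req with hU
    have hUc : U.card ≤ L := by
      have e1 : (J.biUnion T).card ≤ K * J.card := by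
        refine le_trans Finset.card_biUnion_le ?_
        refine le_trans (Finset.sum_le_sum (fun j hj => (h1 j hj).2.2.1)) ?_
        rw [Finset.sum_const, smul_eq_mul, mul_comm]
      have e2 : ((I \ insert i J).biUnion req).card ≤ K * (I \ insert i J).card := by
        refine le_trans Finset.card_biUnion_le ?_
        refine le_trans (Finset.sum_le_sum (fun j hj => hK j (Finset.mem_sdiff.mp hj).1)) ?_
        rw [Finset.sum_const, smul_eq_mul, mul_comm]
      have e3 : (I \ insert i J).card + J.card ≤ I.card := by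
        have h5 := Finset.card_sdiff_add_card_eq_card hJ
        have h6 : (insert i J).card = J.card + 1 := Finset.card_insert_of_notMem hi
        omega
      calc U.card ≤ (Z0 ∪ J.biUnion T).card + ((I \ insert i J).biUnion req).card :=
            Finset.card_union_le _ _
        _ ≤ Z0.card + (J.biUnion T).card + ((I \ insert i J).biUnion req).card := by
            have := Finset.card_union_le Z0 (J.biUnion T); omega
        _ ≤ Z0.card + K * ((I \ insert i J).card + J.card) := by
            rw [mul_add]; omega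
        _ ≤ Z0.card + K * I.card := by
            have := Nat.mul_le_mul_left K e3; omega
        _ ≤ L := hL
    have hUd : Disjoint U (req i) := by
      rw [hU, Finset.disjoint_union_left, Finset.disjoint_union_left]
      refine ⟨⟨hZ i hiI, ?_⟩, ?_⟩
      · rw [Finset.disjoint_biUnion_left]
        intro j hj
        exact h3 j hj i hiI hi
      · rw [Finset.disjoint_biUnion_left]
        intro j hj
        rw [Finset.mem_sdiff, Finset.mem_insert, not_or] at hj
        exact hreq j hj.1 i hiI hj.2.1
    obtain ⟨Ti, t1, t2, t3, t4⟩ := hstep i hiI U hUc hUd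
    rw [hU, Finset.disjoint_union_left, Finset.disjoint_union_left] at t2
    obtain ⟨⟨t2a, t2b⟩, t2c⟩ := t2
    rw [Finset.disjoint_biUnion_left] at t2b t2c
    refine ⟨fun j => if j = i then Ti else T j, ?_, ?_, ?_⟩
    · intro j hj
      by_cases hji : j = i
      · simp only [if_pos hji]; subst hji; exact ⟨t1, t4, t3, t2a⟩
      · simp only [if_neg hji]
        exact h1 j ((Finset.mem_insert.mp hj).resolve_left hji)
    · intro j hj k hk hjk
      by_cases hji : j = i
      · have hki : k ≠ i := fun h => hjk (hji.trans h.symm)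
        simp only [if_pos hji, if_neg hki]
        exact (t2b k ((Finset.mem_insert.mp hk).resolve_left hki)).symm
      · by_cases hki : k = i
        · simp only [if_neg hji, if_pos hki]
          exact t2b j ((Finset.mem_insert.mp hj).resolve_left hji)
        · simp only [if_neg hji, if_neg hki]
          exact h2 j ((Finset.mem_insert.mp hj).resolve_left hji) k
            ((Finset.mem_insert.mp hk).resolve_left hki) hjk
    · intro j hj k hk hkJ
      by_cases hji : j = i
      · simp only [if_pos hji]
        exact (t2c k (Finset.mem_sdiff.mpr ⟨hk, hkJ⟩)).symm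
      · simp only [if_neg hji]
        exact h3 j ((Finset.mem_insert.mp hj).resolve_left hji) k hk
          (fun h => hkJ (Finset.mem_insert_of_mem h))

end Pool.Agent.MP_d32e04
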