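import Pool.Agent.Work.MP_d32e04_co.Basic

/-!
MP_d32e04_co: final assembly.
-/

set_option autoImplicit false

namespace Pool.Agent.MP_d32e04

open Finset

lemma ncard_neighborSet {V : Type} [Fintype V] (G : SimpleGraph V) (v : V) :
    (G.neighborSet v).ncard = degIn G v Finset.univ := by
  classical
  rw [degIn_univ]
  have : G.neighborSet v = ((nb G v : Finset V) : Set V) := by
    ext w
    simp [mem_nb]
  rw [this, Set.ncard_coe_finset]

lemma deltaSub_le {h : ℕ} {H : SimpleGraph (Fin h)} (n : ℕ) (x : ℝ) (hx : 0 ≤ x)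
    (hyp : ∀ G : SimpleGraph (Fin n), (∀ v, x ≤ degIn G v Finset.univ) → PerfectTiling H G) :
    (deltaSub n H : ℝ) ≤ x + 1 := by
  have h1 : deltaSub n H ≤ ⌈x⌉₊ := by
    apply Nat.sInf_le
    intro G hG
    apply hyp
    intro v
    have h2 := hG v
    rw [ncard_neighborSet] at h2
    calc x ≤ (⌈x⌉₊ : ℝ) := Nat.le_ceil x
      _ ≤ _ := by exact_mod_cast h2
  have h3 : (⌈x⌉₊ : ℝ) < x + 1 := Nat.ceil_lt_add_one hx
  have h4 : (deltaSub n H : ℝ) ≤ (⌈x⌉₊ : ℝ) := by exact_mod_cast h1
  linarith

lemma perfectTiling_of_univ {h : ℕ} {H : SimpleGraph (Fin h)} {V : Type} [Fintype V]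
    {G : SimpleGraph V} (hu : IsSubdivOn H G Finset.univ) : PerfectTiling H G := by
  classical
  refine ⟨{Finset.univ}, ?_, ?_, ?_⟩
  · intro T hT
    rw [Finset.mem_singleton] at hT
    rw [hT]; exact hu
  · intro T hT T' hT' hne
    rw [Finset.mem_singleton] at hT hT'
    exact absurd (hT.trans hT'.symm) hne
  · intro v
    exact ⟨Finset.univ, Finset.mem_singleton_self _, Finset.mem_univ v⟩

lemma half_bound (hHalf : HalfStmt) {h : ℕ} (H : SimpleGraph (Fin h)) (hE : ∃ u v, H.Adj u v) :
    ∃ C : ℝ, ∀ n : ℕ, 0 < n → (deltaSub n H : ℝ) ≤ 1 / 2 * n + C := by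
  obtain ⟨C, hC⟩ := hHalf h H hE
  refine ⟨C + 1, fun n hn => ?_⟩
  have h1 := deltaSub_le (H := H) n (1 / 2 * n + C) (by positivity) (by
    intro G hG
    haveI : Nonempty (Fin n) := ⟨⟨0, hn⟩⟩
    apply perfectTiling_of_univ
    apply hC (Fin n) G
    intro v
    rw [Fintype.card_fin]
    exact hG v)
  linarith

lemma tiled_bound {h : ℕ} (H : SimpleGraph (Fin h)) (hE : ∃ u v, H.Adj u v) (ls : ℝ)
    (hls : 0 ≤ ls) (p : ℕ → Prop) (C n0 : ℕ)
    (hyp : ∀ n : ℕ, n0 ≤ n → p n → ∀ G : SimpleGraph (Fin n),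
      (∀ v, ls * (n : ℝ) + C ≤ degIn G v Finset.univ) → Tiled H G Finset.univ) :
    ∃ C' : ℝ, ∀ n : ℕ, 0 < n → p n → (deltaSub n H : ℝ) ≤ ls * n + C' := by
  have h0 : 0 < h := by
    obtain ⟨u, _, _⟩ := hE
    exact lt_of_le_of_lt (Nat.zero_le _) u.isLt
  refine ⟨C + n0 + 1, fun n hn hp => ?_⟩
  have h1 := deltaSub_le (H := H) n (ls * n + C + n0) (by positivity) (by
    intro G hG
    rcases Nat.lt_or_ge n n0 with hlt | hge
    · exfalso
      have h2 := hG ⟨0, hn⟩
      have h3 := degIn_le G ⟨0, hn⟩ Finset.univ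
      rw [Finset.card_univ, Fintype.card_fin] at h3
      have h4 : (degIn G ⟨0, hn⟩ Finset.univ : ℝ) ≤ n := by exact_mod_cast h3
      have h5 : (n : ℝ) < n0 := by exact_mod_cast hlt
      have h6 : 0 ≤ ls * (n : ℝ) := by positivity
      have h7 : (0 : ℝ) ≤ C := by positivity
      linarith
    · apply Tiled.perfectTiling h0
      apply hyp n hge hp G
      intro v
      have h2 := hG v
      have h7 : (0 : ℝ) ≤ n0 := by positivity
      linarith)
  linarith

theorem main (hHalf : HalfStmt) (hPar : ParStmt) (hExtr : ExtrStmt) (hNon1 : Non1Stmt)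
    (hNon2 : Non2Stmt) : MainStmt := by
  intro h H hE
  obtain ⟨C1, hC1⟩ := half_bound hHalf H hE
  by_cases hg1 : hcf H = 1
  · -- hcf = 1
    obtain ⟨a, b, hP, hxi⟩ := hPar h H hE (by rw [hg1]; norm_num)
    rw [hg1] at hP
    have haR : (1 : ℝ) ≤ a := by exact_mod_cast hP.ha
    have habR : (a : ℝ) < b := by exact_mod_cast hP.hab
    set ls : ℝ := (a : ℝ) / ((a : ℝ) + b) with hls
    have hs : (0 : ℝ) < (a : ℝ) + b := by linarith
    have hls0 : 0 < ls := by positivity
    have hls1 : ls < 1 / 2 := by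
      rw [hls, div_lt_div_iff₀ hs (by norm_num)]
      linarith
    have hls2 : a * (1 - ls) ≤ b * ls := by
      have : (a : ℝ) * (1 - ls) = b * ls := by rw [hls]; field_simp; ring
      exact this.le
    obtain ⟨γ, C2, n2, hγ, _, hex⟩ := hExtr h H a b 1 hP ls hls0 hls1 hls2
    obtain ⟨n3, hnon⟩ := hNon1 h H a b hP ls γ hls0 hls1 hls2 hγ
    obtain ⟨C', hC'⟩ := tiled_bound H hE ls hls0.le (fun _ => True) C2 (max n2 n3) (by
      intro n hn _ G hG
      by_cases hE' : Extr G ls γ
      · exact hex (Fin n) G (by rw [Fintype.card_fin]; exact le_trans (le_max_left _ _) hn)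
          (by rw [Fintype.card_fin]; exact hG) (Or.inl rfl) hE'
      · refine hnon (Fin n) G (by rw [Fintype.card_fin]; exact le_trans (le_max_right _ _) hn)
          ?_ hE'
        intro v
        rw [Fintype.card_fin]
        have h7 : (0 : ℝ) ≤ C2 := by positivity
        linarith [hG v])
    refine ⟨C', fun n hn => ⟨fun _ => ?_, fun h2 => ?_, fun h2 => ?_⟩⟩
    · have : xiStar H = xi H := by simp [xiStar, hg1]
      rw [this, hxi]
      exact hC' n hn trivial
    · rw [hg1] at h2; norm_num at h2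
    · rw [hg1] at h2; norm_num at h2
  · by_cases hg2 : hcf H = 2
    · obtain ⟨a, b, hP, hxi⟩ := hPar h H hE (by rw [hg2]; norm_num)
      rw [hg2] at hP
      have haR : (1 : ℝ) ≤ a := by exact_mod_cast hP.ha
      have habR : (a : ℝ) < b := by exact_mod_cast hP.hab
      have hs : (0 : ℝ) < (a : ℝ) + b := by linarith
      set l0 : ℝ := (a : ℝ) / ((a : ℝ) + b) with hl0
      have hl01 : l0 < 1 / 2 := by
        rw [hl0, div_lt_div_iff₀ hs (by norm_num)]
        linarith
      have hl02 : (a : ℝ) * (1 - l0) = b * l0 := by rw [hl0]; field_simp; ring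
      set ls : ℝ := max (1 / 3) l0 with hls
      have hls3 : 1 / 3 ≤ ls := le_max_left _ _
      have hls0 : 0 < ls := by linarith
      have hls1 : ls < 1 / 2 := max_lt (by norm_num) hl01
      have hll : l0 ≤ ls := le_max_right _ _
      have hls2 : a * (1 - ls) ≤ b * ls := by nlinarith
      obtain ⟨γ, C2, n2, hγ, _, hex⟩ := hExtr h H a b 2 hP ls hls0 hls1 hls2
      obtain ⟨C3, n3, hnon⟩ := hNon2 h H a b hP ls γ hls3 hls1 hls2 hγ
      obtain ⟨C', hC'⟩ := tiled_bound H hE ls hls0.le (fun n => Even n) (max C2 C3)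
        (max n2 n3) (by
        intro n hn hp G hG
        have e1 : (C2 : ℝ) ≤ (max C2 C3 : ℕ) := by exact_mod_cast le_max_left _ _
        have e2 : (C3 : ℝ) ≤ (max C2 C3 : ℕ) := by exact_mod_cast le_max_right _ _
        by_cases hE' : Extr G ls γ
        · refine hex (Fin n) G (by rw [Fintype.card_fin]; exact le_trans (le_max_left _ _) hn)
            ?_ (Or.inr ⟨rfl, by rw [Fintype.card_fin]; exact hp⟩) hE'
          intro v
          rw [Fintype.card_fin]
          linarith [hG v]
        · refine hnon (Fin n) G (by rw [Fintype.card_fin]; exact le_trans (le_max_right _ _) hn)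
            (by rw [Fintype.card_fin]; exact hp) ?_ hE'
          intro v
          rw [Fintype.card_fin]
          linarith [hG v])
      have hxpos : 0 < xi H := by
        have h1 : 1 / xi H = 1 - l0 := by linarith
        have h2 : 0 < 1 / xi H := by rw [h1]; linarith
        exact one_div_pos.mp h2
      have hstar : 1 - 1 / xiStar H = ls := by
        have h1 : xiStar H = max (3 / 2) (xi H) := by simp [xiStar, hg2]
        rw [h1, hls]
        rcases le_total (3 / 2 : ℝ) (xi H) with hc | hc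
        · rw [max_eq_right hc]
          have : 1 / xi H ≤ 2 / 3 := by
            rw [div_le_div_iff₀ hxpos (by norm_num)]; linarith
          rw [max_eq_right (by linarith)]
          exact hxi
        · rw [max_eq_left hc]
          have : 2 / 3 ≤ 1 / xi H := by
            rw [div_le_div_iff₀ (by norm_num) hxpos]; linarith
          rw [max_eq_left (by linarith)]
          norm_num
      refine ⟨max C1 C', fun n hn => ⟨fun h2 => absurd hg2 h2, fun _ _ => ?_, fun _ he => ?_⟩⟩
      · linarith [hC1 n hn, le_max_left C1 C']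
      · rw [hstar]
        linarith [hC' n hn he, le_max_right C1 C']
    · refine ⟨C1, fun n hn => ⟨fun _ => ?_, fun h2 => absurd h2 hg2, fun h2 => absurd h2 hg2⟩⟩
      have : xiStar H = 2 := by simp [xiStar, hg1, hg2]
      rw [this]
      have := hC1 n hn
      norm_num at this ⊢
      linarith

end Pool.Agent.MP_d32e04
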