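import Mathlib

/-!
MP_d32e04_co: additive-constant thresholds for perfect H-subdivision tilings.
The definitions used in the statement of the result.
-/

set_option autoImplicit false

namespace Pool.Agent.MP_d32e04

open Finset

/-- `S` is the vertex set of a subgraph of `G` isomorphic to a subdivision of `H`: `φ` gives the
branch vertices and, for every edge `u v` of `H` with `u < v`, `L u v` is the list of the inner
vertices of the path from `φ u` to `φ v` replacing this edge. -/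
def IsSubdivOn {h : ℕ} {V : Type} (H : SimpleGraph (Fin h)) (G : SimpleGraph V)
    (S : Finset V) : Prop :=
  ∃ (φ : Fin h → V) (L : Fin h → Fin h → List V),
    Function.Injective φ ∧
    (∀ u v, u < v → H.Adj u v →
      List.IsChain G.Adj (φ u :: (L u v ++ [φ v])) ∧ (L u v).Nodup ∧ ∀ w, φ w ∉ L u v) ∧
    (∀ u v u' v', u < v → H.Adj u v → u' < v' → H.Adj u' v' → (u, v) ≠ (u', v') →
      ∀ x ∈ L u v, x ∉ L u' v') ∧
    ∀ x, x ∈ S ↔ (∃ w, x = φ w) ∨ ∃ u v, u < v ∧ H.Adj u v ∧ x ∈ L u v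

/-- `G` has a perfect `H`-subdivision tiling -/
def PerfectTiling {h : ℕ} {V : Type} (H : SimpleGraph (Fin h)) (G : SimpleGraph V) : Prop :=
  ∃ 𝒯 : Finset (Finset V), (∀ T ∈ 𝒯, IsSubdivOn H G T) ∧
    (∀ T ∈ 𝒯, ∀ T' ∈ 𝒯, T ≠ T' → Disjoint T T') ∧ ∀ v, ∃ T ∈ 𝒯, v ∈ T

/-- the least `k` such that every `n`-vertex graph with minimum degree at least `k` has a
perfect `H`-subdivision tiling -/
noncomputable def deltaSub {h : ℕ} (n : ℕ) (H : SimpleGraph (Fin h)) : ℕ :=
  sInf {k : ℕ | ∀ G : SimpleGraph (Fin n), (∀ v, k ≤ (G.neighborSet v).ncard) →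
    PerfectTiling H G}

open Classical in
/-- the number of edges of `H` inside `X` -/
noncomputable def eIn {h : ℕ} (H : SimpleGraph (Fin h)) (X : Finset (Fin h)) : ℕ :=
  ((Finset.univ : Finset (Fin h × Fin h)).filter
    (fun p => p.1 < p.2 ∧ p.1 ∈ X ∧ p.2 ∈ X ∧ H.Adj p.1 p.2)).card

/-- `f_H(X)` -/
noncomputable def fH {h : ℕ} (H : SimpleGraph (Fin h)) (X : Finset (Fin h)) : ℝ :=
  ((h : ℝ) + eIn H X + eIn H Xᶜ) / ((X.card : ℝ) + eIn H Xᶜ)

/-- `ξ(H)` -/
noncomputable def xi {h : ℕ} (H : SimpleGraph (Fin h)) : ℝ := ⨅ X : Finset (Fin h), fH H X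

/-- `|Y| + e(H[X])`, `Y` the complement of `X` -/
noncomputable def aN {h : ℕ} (H : SimpleGraph (Fin h)) (X : Finset (Fin h)) : ℕ :=
  Xᶜ.card + eIn H X

/-- `|X| + e(H[Y])`, `Y` the complement of `X` -/
noncomputable def bN {h : ℕ} (H : SimpleGraph (Fin h)) (X : Finset (Fin h)) : ℕ :=
  X.card + eIn H Xᶜ

/-- `hcf_ξ(H)`; the value `0` stands for `∞` -/
noncomputable def hcf {h : ℕ} (H : SimpleGraph (Fin h)) : ℕ :=
  (Finset.univ : Finset (Finset (Fin h))).gcd (fun X => ((bN H X : ℤ) - aN H X).natAbs)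

open Classical in
/-- `ξ*(H)` -/
noncomputable def xiStar {h : ℕ} (H : SimpleGraph (Fin h)) : ℝ :=
  if hcf H = 1 then xi H else if hcf H = 2 then max (3 / 2) (xi H) else 2

end Pool.Agent.MP_d32e04
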