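import Pool.Agent.Work.MP_d32e04_co.Basic

/-!
MP_d32e04_co, item 1: the basic tile in a complete bipartite graph.
-/

set_option autoImplicit false

namespace Pool.Agent.MP_d32e04

open Finset

/-- a bijection between finsets of the same size with a prescribed value -/
lemma tile_exists_fun {S V : Type} (A : Finset S) (B : Finset V) (hc : A.card = B.card)
    (s : S) (x : V) (hs : s ∈ A) (hx : x ∈ B) :
    ∃ f : S → V, (∀ t ∈ A, f t ∈ B) ∧ (∀ t ∈ A, ∀ t' ∈ A, f t = f t' → t = t') ∧
      (∀ b ∈ B, ∃ t ∈ A, f t = b) ∧ f s = x := by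
  classical
  let e : A ≃ B := Finset.equivOfCardEq hc
  let e' : A ≃ B := e.trans (Equiv.swap (e ⟨s, hs⟩) ⟨x, hx⟩)
  have he : ∀ t (ht : t ∈ A), (fun t => if ht : t ∈ A then (e' ⟨t, ht⟩ : V) else x) t =
      (e' ⟨t, ht⟩ : V) := fun t ht => dif_pos ht
  refine ⟨fun t => if ht : t ∈ A then (e' ⟨t, ht⟩ : V) else x, ?_, ?_, ?_, ?_⟩
  · intro t ht
    rw [he t ht]
    exact (e' ⟨t, ht⟩).2
  · intro t ht t' ht' h
    rw [he t ht, he t' ht'] at h
    have h1 : e' ⟨t, ht⟩ = e' ⟨t', ht'⟩ := Subtype.ext h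
    have h2 := e'.injective h1
    exact congrArg Subtype.val h2
  · intro b hb
    refine ⟨(e'.symm ⟨b, hb⟩ : S), (e'.symm ⟨b, hb⟩).2, ?_⟩
    rw [he _ (e'.symm ⟨b, hb⟩).2]
    have : e' ⟨(e'.symm ⟨b, hb⟩ : S), (e'.symm ⟨b, hb⟩).2⟩ = ⟨b, hb⟩ := by
      rw [Subtype.coe_eta]
      exact e'.apply_symm_apply _
    rw [this]
  · rw [he s hs]
    show ((Equiv.swap (e ⟨s, hs⟩) ⟨x, hx⟩) (e ⟨s, hs⟩) : V) = x
    rw [Equiv.swap_apply_left]

lemma tile_base {h : ℕ} (H : SimpleGraph (Fin h)) {V : Type} [DecidableEq V] (G : SimpleGraph V)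
    (X : Finset (Fin h)) (P Q : Finset V) (x y : V) (R : List V) (u0 v0 : Fin h)
    (huv : u0 < v0) (hadj : H.Adj u0 v0) (hu0 : u0 ∉ X) (hC : Cpl G P Q)
    (hP : P.card = aN H X) (hQ : Q.card = bN H X) (hx : x ∈ P) (hy : y ∈ Q) (hR : R.Nodup)
    (hRo : ∀ r ∈ R, r ∉ P ∧ r ∉ Q) (hch : List.IsChain G.Adj (x :: (R ++ [y]))) :
    IsSubdivOn H G (P ∪ Q ∪ R.toFinset) := by
  classical
  have hdis : ∀ v, v ∈ P → v ∈ Q → False := fun v h1 h2 =>
    Finset.disjoint_left.mp hC.disjoint h1 h2
  -- slots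
  let E : Finset (Fin h) → Finset (Fin h × Fin h) := fun Y =>
    (Finset.univ : Finset (Fin h × Fin h)).filter
      (fun p => p.1 < p.2 ∧ p.1 ∈ Y ∧ p.2 ∈ Y ∧ H.Adj p.1 p.2)
  let SP : Finset (Fin h ⊕ (Fin h × Fin h)) := (Xᶜ).disjSum (E X)
  let SQ : Finset (Fin h ⊕ (Fin h × Fin h)) := X.disjSum (E Xᶜ)
  have cP : SP.card = P.card := by
    rw [hP, Finset.card_disjSum]
    unfold aN eIn
    congr 2
  have cQ : SQ.card = Q.card := by
    rw [hQ, Finset.card_disjSum]
    unfold bN eIn
    congr 2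
  have mPl : ∀ w, Sum.inl w ∈ SP ↔ w ∉ X := fun w => by
    rw [Finset.inl_mem_disjSum, Finset.mem_compl]
  have mQl : ∀ w, Sum.inl w ∈ SQ ↔ w ∈ X := fun w => by
    rw [Finset.inl_mem_disjSum]
  have mPr : ∀ u v, Sum.inr (u, v) ∈ SP ↔ u < v ∧ u ∈ X ∧ v ∈ X ∧ H.Adj u v := fun u v => by
    rw [Finset.inr_mem_disjSum, Finset.mem_filter]
    simp
  have mQr : ∀ u v, Sum.inr (u, v) ∈ SQ ↔ u < v ∧ u ∉ X ∧ v ∉ X ∧ H.Adj u v := fun u v => by
    rw [Finset.inr_mem_disjSum, Finset.mem_filter]
    simp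
  -- the two special slots
  let s2 : Fin h ⊕ (Fin h × Fin h) := if v0 ∈ X then Sum.inl v0 else Sum.inr (u0, v0)
  have hs1 : Sum.inl u0 ∈ SP := (mPl u0).mpr hu0
  have hs2 : s2 ∈ SQ := by
    by_cases hv : v0 ∈ X
    · simp only [s2, if_pos hv]
      exact (mQl v0).mpr hv
    · simp only [s2, if_neg hv]
      exact (mQr u0 v0).mpr ⟨huv, hu0, hv, hadj⟩
  obtain ⟨f1, a1, a2, a3, a4⟩ := tile_exists_fun SP P cP _ x hs1 hx
  obtain ⟨f2, b1, b2, b3, b4⟩ := tile_exists_fun SQ Q cQ _ y hs2 hy
  have hSd : ∀ s, s ∈ SQ → s ∉ SP := by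
    rintro (w | ⟨u, v⟩) h1 h2
    · exact (mPl w).mp h2 ((mQl w).mp h1)
    · exact ((mQr u v).mp h1).2.1 ((mPr u v).mp h2).2.1
  let f : Fin h ⊕ (Fin h × Fin h) → V := fun s => if s ∈ SP then f1 s else f2 s
  have fP : ∀ s ∈ SP, f s ∈ P := fun s hs => by
    simp only [f, if_pos hs]; exact a1 s hs
  have fQ : ∀ s ∈ SQ, f s ∈ Q := fun s hs => by
    simp only [f, if_neg (hSd s hs)]; exact b1 s hs
  have finj : ∀ s t, (s ∈ SP ∨ s ∈ SQ) → (t ∈ SP ∨ t ∈ SQ) → f s = f t → s = t := by
    intro s t hs ht hst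
    rcases hs with hs | hs <;> rcases ht with ht | ht
    · simp only [f, if_pos hs, if_pos ht] at hst
      exact a2 s hs t ht hst
    · exact (hdis _ (fP s hs) (hst ▸ fQ t ht)).elim
    · exact (hdis _ (fP t ht) (hst ▸ fQ s hs)).elim
    · simp only [f, if_neg (hSd s hs), if_neg (hSd t ht)] at hst
      exact b2 s hs t ht hst
  have fx : f (Sum.inl u0) = x := by
    simp only [f, if_pos hs1]; exact a4
  have fy : f s2 = y := by
    simp only [f, if_neg (hSd s2 hs2)]; exact b4
  have sl : ∀ w, Sum.inl w ∈ SP ∨ Sum.inl w ∈ SQ := fun w => by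
    by_cases hw : w ∈ X
    · exact Or.inr ((mQl w).mpr hw)
    · exact Or.inl ((mPl w).mpr hw)
  have sr : ∀ u v, u < v → H.Adj u v → (u ∈ X ↔ v ∈ X) → Sum.inr (u, v) ∈ SP ∨
      Sum.inr (u, v) ∈ SQ := fun u v h1 h2 h3 => by
    by_cases hw : u ∈ X
    · exact Or.inl ((mPr u v).mpr ⟨h1, hw, h3.mp hw, h2⟩)
    · exact Or.inr ((mQr u v).mpr ⟨h1, hw, fun h => hw (h3.mpr h), h2⟩)
  have fPQ : ∀ s, (s ∈ SP ∨ s ∈ SQ) → f s ∈ P ∨ f s ∈ Q := fun s hs =>
    hs.imp (fP s) (fQ s)
  have hRf : ∀ s, (s ∈ SP ∨ s ∈ SQ) → f s ∉ R := fun s hs hr => by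
    rcases fPQ s hs with h1 | h1
    · exact (hRo _ hr).1 h1
    · exact (hRo _ hr).2 h1
  -- the inner lists
  let L0 : Fin h → Fin h → List V := fun u v =>
    if (u ∈ X ↔ v ∈ X) then [f (Sum.inr (u, v))] else []
  let N : Fin h → Fin h → List V := fun u v => if (u, v) = (u0, v0) then R else []
  have mL0 : ∀ u v z, z ∈ L0 u v ↔ (u ∈ X ↔ v ∈ X) ∧ z = f (Sum.inr (u, v)) := by
    intro u v z
    by_cases hc : (u ∈ X ↔ v ∈ X)
    · simp only [L0, if_pos hc, List.mem_singleton]
      exact ⟨fun h => ⟨hc, h⟩, fun h => h.2⟩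
    · simp only [L0, if_neg hc]
      constructor
      · intro h; exact absurd h List.not_mem_nil
      · intro h; exact absurd h.1 hc
  have mN : ∀ u v z, z ∈ N u v ↔ (u, v) = (u0, v0) ∧ z ∈ R := by
    intro u v z
    by_cases hc : (u, v) = (u0, v0)
    · simp only [N, if_pos hc]
      exact ⟨fun h => ⟨hc, h⟩, fun h => h.2⟩
    · simp only [N, if_neg hc]
      constructor
      · intro h; exact absurd h List.not_mem_nil
      · intro h; exact absurd h.1 hc
  have nL0 : ∀ u v, (L0 u v).Nodup := by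
    intro u v
    by_cases hc : (u ∈ X ↔ v ∈ X)
    · simp only [L0, if_pos hc]
      exact List.nodup_singleton _
    · simp only [L0, if_neg hc]
      exact List.nodup_nil
  have nN : ∀ u v, (N u v).Nodup := by
    intro u v
    by_cases hc : (u, v) = (u0, v0)
    · simp only [N, if_pos hc]
      exact hR
    · simp only [N, if_neg hc]
      exact List.nodup_nil
  have chain0 : ∀ u v, u < v → H.Adj u v →
      List.IsChain G.Adj (f (Sum.inl u) :: (L0 u v ++ [f (Sum.inl v)])) := by
    intro u v h1 h2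
    by_cases hu : u ∈ X <;> by_cases hv : v ∈ X
    · have hc : (u ∈ X ↔ v ∈ X) := by simp [hu, hv]
      have k1 := fQ _ ((mQl u).mpr hu)
      have k2 := fQ _ ((mQl v).mpr hv)
      have k3 := fP _ ((mPr u v).mpr ⟨h1, hu, hv, h2⟩)
      simp only [L0, if_pos hc, List.singleton_append]
      exact List.IsChain.cons_cons (hC _ k3 _ k1).symm
        (List.IsChain.cons_cons (hC _ k3 _ k2) (List.IsChain.singleton _))
    · have hc : ¬ (u ∈ X ↔ v ∈ X) := by simp [hu, hv]
      have k1 := fQ _ ((mQl u).mpr hu)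
      have k2 := fP _ ((mPl v).mpr hv)
      simp only [L0, if_neg hc, List.nil_append]
      exact List.IsChain.cons_cons (hC _ k2 _ k1).symm (List.IsChain.singleton _)
    · have hc : ¬ (u ∈ X ↔ v ∈ X) := by simp [hu, hv]
      have k1 := fP _ ((mPl u).mpr hu)
      have k2 := fQ _ ((mQl v).mpr hv)
      simp only [L0, if_neg hc, List.nil_append]
      exact List.IsChain.cons_cons (hC _ k1 _ k2) (List.IsChain.singleton _)
    · have hc : (u ∈ X ↔ v ∈ X) := by simp [hu, hv]
      have k1 := fP _ ((mPl u).mpr hu)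
      have k2 := fP _ ((mPl v).mpr hv)
      have k3 := fQ _ ((mQr u v).mpr ⟨h1, hu, hv, h2⟩)
      simp only [L0, if_pos hc, List.singleton_append]
      exact List.IsChain.cons_cons (hC _ k1 _ k3)
        (List.IsChain.cons_cons (hC _ k2 _ k3).symm (List.IsChain.singleton _))
  have chain1 : List.IsChain G.Adj (x :: ((R ++ L0 u0 v0) ++ [f (Sum.inl v0)])) := by
    by_cases hv : v0 ∈ X
    · have hc : ¬ (u0 ∈ X ↔ v0 ∈ X) := by simp [hu0, hv]
      have e : f (Sum.inl v0) = y := by
        rw [← fy]; simp only [s2, if_pos hv]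
      simp only [L0, if_neg hc, List.append_nil, e]
      exact hch
    · have hc : (u0 ∈ X ↔ v0 ∈ X) := by simp [hu0, hv]
      have e : f (Sum.inr (u0, v0)) = y := by
        rw [← fy]; simp only [s2, if_neg hv]
      simp only [L0, if_pos hc, e]
      have k2 := fP _ ((mPl v0).mpr hv)
      rw [← List.cons_append]
      rw [List.isChain_append]
      refine ⟨hch, List.IsChain.singleton _, ?_⟩
      intro a ha b hb
      rw [← List.cons_append, List.getLast?_append] at ha
      simp only [List.getLast?_singleton, Option.some_or, Option.mem_def, Option.some.injEq] at ha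
      simp only [List.head?_cons, Option.mem_def, Option.some.injEq] at hb
      rw [← ha, ← hb]
      exact (hC _ k2 _ hy).symm
  refine ⟨fun w => f (Sum.inl w), fun u v => N u v ++ L0 u v, ?_, ?_, ?_, ?_⟩
  · intro w w' hw
    exact Sum.inl_injective (finj _ _ (sl w) (sl w') hw)
  · intro u v h1 h2
    refine ⟨?_, ?_, ?_⟩
    · by_cases hc : (u, v) = (u0, v0)
      · obtain ⟨rfl, rfl⟩ := Prod.mk.injEq .. ▸ hc
        have e : N u v = R := by simp only [N, if_true]
        simp only [e, fx]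
        exact chain1
      · have e : N u v = [] := by simp only [N, if_neg hc]
        simp only [e, List.nil_append]
        exact chain0 u v h1 h2
    · rw [List.nodup_append]
      refine ⟨nN u v, nL0 u v, ?_⟩
      intro a ha b hb hab
      rw [mN] at ha
      rw [mL0] at hb
      subst hab
      rw [hb.2] at ha
      exact hRf _ (sr u v h1 h2 hb.1) ha.2
    · intro w hw
      rw [List.mem_append, mN, mL0] at hw
      rcases hw with hw | hw
      · exact hRf _ (sl w) hw.2
      · have := finj _ _ (sl w) (sr u v h1 h2 hw.1) hw.2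
        cases this
  · intro u v u' v' h1 h2 h1' h2' hne z hz hz'
    rw [List.mem_append, mN, mL0] at hz hz'
    rcases hz with hz | hz <;> rcases hz' with hz' | hz'
    · exact hne (hz.1.trans hz'.1.symm)
    · rw [hz'.2] at hz
      exact hRf _ (sr u' v' h1' h2' hz'.1) hz.2
    · rw [hz.2] at hz'
      exact hRf _ (sr u v h1 h2 hz.1) hz'.2
    · have := finj _ _ (sr u v h1 h2 hz.1) (sr u' v' h1' h2' hz'.1) (hz.2.symm.trans hz'.2)
      exact hne (Sum.inr_injective this)
  · intro z
    rw [Finset.mem_union, Finset.mem_union, List.mem_toFinset]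
    constructor
    · rintro ((hz | hz) | hz)
      · obtain ⟨s, hs, rfl⟩ := a3 z hz
        have e : f1 s = f s := by simp only [f, if_pos hs]
        rcases s with w | ⟨u, v⟩
        · exact Or.inl ⟨w, e⟩
        · obtain ⟨k1, k2, k3, k4⟩ := (mPr u v).mp hs
          refine Or.inr ⟨u, v, k1, k4, ?_⟩
          rw [List.mem_append, mL0]
          exact Or.inr ⟨by simp [k2, k3], e⟩
      · obtain ⟨s, hs, rfl⟩ := b3 z hz
        have e : f2 s = f s := by simp only [f, if_neg (hSd s hs)]
        rcases s with w | ⟨u, v⟩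
        · exact Or.inl ⟨w, e⟩
        · obtain ⟨k1, k2, k3, k4⟩ := (mQr u v).mp hs
          refine Or.inr ⟨u, v, k1, k4, ?_⟩
          rw [List.mem_append, mL0]
          exact Or.inr ⟨by simp [k2, k3], e⟩
      · refine Or.inr ⟨u0, v0, huv, hadj, ?_⟩
        rw [List.mem_append, mN]
        exact Or.inl ⟨rfl, hz⟩
    · rintro (⟨w, rfl⟩ | ⟨u, v, k1, k2, k3⟩)
      · exact Or.inl (fPQ _ (sl w))
      · rw [List.mem_append, mN, mL0] at k3
        rcases k3 with k3 | k3
        · exact Or.inr k3.2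
        · rw [k3.2]
          exact Or.inl (fPQ _ (sr u v k1 k2 k3.1))

lemma aN_compl {h : ℕ} (H : SimpleGraph (Fin h)) (X : Finset (Fin h)) :
    aN H Xᶜ = bN H X := by
  unfold aN bN
  rw [compl_compl]

lemma bN_compl {h : ℕ} (H : SimpleGraph (Fin h)) (X : Finset (Fin h)) :
    bN H Xᶜ = aN H X := by
  unfold aN bN
  rw [compl_compl]

lemma isChain_path_reverse {V : Type} {G : SimpleGraph V} {x y : V} {R : List V}
    (hch : List.IsChain G.Adj (x :: (R ++ [y]))) :
    List.IsChain G.Adj (y :: (R.reverse ++ [x])) := by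
  have e : y :: (R.reverse ++ [x]) = (x :: (R ++ [y])).reverse := by simp
  rw [e, List.isChain_reverse]
  refine hch.imp ?_
  intro a b hab
  exact hab.symm

lemma aN_pos {h : ℕ} {H : SimpleGraph (Fin h)} (hH : ∃ u v, H.Adj u v) (X : Finset (Fin h)) :
    1 ≤ aN H X := by
  classical
  obtain ⟨u, v, huv⟩ := hH
  by_contra hcon
  have h0 : aN H X = 0 := by omega
  unfold aN at h0
  have h1 : Xᶜ.card = 0 := by omega
  have h2 : eIn H X = 0 := by omega
  rw [Finset.card_eq_zero] at h1
  have h3 : ∀ w, w ∈ X := by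
    intro w
    by_contra hw
    have : w ∈ Xᶜ := Finset.mem_compl.mpr hw
    rw [h1] at this
    exact absurd this (Finset.notMem_empty _)
  unfold eIn at h2
  rw [Finset.card_eq_zero] at h2
  rcases lt_trichotomy u v with h4 | h4 | h4
  · have : (u, v) ∈ ((Finset.univ : Finset (Fin h × Fin h)).filter
      (fun p => p.1 < p.2 ∧ p.1 ∈ X ∧ p.2 ∈ X ∧ H.Adj p.1 p.2)) := by
      rw [Finset.mem_filter]
      exact ⟨Finset.mem_univ _, h4, h3 u, h3 v, huv⟩
    rw [h2] at this
    exact absurd this (Finset.notMem_empty _)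
  · subst h4; exact H.loopless.irrefl _ huv
  · have : (v, u) ∈ ((Finset.univ : Finset (Fin h × Fin h)).filter
      (fun p => p.1 < p.2 ∧ p.1 ∈ X ∧ p.2 ∈ X ∧ H.Adj p.1 p.2)) := by
      rw [Finset.mem_filter]
      exact ⟨Finset.mem_univ _, h4, h3 v, h3 u, huv.symm⟩
    rw [h2] at this
    exact absurd this (Finset.notMem_empty _)

lemma bN_pos {h : ℕ} {H : SimpleGraph (Fin h)} (hH : ∃ u v, H.Adj u v) (X : Finset (Fin h)) :
    1 ≤ bN H X := by
  rw [← aN_compl]
  exact aN_pos hH _

/-- **Item 1.** -/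
theorem tile : TileStmt := by
  intro h H V _ G X j
  induction j with
  | zero =>
    intro P Q x y R hH hC hP hQ hx hy hR hRo hch
    obtain ⟨u, v, huv⟩ := hH
    have hlt : ∃ u v, u < v ∧ H.Adj u v := by
      rcases lt_trichotomy u v with h4 | h4 | h4
      · exact ⟨u, v, h4, huv⟩
      · subst h4; exact (H.loopless.irrefl _ huv).elim
      · exact ⟨v, u, h4, huv.symm⟩
    obtain ⟨u0, v0, h1, h2⟩ := hlt
    by_cases hu : u0 ∈ X
    · have hu' : u0 ∉ Xᶜ := by rw [Finset.mem_compl]; exact fun h => h hu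
      have := tile_base H G Xᶜ Q P y x R.reverse u0 v0 h1 h2 hu' hC.symm
        (by rw [aN_compl]; exact hQ) (by rw [bN_compl]; exact hP) hy hx
        (List.nodup_reverse.mpr hR) (fun r hr => by
          rw [List.mem_reverse] at hr
          exact ⟨(hRo r hr).2, (hRo r hr).1⟩) (isChain_path_reverse hch)
      rw [List.toFinset_reverse, Finset.union_comm Q P] at this
      exact this
    · exact tile_base H G X P Q x y R u0 v0 h1 h2 hu hC hP hQ hx hy hR hRo hch
  | succ j ih =>
    intro P Q x y R hH hC hP hQ hx hy hR hRo hch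
    have hdis : ∀ v, v ∈ P → v ∈ Q → False := fun v h1 h2 =>
      Finset.disjoint_left.mp hC.disjoint h1 h2
    have hP1 := aN_pos hH X
    have hQ1 := bN_pos hH X
    obtain ⟨p, hp⟩ : (P.erase x).Nonempty := by
      rw [← Finset.card_pos, Finset.card_erase_of_mem hx]; omega
    obtain ⟨q, hq⟩ : (Q.erase y).Nonempty := by
      rw [← Finset.card_pos, Finset.card_erase_of_mem hy]; omega
    have hp1 := Finset.mem_of_mem_erase hp
    have hp2 : p ≠ x := Finset.ne_of_mem_erase hp
    have hq1 := Finset.mem_of_mem_erase hq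
    have hpy : p ≠ y := fun h => hdis p hp1 (h ▸ hy)
    have := ih (P.erase p) (Q.erase y) x q (R ++ [y, p]) hH
      (hC.mono (Finset.erase_subset _ _) (Finset.erase_subset _ _))
      (by rw [Finset.card_erase_of_mem hp1]; omega)
      (by rw [Finset.card_erase_of_mem hy]; omega)
      (Finset.mem_erase.mpr ⟨hp2.symm, hx⟩) hq
      (by
        rw [List.nodup_append]
        refine ⟨hR, ?_, ?_⟩
        · simp [Ne.symm hpy]
        · intro a ha b hb hab
          subst hab
          simp only [List.mem_cons, List.not_mem_nil, or_false] at hb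
          rcases hb with hb | hb
          · exact (hRo _ ha).2 (hb ▸ hy)
          · exact (hRo _ ha).1 (hb ▸ hp1))
      (by
        intro r hr
        rw [List.mem_append] at hr
        rcases hr with hr | hr
        · exact ⟨fun h => (hRo _ hr).1 (Finset.mem_of_mem_erase h),
            fun h => (hRo _ hr).2 (Finset.mem_of_mem_erase h)⟩
        · simp only [List.mem_cons, List.not_mem_nil, or_false] at hr
          rcases hr with rfl | rfl
          · exact ⟨fun h => hdis _ (Finset.mem_of_mem_erase h) hy, Finset.notMem_erase _ _⟩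
          · exact ⟨Finset.notMem_erase _ _, fun h => hdis _ hp1 (Finset.mem_of_mem_erase h)⟩)
      (by
        have e : x :: (R ++ [y, p] ++ [q]) = (x :: (R ++ [y])) ++ [p, q] := by simp
        rw [e, List.isChain_append]
        refine ⟨hch, List.IsChain.cons_cons (hC _ hp1 _ hq1) (List.IsChain.singleton _), ?_⟩
        intro a ha b hb
        rw [← List.cons_append, List.getLast?_append] at ha
        simp only [List.getLast?_singleton, Option.some_or, Option.mem_def,
          Option.some.injEq] at ha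
        simp only [List.head?_cons, Option.mem_def, Option.some.injEq] at hb
        rw [← ha, ← hb]
        exact (hC _ hp1 _ hy).symm)
    have e : P.erase p ∪ Q.erase y ∪ (R ++ [y, p]).toFinset = P ∪ Q ∪ R.toFinset := by
      ext z
      simp only [Finset.mem_union, Finset.mem_erase, List.mem_toFinset, List.mem_append,
        List.mem_cons, List.not_mem_nil, or_false]
      constructor
      · rintro ((⟨_, h1⟩ | ⟨_, h1⟩) | (h1 | (rfl | rfl)))
        · exact Or.inl (Or.inl h1)
        · exact Or.inl (Or.inr h1)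
        · exact Or.inr h1
        · exact Or.inl (Or.inr hy)
        · exact Or.inl (Or.inl hp1)
      · rintro ((h1 | h1) | h1)
        · by_cases hz : z = p
          · exact Or.inr (Or.inr (Or.inr hz))
          · exact Or.inl (Or.inl ⟨hz, h1⟩)
        · by_cases hz : z = y
          · exact Or.inr (Or.inr (Or.inl hz))
          · exact Or.inl (Or.inr ⟨hz, h1⟩)
        · exact Or.inr (Or.inl h1)
    rw [e] at this
    exact this

end Pool.Agent.MP_d32e04
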